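import Pool.Agent.Ell.Defs

set_option autoImplicit false

/-! Asymptotic Elliott conjecture (MP_f3f922_nt): exact targets, proofs in Blueprint.lean.txt. -/

namespace Pool.Agent.Ell

open Finset
open scoped BigOperators ComplexConjugate

/-- E1 Mertens-type upper bound -/
def T_MERT : Prop := ∃ C : ℝ, 0 < C ∧ ∀ y : ℝ, 1 ≤ y →
  ∑ p ∈ (Finset.Iic ⌊y ^ 2⌋₊).filter (fun p : ℕ => p.Prime ∧ y < p), 1 / (p : ℝ) ≤ C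

/-- E2 the fundamental lemma (complex valued, block truncation) -/
def T_FL : Prop := ∀ (r : ℕ) (c δ : ℝ), 1 ≤ r → 0 < c → c ≤ 1 / 4 → 0 < δ →
  ∃ (s : ℝ) (N0 : ℕ), 1 ≤ s ∧ ∀ N z w : ℕ, N0 ≤ N → 2 * r ≤ z → (w : ℝ) ^ s ≤ N →
  ∃ F : Finset (Finset ℕ),
    (∀ S ∈ F, S ⊆ prs z w ∧ ((∏ ℓ ∈ S, ℓ : ℕ) : ℝ) ≤ (N : ℝ) ^ c) ∧
    (∀ e : ℕ → ℂ, (∀ ℓ ∈ prs z w, ‖1 + e ℓ‖ ≤ 1 ∧ ‖e ℓ‖ ≤ 2 * r / ℓ) →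
      ‖∏ ℓ ∈ prs z w, (1 + e ℓ) - ∑ S ∈ F, ∏ ℓ ∈ S, e ℓ‖ ≤ δ) ∧
    (∀ (u : ℕ → ℕ → ℂ) (R : ℕ → Finset ℕ),
      (∀ ℓ ∈ prs z w, (R ℓ).card ≤ r ∧ ∀ m, ‖1 + u ℓ m‖ ≤ 1 ∧ (u ℓ m ≠ 0 → m % ℓ ∈ R ℓ)) →
      ∀ a : ℕ, ∑ m ∈ Finset.Ioc a (a + N),
        ‖∏ ℓ ∈ prs z w, (1 + u ℓ m) - ∑ S ∈ F, ∏ ℓ ∈ S, u ℓ m‖ ≤ δ * N)

/-- E3 means of products of periodic functions -/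
def T_CRT : Prop := ∀ (q0 : ℕ) (ξ : ℕ → ℂ) (S : Finset ℕ) (u : ℕ → ℕ → ℂ), 1 ≤ q0 → Per q0 ξ →
  (∀ ℓ ∈ S, ℓ.Prime ∧ ¬ ℓ ∣ q0 ∧ Per ℓ (u ℓ)) →
  mean (q0 * ∏ ℓ ∈ S, ℓ) (fun m => ξ m * ∏ ℓ ∈ S, u ℓ m) = mean q0 ξ * ∏ ℓ ∈ S, mean ℓ (u ℓ)

/-- E4 correlation of a phase with a product of local functions (from `T_FL`, `T_CRT`) -/
def T_MS : Prop := ∀ (r : ℕ) (c δ : ℝ), 1 ≤ r → 0 < c → c ≤ 1 / 4 → 0 < δ → ∃ s : ℝ, 1 ≤ s ∧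
  ∀ q0 : ℕ, 1 ≤ q0 → ∃ N0 : ℕ, ∀ N z w : ℕ, N0 ≤ N → 2 * r ≤ z → (w : ℝ) ^ s ≤ N →
  (∀ p : ℕ, p.Prime → p ∣ q0 → p ≤ z) →
  ∀ (E : ℕ → ℂ) (x y : ℕ), (∀ m, ‖E m‖ ≤ 1) → x ≤ y → y ≤ x + N →
  (∀ (q : ℕ) (ξ : ℕ → ℂ), 1 ≤ q → (q : ℝ) ≤ (N : ℝ) ^ c → Per q ξ → (∀ m, ‖ξ m‖ ≤ 1) →
    ‖∑ m ∈ Finset.Ioc x y, E m * ξ m - mean q ξ * ∑ m ∈ Finset.Ioc x y, E m‖ ≤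
      (N : ℝ) ^ (1 - c)) →
  ∀ (ξ : ℕ → ℂ) (u : ℕ → ℕ → ℂ) (R : ℕ → Finset ℕ), Per q0 ξ → (∀ m, ‖ξ m‖ ≤ 1) →
  (∀ ℓ ∈ prs z w, Per ℓ (u ℓ) ∧ (R ℓ).card ≤ r ∧
    ∀ m, ‖1 + u ℓ m‖ ≤ 1 ∧ (u ℓ m ≠ 0 → m % ℓ ∈ R ℓ)) →
  ‖∑ m ∈ Finset.Ioc x y, E m * (ξ m * ∏ ℓ ∈ prs z w, (1 + u ℓ m)) -
    mean q0 ξ * (∏ ℓ ∈ prs z w, (1 + mean ℓ (u ℓ))) * ∑ m ∈ Finset.Ioc x y, E m‖ ≤ δ * N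

/-- E5 exponential sums (van der Corput differencing) -/
def T_CORE : Prop := ∀ (k r : ℕ) (c C : ℝ), 1 ≤ k → 1 ≤ r → 0 < c → 0 < C →
  ∃ κ K : ℝ, 0 < κ ∧ κ ≤ 1 ∧ 0 < K ∧ ∀ (N Λ η0 : ℝ) (ψ : ℕ → ℝ → ℝ), 1 ≤ N → 1 ≤ Λ →
  Λ ≤ N ^ ((r : ℝ) / 2) → 0 < η0 → η0 ≤ 1 → OF k (r + 2) c C η0 N Λ ψ →
  ∀ x y : ℕ, N / 2 ≤ x → x ≤ y → (y : ℝ) ≤ 4 * N →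
  ‖∑ m ∈ Finset.Ioc x y, ei (ψ 0 m)‖ ≤ K * N * (Λ ^ (-κ) + N ^ (-κ) + η0 ^ κ)

/-- E6 the phases `Φ(b + Q v)` satisfy `OF` -/
def T_PHI : Prop := ∀ (k : ℕ) (a : Fin k → ℤ) (p q R : ℕ), 1 ≤ k → Function.Injective a →
  (∀ j, a j ≠ 0) → 1 ≤ p → 1 ≤ q → p ≠ q →
  ∃ (c C : ℝ) (N0 : ℝ), 0 < c ∧ 0 < C ∧ 1 ≤ N0 ∧ ∀ (t : Fin k → ℝ) (N : ℝ) (Q b : ℕ), N0 ≤ N →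
  1 ≤ Q → (Q : ℝ) ≤ N → b ≤ Q →
  OF k R c C ((N / Q) ^ (-(1 / (2 * (k : ℝ) ^ 2)))) (N / Q) (Lam a t N) (SC Q b (PF a t p q))

/-- E6b (Vandermonde) the size of the phase controls the parameters -/
def T_VDM : Prop := ∀ (k : ℕ) (a : Fin k → ℤ), Function.Injective a → (∀ j, a j ≠ 0) →
  ∃ C : ℝ, 0 < C ∧ ∀ (t : Fin k → ℝ) (j : Fin k) (N : ℝ), 1 ≤ N → |t j| ≤ C * Lam a t N * N ^ k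

/-- E7 equidistribution in residue classes (from `T_CORE`, `T_PHI`) -/
def T_EQ : Prop := ∀ (k : ℕ) (a : Fin k → ℤ) (p q : ℕ) (C : ℝ), 1 ≤ k → Function.Injective a →
  (∀ j, a j ≠ 0) → 1 ≤ p → 1 ≤ q → p ≠ q → 0 < C →
  ∃ (c : ℝ) (N0 : ℕ), 0 < c ∧ c ≤ 1 / 4 ∧ ∀ (N : ℕ) (t : Fin k → ℝ), N0 ≤ N →
  (∀ j, |t j| ≤ (N : ℝ) ^ C) → ∀ (Q : ℕ) (ξ : ℕ → ℂ), 1 ≤ Q → (Q : ℝ) ≤ (N : ℝ) ^ c → Per Q ξ →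
  (∀ m, ‖ξ m‖ ≤ 1) → ∀ x y : ℕ, N ≤ x → x ≤ y → y ≤ 2 * N →
  ‖∑ m ∈ Finset.Ioc x y, ei (PF a t p q 0 m) * ξ m -
    mean Q ξ * ∑ m ∈ Finset.Ioc x y, ei (PF a t p q 0 m)‖ ≤ (N : ℝ) ^ (1 - c)

/-- E7 large phases cancel (from `T_CORE`, `T_PHI`) -/
def T_OSC : Prop := ∀ (k : ℕ) (a : Fin k → ℤ) (p q : ℕ) (C δ : ℝ), 1 ≤ k → Function.Injective a →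
  (∀ j, a j ≠ 0) → 1 ≤ p → 1 ≤ q → p ≠ q → 0 < C → 0 < δ →
  ∃ (B : ℝ) (N0 : ℕ), 0 < B ∧ ∀ (N : ℕ) (t : Fin k → ℝ), N0 ≤ N → (∀ j, |t j| ≤ (N : ℝ) ^ C) →
  B ≤ Lam a t N → ∀ x y : ℕ, N ≤ x → x ≤ y → y ≤ 2 * N →
  ‖∑ m ∈ Finset.Ioc x y, ei (PF a t p q 0 m)‖ ≤ δ * N

/-- E8 Katai's criterion with a fixed finite set of primes -/
def T_KAT : Prop := ∀ (ε : ℝ) (N0 : ℕ), 0 < ε → ∃ (P : Finset ℕ) (δ : ℝ) (X : ℕ),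
  (∀ p ∈ P, p.Prime ∧ N0 < p) ∧ 0 < δ ∧ ∀ x : ℕ, X ≤ x → ∀ f H : ℕ → ℂ, MB f →
  (∀ n, ‖H n‖ ≤ 1) →
  (∀ p ∈ P, ∀ q ∈ P, p ≠ q →
    ‖∑ m ∈ Finset.Icc 1 (x / max p q), H (p * m) * conj (H (q * m))‖ ≤ δ * x) →
  ‖∑ n ∈ Finset.Icc 1 x, f n * H n‖ ≤ ε * x

/-- E9 structured functions (from `T_MERT`) -/
def T_REP : Prop := ∀ (ε : ℝ) (C z1 : ℕ), 0 < ε → ∃ z q0 : ℕ, z1 ≤ z ∧ 1 ≤ q0 ∧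
  (∀ p : ℕ, p.Prime → p ∣ q0 → p ≤ z) ∧ ∃ A0 : ℝ, 1 ≤ A0 ∧ ∀ A : ℝ, A0 ≤ A → ∃ X0 : ℕ,
  ∀ (x : ℕ) (f : ℕ → ℂ) (r : ℕ) (χ : DirichletCharacter ℂ r) (t : ℝ), X0 ≤ x → MB f → 1 ≤ r →
  r ≤ C → dist2 f χ t ((x : ℝ) ^ (1 / A)) x ≤ 1 / A →
  ∃ ξ : ℕ → ℂ, Per q0 ξ ∧ (∀ n, ‖ξ n‖ ≤ 1) ∧
    ∑ n ∈ Finset.Icc 1 x, ‖f n - nit t n * (ξ n * ∏ ℓ ∈ (prs z ⌊(x : ℝ) ^ (1 / A)⌋₊).filter (· ∣ n),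
      (f ℓ * conj (χ (ℓ : ZMod r) * nit t ℓ)))‖ ≤ ε * x

/-- E10 Halász's theorem (range `|t| ≤ x`) -/
def T_HAL : Prop := ∀ ε : ℝ, 0 < ε → ∃ (A : ℝ) (X : ℕ), ∀ (x : ℕ) (f : ℕ → ℂ), X ≤ x → MB f →
  (∀ t : ℝ, |t| ≤ x → A ≤ dist2 f (1 : DirichletCharacter ℂ 1) t 1 x) →
  ‖∑ n ∈ Finset.Icc 1 x, f n‖ ≤ ε * x

/-- E11 the same with a periodic weight and a twist (from `T_HAL`, `T_MERT`) -/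
def T_HALP : Prop := ∀ (ε : ℝ) (q0 : ℕ), 0 < ε → 1 ≤ q0 → ∃ (A : ℝ) (X : ℕ),
  ∀ (x : ℕ) (f : ℕ → ℂ) (T : ℝ), X ≤ x → MB f →
  (∀ (χ : DirichletCharacter ℂ q0) (t : ℝ), |t| ≤ |T| + x → A ≤ dist2 f χ t 1 x) →
  ∀ ξ : ℕ → ℂ, Per q0 ξ → (∀ n, ‖ξ n‖ ≤ 1) → ∀ y : ℕ, y ≤ x →
  ‖∑ n ∈ Finset.Icc 1 y, f n * nit T n * ξ n‖ ≤ ε * x

end Pool.Agent.Ell
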