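import Pool.Agent.Ell.Targets

set_option autoImplicit false

/-! Asymptotic Elliott conjecture (MP_f3f922_nt), job E3: mean value of a product of periodic
functions with coprime periods. -/

namespace Pool.Agent.Ell.CRTJob

open Finset
open scoped BigOperators ComplexConjugate

lemma per_mul {q : ℕ} {f : ℕ → ℂ} (h : Per q f) (m k : ℕ) : f (m + q * k) = f m := by
  induction k with
  | zero => simp
  | succ k ih =>
    have : m + q * (k + 1) = m + q * k + q := by ring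
    rw [this, h, ih]

lemma per_mod {q : ℕ} {f : ℕ → ℂ} (h : Per q f) (m : ℕ) : f (m % q) = f m := by
  conv_rhs => rw [← Nat.mod_add_div m q]
  rw [per_mul h]

lemma sum_prod {a b : ℕ} (ha : 1 ≤ a) (hb : 1 ≤ b) (hab : Nat.Coprime a b) {f g : ℕ → ℂ}
    (hf : Per a f) (hg : Per b g) :
    ∑ n ∈ range (a * b), f n * g n = (∑ n ∈ range a, f n) * ∑ n ∈ range b, g n := by
  rw [Finset.sum_mul_sum, ← Finset.sum_product']
  refine Finset.sum_nbij' (fun n => (n % a, n % b))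
    (fun ij => (Nat.chineseRemainder hab ij.1 ij.2 : ℕ)) ?_ ?_ ?_ ?_ ?_
  · intro n _
    simp only [mem_product, mem_range]
    exact ⟨Nat.mod_lt _ ha, Nat.mod_lt _ hb⟩
  · intro ij _
    simp only [mem_range]
    exact Nat.chineseRemainder_lt_mul hab _ _ (by omega) (by omega)
  · intro n hn
    have hn' : n < a * b := by simpa using hn
    have h1 : n ≡ (Nat.chineseRemainder hab (n % a) (n % b) : ℕ) [MOD a * b] :=
      Nat.chineseRemainder_modEq_unique hab (Nat.mod_modEq n a).symm (Nat.mod_modEq n b).symm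
    have h2 := Nat.chineseRemainder_lt_mul hab (n % a) (n % b) (by omega) (by omega)
    exact (Nat.ModEq.eq_of_lt_of_lt h1 hn' h2).symm
  · intro ij hij
    simp only [mem_product, mem_range] at hij
    have h := (Nat.chineseRemainder hab ij.1 ij.2).2
    refine Prod.ext ?_ ?_
    · exact Nat.ModEq.eq_of_lt_of_lt ((Nat.mod_modEq _ _).trans h.1) (Nat.mod_lt _ ha) hij.1
    · exact Nat.ModEq.eq_of_lt_of_lt ((Nat.mod_modEq _ _).trans h.2) (Nat.mod_lt _ hb) hij.2
  · intro n _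
    simp only [per_mod hf, per_mod hg]

lemma mean_prod {a b : ℕ} (ha : 1 ≤ a) (hb : 1 ≤ b) (hab : Nat.Coprime a b) {f g : ℕ → ℂ}
    (hf : Per a f) (hg : Per b g) :
    mean (a * b) (fun n => f n * g n) = mean a f * mean b g := by
  unfold mean
  rw [sum_prod ha hb hab hf hg]
  push_cast
  ring

lemma per_dvd {a b : ℕ} {f : ℕ → ℂ} (h : Per a f) (hab : a ∣ b) : Per b f := by
  intro m
  obtain ⟨c, rfl⟩ := hab
  exact per_mul h m c

theorem p_CRT : T_CRT := by
  intro q0 ξ S u hq0 hξ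
  induction S using Finset.induction_on with
  | empty =>
    intro _
    simp
  | insert ℓ S hℓ ih =>
    intro hS
    have hS' : ∀ ℓ' ∈ S, ℓ'.Prime ∧ ¬ ℓ' ∣ q0 ∧ Per ℓ' (u ℓ') :=
      fun ℓ' h' => hS ℓ' (Finset.mem_insert_of_mem h')
    obtain ⟨hp, hd, hper⟩ := hS ℓ (Finset.mem_insert_self _ _)
    have ih' := ih hS'
    have hpos : 1 ≤ q0 * ∏ ℓ' ∈ S, ℓ' :=
      Nat.mul_pos hq0 (Finset.prod_pos fun ℓ' h' => (hS' ℓ' h').1.pos)
    have hcop : Nat.Coprime (q0 * ∏ ℓ' ∈ S, ℓ') ℓ := by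
      refine Nat.Coprime.mul_left ?_ ?_
      · exact ((Nat.Prime.coprime_iff_not_dvd hp).mpr hd).symm
      · refine Nat.Coprime.prod_left fun ℓ' h' => ?_
        refine (Nat.coprime_primes (hS' ℓ' h').1 hp).mpr ?_
        rintro rfl
        exact hℓ h'
    have hPer : Per (q0 * ∏ ℓ' ∈ S, ℓ') (fun m => ξ m * ∏ ℓ' ∈ S, u ℓ' m) := by
      intro m
      have h1 : ξ (m + q0 * ∏ ℓ' ∈ S, ℓ') = ξ m := per_dvd hξ (Dvd.intro _ rfl) m
      have h2 : ∏ ℓ' ∈ S, u ℓ' (m + q0 * ∏ ℓ' ∈ S, ℓ') = ∏ ℓ' ∈ S, u ℓ' m := by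
        refine Finset.prod_congr rfl fun ℓ' h' => ?_
        exact per_dvd (hS' ℓ' h').2.2 (Dvd.dvd.mul_left (Finset.dvd_prod_of_mem _ h') _) m
      simp only [h1, h2]
    have hmain := mean_prod hpos hp.one_lt.le hcop hPer hper
    rw [ih'] at hmain
    have e1 : q0 * ∏ ℓ' ∈ insert ℓ S, ℓ' = (q0 * ∏ ℓ' ∈ S, ℓ') * ℓ := by
      rw [Finset.prod_insert hℓ]; ring
    have e2 : (fun m => ξ m * ∏ ℓ' ∈ insert ℓ S, u ℓ' m) =
        fun m => (ξ m * ∏ ℓ' ∈ S, u ℓ' m) * u ℓ m := by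
      funext m
      rw [Finset.prod_insert hℓ]; ring
    rw [e1, e2, hmain, Finset.prod_insert hℓ]
    ring

end Pool.Agent.Ell.CRTJob

namespace Pool.Agent.Ell

theorem p_CRT : T_CRT := CRTJob.p_CRT

end Pool.Agent.Ell
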