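import Pool.Agent.Ell.Targets

set_option autoImplicit false

/-! E7: equidistribution in residue classes and cancellation of large phases. -/

namespace Pool.Agent.Ell.EQ

open Finset
open scoped BigOperators ComplexConjugate

lemma norm_ei (x : ℝ) : ‖ei x‖ = 1 := by
  unfold ei
  exact Complex.norm_exp_ofReal_mul_I x

lemma ei_sub (x y : ℝ) : ‖ei x - ei y‖ ≤ |x - y| := by
  have h : ei x - ei y = ei y * (Complex.exp (Complex.I * ((x - y : ℝ) : ℂ)) - 1) := by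
    unfold ei
    rw [mul_sub, ← Complex.exp_add, mul_one]
    congr 2
    push_cast
    ring
  rw [h, norm_mul, norm_ei, one_mul]
  exact Real.norm_exp_I_mul_ofReal_sub_one_le

/-- `N ^ κ` gets large -/
lemma big (κ M : ℝ) (hκ : 0 < κ) : ∃ N0 : ℕ, ∀ N : ℕ, N0 ≤ N → M ≤ (N : ℝ) ^ κ := by
  have h := ((tendsto_rpow_atTop hκ).comp tendsto_natCast_atTop_atTop).eventually_ge_atTop M
  obtain ⟨N0, h0⟩ := Filter.eventually_atTop.1 h
  exact ⟨N0, fun N hN => h0 N hN⟩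

lemma lam_le {k : ℕ} (a : Fin k → ℤ) : ∃ C' : ℝ, 1 ≤ C' ∧ ∀ (t : Fin k → ℝ) (N T : ℝ), 1 ≤ N →
    0 ≤ T → (∀ j, |t j| ≤ T) → Lam a t N ≤ C' * T := by
  refine ⟨∑ l ∈ Finset.Icc 1 k, ∑ j, |(a j : ℝ)| ^ l + 1, ?_, ?_⟩
  · have : 0 ≤ ∑ l ∈ Finset.Icc 1 k, ∑ j, |(a j : ℝ)| ^ l :=
      Finset.sum_nonneg fun l _ => Finset.sum_nonneg fun j _ => by positivity
    linarith
  · intro t N T hN hT ht
    have h1 : Lam a t N ≤ ∑ l ∈ Finset.Icc 1 k, (∑ j, |(a j : ℝ)| ^ l) * T := by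
      unfold Lam
      refine Finset.sum_le_sum fun l _ => ?_
      have hNl : 1 ≤ N ^ l := one_le_pow₀ hN
      have h2 : |tau a t l| ≤ (∑ j, |(a j : ℝ)| ^ l) * T := by
        unfold tau
        refine (Finset.abs_sum_le_sum_abs _ _).trans ?_
        rw [Finset.sum_mul]
        refine Finset.sum_le_sum fun j _ => ?_
        rw [abs_mul, abs_pow, mul_comm]
        exact mul_le_mul_of_nonneg_left (ht j) (by positivity)
      calc |tau a t l| / N ^ l ≤ |tau a t l| := div_le_self (abs_nonneg _) hNl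
        _ ≤ _ := h2
    rw [← Finset.sum_mul] at h1
    nlinarith

lemma lam_nonneg {k : ℕ} (a : Fin k → ℤ) (t : Fin k → ℝ) (N : ℝ) (hN : 0 ≤ N) :
    0 ≤ Lam a t N := by
  unfold Lam
  exact Finset.sum_nonneg fun l _ => by positivity

lemma SC_one {k : ℕ} (a : Fin k → ℤ) (t : Fin k → ℝ) (p q : ℕ) :
    SC 1 0 (PF a t p q) = PF a t p q := by
  funext n v
  simp [SC]

/-- periodic sums over a block -/
lemma per_block (Q : ℕ) (ξ : ℕ → ℂ) (h : Per Q ξ) (s : ℕ) :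
    ∑ i ∈ range Q, ξ (s + i) = ∑ i ∈ range Q, ξ i := by
  induction s with
  | zero => simp
  | succ s ih =>
    rw [← ih]
    have h1 : ∑ i ∈ range (Q + 1), ξ (s + i) = ∑ i ∈ range Q, ξ (s + i) + ξ (s + Q) :=
      Finset.sum_range_succ _ _
    have h2 : ∑ i ∈ range (Q + 1), ξ (s + i) = ∑ i ∈ range Q, ξ (s + (i + 1)) + ξ (s + 0) :=
      Finset.sum_range_succ' _ _
    rw [h s, h2] at h1
    simp only [add_zero] at h1
    have h3 := add_right_cancel h1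
    rw [← h3]
    refine Finset.sum_congr rfl fun i _ => ?_
    congr 1
    ring

lemma Ioc_eq_map (s Q : ℕ) (F : ℕ → ℂ) :
    ∑ m ∈ Finset.Ioc s (s + Q), F m = ∑ i ∈ range Q, F (s + 1 + i) := by
  have h : Finset.Ioc s (s + Q) = Finset.Ico (s + 1) (s + 1 + Q) := by
    ext m
    simp only [Finset.mem_Ioc, Finset.mem_Ico]
    omega
  rw [h, Finset.sum_Ico_eq_sum_range]
  simp

lemma mean_norm (Q : ℕ) (ξ : ℕ → ℂ) (hQ : 1 ≤ Q) (h : ∀ m, ‖ξ m‖ ≤ 1) : ‖mean Q ξ‖ ≤ 1 := by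
  unfold mean
  rw [norm_div, Complex.norm_natCast]
  have hQ' : (0 : ℝ) < Q := by exact_mod_cast hQ
  rw [div_le_one hQ']
  refine (norm_sum_le _ _).trans ?_
  calc ∑ i ∈ range Q, ‖ξ i‖ ≤ ∑ i ∈ range Q, (1 : ℝ) := Finset.sum_le_sum fun i _ => h i
    _ = Q := by simp

lemma block_zero (Q : ℕ) (ξ : ℕ → ℂ) (hQ : 1 ≤ Q) (h : Per Q ξ) (s : ℕ) :
    ∑ m ∈ Finset.Ioc s (s + Q), (ξ m - mean Q ξ) = 0 := by
  rw [Ioc_eq_map, Finset.sum_sub_distrib, per_block Q ξ h]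
  have hQ' : (Q : ℂ) ≠ 0 := by
    have : Q ≠ 0 := by omega
    exact_mod_cast this
  simp only [Finset.sum_const, Finset.card_range, nsmul_eq_mul, mean]
  field_simp
  simp

/-- the slow case: cutting into blocks -/
lemma slow (Q : ℕ) (ξ F : ℕ → ℂ) (hQ : 1 ≤ Q) (hp : Per Q ξ) (hξ : ∀ m, ‖ξ m‖ ≤ 1)
    (hF : ∀ m, ‖F m‖ ≤ 1) (y : ℕ) (ω : ℝ) (hω : 0 ≤ ω) (n : ℕ) : ∀ x, x + n = y →
    (∀ m m', x < m → m ≤ m' → m' ≤ y → m' ≤ m + Q → ‖F m' - F m‖ ≤ ω) →
    ‖∑ m ∈ Finset.Ioc x y, F m * (ξ m - mean Q ξ)‖ ≤ 2 * ω * n + 2 * Q := by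
  have hm := mean_norm Q ξ hQ hξ
  have hd : ∀ m, ‖ξ m - mean Q ξ‖ ≤ 2 := fun m => by
    calc ‖ξ m - mean Q ξ‖ ≤ ‖ξ m‖ + ‖mean Q ξ‖ := norm_sub_le _ _
      _ ≤ 1 + 1 := add_le_add (hξ m) hm
      _ = 2 := by norm_num
  induction n using Nat.strong_induction_on with
  | _ n ih =>
    intro x hx hosc
    by_cases hn : n < Q
    · have h1 : ‖∑ m ∈ Finset.Ioc x y, F m * (ξ m - mean Q ξ)‖ ≤ ∑ m ∈ Finset.Ioc x y, (2 : ℝ) := by
        refine (norm_sum_le _ _).trans (Finset.sum_le_sum fun m _ => ?_)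
        rw [norm_mul]
        calc ‖F m‖ * ‖ξ m - mean Q ξ‖ ≤ 1 * 2 := mul_le_mul (hF m) (hd m) (norm_nonneg _) zero_le_one
          _ = 2 := by norm_num
      have h2 : ∑ m ∈ Finset.Ioc x y, (2 : ℝ) = 2 * n := by
        rw [Finset.sum_const, Nat.card_Ioc, nsmul_eq_mul, mul_comm]
        congr 2
        omega
      have h3 : (n : ℝ) ≤ Q := by exact_mod_cast hn.le
      have h4 : 0 ≤ 2 * ω * n := by positivity
      linarith
    · push Not at hn
      have hsplit : ∑ m ∈ Finset.Ioc x y, F m * (ξ m - mean Q ξ) =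
          ∑ m ∈ Finset.Ioc x (x + Q), F m * (ξ m - mean Q ξ) +
            ∑ m ∈ Finset.Ioc (x + Q) y, F m * (ξ m - mean Q ξ) := by
        have hu : Finset.Ioc x y = Finset.Ioc x (x + Q) ∪ Finset.Ioc (x + Q) y := by
          ext m
          simp only [Finset.mem_union, Finset.mem_Ioc]
          omega
        rw [hu, Finset.sum_union]
        rw [Finset.disjoint_left]
        intro m h1 h2
        simp only [Finset.mem_Ioc] at h1 h2
        omega
      have hb : ‖∑ m ∈ Finset.Ioc x (x + Q), F m * (ξ m - mean Q ξ)‖ ≤ 2 * ω * Q := by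
        have e : ∑ m ∈ Finset.Ioc x (x + Q), F m * (ξ m - mean Q ξ) =
            ∑ m ∈ Finset.Ioc x (x + Q), (F m - F (x + 1)) * (ξ m - mean Q ξ) := by
          have e1 : ∑ m ∈ Finset.Ioc x (x + Q), F (x + 1) * (ξ m - mean Q ξ) = 0 := by
            rw [← Finset.mul_sum, block_zero Q ξ hQ hp, mul_zero]
          have e2 : ∑ m ∈ Finset.Ioc x (x + Q), (F m - F (x + 1)) * (ξ m - mean Q ξ) =
              ∑ m ∈ Finset.Ioc x (x + Q), F m * (ξ m - mean Q ξ) -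
              ∑ m ∈ Finset.Ioc x (x + Q), F (x + 1) * (ξ m - mean Q ξ) := by
            rw [← Finset.sum_sub_distrib]
            exact Finset.sum_congr rfl fun m _ => by ring
          rw [e2, e1, sub_zero]
        rw [e]
        have h1 : ‖∑ m ∈ Finset.Ioc x (x + Q), (F m - F (x + 1)) * (ξ m - mean Q ξ)‖ ≤
            ∑ m ∈ Finset.Ioc x (x + Q), (2 * ω) := by
          refine (norm_sum_le _ _).trans (Finset.sum_le_sum fun m hm' => ?_)
          rw [Finset.mem_Ioc] at hm'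
          rw [norm_mul]
          calc ‖F m - F (x + 1)‖ * ‖ξ m - mean Q ξ‖ ≤ ω * 2 :=
                mul_le_mul (hosc (x + 1) m (by omega) (by omega) (by omega) (by omega)) (hd m)
                  (norm_nonneg _) hω
            _ = 2 * ω := by ring
        refine h1.trans ?_
        rw [Finset.sum_const, Nat.card_Ioc, nsmul_eq_mul]
        simp only [add_tsub_cancel_left]
        linarith [mul_comm (Q : ℝ) (2 * ω)]
      have hr := ih (n - Q) (by omega) (x + Q) (by omega)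
        (fun m m' h1 h2 h3 h4 => hosc m m' (by omega) h2 h3 h4)
      rw [hsplit]
      refine (norm_add_le _ _).trans ?_
      have hc : ((n - Q : ℕ) : ℝ) = n - Q := by
        push_cast [hn]
        ring
      rw [hc] at hr
      linarith

/-- splitting into residue classes -/
lemma classes (Q : ℕ) (ξ F : ℕ → ℂ) (hQ : 1 ≤ Q) (hp : Per Q ξ) (x y : ℕ) (hx : Q ≤ x) :
    ∑ m ∈ Finset.Ioc x y, F m * ξ m =
      ∑ b ∈ range Q, ξ b * ∑ m ∈ Finset.Ioc ((x - b) / Q) ((y - b) / Q), F (b + Q * m) := by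
  have hper : ∀ m b, ξ (b + Q * m) = ξ b := by
    intro m b
    induction m with
    | zero => simp
    | succ m ih =>
      rw [← ih, ← hp (b + Q * m)]
      congr 1
      ring
  rw [← Finset.sum_fiberwise_of_maps_to (s := Finset.Ioc x y) (t := range Q) (g := fun m => m % Q)
    (fun m _ => Finset.mem_range.2 (Nat.mod_lt _ hQ))]
  refine Finset.sum_congr rfl fun b hb => ?_
  rw [Finset.mem_range] at hb
  rw [Finset.mul_sum]
  symm
  refine Finset.sum_bij (fun m _ => b + Q * m) ?_ ?_ ?_ ?_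
  · intro m hm
    rw [Finset.mem_Ioc] at hm
    rw [Finset.mem_filter, Finset.mem_Ioc]
    refine ⟨⟨?_, ?_⟩, ?_⟩
    · have := (Nat.div_lt_iff_lt_mul hQ).1 hm.1
      rw [mul_comm] at this
      omega
    · have := (Nat.le_div_iff_mul_le hQ).1 hm.2
      rw [mul_comm] at this
      by_cases hyb : b ≤ y
      · omega
      · exfalso
        have h0 : y - b = 0 := by omega
        rw [h0, Nat.zero_div] at hm
        exact Nat.not_lt_zero _ (hm.1.trans_le hm.2)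
    · show (b + Q * m) % Q = b
      rw [Nat.add_mul_mod_self_left, Nat.mod_eq_of_lt hb]
  · intro m _ m' _ h
    have h' : Q * m = Q * m' := by
      simpa using h
    exact Nat.eq_of_mul_eq_mul_left hQ h'
  · intro n hn
    rw [Finset.mem_filter, Finset.mem_Ioc] at hn
    obtain ⟨⟨h1, h2⟩, h3⟩ := hn
    have h3' : n % Q = b := h3
    have hdm := Nat.mod_add_div n Q
    rw [h3'] at hdm
    refine ⟨n / Q, ?_, hdm⟩
    rw [Finset.mem_Ioc]
    constructor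
    · rw [Nat.div_lt_iff_lt_mul hQ, mul_comm]
      omega
    · rw [Nat.le_div_iff_mul_le hQ, mul_comm]
      omega
  · intro m _
    show ξ b * F (b + Q * m) = F (b + Q * m) * ξ (b + Q * m)
    rw [hper, mul_comm]

/-- the numerical form of the exponential sum bound -/
lemma core_bound (κ K Λ M η0 : ℝ) (hK : 0 < K) (τ N : ℝ) (hM : 0 ≤ M)
    (h1 : Λ ^ (-κ) ≤ N ^ (-τ)) (h2 : M ^ (-κ) ≤ N ^ (-τ)) (h3 : η0 ^ κ ≤ N ^ (-τ)) :
    K * M * (Λ ^ (-κ) + M ^ (-κ) + η0 ^ κ) ≤ 3 * K * M * N ^ (-τ) := by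
  have : Λ ^ (-κ) + M ^ (-κ) + η0 ^ κ ≤ 3 * N ^ (-τ) := by linarith
  calc K * M * (Λ ^ (-κ) + M ^ (-κ) + η0 ^ κ) ≤ K * M * (3 * N ^ (-τ)) :=
        mul_le_mul_of_nonneg_left this (by positivity)
    _ = _ := by ring

end Pool.Agent.Ell.EQ

namespace Pool.Agent.Ell

open Finset
open scoped BigOperators ComplexConjugate

theorem p_OSC (h1 : T_CORE) (h2 : T_PHI) : T_OSC := by
  intro k a p q C δ hk ha ha0 hp hq hpq hC hδ
  obtain ⟨C', hC'1, hC'⟩ := EQ.lam_le a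
  set r : ℕ := ⌈2 * (C + 1)⌉₊ with hr
  have hr1 : 2 * (C + 1) ≤ (r : ℝ) := Nat.le_ceil _
  have hr1' : 1 ≤ r := by
    have : (1 : ℝ) ≤ r := by linarith
    exact_mod_cast this
  obtain ⟨c1, C1, Nphi, hc1, hC1, hNphi, hphi⟩ := h2 k a p q (r + 2) hk ha ha0 hp hq hpq
  obtain ⟨κ, K, hκ, hκ1, hK, hcore⟩ := h1 k r c1 C1 hk hr1' hc1 hC1
  have hkpos : (0 : ℝ) < k := by exact_mod_cast hk
  -- thresholds
  obtain ⟨Na, hNa⟩ := EQ.big 1 C' one_pos
  obtain ⟨Nb, hNb⟩ := EQ.big κ (3 * K / δ) hκ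
  obtain ⟨Nc, hNc⟩ := EQ.big (κ / (2 * (k : ℝ) ^ 2)) (3 * K / δ) (by positivity)
  obtain ⟨Nd, hNd⟩ := EQ.big 1 Nphi one_pos
  refine ⟨max 1 ((3 * K / δ) ^ (1 / κ)), max (max Na Nb) (max (max Nc Nd) 1), by positivity, ?_⟩
  intro N t hN ht hB x y hNx hxy hy
  have hNa' := hNa N (by omega)
  have hNb' := hNb N (by omega)
  have hNc' := hNc N (by omega)
  have hNd' := hNd N (by omega)
  rw [Real.rpow_one] at hNa' hNd'
  have hN1 : (1 : ℝ) ≤ N := by
    have : 1 ≤ N := by omega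
    exact_mod_cast this
  have hN0 : (0 : ℝ) < N := by linarith
  have hL1 : 1 ≤ Lam a t N := le_trans (le_max_left _ _) hB
  have hL2 : (3 * K / δ) ^ (1 / κ) ≤ Lam a t N := le_trans (le_max_right _ _) hB
  have hLu : Lam a t N ≤ (N : ℝ) ^ ((r : ℝ) / 2) := by
    calc Lam a t N ≤ C' * (N : ℝ) ^ C := hC' t N _ hN1 (by positivity) ht
      _ ≤ N * (N : ℝ) ^ C := mul_le_mul_of_nonneg_right hNa' (by positivity)
      _ = (N : ℝ) ^ (1 + C) := by rw [Real.rpow_add hN0, Real.rpow_one]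
      _ ≤ _ := Real.rpow_le_rpow_of_exponent_le hN1 (by linarith)
  have hof := hphi t N 1 0 hNd' le_rfl (by simpa using hN1) (Nat.zero_le _)
  rw [EQ.SC_one] at hof
  simp only [Nat.cast_one, div_one] at hof
  have hex : (0 : ℝ) ≤ 1 / (2 * (k : ℝ) ^ 2) := by positivity
  have hη0 : 0 < (N : ℝ) ^ (-(1 / (2 * (k : ℝ) ^ 2))) := by positivity
  have hη1 : (N : ℝ) ^ (-(1 / (2 * (k : ℝ) ^ 2))) ≤ 1 :=
    Real.rpow_le_one_of_one_le_of_nonpos hN1 (by linarith)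
  have hx2 : (N : ℝ) / 2 ≤ x := by
    have : (N : ℝ) ≤ x := by exact_mod_cast hNx
    linarith
  have hy2 : (y : ℝ) ≤ 4 * N := by
    have : (y : ℝ) ≤ 2 * N := by exact_mod_cast hy
    linarith
  have hmain := hcore N (Lam a t N) ((N : ℝ) ^ (-(1 / (2 * (k : ℝ) ^ 2)))) (PF a t p q) hN1 hL1 hLu
    hη0 hη1 hof x y hx2 hxy hy2
  refine hmain.trans ?_
  have hKd : 0 < 3 * K / δ := by positivity
  have e1 : (Lam a t N) ^ (-κ) ≤ δ / (3 * K) := by
    have h3 : 3 * K / δ ≤ (Lam a t N) ^ κ := by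
      calc 3 * K / δ = ((3 * K / δ) ^ (1 / κ)) ^ κ := by
            rw [← Real.rpow_mul hKd.le, one_div_mul_cancel hκ.ne', Real.rpow_one]
        _ ≤ _ := Real.rpow_le_rpow (by positivity) hL2 hκ.le
    rw [Real.rpow_neg (by linarith)]
    calc ((Lam a t N) ^ κ)⁻¹ ≤ (3 * K / δ)⁻¹ := inv_anti₀ hKd h3
      _ = _ := by rw [inv_div]
  have e2 : (N : ℝ) ^ (-κ) ≤ δ / (3 * K) := by
    rw [Real.rpow_neg hN0.le]
    calc ((N : ℝ) ^ κ)⁻¹ ≤ (3 * K / δ)⁻¹ := inv_anti₀ hKd hNb'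
      _ = _ := by rw [inv_div]
  have e3 : ((N : ℝ) ^ (-(1 / (2 * (k : ℝ) ^ 2)))) ^ κ ≤ δ / (3 * K) := by
    rw [← Real.rpow_mul hN0.le]
    have : -(1 / (2 * (k : ℝ) ^ 2)) * κ = -(κ / (2 * (k : ℝ) ^ 2)) := by ring
    rw [this, Real.rpow_neg hN0.le]
    calc ((N : ℝ) ^ (κ / (2 * (k : ℝ) ^ 2)))⁻¹ ≤ (3 * K / δ)⁻¹ := inv_anti₀ hKd hNc'
      _ = _ := by rw [inv_div]
  calc K * N * ((Lam a t N) ^ (-κ) + (N : ℝ) ^ (-κ) + ((N : ℝ) ^ (-(1 / (2 * (k : ℝ) ^ 2)))) ^ κ)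
      ≤ K * N * (δ / (3 * K) + δ / (3 * K) + δ / (3 * K)) :=
        mul_le_mul_of_nonneg_left (by linarith) (by positivity)
    _ = δ * N := by
        field_simp
        ring

set_option maxHeartbeats 2000000 in
theorem p_EQ (h1 : T_CORE) (h2 : T_PHI) : T_EQ := by
  intro k a p q C hk ha ha0 hp hq hpq hC
  obtain ⟨C', hC'1, hC'⟩ := EQ.lam_le a
  set r : ℕ := ⌈3 * (C + 1)⌉₊ with hr
  have hr1 : 3 * (C + 1) ≤ (r : ℝ) := Nat.le_ceil _
  have hr1' : 1 ≤ r := by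
    have : (1 : ℝ) ≤ r := by linarith
    exact_mod_cast this
  obtain ⟨c1, C1, Nphi, hc1, hC1, hNphi, hphi⟩ := h2 k a p q (r + 2) hk ha ha0 hp hq hpq
  obtain ⟨κ, K, hκ, hκ1, hK, hcore⟩ := h1 k r c1 C1 hk hr1' hc1 hC1
  have hk1 : (1 : ℝ) ≤ k := by exact_mod_cast hk
  have hkpos : (0 : ℝ) < k := by linarith
  have hk2 : (1 : ℝ) ≤ (k : ℝ) ^ 2 := one_le_pow₀ hk1
  set τ : ℝ := κ / (4 * (k : ℝ) ^ 2) with hτ
  have hτ0 : 0 < τ := by positivity
  set c : ℝ := min (1 / 8) (τ / 2) with hc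
  have hc0 : 0 < c := lt_min (by norm_num) (by positivity)
  have hc8 : c ≤ 1 / 8 := min_le_left _ _
  have hcτ : c ≤ τ / 2 := min_le_right _ _
  obtain ⟨Na, hNa⟩ := EQ.big 1 C' one_pos
  obtain ⟨Nb, hNb⟩ := EQ.big (1 / 2) (2 * C1 + 2) (by norm_num)
  obtain ⟨Nc, hNc⟩ := EQ.big (τ / 2) (6 * K) (by positivity)
  obtain ⟨Nd, hNd⟩ := EQ.big 1 Nphi one_pos
  obtain ⟨Ne, hNe⟩ := EQ.big (3 / 4) 4 (by norm_num)
  refine ⟨c, max (max Na Nb) (max (max Nc Nd) (max Ne 1)), hc0, by linarith, ?_⟩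
  intro N t hN ht Q ξ hQ hQN hper hξ x y hNx hxy hy
  have hNa' := hNa N (by omega)
  have hNb' := hNb N (by omega)
  have hNc' := hNc N (by omega)
  have hNd' := hNd N (by omega)
  have hNe' := hNe N (by omega)
  rw [Real.rpow_one] at hNa' hNd'
  have hN1 : (1 : ℝ) ≤ N := by
    have : 1 ≤ N := by omega
    exact_mod_cast this
  have hN0 : (0 : ℝ) < N := by linarith
  have hQ1 : (1 : ℝ) ≤ Q := by exact_mod_cast hQ
  have hQ0 : (0 : ℝ) < Q := by linarith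
  have hxN : (N : ℝ) ≤ x := by exact_mod_cast hNx
  have hy2 : (y : ℝ) ≤ 2 * N := by exact_mod_cast hy
  have hxy' : (x : ℝ) ≤ y := by exact_mod_cast hxy
  set Λ := Lam a t N with hΛ
  have hL0 : 0 ≤ Λ := EQ.lam_nonneg a t N hN0.le
  -- N ^ (1 - c) ≤ ...
  have hcomb : ∑ m ∈ Finset.Ioc x y, ei (PF a t p q 0 m) * ξ m -
      mean Q ξ * ∑ m ∈ Finset.Ioc x y, ei (PF a t p q 0 m) =
      ∑ m ∈ Finset.Ioc x y, ei (PF a t p q 0 m) * (ξ m - mean Q ξ) := by
    rw [Finset.mul_sum, ← Finset.sum_sub_distrib]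
    exact Finset.sum_congr rfl fun m _ => by ring
  by_cases hslow : Λ ≤ (N : ℝ) ^ (1 / 4 : ℝ)
  · -- slow case
    have hof := hphi t N 1 0 hNd' le_rfl (by simpa using hN1) (Nat.zero_le _)
    rw [EQ.SC_one] at hof
    simp only [Nat.cast_one, div_one] at hof
    rw [hcomb]
    have hω : ∀ m m' : ℕ, x < m → m ≤ m' → m' ≤ y → m' ≤ m + Q →
        ‖ei (PF a t p q 0 m') - ei (PF a t p q 0 m)‖ ≤ C1 * Λ / N * Q := by
      intro m m' h3 h4 h5 h6
      refine (EQ.ei_sub _ _).trans ?_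
      have hm : (x : ℝ) ≤ m := by exact_mod_cast h3.le
      have hmm : (m : ℝ) ≤ m' := by exact_mod_cast h4
      have hm' : (m' : ℝ) ≤ y := by exact_mod_cast h5
      have hmQ : (m' : ℝ) ≤ m + Q := by exact_mod_cast h6
      have hd := (convex_Icc (N / 4 : ℝ) (8 * N)).norm_image_sub_le_of_norm_hasDerivWithin_le
        (f := PF a t p q 0) (f' := PF a t p q 1) (C := C1 * Λ / N)
        (fun u hu => (hof.der 0 u hu.1 hu.2).hasDerivWithinAt)
        (fun u hu => by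
          have := hof.up 1 u le_rfl (by omega) hu.1 hu.2
          rw [pow_one] at this
          rw [Real.norm_eq_abs]
          exact this)
        (x := (m : ℝ)) (y := (m' : ℝ)) ⟨by linarith, by linarith⟩ ⟨by linarith, by linarith⟩
      rw [Real.norm_eq_abs, Real.norm_eq_abs] at hd
      refine hd.trans ?_
      refine mul_le_mul_of_nonneg_left ?_ (by positivity)
      rw [abs_of_nonneg (by linarith)]
      linarith
    have hs := EQ.slow Q ξ (fun m => ei (PF a t p q 0 m)) hQ hper hξ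
      (fun m => (EQ.norm_ei _).le) y (C1 * Λ / N * Q) (by positivity) (y - x) x (by omega) hω
    refine hs.trans ?_
    have hyx : ((y - x : ℕ) : ℝ) ≤ N := by
      push_cast [hxy]
      linarith
    have e1 : 2 * (C1 * Λ / N * Q) * ((y - x : ℕ) : ℝ) ≤ 2 * C1 * (Q * Λ) := by
      calc 2 * (C1 * Λ / N * Q) * ((y - x : ℕ) : ℝ) ≤ 2 * (C1 * Λ / N * Q) * N :=
            mul_le_mul_of_nonneg_left hyx (by positivity)
        _ = _ := by
            field_simp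
    have e2 : Q * Λ ≤ (N : ℝ) ^ (c + 1 / 4) := by
      rw [Real.rpow_add hN0]
      exact mul_le_mul hQN hslow hL0 (by positivity)
    have e3 : (Q : ℝ) ≤ (N : ℝ) ^ (c + 1 / 4) :=
      hQN.trans (Real.rpow_le_rpow_of_exponent_le hN1 (by linarith))
    calc 2 * (C1 * Λ / N * Q) * ((y - x : ℕ) : ℝ) + 2 * Q
        ≤ 2 * C1 * (N : ℝ) ^ (c + 1 / 4) + 2 * (N : ℝ) ^ (c + 1 / 4) := by
          have := mul_le_mul_of_nonneg_left e2 (show 0 ≤ 2 * C1 by positivity)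
          linarith
      _ = (2 * C1 + 2) * (N : ℝ) ^ (c + 1 / 4) := by ring
      _ ≤ (N : ℝ) ^ (1 / 2 : ℝ) * (N : ℝ) ^ (c + 1 / 4) :=
          mul_le_mul_of_nonneg_right hNb' (by positivity)
      _ = (N : ℝ) ^ (1 / 2 + (c + 1 / 4)) := by rw [← Real.rpow_add hN0]
      _ ≤ (N : ℝ) ^ (1 - c) := Real.rpow_le_rpow_of_exponent_le hN1 (by linarith)
  · -- fast case
    push Not at hslow
    set M : ℝ := (N : ℝ) / Q with hM
    have hMge : (N : ℝ) ^ (3 / 4 : ℝ) ≤ M := by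
      rw [hM, le_div_iff₀ hQ0]
      calc (N : ℝ) ^ (3 / 4 : ℝ) * Q ≤ (N : ℝ) ^ (3 / 4 : ℝ) * (N : ℝ) ^ c :=
            mul_le_mul_of_nonneg_left hQN (by positivity)
        _ = (N : ℝ) ^ (3 / 4 + c) := by rw [← Real.rpow_add hN0]
        _ ≤ (N : ℝ) ^ (1 : ℝ) := Real.rpow_le_rpow_of_exponent_le hN1 (by linarith)
        _ = N := Real.rpow_one _
    have hM4 : 4 ≤ M := hNe'.trans hMge
    have hM0 : 0 < M := by linarith
    have hQleN : (Q : ℝ) ≤ N := by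
      have : M * Q = N := by rw [hM]; field_simp
      nlinarith
    have hQleNn : Q ≤ N := by exact_mod_cast hQleN
    have hL1 : 1 ≤ Λ := by
      have : (1 : ℝ) ≤ (N : ℝ) ^ (1 / 4 : ℝ) := Real.one_le_rpow hN1 (by norm_num)
      linarith
    have hLu : Λ ≤ M ^ ((r : ℝ) / 2) := by
      calc Λ ≤ C' * (N : ℝ) ^ C := hC' t N _ hN1 (by positivity) ht
        _ ≤ N * (N : ℝ) ^ C := mul_le_mul_of_nonneg_right hNa' (by positivity)
        _ = (N : ℝ) ^ (1 + C) := by rw [Real.rpow_add hN0, Real.rpow_one]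
        _ ≤ (N : ℝ) ^ (3 / 4 * ((r : ℝ) / 2)) :=
            Real.rpow_le_rpow_of_exponent_le hN1 (by linarith)
        _ = ((N : ℝ) ^ (3 / 4 : ℝ)) ^ ((r : ℝ) / 2) := by rw [Real.rpow_mul hN0.le]
        _ ≤ _ := Real.rpow_le_rpow (by positivity) hMge (by positivity)
    have hex : (0 : ℝ) ≤ 1 / (2 * (k : ℝ) ^ 2) := by positivity
    have hη0 : 0 < M ^ (-(1 / (2 * (k : ℝ) ^ 2))) := by positivity
    have hη1 : M ^ (-(1 / (2 * (k : ℝ) ^ 2))) ≤ 1 :=
      Real.rpow_le_one_of_one_le_of_nonpos (by linarith) (by linarith)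
    have hτκ : τ ≤ κ / 4 := by
      rw [hτ]
      rw [div_le_div_iff₀ (by positivity) (by norm_num)]
      nlinarith
    have hb1 : Λ ^ (-κ) ≤ (N : ℝ) ^ (-τ) := by
      calc Λ ^ (-κ) ≤ ((N : ℝ) ^ (1 / 4 : ℝ)) ^ (-κ) :=
            Real.rpow_le_rpow_of_nonpos (by positivity) hslow.le (by linarith)
        _ = (N : ℝ) ^ (1 / 4 * (-κ)) := by rw [← Real.rpow_mul hN0.le]
        _ ≤ _ := Real.rpow_le_rpow_of_exponent_le hN1 (by linarith)
    have hb2 : M ^ (-κ) ≤ (N : ℝ) ^ (-τ) := by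
      calc M ^ (-κ) ≤ ((N : ℝ) ^ (3 / 4 : ℝ)) ^ (-κ) :=
            Real.rpow_le_rpow_of_nonpos (by positivity) hMge (by linarith)
        _ = (N : ℝ) ^ (3 / 4 * (-κ)) := by rw [← Real.rpow_mul hN0.le]
        _ ≤ _ := Real.rpow_le_rpow_of_exponent_le hN1 (by linarith)
    have hb3 : (M ^ (-(1 / (2 * (k : ℝ) ^ 2)))) ^ κ ≤ (N : ℝ) ^ (-τ) := by
      rw [← Real.rpow_mul hM0.le]
      have e : -(1 / (2 * (k : ℝ) ^ 2)) * κ = -(2 * τ) := by
        rw [hτ]
        field_simp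
        ring
      rw [e]
      calc M ^ (-(2 * τ)) ≤ ((N : ℝ) ^ (3 / 4 : ℝ)) ^ (-(2 * τ)) :=
            Real.rpow_le_rpow_of_nonpos (by positivity) hMge (by linarith)
        _ = (N : ℝ) ^ (3 / 4 * (-(2 * τ))) := by rw [← Real.rpow_mul hN0.le]
        _ ≤ _ := Real.rpow_le_rpow_of_exponent_le hN1 (by linarith)
    have hclass : ∀ b ∈ range Q, ‖∑ m ∈ Finset.Ioc ((x - b) / Q) ((y - b) / Q),
        ei (PF a t p q 0 ((b + Q * m : ℕ) : ℝ))‖ ≤ 3 * K * M * (N : ℝ) ^ (-τ) := by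
      intro b hb
      rw [Finset.mem_range] at hb
      have hof := hphi t N Q b hNd' hQ hQleN hb.le
      have hbx : b ≤ x := by omega
      have hby : b ≤ y := by omega
      have hbQ : (b : ℝ) ≤ Q := by exact_mod_cast hb.le
      have hx1 : M / 2 ≤ (((x - b) / Q : ℕ) : ℝ) := by
        have h3 : x - b < ((x - b) / Q + 1) * Q := by
          have := Nat.lt_div_mul_add (a := x - b) hQ
          nlinarith
        have h4 : ((x - b : ℕ) : ℝ) < ((((x - b) / Q : ℕ) : ℝ) + 1) * Q := by exact_mod_cast h3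
        rw [Nat.cast_sub hbx] at h4
        have h5 : M * Q = N := by rw [hM]; field_simp
        by_contra hcon
        push Not at hcon
        have h6 : ((((x - b) / Q : ℕ) : ℝ) + 1) * Q < (M / 2 + 1) * Q :=
          mul_lt_mul_of_pos_right (by linarith) hQ0
        nlinarith
      have hy1 : (((y - b) / Q : ℕ) : ℝ) ≤ 4 * M := by
        have h3 : (y - b) / Q * Q ≤ y - b := Nat.div_mul_le_self _ _
        have h4 : (((y - b) / Q : ℕ) : ℝ) * Q ≤ y := by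
          have : (((y - b) / Q * Q : ℕ) : ℝ) ≤ ((y - b : ℕ) : ℝ) := by exact_mod_cast h3
          rw [Nat.cast_mul, Nat.cast_sub hby] at this
          have hb0 : (0 : ℝ) ≤ b := Nat.cast_nonneg _
          linarith
        have h5 : M * Q = N := by rw [hM]; field_simp
        have h6 : (((y - b) / Q : ℕ) : ℝ) * Q ≤ (4 * M) * Q := by nlinarith
        exact le_of_mul_le_mul_right h6 hQ0
      have hmain := hcore M Λ (M ^ (-(1 / (2 * (k : ℝ) ^ 2)))) (SC Q b (PF a t p q)) (by linarith)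
        hL1 hLu hη0 hη1 hof ((x - b) / Q) ((y - b) / Q) hx1
        (Nat.div_le_div_right (by omega)) hy1
      have he : ∀ m : ℕ, SC Q b (PF a t p q) 0 m = PF a t p q 0 ((b + Q * m : ℕ) : ℝ) := by
        intro m
        simp only [SC, pow_zero, one_mul]
        push_cast
        rfl
      simp only [he] at hmain
      exact hmain.trans (EQ.core_bound κ K Λ M _ hK τ N hM0.le hb1 hb2 hb3)
    -- any bounded periodic weight
    have hall : ∀ ζ : ℕ → ℂ, Per Q ζ → (∀ m, ‖ζ m‖ ≤ 1) →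
        ‖∑ m ∈ Finset.Ioc x y, ei (PF a t p q 0 m) * ζ m‖ ≤ 3 * K * N * (N : ℝ) ^ (-τ) := by
      intro ζ hζ hζ1
      rw [EQ.classes Q ζ (fun m => ei (PF a t p q 0 m)) hQ hζ x y (by omega)]
      refine (norm_sum_le _ _).trans ?_
      calc ∑ b ∈ range Q, ‖ζ b * ∑ m ∈ Finset.Ioc ((x - b) / Q) ((y - b) / Q),
            ei (PF a t p q 0 ((b + Q * m : ℕ) : ℝ))‖
          ≤ ∑ b ∈ range Q, (3 * K * M * (N : ℝ) ^ (-τ)) := by
            refine Finset.sum_le_sum fun b hb => ?_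
            rw [norm_mul]
            calc ‖ζ b‖ * ‖∑ m ∈ Finset.Ioc ((x - b) / Q) ((y - b) / Q),
                ei (PF a t p q 0 ((b + Q * m : ℕ) : ℝ))‖ ≤ 1 * (3 * K * M * (N : ℝ) ^ (-τ)) :=
                  mul_le_mul (hζ1 b) (hclass b hb) (norm_nonneg _) zero_le_one
              _ = _ := one_mul _
        _ = 3 * K * (M * Q) * (N : ℝ) ^ (-τ) := by
            rw [Finset.sum_const, Finset.card_range, nsmul_eq_mul]
            ring
        _ = 3 * K * N * (N : ℝ) ^ (-τ) := by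
            have h5 : M * Q = N := by rw [hM]; field_simp
            rw [h5]
    have hm := EQ.mean_norm Q ξ hQ hξ
    have hA := hall ξ hper hξ
    have hB := hall (fun _ => 1) (fun _ => rfl) (fun _ => by simp)
    simp only [mul_one] at hB
    calc ‖∑ m ∈ Finset.Ioc x y, ei (PF a t p q 0 m) * ξ m -
          mean Q ξ * ∑ m ∈ Finset.Ioc x y, ei (PF a t p q 0 m)‖
        ≤ ‖∑ m ∈ Finset.Ioc x y, ei (PF a t p q 0 m) * ξ m‖ +
          ‖mean Q ξ * ∑ m ∈ Finset.Ioc x y, ei (PF a t p q 0 m)‖ := norm_sub_le _ _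
      _ ≤ 3 * K * N * (N : ℝ) ^ (-τ) + 1 * (3 * K * N * (N : ℝ) ^ (-τ)) := by
          refine add_le_add hA ?_
          rw [norm_mul]
          exact mul_le_mul hm hB (norm_nonneg _) zero_le_one
      _ = 6 * K * (N * (N : ℝ) ^ (-τ)) := by ring
      _ ≤ (N : ℝ) ^ (τ / 2) * (N * (N : ℝ) ^ (-τ)) :=
          mul_le_mul_of_nonneg_right hNc' (by positivity)
      _ = (N : ℝ) ^ (τ / 2 + (1 + -τ)) := by
          rw [Real.rpow_add hN0, Real.rpow_add hN0, Real.rpow_one]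
      _ ≤ (N : ℝ) ^ (1 - c) := Real.rpow_le_rpow_of_exponent_le hN1 (by linarith)

end Pool.Agent.Ell
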