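import Pool.Agent.Ell.Targets

set_option autoImplicit false

namespace Pool.Agent.Ell
namespace FLAux

open Finset
open scoped BigOperators

/-- weighted sum over the subsets with a condition on the size -/
noncomputable def WS {R : Type*} [CommRing R] (P : ℕ → Prop) (B : Finset ℕ) (f : ℕ → R) : R :=
  haveI : DecidablePred P := Classical.decPred P
  ∑ S ∈ B.powerset, if P S.card then ∏ l ∈ S, f l else 0

lemma WS_def {R : Type*} [CommRing R] (P : ℕ → Prop) [DecidablePred P] (B : Finset ℕ) (f : ℕ → R) :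
    WS P B f = ∑ S ∈ B.powerset, if P S.card then ∏ l ∈ S, f l else 0 := by
  unfold WS
  refine Finset.sum_congr rfl fun S _ => ?_
  by_cases h : P S.card <;> simp [h]

lemma WS_true {R : Type*} [CommRing R] (B : Finset ℕ) (f : ℕ → R) :
    WS (fun _ => True) B f = ∏ l ∈ B, (1 + f l) := by
  rw [WS_def, Finset.prod_one_add]
  simp

/-- truncated sum -/
noncomputable def TR (K : ℕ) (B : Finset ℕ) (f : ℕ → ℂ) : ℂ := WS (fun n => n < K) B f

noncomputable def ER (K : ℕ) (B : Finset ℕ) (f : ℕ → ℝ) : ℝ := WS (fun n => n = K) B f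

lemma WS_insert {R : Type*} [CommRing R] (P : ℕ → Prop) (B : Finset ℕ) (f : ℕ → R) (b : ℕ)
    (hb : b ∉ B) : WS P (insert b B) f = WS P B f + f b * WS (fun n => P (n + 1)) B f := by
  classical
  rw [WS_def, WS_def, WS_def, Finset.sum_powerset_insert hb, Finset.mul_sum]
  congr 1
  refine Finset.sum_congr rfl fun S hS => ?_
  have hbS : b ∉ S := fun h => hb (Finset.mem_powerset.1 hS h)
  rw [Finset.card_insert_of_notMem hbS, Finset.prod_insert hbS]
  by_cases h : P (S.card + 1) <;> simp [h]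

lemma WS_empty {R : Type*} [CommRing R] (P : ℕ → Prop) (f : ℕ → R) :
    WS P ∅ f = (haveI : Decidable (P 0) := Classical.dec _; if P 0 then 1 else 0) := by
  classical
  rw [WS_def]
  by_cases h : P 0 <;> simp [h]

lemma ER_zero (B : Finset ℕ) (f : ℕ → ℝ) : ER 0 B f = 1 := by
  classical
  unfold ER
  rw [WS_def]
  rw [Finset.sum_eq_single ∅]
  · simp
  · intro S _ hS
    have : S.card ≠ 0 := by simpa [Finset.card_eq_zero] using hS
    simp [this]
  · intro h
    simp at h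

lemma TR_zero (B : Finset ℕ) (f : ℕ → ℂ) : TR 0 B f = 0 := by
  classical
  unfold TR
  rw [WS_def]
  simp

lemma ER_nonneg (K : ℕ) (B : Finset ℕ) (f : ℕ → ℝ) (hf : ∀ l, 0 ≤ f l) : 0 ≤ ER K B f := by
  classical
  unfold ER
  rw [WS_def]
  refine Finset.sum_nonneg fun S _ => ?_
  split_ifs
  · exact Finset.prod_nonneg fun l _ => hf l
  · exact le_rfl

lemma norm_prod_le_one (B : Finset ℕ) (u : ℕ → ℂ) (h : ∀ l ∈ B, ‖1 + u l‖ ≤ 1) :
    ‖∏ l ∈ B, (1 + u l)‖ ≤ 1 := by
  rw [norm_prod]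
  exact Finset.prod_le_one (fun l _ => norm_nonneg _) h

/-- Bonferroni -/
lemma bonferroni (u : ℕ → ℂ) (B : Finset ℕ) : (∀ l ∈ B, ‖1 + u l‖ ≤ 1) →
    ∀ K, ‖∏ l ∈ B, (1 + u l) - TR K B u‖ ≤ ER K B (fun l => ‖u l‖) := by
  classical
  induction B using Finset.induction_on with
  | empty =>
    intro _ K
    unfold TR ER
    rw [WS_empty, WS_empty]
    rcases Nat.eq_zero_or_pos K with rfl | hK
    · simp
    · simp [hK, hK.ne]
  | insert b B hb ih =>
    intro h K
    have hB : ∀ l ∈ B, ‖1 + u l‖ ≤ 1 := fun l hl => h l (Finset.mem_insert_of_mem hl)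
    have ih' := ih hB
    rcases Nat.eq_zero_or_pos K with rfl | hK
    · rw [TR_zero, ER_zero, sub_zero]
      exact norm_prod_le_one _ _ h
    · obtain ⟨K, rfl⟩ : ∃ k, K = k + 1 := ⟨K - 1, by omega⟩
      have h1 : TR (K + 1) (insert b B) u = TR (K + 1) B u + u b * TR K B u := by
        unfold TR
        rw [WS_insert _ _ _ _ hb]
        simp
      have h2 : ER (K + 1) (insert b B) (fun l => ‖u l‖) =
          ER (K + 1) B (fun l => ‖u l‖) + ‖u b‖ * ER K B (fun l => ‖u l‖) := by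
        unfold ER
        rw [WS_insert _ _ _ _ hb]
        simp
      rw [h1, h2, Finset.prod_insert hb]
      have h3 : (1 + u b) * ∏ l ∈ B, (1 + u l) - (TR (K + 1) B u + u b * TR K B u) =
          (∏ l ∈ B, (1 + u l) - TR (K + 1) B u) + u b * (∏ l ∈ B, (1 + u l) - TR K B u) := by ring
      rw [h3]
      refine (norm_add_le _ _).trans (add_le_add (ih' _) ?_)
      rw [norm_mul]
      exact mul_le_mul_of_nonneg_left (ih' _) (norm_nonneg _)

lemma pow_bern (s x : ℝ) (hs : 0 ≤ s) (hx : 0 ≤ x) (K : ℕ) :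
    s ^ (K + 1) + (K + 1) * x * s ^ K ≤ (s + x) ^ (K + 1) := by
  induction K with
  | zero => simp
  | succ K ih =>
    have h1 : (s + x) ^ (K + 1 + 1) = (s + x) * (s + x) ^ (K + 1) := by ring
    rw [h1]
    have h2 := mul_le_mul_of_nonneg_left ih (by positivity : (0 : ℝ) ≤ s + x)
    refine le_trans ?_ h2
    push_cast
    have h3 : 0 ≤ (K + 1) * x ^ 2 * s ^ K := by positivity
    have h4 : (s + x) * (s ^ (K + 1) + (↑K + 1) * x * s ^ K) =
        s ^ (K + 1 + 1) + (↑K + 1 + 1) * x * s ^ (K + 1) + (K + 1) * x ^ 2 * s ^ K := by ring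
    rw [h4]
    linarith

/-- elementary symmetric functions -/
lemma ER_le (B : Finset ℕ) (f : ℕ → ℝ) : (∀ l ∈ B, 0 ≤ f l) → ∀ K : ℕ,
    (K.factorial : ℝ) * ER K B f ≤ (∑ l ∈ B, f l) ^ K := by
  classical
  induction B using Finset.induction_on with
  | empty =>
    intro _ K
    unfold ER
    rw [WS_empty]
    rcases Nat.eq_zero_or_pos K with rfl | hK
    · simp
    · simp [hK.ne]
  | insert b B hb ih =>
    intro hf K
    have hB : ∀ l ∈ B, 0 ≤ f l := fun l hl => hf l (Finset.mem_insert_of_mem hl)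
    have hbn : 0 ≤ f b := hf b (Finset.mem_insert_self _ _)
    have ih' := ih hB
    rcases Nat.eq_zero_or_pos K with rfl | hK
    · rw [ER_zero]; simp
    · obtain ⟨K, rfl⟩ : ∃ k, K = k + 1 := ⟨K - 1, by omega⟩
      have h2 : ER (K + 1) (insert b B) f = ER (K + 1) B f + f b * ER K B f := by
        unfold ER
        rw [WS_insert _ _ _ _ hb]
        simp
      rw [h2, Finset.sum_insert hb, add_comm (f b)]
      have hs : 0 ≤ ∑ l ∈ B, f l := Finset.sum_nonneg hB
      refine le_trans ?_ (pow_bern _ _ hs hbn K)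
      have h4 := ih' (K + 1)
      have h5 := ih' K
      rw [Nat.factorial_succ] at h4 ⊢
      push_cast at h4 ⊢
      have h6 : (K + 1) * f b * ((K.factorial : ℝ) * ER K B f) ≤
          (K + 1) * f b * (∑ l ∈ B, f l) ^ K := mul_le_mul_of_nonneg_left h5 (by positivity)
      nlinarith [h4, h6]

/-- product over a disjoint union -/
lemma split {R : Type*} [CommRing R] (U B : Finset ℕ) (hUB : Disjoint U B)
    (F G : Finset ℕ → R) :
    ∑ S ∈ (U ∪ B).powerset, F (S ∩ U) * G (S ∩ B) =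
      (∑ S ∈ U.powerset, F S) * ∑ T ∈ B.powerset, G T := by
  classical
  rw [Finset.sum_mul_sum, ← Finset.sum_product']
  refine Finset.sum_bij' (fun S _ => (S ∩ U, S ∩ B)) (fun p _ => p.1 ∪ p.2) ?_ ?_ ?_ ?_ ?_
  · intro S _
    simp only [Finset.mem_product, Finset.mem_powerset]
    exact ⟨Finset.inter_subset_right, Finset.inter_subset_right⟩
  · intro p hp
    simp only [Finset.mem_product, Finset.mem_powerset] at hp ⊢
    exact Finset.union_subset_union hp.1 hp.2
  · intro S hS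
    simp only [Finset.mem_powerset] at hS
    show S ∩ U ∪ S ∩ B = S
    rw [← Finset.inter_union_distrib_left]
    exact Finset.inter_eq_left.2 hS
  · intro p hp
    simp only [Finset.mem_product, Finset.mem_powerset] at hp
    have hd1 : p.2 ∩ U = ∅ := by
      rw [Finset.eq_empty_iff_forall_notMem]
      intro x hx
      rw [Finset.mem_inter] at hx
      exact Finset.disjoint_left.1 hUB hx.2 (hp.2 hx.1)
    have hd2 : p.1 ∩ B = ∅ := by
      rw [Finset.eq_empty_iff_forall_notMem]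
      intro x hx
      rw [Finset.mem_inter] at hx
      exact Finset.disjoint_left.1 hUB (hp.1 hx.1) hx.2
    show ((p.1 ∪ p.2) ∩ U, (p.1 ∪ p.2) ∩ B) = p
    rw [Finset.union_inter_distrib_right, Finset.union_inter_distrib_right, hd1, hd2,
      Finset.union_empty, Finset.empty_union, Finset.inter_eq_left.2 hp.1,
      Finset.inter_eq_left.2 hp.2]
  · intro S _
    rfl

/-- condition on all blocks -/
def Cond (P : ℕ → ℕ → Prop) (B : ℕ → Finset ℕ) (J : ℕ) (S : Finset ℕ) : Prop :=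
  ∀ i < J, P i (S ∩ B i).card

open Classical in
noncomputable def fam (P : ℕ → ℕ → Prop) (B : ℕ → Finset ℕ) (J : ℕ) (A : Finset ℕ) :
    Finset (Finset ℕ) :=
  A.powerset.filter (Cond P B J)

lemma mem_fam {P : ℕ → ℕ → Prop} {B : ℕ → Finset ℕ} {J : ℕ} {A S : Finset ℕ} :
    S ∈ fam P B J A ↔ S ⊆ A ∧ Cond P B J S := by
  unfold fam
  simp

lemma sum_fam {R : Type*} [CommRing R] (P : ℕ → ℕ → Prop) (B U : ℕ → Finset ℕ) (f : ℕ → R)
    (hU0 : U 0 = ∅) (hU : ∀ j, U (j + 1) = U j ∪ B j) (hd : ∀ j, Disjoint (U j) (B j)) (J : ℕ) :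
    ∑ S ∈ fam P B J (U J), ∏ l ∈ S, f l = ∏ i ∈ Finset.range J, WS (P i) (B i) f := by
  classical
  induction J with
  | zero =>
    have : fam P B 0 (U 0) = {∅} := by
      ext S
      rw [mem_fam, hU0]
      simp [Cond, Finset.subset_empty]
    rw [this]
    simp
  | succ J ih =>
    rw [Finset.prod_range_succ, ← ih, WS_def]
    have hsum : ∀ A : Finset ℕ, ∀ J, ∑ S ∈ fam P B J A, ∏ l ∈ S, f l =
        ∑ S ∈ A.powerset, if Cond P B J S then ∏ l ∈ S, f l else 0 := by
      intro A J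
      unfold fam
      rw [Finset.sum_filter]
    rw [hsum, hsum, ← split (U J) (B J) (hd J), hU J]
    have hBU : ∀ i < J, B i ⊆ U J := by
      have : ∀ j, ∀ i < j, B i ⊆ U j := by
        intro j
        induction j with
        | zero => intro i hi; omega
        | succ j ihj =>
          intro i hi
          rw [hU j]
          rcases Nat.lt_succ_iff_lt_or_eq.1 hi with h | h
          · exact (ihj i h).trans Finset.subset_union_left
          · subst h; exact Finset.subset_union_right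
      exact this J
    refine Finset.sum_congr rfl fun S hS => ?_
    have hS' := Finset.mem_powerset.1 hS
    have hprod : ∏ l ∈ S, f l = (∏ l ∈ S ∩ U J, f l) * ∏ l ∈ S ∩ B J, f l := by
      rw [← Finset.prod_union]
      · rw [← Finset.inter_union_distrib_left, Finset.inter_eq_left.2 hS']
      · exact Finset.disjoint_of_subset_left Finset.inter_subset_right
          (Finset.disjoint_of_subset_right Finset.inter_subset_right (hd J))
    have hcond : Cond P B (J + 1) S ↔ Cond P B J (S ∩ U J) ∧ P J (S ∩ B J).card := by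
      unfold Cond
      constructor
      · intro h
        refine ⟨fun i hi => ?_, h J (Nat.lt_succ_self J)⟩
        have : S ∩ U J ∩ B i = S ∩ B i := by
          rw [Finset.inter_assoc, Finset.inter_eq_right.2 (hBU i hi)]
        rw [this]
        exact h i (by omega)
      · rintro ⟨h1, h2⟩ i hi
        rcases Nat.lt_succ_iff_lt_or_eq.1 hi with h | h
        · have := h1 i h
          have h3 : S ∩ U J ∩ B i = S ∩ B i := by
            rw [Finset.inter_assoc, Finset.inter_eq_right.2 (hBU i h)]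
          rwa [h3] at this
        · subst h; exact h2
    by_cases hc : Cond P B (J + 1) S
    · have := hcond.1 hc
      rw [if_pos hc, if_pos this.1, if_pos this.2, hprod]
    · rw [if_neg hc]
      by_cases h1 : Cond P B J (S ∩ U J)
      · have h2 : ¬ P J (S ∩ B J).card := fun h2 => hc (hcond.2 ⟨h1, h2⟩)
        rw [if_neg h2, mul_zero]
      · rw [if_neg h1, zero_mul]

lemma prod_diff (J : ℕ) (x y : ℕ → ℂ) (E : ℕ → ℝ) (hx : ∀ j, ‖x j‖ ≤ 1)
    (hE : ∀ j, ‖x j - y j‖ ≤ E j) :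
    ‖∏ j ∈ Finset.range J, x j - ∏ j ∈ Finset.range J, y j‖ ≤
      ∏ j ∈ Finset.range J, (1 + E j) - 1 := by
  induction J with
  | zero => simp
  | succ J ih =>
    rw [Finset.prod_range_succ, Finset.prod_range_succ, Finset.prod_range_succ]
    have hE0 : ∀ j, 0 ≤ E j := fun j => (norm_nonneg _).trans (hE j)
    have hX : ‖∏ j ∈ Finset.range J, x j‖ ≤ 1 := by
      rw [norm_prod]
      exact Finset.prod_le_one (fun l _ => norm_nonneg _) (fun j _ => hx j)
    have hy : ‖y J‖ ≤ 1 + E J := by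
      have : y J = x J - (x J - y J) := by ring
      rw [this]
      exact (norm_sub_le _ _).trans (add_le_add (hx J) (hE J))
    have h3 : (∏ j ∈ Finset.range J, x j) * x J - (∏ j ∈ Finset.range J, y j) * y J =
        (∏ j ∈ Finset.range J, x j) * (x J - y J) +
          (∏ j ∈ Finset.range J, x j - ∏ j ∈ Finset.range J, y j) * y J := by ring
    rw [h3]
    refine (norm_add_le _ _).trans ?_
    rw [norm_mul, norm_mul]
    have h4 : ‖∏ j ∈ Finset.range J, x j‖ * ‖x J - y J‖ ≤ 1 * E J :=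
      mul_le_mul hX (hE J) (norm_nonneg _) zero_le_one
    have h5 := mul_le_mul ih hy (norm_nonneg _) ((norm_nonneg _).trans ih)
    nlinarith [h4, h5]

/-- counting in residue classes -/
lemma count_mod (a N Q m0 : ℕ) :
    ((Finset.Ioc a (a + N)).filter (fun m => m ≡ m0 [MOD Q])).card ≤ N / Q + 1 := by
  rw [← Finset.card_range (N / Q + 1)]
  refine Finset.card_le_card_of_injOn (fun m => (m - a - 1) / Q) ?_ ?_
  · intro m hm
    simp only [Finset.coe_filter, Finset.mem_Ioc, Set.mem_ofPred_eq] at hm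
    simp only [Finset.coe_range, Set.mem_Iio]
    exact Nat.lt_succ_of_le (Nat.div_le_div_right (by omega))
  · intro m hm m' hm' h
    simp only [Finset.coe_filter, Finset.mem_Ioc, Set.mem_ofPred_eq] at hm hm'
    simp only at h
    have h1 : m ≡ m' [MOD Q] := hm.2.trans hm'.2.symm
    have h2 : (m - a - 1) ≡ (m' - a - 1) [MOD Q] := by
      have e1 : m = (m - a - 1) + (a + 1) := by omega
      have e2 : m' = (m' - a - 1) + (a + 1) := by omega
      rw [e1, e2] at h1
      exact Nat.ModEq.add_right_cancel' _ h1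
    have h3 : m - a - 1 = m' - a - 1 := by
      have a1 := Nat.div_add_mod (m - a - 1) Q
      have a2 := Nat.div_add_mod (m' - a - 1) Q
      have a3 : (m - a - 1) % Q = (m' - a - 1) % Q := h2
      rw [← a1, ← a2, h, a3]
    omega

lemma count_res (S : Finset ℕ) (hS : ∀ l ∈ S, l.Prime) (R : ℕ → Finset ℕ) (r : ℕ)
    (hR : ∀ l ∈ S, (R l).card ≤ r) (a N : ℕ) :
    (((Finset.Ioc a (a + N)).filter (fun m => ∀ l ∈ S, m % l ∈ R l)).card : ℝ) ≤
      (r : ℝ) ^ S.card * ((N : ℝ) / (∏ l ∈ S, l : ℕ) + 1) := by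
  classical
  set Q : ℕ := ∏ l ∈ S, l with hQdef
  have hQ : 1 ≤ Q := Nat.one_le_iff_ne_zero.2
    (Finset.prod_ne_zero_iff.2 fun l hl => (hS l hl).ne_zero)
  set T := (Finset.Ioc a (a + N)).filter (fun m => ∀ l ∈ S, m % l ∈ R l) with hT
  have h1 : T.card ≤ (N / Q + 1) * (T.image (fun m => fun l : S => m % (l : ℕ))).card := by
    refine Finset.card_le_mul_card_image T _ ?_
    intro v hv
    rw [Finset.mem_image] at hv
    obtain ⟨m0, _, hm0⟩ := hv
    refine le_trans (Finset.card_le_card ?_) (count_mod a N Q m0)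
    intro m hm
    rw [Finset.mem_filter] at hm
    rw [Finset.mem_filter]
    refine ⟨(Finset.mem_filter.1 hm.1).1, ?_⟩
    rw [hQdef, Nat.modEq_iff_dvd, Nat.cast_prod]
    refine Finset.prod_dvd_of_coprime ?_ ?_
    · intro p hp q hq hpq
      exact Nat.isCoprime_iff_coprime.2 ((Nat.coprime_primes (hS p hp) (hS q hq)).2 hpq)
    · intro l hl
      have h8 : m % l = m0 % l := congrFun (hm.2.trans hm0.symm) ⟨l, hl⟩
      exact Nat.modEq_iff_dvd.1 h8
  have h2 : (T.image (fun m => fun l : S => m % (l : ℕ))).card ≤ r ^ S.card := by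
    have h3 : T.image (fun m => fun l : S => m % (l : ℕ)) ⊆
        Fintype.piFinset (fun l : S => R (l : ℕ)) := by
      intro v hv
      rw [Finset.mem_image] at hv
      obtain ⟨m, hm, rfl⟩ := hv
      rw [Fintype.mem_piFinset]
      intro l
      exact (Finset.mem_filter.1 hm).2 l l.2
    refine (Finset.card_le_card h3).trans ?_
    rw [Fintype.card_piFinset]
    calc ∏ l : S, (R (l : ℕ)).card ≤ ∏ _l : S, r :=
          Finset.prod_le_prod' fun l _ => hR l l.2
      _ = r ^ S.card := by simp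
  have h4 : T.card ≤ (N / Q + 1) * r ^ S.card :=
    h1.trans (Nat.mul_le_mul_left _ h2)
  have h5 : (T.card : ℝ) ≤ ((N / Q : ℕ) + 1 : ℝ) * (r : ℝ) ^ S.card := by exact_mod_cast h4
  have h6 : ((N / Q : ℕ) : ℝ) ≤ (N : ℝ) / Q := Nat.cast_div_le
  have h7 : (0 : ℝ) ≤ (r : ℝ) ^ S.card := by positivity
  nlinarith [mul_le_mul_of_nonneg_right h6 h7]


/-- the blocks -/
structure Blk (B U : ℕ → Finset ℕ) : Prop where
  zero : U 0 = ∅
  succ : ∀ j, U (j + 1) = U j ∪ B j
  dis : ∀ j, Disjoint (U j) (B j)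

lemma prod_U {M : Type*} [CommMonoid M] {B U : ℕ → Finset ℕ} (hB : Blk B U) (g : ℕ → M)
    (S : Finset ℕ) (J : ℕ) :
    ∏ l ∈ S ∩ U J, g l = ∏ i ∈ Finset.range J, ∏ l ∈ S ∩ B i, g l := by
  classical
  induction J with
  | zero => rw [hB.zero]; simp
  | succ J ih =>
    rw [Finset.prod_range_succ, ← ih, hB.succ, Finset.inter_union_distrib_left,
      Finset.prod_union]
    exact Finset.disjoint_of_subset_left Finset.inter_subset_right
          (Finset.disjoint_of_subset_right Finset.inter_subset_right (hB.dis J))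

lemma prod_U' {M : Type*} [CommMonoid M] {B U : ℕ → Finset ℕ} (hB : Blk B U) (g : ℕ → M)
    (J : ℕ) : ∏ l ∈ U J, g l = ∏ i ∈ Finset.range J, ∏ l ∈ B i, g l := by
  classical
  induction J with
  | zero => rw [hB.zero]; simp
  | succ J ih =>
    rw [Finset.prod_range_succ, ← ih, hB.succ, Finset.prod_union (hB.dis J)]

/-- sizes of the error terms -/
lemma ER_small (B : Finset ℕ) (f : ℕ → ℝ) (A : ℝ) (n : ℕ) (hf : ∀ l ∈ B, 0 ≤ f l)
    (hA : ∑ l ∈ B, f l ≤ A) : ER n B f ≤ Real.exp (4 * A) / 4 ^ n := by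
  have h0 : 0 ≤ ∑ l ∈ B, f l := Finset.sum_nonneg hf
  have hA0 : 0 ≤ A := h0.trans hA
  have h1 := ER_le B f hf n
  have h2 : (∑ l ∈ B, f l) ^ n ≤ A ^ n := pow_le_pow_left₀ h0 hA n
  have h3 := Real.pow_div_factorial_le_exp (4 * A) (by positivity) n
  have hn : (0 : ℝ) < n.factorial := by exact_mod_cast n.factorial_pos
  rw [le_div_iff₀ (by positivity)]
  rw [div_le_iff₀ hn, mul_pow] at h3
  have h4 : (n.factorial : ℝ) * ER n B f ≤ A ^ n := h1.trans h2
  have h5 : (0 : ℝ) < 4 ^ n := by positivity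
  have h6 : (n.factorial : ℝ) * (ER n B f * 4 ^ n) ≤ (n.factorial : ℝ) * Real.exp (4 * A) := by
    calc (n.factorial : ℝ) * (ER n B f * 4 ^ n) = ((n.factorial : ℝ) * ER n B f) * 4 ^ n := by ring
      _ ≤ A ^ n * 4 ^ n := mul_le_mul_of_nonneg_right h4 h5.le
      _ = 4 ^ n * A ^ n := by ring
      _ ≤ Real.exp (4 * A) * (n.factorial : ℝ) := h3
      _ = _ := by ring
  exact le_of_mul_le_mul_left h6 hn

lemma prod_eps (η X : ℝ) (κ : ℕ) (hη : 0 ≤ η) (hη1 : η ≤ 1) (hX : X / 4 ^ κ ≤ η / 2)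
    (E : ℕ → ℝ) (hE0 : ∀ i, 0 ≤ E i) (J : ℕ) (hE : ∀ i < J, E i ≤ X / 4 ^ (κ + i)) :
    ∏ i ∈ Finset.range J, (1 + E i) - 1 ≤ 2 * η := by
  have h1 : ∏ i ∈ Finset.range J, (1 + E i) ≤ Real.exp (∑ i ∈ Finset.range J, E i) := by
    rw [Real.exp_sum]
    refine Finset.prod_le_prod (fun i _ => by linarith [hE0 i]) fun i _ => ?_
    linarith [Real.add_one_le_exp (E i)]
  have h2 : ∑ i ∈ Finset.range J, E i ≤ η := by
    have h3 : ∀ i ∈ Finset.range J, E i ≤ η / 2 * (1 / 2) ^ i := by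
      intro i hi
      refine (hE i (Finset.mem_range.1 hi)).trans ?_
      have h4 : X / 4 ^ (κ + i) = X / 4 ^ κ * (1 / 4) ^ i := by
        rw [pow_add, one_div, inv_pow, div_mul_eq_div_div, div_eq_mul_inv (X / 4 ^ κ)]
      rw [h4]
      have h5 : ((1 : ℝ) / 4) ^ i ≤ (1 / 2) ^ i := pow_le_pow_left₀ (by norm_num) (by norm_num) i
      have h6 : (0 : ℝ) ≤ (1 / 4) ^ i := by positivity
      calc X / 4 ^ κ * (1 / 4) ^ i ≤ η / 2 * (1 / 4) ^ i := mul_le_mul_of_nonneg_right hX h6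
        _ ≤ η / 2 * (1 / 2) ^ i := mul_le_mul_of_nonneg_left h5 (by positivity)
    refine (Finset.sum_le_sum h3).trans ?_
    rw [← Finset.mul_sum]
    have h7 : ∀ J : ℕ, ∑ i ∈ Finset.range J, ((1 : ℝ) / 2) ^ i ≤ 2 := by
      intro J
      have : ∑ i ∈ Finset.range J, ((1 : ℝ) / 2) ^ i = 2 - 2 * (1 / 2) ^ J := by
        induction J with
        | zero => simp
        | succ J ih => rw [Finset.sum_range_succ, ih]; ring
      rw [this]
      have : (0 : ℝ) ≤ (1 / 2) ^ J := by positivity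
      linarith
    nlinarith [h7 J]
  have h8 : Real.exp (∑ i ∈ Finset.range J, E i) ≤ Real.exp η := Real.exp_le_exp.2 h2
  have h9 : Real.exp η ≤ 1 + 2 * η := by
    have := Real.abs_exp_sub_one_le (x := η) (by rw [abs_of_nonneg hη]; exact hη1)
    rw [abs_of_nonneg hη] at this
    linarith [le_abs_self (Real.exp η - 1)]
  linarith

lemma WS_zero_or (n : ℕ) (hn : 1 ≤ n) (B : Finset ℕ) (f : ℕ → ℝ) :
    WS (fun k => k = 0 ∨ k = n) B f = 1 + ER n B f := by
  classical
  rw [← ER_zero B f]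
  unfold ER
  rw [WS_def, WS_def, WS_def, ← Finset.sum_add_distrib]
  refine Finset.sum_congr rfl fun S _ => ?_
  by_cases h0 : S.card = 0
  · have : ¬ (0 = n) := by omega
    simp [h0, this]
  · have hn0 : n ≠ 0 := by omega
    by_cases h1 : S.card = n <;> simp [h0, h1, hn0]

/-- the size of the products, part one -/
lemma prod_W (w : ℝ) (hw : 1 ≤ w) (κ : ℕ) (J : ℕ) :
    ∏ i ∈ Finset.range J, (w ^ ((1 / 2 : ℝ) ^ i)) ^ (κ + i) =
      w ^ ((2 * κ + 2 : ℝ) - (1 / 2 : ℝ) ^ J * (2 * κ + 2 * J + 2)) := by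
  have hw0 : 0 < w := by linarith
  induction J with
  | zero => simp
  | succ J ih =>
    have h1 : (w ^ ((1 / 2 : ℝ) ^ J)) ^ (κ + J) = w ^ ((1 / 2 : ℝ) ^ J * ((κ + J : ℕ) : ℝ)) := by
      rw [← Real.rpow_natCast (w ^ ((1 / 2 : ℝ) ^ J)), ← Real.rpow_mul hw0.le]
    rw [Finset.prod_range_succ, ih, h1, ← Real.rpow_add hw0]
    congr 1
    push_cast
    ring

lemma prod_W_le (w : ℝ) (hw : 1 ≤ w) (κ : ℕ) (J : ℕ) :
    ∏ i ∈ Finset.range J, (w ^ ((1 / 2 : ℝ) ^ i)) ^ (κ + i) ≤ w ^ (2 * κ + 2 : ℝ) := by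
  rw [prod_W w hw]
  refine Real.rpow_le_rpow_of_exponent_le hw ?_
  have : (0 : ℝ) ≤ (1 / 2 : ℝ) ^ J * (2 * κ + 2 * J + 2) := by positivity
  linarith

lemma prod_block_le (T : Finset ℕ) (W : ℝ) (hW : 1 ≤ W) (n : ℕ) (hT : ∀ l ∈ T, (l : ℝ) ≤ W)
    (hn : T.card ≤ n) : ∏ l ∈ T, (l : ℝ) ≤ W ^ n := by
  calc ∏ l ∈ T, (l : ℝ) ≤ ∏ _l ∈ T, W := Finset.prod_le_prod (fun l _ => by positivity) hT
    _ = W ^ T.card := by simp
    _ ≤ W ^ n := pow_le_pow_right₀ hW hn

lemma prod_primes_le (T : Finset ℕ) (hT : ∀ l ∈ T, l.Prime) (W c N : ℝ) (hW0 : 0 ≤ W)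
    (hW : ∀ l ∈ T, (l : ℝ) ≤ W) (hN : 1 ≤ N) (hc : 0 < c) (hWc : W ≤ c / 8 * Real.log N) :
    ∏ l ∈ T, (l : ℝ) ≤ N ^ (c / 4) := by
  have h1 : ∏ l ∈ T, l ≤ primorial ⌊W⌋₊ := by
    unfold primorial
    refine Finset.prod_le_prod_of_subset_of_one_le' ?_ ?_
    · intro l hl
      rw [Finset.mem_filter, Finset.mem_range]
      exact ⟨Nat.lt_succ_of_le (Nat.le_floor (hW l hl)), hT l hl⟩
    · intro l hl _
      exact (Finset.mem_filter.1 hl).2.one_le
  have h2 : (∏ l ∈ T, l) ≤ 4 ^ ⌊W⌋₊ := h1.trans (primorial_le_four_pow _)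
  have h3 : ∏ l ∈ T, (l : ℝ) ≤ (4 : ℝ) ^ ⌊W⌋₊ := by
    have : ((∏ l ∈ T, l : ℕ) : ℝ) ≤ ((4 ^ ⌊W⌋₊ : ℕ) : ℝ) := by exact_mod_cast h2
    push_cast at this
    exact this
  refine h3.trans ?_
  rw [← Real.rpow_natCast]
  have h4 : (4 : ℝ) ^ ((⌊W⌋₊ : ℕ) : ℝ) ≤ (4 : ℝ) ^ (c / 8 * Real.log N) :=
    Real.rpow_le_rpow_of_exponent_le (by norm_num) ((Nat.floor_le hW0).trans hWc)
  refine h4.trans ?_
  have hlog4 : Real.log 4 ≤ 2 := by
    have : (4 : ℝ) = 2 ^ 2 := by norm_num
    rw [this, Real.log_pow]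
    have := Real.log_two_lt_d9
    push_cast
    linarith
  have hlN : 0 ≤ Real.log N := Real.log_nonneg hN
  rw [Real.rpow_def_of_pos (by norm_num : (0 : ℝ) < 4), Real.rpow_def_of_pos (by linarith : 0 < N)]
  refine Real.exp_le_exp.2 ?_
  have h5 : 0 ≤ c / 8 * Real.log N := by positivity
  nlinarith [mul_le_mul_of_nonneg_right hlog4 h5]

/-- expansion of the error term -/
lemma expand {B U : ℕ → Finset ℕ} (hB : Blk B U) (κ : ℕ) (hκ : 1 ≤ κ) (J : ℕ) (f : ℕ → ℝ) :
    ∏ i ∈ Finset.range J, (1 + ER (κ + i) (B i) f) - 1 =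
      ∑ S ∈ (fam (fun i n => n = 0 ∨ n = κ + i) B J (U J)).erase ∅, ∏ l ∈ S, f l := by
  classical
  have h1 := sum_fam (fun i n => n = 0 ∨ n = κ + i) B U f hB.zero hB.succ hB.dis J
  have h2 : ∏ i ∈ Finset.range J, (1 + ER (κ + i) (B i) f) =
      ∏ i ∈ Finset.range J, WS (fun n => n = 0 ∨ n = κ + i) (B i) f :=
    Finset.prod_congr rfl fun i _ => (WS_zero_or (κ + i) (by omega) (B i) f).symm
  rw [h2, ← h1]
  have h3 : (∅ : Finset ℕ) ∈ fam (fun i n => n = 0 ∨ n = κ + i) B J (U J) := by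
    rw [mem_fam]
    refine ⟨Finset.empty_subset _, fun i _ => ?_⟩
    left
    simp
  rw [← Finset.add_sum_erase _ _ h3]
  simp


/-- primes below `w`, real scales -/
lemma blocks (z w : ℕ) (hw : 1 ≤ w) (J : ℕ) :
    ∃ B U : ℕ → Finset ℕ, Blk B U ∧ U (J + 1) = prs z w ∧
      (∀ i, ∀ l ∈ B i, l ∈ prs z w) ∧
      (∀ i < J, ∀ l ∈ B i, (w : ℝ) ^ ((1 / 2 : ℝ) ^ (i + 1)) < l ∧ (l : ℝ) ≤ (w : ℝ) ^ ((1 / 2 : ℝ) ^ i)) ∧
      (∀ l ∈ B J, (l : ℝ) ≤ (w : ℝ) ^ ((1 / 2 : ℝ) ^ J)) := by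
  classical
  have hw1 : (1 : ℝ) ≤ w := by exact_mod_cast hw
  set W : ℕ → ℝ := fun i => (w : ℝ) ^ ((1 / 2 : ℝ) ^ i) with hW
  have hWm : ∀ i, W (i + 1) ≤ W i := by
    intro i
    refine Real.rpow_le_rpow_of_exponent_le hw1 ?_
    exact pow_le_pow_of_le_one (by norm_num) (by norm_num) (Nat.le_succ i)
  refine ⟨fun i => if i < J then (prs z w).filter (fun l : ℕ => W (i + 1) < l ∧ (l : ℝ) ≤ W i) else
      if i = J then (prs z w).filter (fun l : ℕ => (l : ℝ) ≤ W J) else ∅,
    fun i => if i ≤ J then (prs z w).filter (fun l : ℕ => W i < l) else prs z w, ⟨?_, ?_, ?_⟩,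
    ?_, ?_, ?_, ?_⟩
  · simp only [Nat.zero_le, if_true]
    rw [Finset.filter_eq_empty_iff]
    intro l hl
    have h1 : l ≤ w := (Finset.mem_Ioc.1 (Finset.mem_filter.1 hl).1).2
    have h2 : W 0 = w := by simp [hW]
    rw [h2, not_lt]
    exact_mod_cast h1
  · intro j
    rcases lt_trichotomy j J with h | h | h
    · have a1 : j + 1 ≤ J := h
      have a2 : j ≤ J := h.le
      simp only [a1, a2, h, if_true]
      ext l
      simp only [Finset.mem_union, Finset.mem_filter]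
      constructor
      · rintro ⟨b1, b2⟩
        rcases lt_or_ge (W j) l with b3 | b3
        · exact Or.inl ⟨b1, b3⟩
        · exact Or.inr ⟨b1, b2, b3⟩
      · rintro (⟨b1, b2⟩ | ⟨b1, b2, _⟩)
        · exact ⟨b1, lt_of_le_of_lt (hWm j) b2⟩
        · exact ⟨b1, b2⟩
    · subst h
      have a1 : ¬ (j + 1 ≤ j) := by omega
      have a3 : ¬ (j < j) := lt_irrefl j
      simp only [a1, a3, if_false, le_refl, if_true]
      ext l
      simp only [Finset.mem_union, Finset.mem_filter]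
      constructor
      · intro b1
        rcases lt_or_ge (W j) l with b3 | b3
        · exact Or.inl ⟨b1, b3⟩
        · exact Or.inr ⟨b1, b3⟩
      · rintro (⟨b1, _⟩ | ⟨b1, _⟩) <;> exact b1
    · have a1 : ¬ (j + 1 ≤ J) := by omega
      have a2 : ¬ (j ≤ J) := by omega
      have a3 : ¬ (j < J) := by omega
      have a4 : ¬ (j = J) := by omega
      simp only [a1, a2, a3, a4, if_false, Finset.union_empty]
  · intro j
    rcases lt_trichotomy j J with h | h | h
    · have a2 : j ≤ J := h.le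
      simp only [a2, h, if_true]
      rw [Finset.disjoint_left]
      intro l h1 h2
      rw [Finset.mem_filter] at h1 h2
      linarith [h1.2, h2.2.2]
    · subst h
      have a3 : ¬ (j < j) := lt_irrefl j
      simp only [a3, if_false, le_refl, if_true]
      rw [Finset.disjoint_left]
      intro l h1 h2
      rw [Finset.mem_filter] at h1 h2
      linarith [h1.2, h2.2]
    · have a3 : ¬ (j < J) := by omega
      have a4 : ¬ (j = J) := by omega
      simp only [a3, a4, if_false]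
      exact Finset.disjoint_empty_right _
  · have a1 : ¬ (J + 1 ≤ J) := by omega
    simp only [a1, if_false]
  · intro i l hl
    by_cases h : i < J
    · simp only [h, if_true] at hl
      exact (Finset.mem_filter.1 hl).1
    · by_cases h' : i = J
      · simp only [h', if_true, if_false, lt_irrefl] at hl
        exact (Finset.mem_filter.1 hl).1
      · simp only [h, h', if_false] at hl
        simp at hl
  · intro i hi l hl
    simp only [hi, if_true] at hl
    exact (Finset.mem_filter.1 hl).2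
  · intro l hl
    have a3 : ¬ (J < J) := lt_irrefl J
    simp only [a3, if_false, if_true] at hl
    exact (Finset.mem_filter.1 hl).2

/-- the number of error terms -/
lemma card_fam_le (G : Finset (Finset ℕ)) (X : ℝ) (hX : 0 ≤ X)
    (hG : ∀ S ∈ G, (∀ l ∈ S, l.Prime) ∧ ((∏ l ∈ S, l : ℕ) : ℝ) ≤ X) : (G.card : ℝ) ≤ X := by
  classical
  have h1 : G.card ≤ (Finset.Icc 1 ⌊X⌋₊).card := by
    refine Finset.card_le_card_of_injOn (fun S => ∏ l ∈ S, l) ?_ ?_
    · intro S hS
      have hS := hG S hS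
      simp only [Finset.coe_Icc, Set.mem_Icc]
      refine ⟨Nat.one_le_iff_ne_zero.2 (Finset.prod_ne_zero_iff.2 fun l hl => (hS.1 l hl).ne_zero),
        Nat.le_floor hS.2⟩
    · intro S hS T hT h
      have hS := hG S hS
      have hT := hG T hT
      simp only at h
      rw [← Nat.primeFactors_prod hS.1, ← Nat.primeFactors_prod hT.1, h]
  have h2 : (Finset.Icc 1 ⌊X⌋₊).card = ⌊X⌋₊ := by simp
  rw [h2] at h1
  exact (Nat.cast_le.2 h1).trans (Nat.floor_le hX)


lemma main_num {B U : ℕ → Finset ℕ} (hB : Blk B U) (A : Finset ℕ) (κ J : ℕ)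
    (hU : U (J + 1) = A) (hBA : ∀ i, ∀ l ∈ B i, l ∈ A) (e : ℕ → ℂ)
    (he : ∀ l ∈ A, ‖1 + e l‖ ≤ 1) :
    ‖∏ l ∈ A, (1 + e l) - ∑ S ∈ fam (fun i n => i < J → n < κ + i) B (J + 1) A, ∏ l ∈ S, e l‖ ≤
      ∏ i ∈ Finset.range J, (1 + ER (κ + i) (B i) (fun l => ‖e l‖)) - 1 := by
  classical
  have h1 := sum_fam (fun i n => i < J → n < κ + i) B U e hB.zero hB.succ hB.dis (J + 1)
  rw [hU] at h1
  have h2 := prod_U' hB (fun l => 1 + e l) (J + 1)
  rw [hU] at h2
  rw [h1, h2]
  have h3 := prod_diff (J + 1) (fun i => ∏ l ∈ B i, (1 + e l))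
    (fun i => WS (fun n => i < J → n < κ + i) (B i) e)
    (fun i => if i < J then ER (κ + i) (B i) (fun l => ‖e l‖) else 0) ?_ ?_
  · rw [Finset.prod_range_succ (fun i => 1 + (if i < J then ER (κ + i) (B i) (fun l => ‖e l‖) else 0))]
      at h3
    simp only [lt_irrefl, if_false, add_zero, mul_one] at h3
    refine h3.trans (le_of_eq ?_)
    congr 1
    refine Finset.prod_congr rfl fun i hi => ?_
    rw [if_pos (Finset.mem_range.1 hi)]
  · intro i
    exact norm_prod_le_one _ _ fun l hl => he l (hBA i l hl)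
  · intro i
    by_cases hi : i < J
    · have h4 : (fun n => i < J → n < κ + i) = (fun n => n < κ + i) := by
        funext n
        exact propext ⟨fun h => h hi, fun h _ => h⟩
      rw [if_pos hi, h4]
      exact bonferroni e (B i) (fun l hl => he l (hBA i l hl)) (κ + i)
    · have h4 : (fun n => i < J → n < κ + i) = (fun _ => True) := by
        funext n
        exact propext ⟨fun _ => trivial, fun _ h => absurd h hi⟩
      rw [if_neg hi, h4, WS_true]
      simp

lemma sum_local (S : Finset ℕ) (hS : ∀ l ∈ S, l.Prime) (R : ℕ → Finset ℕ) (r : ℕ)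
    (u : ℕ → ℕ → ℂ) (hu : ∀ l ∈ S, (R l).card ≤ r ∧ ∀ m, ‖1 + u l m‖ ≤ 1 ∧
      (u l m ≠ 0 → m % l ∈ R l)) (a N : ℕ) :
    ∑ m ∈ Finset.Ioc a (a + N), ∏ l ∈ S, ‖u l m‖ ≤
      (2 * r : ℝ) ^ S.card * ((N : ℝ) / (∏ l ∈ S, l : ℕ) + 1) := by
  classical
  have h1 : ∀ m ∈ Finset.Ioc a (a + N), ∏ l ∈ S, ‖u l m‖ ≤
      if (∀ l ∈ S, m % l ∈ R l) then (2 : ℝ) ^ S.card else 0 := by
    intro m _
    split_ifs with hm
    · calc ∏ l ∈ S, ‖u l m‖ ≤ ∏ _l ∈ S, (2 : ℝ) := by
            refine Finset.prod_le_prod (fun l _ => norm_nonneg _) fun l hl => ?_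
            have h2 := ((hu l hl).2 m).1
            have h3 : u l m = (1 + u l m) - 1 := by ring
            rw [h3]
            refine (norm_sub_le _ _).trans ?_
            rw [norm_one]
            linarith
        _ = 2 ^ S.card := by simp
    · push Not at hm
      obtain ⟨l, hl, hlm⟩ := hm
      have h2 : u l m = 0 := by
        by_contra h3
        exact hlm (((hu l hl).2 m).2 h3)
      refine le_of_eq (Finset.prod_eq_zero hl ?_)
      rw [h2, norm_zero]
  refine (Finset.sum_le_sum h1).trans ?_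
  rw [← Finset.sum_filter, Finset.sum_const, nsmul_eq_mul]
  have h4 := count_res S hS R r (fun l hl => (hu l hl).1) a N
  have h5 : (0 : ℝ) ≤ 2 ^ S.card := by positivity
  calc _ ≤ ((r : ℝ) ^ S.card * ((N : ℝ) / (∏ l ∈ S, l : ℕ) + 1)) * 2 ^ S.card :=
        mul_le_mul_of_nonneg_right h4 h5
    _ = _ := by rw [mul_pow]; ring

end FLAux

open FLAux Finset in
theorem p_FL (h : T_MERT) : T_FL := by
  classical
  intro r c δ hr hc hc4 hδ
  obtain ⟨C, hC, hM⟩ := h
  have hr' : (1 : ℝ) ≤ r := by exact_mod_cast hr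
  set A : ℝ := 2 * r * C with hA
  set η : ℝ := min 1 (δ / 4) with hη
  have hη0 : 0 < η := lt_min one_pos (by positivity)
  have hη1 : η ≤ 1 := min_le_left _ _
  have hηδ : 2 * η ≤ δ / 2 := by
    have : η ≤ δ / 4 := min_le_right _ _
    linarith
  obtain ⟨κ, hκ1, hκ⟩ : ∃ κ : ℕ, 1 ≤ κ ∧ Real.exp (4 * A) / 4 ^ κ ≤ η / 2 := by
    obtain ⟨n, hn⟩ := pow_unbounded_of_one_lt (Real.exp (4 * A) / (η / 2)) (by norm_num : (1 : ℝ) < 4)
    refine ⟨n + 1, by omega, ?_⟩
    rw [div_le_iff₀ (by positivity)]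
    rw [div_lt_iff₀ (by positivity)] at hn
    have : (4 : ℝ) ^ n ≤ 4 ^ (n + 1) := pow_le_pow_right₀ (by norm_num) (by omega)
    nlinarith [mul_le_mul_of_nonneg_right this (by positivity : (0 : ℝ) ≤ η / 2)]
  set s : ℝ := max 1 ((2 * κ + 2) * 2 / c) with hs
  have hs1 : 1 ≤ s := le_max_left _ _
  have hs2 : (2 * κ + 2) * 2 / c ≤ s := le_max_right _ _
  obtain ⟨N0, hN0⟩ : ∃ N0 : ℕ, ∀ N : ℕ, N0 ≤ N → 1 ≤ N ∧ 1 < c / 8 * Real.log N ∧
      (N : ℝ) ^ c ≤ δ / 2 * N := by
    refine ⟨max 1 (max (⌈Real.exp (8 / c)⌉₊ + 1) ⌈(2 / δ) ^ 2⌉₊), fun N hN => ?_⟩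
    have a1 : 1 ≤ N := (le_max_left _ _).trans hN
    have a2 : ⌈Real.exp (8 / c)⌉₊ + 1 ≤ N := ((le_max_left _ _).trans (le_max_right _ _)).trans hN
    have a3 : ⌈(2 / δ) ^ 2⌉₊ ≤ N := ((le_max_right _ _).trans (le_max_right _ _)).trans hN
    have a1' : (1 : ℝ) ≤ N := by exact_mod_cast a1
    refine ⟨a1, ?_, ?_⟩
    · have b1 : Real.exp (8 / c) < N := by
        have : Real.exp (8 / c) ≤ (⌈Real.exp (8 / c)⌉₊ : ℝ) := Nat.le_ceil _
        have b2 : ((⌈Real.exp (8 / c)⌉₊ + 1 : ℕ) : ℝ) ≤ N := by exact_mod_cast a2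
        push_cast at b2
        linarith
      have b3 : 8 / c < Real.log N := (Real.lt_log_iff_exp_lt (by linarith)).2 b1
      rw [div_lt_iff₀ hc] at b3
      linarith
    · have b1 : (2 / δ) ^ 2 ≤ N := (Nat.le_ceil _).trans (by exact_mod_cast a3)
      have b2 : 2 / δ ≤ Real.sqrt N := Real.le_sqrt_of_sq_le b1
      have b3 : (N : ℝ) ^ c ≤ Real.sqrt N := by
        rw [Real.sqrt_eq_rpow]
        exact Real.rpow_le_rpow_of_exponent_le a1' (by linarith)
      have b4 : Real.sqrt N * Real.sqrt N = N := Real.mul_self_sqrt (by positivity)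
      have b5 : 0 ≤ Real.sqrt N := Real.sqrt_nonneg _
      have b6 : 1 ≤ δ / 2 * Real.sqrt N := by
        rw [div_le_iff₀ hδ] at b2
        linarith
      calc (N : ℝ) ^ c ≤ Real.sqrt N := b3
        _ = 1 * Real.sqrt N := (one_mul _).symm
        _ ≤ (δ / 2 * Real.sqrt N) * Real.sqrt N := mul_le_mul_of_nonneg_right b6 b5
        _ = δ / 2 * N := by rw [mul_assoc, b4]
  refine ⟨s, N0, hs1, fun N z w hN hz hws => ?_⟩
  obtain ⟨hN1, hNlog, hNδ⟩ := hN0 N hN
  have hN1' : (1 : ℝ) ≤ N := by exact_mod_cast hN1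
  rcases Nat.eq_zero_or_pos w with rfl | hw
  · have hprs : prs z 0 = ∅ := by simp [prs]
    refine ⟨{∅}, ?_, ?_, ?_⟩
    · intro S hS
      rw [Finset.mem_singleton] at hS
      subst hS
      refine ⟨Finset.empty_subset _, ?_⟩
      simp only [Finset.prod_empty, Nat.cast_one]
      exact Real.one_le_rpow hN1' hc.le
    · intro e _
      rw [hprs]
      simp
      exact hδ.le
    · intro u R _ a
      rw [hprs]
      simp
      positivity
  · have hw1 : (1 : ℝ) ≤ w := by exact_mod_cast hw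
    obtain ⟨J, hJ⟩ : ∃ J : ℕ, (w : ℝ) ^ ((1 / 2 : ℝ) ^ J) ≤ c / 8 * Real.log N := by
      have hL : 0 < Real.log (c / 8 * Real.log N) := Real.log_pos hNlog
      have hlw : 0 ≤ Real.log w := Real.log_nonneg hw1
      obtain ⟨n, hn⟩ := exists_pow_lt_of_lt_one (div_pos hL (by linarith : 0 < Real.log w + 1))
        (by norm_num : (1 / 2 : ℝ) < 1)
      refine ⟨n, ?_⟩
      rw [lt_div_iff₀ (by linarith)] at hn
      have h2 : (0 : ℝ) ≤ (1 / 2) ^ n := by positivity
      rw [Real.rpow_def_of_pos (by linarith), ← Real.exp_log (by linarith : 0 < c / 8 * Real.log N)]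
      refine Real.exp_le_exp.2 ?_
      nlinarith
    obtain ⟨B, U, hB, hU, hBp, hBi, hBJ⟩ := blocks z w hw J
    have hprime : ∀ l ∈ prs z w, l.Prime := fun l hl => (Finset.mem_filter.1 hl).2
    have hzl : ∀ l ∈ prs z w, z < l := fun l hl =>
      (Finset.mem_Ioc.1 (Finset.mem_filter.1 hl).1).1
    have hUJ : U J ⊆ prs z w := by
      rw [← hU, hB.succ]
      exact Finset.subset_union_left
    -- Mertens on the blocks
    have hMert : ∀ i < J, ∑ l ∈ B i, 2 * (r : ℝ) / l ≤ A := by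
      intro i hi
      have hy1 : 1 ≤ (w : ℝ) ^ ((1 / 2 : ℝ) ^ (i + 1)) := Real.one_le_rpow hw1 (by positivity)
      have hy2 : ((w : ℝ) ^ ((1 / 2 : ℝ) ^ (i + 1))) ^ 2 = (w : ℝ) ^ ((1 / 2 : ℝ) ^ i) := by
        rw [← Real.rpow_natCast, ← Real.rpow_mul (by linarith)]
        congr 1
        rw [pow_succ]
        push_cast
        ring
      have h1 := hM _ hy1
      rw [hy2] at h1
      have h2 : ∑ l ∈ B i, 1 / (l : ℝ) ≤ C := by
        refine le_trans (Finset.sum_le_sum_of_subset_of_nonneg ?_ ?_) h1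
        · intro l hl
          rw [Finset.mem_filter, Finset.mem_Iic]
          exact ⟨Nat.le_floor (hBi i hi l hl).2, hprime l (hBp i l hl), (hBi i hi l hl).1⟩
        · intro l _ _
          positivity
      have h3 : ∑ l ∈ B i, 2 * (r : ℝ) / l = 2 * r * ∑ l ∈ B i, 1 / (l : ℝ) := by
        rw [Finset.mul_sum]
        refine Finset.sum_congr rfl fun l _ => ?_
        ring
      rw [h3]
      exact mul_le_mul_of_nonneg_left h2 (by positivity)
    -- sizes
    have hwN : (w : ℝ) ^ (2 * κ + 2 : ℝ) ≤ (N : ℝ) ^ (c / 2) := by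
      have e1 : (w : ℝ) ^ (2 * κ + 2 : ℝ) = ((w : ℝ) ^ s) ^ ((2 * κ + 2 : ℝ) / s) := by
        rw [← Real.rpow_mul (by linarith)]
        congr 1
        field_simp
      rw [e1]
      have e2 : ((w : ℝ) ^ s) ^ ((2 * κ + 2 : ℝ) / s) ≤ (N : ℝ) ^ ((2 * κ + 2 : ℝ) / s) :=
        Real.rpow_le_rpow (by positivity) hws (by positivity)
      refine e2.trans (Real.rpow_le_rpow_of_exponent_le hN1' ?_)
      rw [div_le_iff₀ (by linarith)]
      rw [div_le_iff₀ hc] at hs2
      linarith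
    have hsize : ∀ S : Finset ℕ, (∀ i < J, (S ∩ B i).card ≤ κ + i) →
        ∏ i ∈ Finset.range J, ∏ l ∈ S ∩ B i, (l : ℝ) ≤ (N : ℝ) ^ (c / 2) := by
      intro S hS
      refine le_trans ?_ ((prod_W_le w hw1 κ J).trans hwN)
      refine Finset.prod_le_prod (fun i _ => Finset.prod_nonneg fun l _ => by positivity) ?_
      intro i hi
      have hi := Finset.mem_range.1 hi
      refine prod_block_le _ _ (Real.one_le_rpow hw1 (by positivity)) _ ?_ (hS i hi)
      intro l hl
      exact (hBi i hi l (Finset.mem_inter.1 hl).2).2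
    refine ⟨fam (fun i n => i < J → n < κ + i) B (J + 1) (prs z w), ?_, ?_, ?_⟩
    · intro S hS
      rw [mem_fam] at hS
      refine ⟨hS.1, ?_⟩
      rw [Nat.cast_prod]
      have h1 := prod_U hB (fun l : ℕ => (l : ℝ)) S (J + 1)
      rw [hU, Finset.inter_eq_left.2 hS.1, Finset.prod_range_succ] at h1
      rw [h1]
      have h2 := hsize S (fun i hi => (hS.2 i (by omega) hi).le)
      have h3 : ∏ l ∈ S ∩ B J, (l : ℝ) ≤ (N : ℝ) ^ (c / 4) := by
        refine prod_primes_le _ ?_ ((w : ℝ) ^ ((1 / 2 : ℝ) ^ J)) c N (by positivity) ?_ hN1' hc hJ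
        · intro l hl
          exact hprime l (hS.1 (Finset.mem_inter.1 hl).1)
        · intro l hl
          exact hBJ l (Finset.mem_inter.1 hl).2
      calc _ ≤ (N : ℝ) ^ (c / 2) * (N : ℝ) ^ (c / 4) :=
            mul_le_mul h2 h3 (Finset.prod_nonneg fun l _ => by positivity) (by positivity)
        _ = (N : ℝ) ^ (c / 2 + c / 4) := (Real.rpow_add (by linarith) _ _).symm
        _ ≤ (N : ℝ) ^ c := Real.rpow_le_rpow_of_exponent_le hN1' (by linarith)
    · intro e he
      refine (main_num hB (prs z w) κ J hU hBp e fun l hl => (he l hl).1).trans ?_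
      refine (prod_eps η (Real.exp (4 * A)) κ hη0.le hη1 hκ _ ?_ J ?_).trans (by linarith)
      · intro i
        exact ER_nonneg _ _ _ fun l => norm_nonneg _
      · intro i hi
        refine ER_small _ _ A _ (fun l _ => norm_nonneg _) ?_
        refine le_trans (Finset.sum_le_sum fun l hl => ?_) (hMert i hi)
        exact (he l (hBp i l hl)).2
    · intro u R hu a
      set G := (fam (fun i n => n = 0 ∨ n = κ + i) B J (U J)).erase ∅ with hG
      have hGS : ∀ S ∈ G, S ⊆ U J ∧ ∀ i < J, (S ∩ B i).card ≤ κ + i := by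
        intro S hS
        have h1 := mem_fam.1 (Finset.mem_of_mem_erase hS)
        refine ⟨h1.1, fun i hi => ?_⟩
        rcases h1.2 i hi with h2 | h2
        · rw [h2]; omega
        · exact h2.le
      have hGp : ∀ S ∈ G, ∀ l ∈ S, l ∈ prs z w := fun S hS l hl => hUJ ((hGS S hS).1 hl)
      have hGQ : ∀ S ∈ G, ((∏ l ∈ S, l : ℕ) : ℝ) ≤ (N : ℝ) ^ (c / 2) := by
        intro S hS
        rw [Nat.cast_prod]
        have h1 := prod_U hB (fun l : ℕ => (l : ℝ)) S J
        rw [Finset.inter_eq_left.2 (hGS S hS).1] at h1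
        rw [h1]
        exact hsize S (hGS S hS).2
      have hGcard : (G.card : ℝ) ≤ (N : ℝ) ^ (c / 2) := by
        refine card_fam_le G _ (by positivity) fun S hS => ⟨fun l hl => ?_, hGQ S hS⟩
        exact hprime l (hGp S hS l hl)
      have hG2r : ∀ S ∈ G, (2 * r : ℝ) ^ S.card ≤ (N : ℝ) ^ (c / 2) := by
        intro S hS
        refine le_trans ?_ (hGQ S hS)
        rw [Nat.cast_prod]
        calc (2 * r : ℝ) ^ S.card = ∏ _l ∈ S, (2 * r : ℝ) := by simp
          _ ≤ ∏ l ∈ S, (l : ℝ) := by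
            refine Finset.prod_le_prod (fun l _ => by positivity) fun l hl => ?_
            have h1 := hzl l (hGp S hS l hl)
            have h2 : 2 * r ≤ l := by omega
            exact_mod_cast h2
      have key : ∀ m ∈ Finset.Ioc a (a + N),
          ‖∏ l ∈ prs z w, (1 + u l m) -
            ∑ S ∈ fam (fun i n => i < J → n < κ + i) B (J + 1) (prs z w), ∏ l ∈ S, u l m‖ ≤
          ∑ S ∈ G, ∏ l ∈ S, ‖u l m‖ := by
        intro m _
        refine (main_num hB (prs z w) κ J hU hBp (fun l => u l m)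
          fun l hl => ((hu l hl).2 m).1).trans (le_of_eq ?_)
        exact expand hB κ hκ1 J (fun l => ‖u l m‖)
      refine (Finset.sum_le_sum key).trans ?_
      rw [Finset.sum_comm]
      have h1 : ∀ S ∈ G, ∑ m ∈ Finset.Ioc a (a + N), ∏ l ∈ S, ‖u l m‖ ≤
          N * (∏ l ∈ S, 2 * (r : ℝ) / l) + (N : ℝ) ^ (c / 2) := by
        intro S hS
        refine (sum_local S (fun l hl => hprime l (hGp S hS l hl)) R r u
          (fun l hl => hu l (hGp S hS l hl)) a N).trans ?_
        have h2 : (2 * r : ℝ) ^ S.card * ((N : ℝ) / (∏ l ∈ S, l : ℕ) + 1) =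
            N * (∏ l ∈ S, 2 * (r : ℝ) / l) + (2 * r : ℝ) ^ S.card := by
          rw [Finset.prod_div_distrib, Finset.prod_const, Nat.cast_prod]
          ring
        rw [h2]
        linarith [hG2r S hS]
      refine (Finset.sum_le_sum h1).trans ?_
      rw [Finset.sum_add_distrib, ← Finset.mul_sum, Finset.sum_const, nsmul_eq_mul]
      have h3 : ∑ S ∈ G, ∏ l ∈ S, 2 * (r : ℝ) / l ≤ δ / 2 := by
        rw [hG, ← expand hB κ hκ1 J (fun l => 2 * (r : ℝ) / l)]
        refine (prod_eps η (Real.exp (4 * A)) κ hη0.le hη1 hκ _ ?_ J ?_).trans hηδ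
        · intro i
          exact ER_nonneg _ _ _ fun l => by positivity
        · intro i hi
          exact ER_small _ _ A _ (fun l _ => by positivity) (hMert i hi)
      have h4 : (G.card : ℝ) * (N : ℝ) ^ (c / 2) ≤ δ / 2 * N := by
        refine le_trans (mul_le_mul_of_nonneg_right hGcard (by positivity)) ?_
        rw [← Real.rpow_add (by linarith)]
        refine le_trans (le_of_eq ?_) hNδ
        congr 1
        ring
      have h5 := mul_le_mul_of_nonneg_left h3 (by linarith : (0 : ℝ) ≤ N)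
      nlinarith

end Pool.Agent.Ell
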