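import Pool.Agent.Ell.KeyA

set_option autoImplicit false

/-! Asymptotic Elliott conjecture: from `T_MAIN` to the final statement. -/

namespace Pool.Agent.Ell.Final

open Finset Filter Pool.Agent.Ell Pool.Agent.Ell.KeyA
open scoped BigOperators ComplexConjugate

theorem term_nonneg {r : ℕ} (f : ℕ → ℂ) (hf : ∀ n, ‖f n‖ ≤ 1) (χ : DirichletCharacter ℂ r) (t : ℝ)
    (p : ℕ) : 0 ≤ (1 - (f p * conj (χ (p : ZMod r) * nit t p)).re) / (p : ℝ) := by
  refine div_nonneg ?_ (by positivity)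
  have h1 : ‖f p * conj (χ (p : ZMod r) * nit t p)‖ ≤ 1 := by
    rw [norm_mul, RCLike.norm_conj, norm_mul]
    exact mul_le_one₀ (hf p) (by positivity)
      (mul_le_one₀ (DirichletCharacter.norm_le_one χ _) (norm_nonneg _) (norm_nit t p))
  have h2 := Complex.re_le_norm (f p * conj (χ (p : ZMod r) * nit t p))
  linarith

theorem final (hM : T_MAIN) :
    ∀ (k : ℕ) (h : Fin (k + 1) → ℕ), 1 ≤ k → Function.Injective h →
    ∀ (C : ℕ) (ε : ℝ), 0 < ε → ∃ A₀ : ℝ, ∀ A : ℝ, 2 ≤ A → A₀ ≤ A → ∀ x : ℝ, A ≤ x →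
    ∀ f : Fin (k + 1) → ArithmeticFunction ℂ,
      (∀ i, (f i).IsMultiplicative) → (∀ i n, ‖f i n‖ ≤ 1) →
      (∀ q : ℕ, 1 ≤ q → (q : ℝ) ≤ A → ∀ χ : DirichletCharacter ℂ q, ∀ t : ℝ,
          |t| ≤ A * x ^ k →
          A ≤ Real.sqrt (∑ p ∈ (Finset.Iic ⌊x⌋₊).filter Nat.Prime,
            (1 - (f 0 p * (starRingEnd ℂ) (χ (p : ZMod q) *
              (p : ℂ) ^ ((t : ℂ) * Complex.I))).re) / (p : ℝ))) →
      (∃ j₀ : Fin (k + 1), ∀ j : Fin (k + 1), j ≠ j₀ →
        ∃ r : ℕ, 1 ≤ r ∧ r ≤ C ∧ ∃ χ : DirichletCharacter ℂ r, ∃ t : ℝ, |t| ≤ x ^ C ∧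
          ∑ p ∈ (Finset.Iic ⌊x⌋₊).filter (fun p : ℕ => p.Prime ∧ x ^ (1 / A) < (p : ℝ)),
            (1 - (f j p * (starRingEnd ℂ) (χ (p : ZMod r) *
              (p : ℂ) ^ ((t : ℂ) * Complex.I))).re) / (p : ℝ) ≤ 1 / A) →
      ‖∑ n ∈ Finset.Icc 1 ⌊x⌋₊, ∏ i, f i (n + h i)‖ / x ≤ ε := by
  intro k h hk hh C ε hε
  obtain ⟨A1, X1, hA1, H⟩ := hM k h (C + 1) ε hk hh hε
  refine ⟨2 * A1 + X1 + 2 ^ C + 4, ?_⟩
  intro A hA2 hA x hx f hf hfb hdist ⟨j0, hj0⟩
  have h2C : (0 : ℝ) < 2 ^ C := by positivity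
  have hX1 : (0 : ℝ) ≤ X1 := by positivity
  have hx0 : 0 < x := by linarith
  set N := ⌊x⌋₊ with hN
  have hNx : (N : ℝ) ≤ x := Nat.floor_le hx0.le
  have hxN : x < N + 1 := Nat.lt_floor_add_one x
  have hN1 : (X1 : ℝ) + 2 ^ C + 3 ≤ N := by linarith
  have hXN : X1 ≤ N := by
    have : (X1 : ℝ) ≤ N := by linarith
    exact_mod_cast this
  have hN3 : (3 : ℝ) ≤ N := by linarith
  have hx2N : x ≤ 2 * N := by linarith
  have hfl : ⌊(N : ℝ)⌋₊ = N := Nat.floor_natCast N
  have key := H N (fun i n => f i n) hXN ?_ ?_ j0 ?_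
  · rw [div_le_iff₀ hx0]
    refine key.trans ?_
    exact mul_le_mul_of_nonneg_left hNx hε.le
  · intro i
    refine ⟨(hf i).map_one, ?_, hfb i⟩
    intro m n hmn
    exact (hf i).map_mul_of_coprime hmn
  · intro r hr hrA χ t ht
    have h1 : |t| ≤ A * x ^ k := by
      refine ht.trans ?_
      refine mul_le_mul (by linarith) (pow_le_pow_left₀ (by positivity) hNx k) (by positivity)
        (by linarith)
    have h2 := hdist r hr (by linarith) χ t h1
    have h3 : ∑ p ∈ (Finset.Iic N).filter Nat.Prime,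
            (1 - (f 0 p * (starRingEnd ℂ) (χ (p : ZMod r) *
              (p : ℂ) ^ ((t : ℂ) * Complex.I))).re) / (p : ℝ) =
        dist2 (fun n => f 0 n) χ t 1 N := by
      unfold dist2
      rw [hfl]
      refine Finset.sum_congr ?_ (fun p _ => rfl)
      ext p
      simp only [Finset.mem_filter, Finset.mem_Iic]
      constructor
      · rintro ⟨a, b⟩
        exact ⟨a, b, by exact_mod_cast b.one_lt⟩
      · rintro ⟨a, b, _⟩
        exact ⟨a, b⟩
    rw [h3] at h2
    have h4 : A ^ 2 ≤ dist2 (fun n => f 0 n) χ t 1 N := by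
      rw [Real.le_sqrt' (by linarith)] at h2
      exact h2
    nlinarith
  · intro j hj
    obtain ⟨r, hr1, hrC, χ, t, ht, hs⟩ := hj0 j hj
    refine ⟨r, χ, t, hr1, by omega, ?_, ?_⟩
    · refine ht.trans ?_
      have h1 : x ^ C ≤ (2 * N) ^ C := pow_le_pow_left₀ hx0.le hx2N C
      refine h1.trans ?_
      rw [mul_pow, pow_succ, mul_comm]
      exact mul_le_mul_of_nonneg_left (by linarith) (by positivity)
    · refine le_trans ?_ (hs.trans ?_)
      · unfold dist2
        rw [hfl]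
        refine Finset.sum_le_sum_of_subset_of_nonneg ?_ ?_
        · intro p hp
          simp only [Finset.mem_filter, Finset.mem_Iic] at hp ⊢
          refine ⟨hp.1, hp.2.1, lt_of_le_of_lt ?_ hp.2.2⟩
          have h1 : x ^ (1 / A) ≤ x ^ (1 / (2 * A1)) := by
            refine Real.rpow_le_rpow_of_exponent_le (by linarith) ?_
            exact one_div_le_one_div_of_le (by linarith) (by linarith)
          refine h1.trans ?_
          have h2 : x ≤ (N : ℝ) ^ (2 : ℝ) := by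
            rw [Real.rpow_two]
            nlinarith
          have h3 : x ^ (1 / (2 * A1)) ≤ ((N : ℝ) ^ (2 : ℝ)) ^ (1 / (2 * A1)) :=
            Real.rpow_le_rpow hx0.le h2 (by positivity)
          refine h3.trans ?_
          rw [← Real.rpow_mul (by positivity)]
          have h4 : (2 : ℝ) * (1 / (2 * A1)) = 1 / A1 := by
            field_simp
          rw [h4]
        · intro p _ _
          exact term_nonneg (fun n => f j n) (hfb j) χ t p
      · exact one_div_le_one_div_of_le (by linarith) (by linarith)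

end Pool.Agent.Ell.Final
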