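import Pool.Agent.Ell.HalTargets
import Pool.Agent.H25.Plancherel

set_option autoImplicit false

/-! Plancherel for Dirichlet series (H2). -/

namespace Pool.Agent.Ell.H2_

open Finset MeasureTheory FourierTransform
open scoped BigOperators ENNReal

/-- the pieces -/
noncomputable def hh (c : ℕ → ℂ) (s : ℂ) (n : ℕ) (v : ℝ) : ℂ :=
  (Set.Ici (Real.log n)).indicator (fun v : ℝ => (if n = 0 then 0 else c n) * Complex.exp (-s * v)) v

lemma integrable_hh (c : ℕ → ℂ) {s : ℂ} (hs : 0 < s.re) (n : ℕ) : Integrable (hh c s n) := by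
  unfold hh
  rw [integrable_indicator_iff measurableSet_Ici, integrableOn_Ici_iff_integrableOn_Ioi]
  exact (integrableOn_exp_mul_complex_Ioi (a := -s) (by simpa using hs) _).const_mul _

lemma norm_hh (c : ℕ → ℂ) (s : ℂ) (n : ℕ) (v : ℝ) : ‖hh c s n v‖ =
    (Set.Ici (Real.log n)).indicator
      (fun v : ℝ => ‖(if n = 0 then 0 else c n)‖ * Real.exp (-s.re * v)) v := by
  unfold hh
  rw [norm_indicator_eq_indicator_norm]
  have : (fun w : ℝ => ‖(if n = 0 then 0 else c n) * Complex.exp (-s * w)‖) =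
      (fun w : ℝ => ‖(if n = 0 then 0 else c n)‖ * Real.exp (-s.re * w)) := by
    funext w
    rw [norm_mul, Complex.norm_exp]
    congr 2
    simp
  rw [this]

lemma exp_log_eq {n : ℕ} (hn : n ≠ 0) (s : ℂ) :
    Complex.exp (-s * (Real.log n : ℝ)) = ((n : ℂ) ^ s)⁻¹ := by
  have hn' : (n : ℂ) ≠ 0 := by exact_mod_cast hn
  rw [Complex.cpow_def_of_ne_zero hn', ← Complex.exp_neg]
  congr 1
  rw [← Complex.natCast_log]
  ring

lemma integral_hh (c : ℕ → ℂ) {s : ℂ} (hs : 0 < s.re) (n : ℕ) :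
    ∫ v, hh c s n v = LSeries.term c s n / s := by
  unfold hh
  rw [integral_indicator measurableSet_Ici, integral_Ici_eq_integral_Ioi, integral_const_mul,
    integral_exp_mul_complex_Ioi (a := -s) (by simpa using hs)]
  by_cases hn : n = 0
  · subst hn
    simp
  · rw [if_neg hn, LSeries.term_of_ne_zero hn, exp_log_eq hn]
    have : s ≠ 0 := fun h => by simp [h] at hs
    field_simp

lemma integral_norm_hh (c : ℕ → ℂ) {s : ℂ} (hs : 0 < s.re) (n : ℕ) :
    ∫ v, ‖hh c s n v‖ = ‖LSeries.term c (s.re : ℂ) n‖ / s.re := by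
  simp_rw [norm_hh]
  rw [integral_indicator measurableSet_Ici, integral_Ici_eq_integral_Ioi, integral_const_mul,
    integral_exp_mul_Ioi (a := -s.re) (by simpa using hs)]
  by_cases hn : n = 0
  · subst hn
    simp
  · rw [if_neg hn, LSeries.norm_term_eq, if_neg hn]
    have hn' : (0 : ℝ) < n := by exact_mod_cast Nat.pos_of_ne_zero hn
    have e : Real.exp (-s.re * Real.log n) = ((n : ℝ) ^ s.re)⁻¹ := by
      rw [Real.rpow_def_of_pos hn', ← Real.exp_neg]
      congr 1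
      ring
    rw [e, Complex.ofReal_re]
    field_simp

lemma hasSum_hh (c : ℕ → ℂ) (s : ℂ) (v : ℝ) :
    HasSum (fun n => hh c s n v) (SS c (Real.exp v) * Complex.exp (-s * v)) := by
  have key : ∀ n : ℕ, n ∉ Finset.Icc 1 ⌊Real.exp v⌋₊ → hh c s n v = 0 := by
    intro n hn
    unfold hh
    by_cases h0 : n = 0
    · subst h0
      simp
    · refine Set.indicator_of_notMem ?_ _
      intro h
      apply hn
      rw [Finset.mem_Icc]
      refine ⟨Nat.one_le_iff_ne_zero.2 h0, Nat.le_floor ?_⟩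
      have hn' : (0 : ℝ) < n := by exact_mod_cast Nat.pos_of_ne_zero h0
      exact (Real.log_le_iff_le_exp hn').1 h
  have : HasSum (fun n => hh c s n v) (∑ n ∈ Finset.Icc 1 ⌊Real.exp v⌋₊, hh c s n v) :=
    hasSum_sum_of_ne_finset_zero key
  have e : ∑ n ∈ Finset.Icc 1 ⌊Real.exp v⌋₊, hh c s n v =
      SS c (Real.exp v) * Complex.exp (-s * v) := by
    rw [SS, Finset.sum_mul]
    refine Finset.sum_congr rfl fun n hn => ?_
    rw [Finset.mem_Icc] at hn
    have h0 : n ≠ 0 := by omega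
    have hn' : (0 : ℝ) < n := by exact_mod_cast Nat.pos_of_ne_zero h0
    have hle : (n : ℝ) ≤ Real.exp v := (Nat.le_floor_iff (Real.exp_pos v).le).1 hn.2
    have : v ∈ Set.Ici (Real.log n) := (Real.log_le_iff_le_exp hn').2 hle
    unfold hh
    rw [Set.indicator_of_mem this, if_neg h0]
  rw [← e]
  exact this

/-- the function `g` -/
noncomputable def gg (c : ℕ → ℂ) (s : ℂ) (v : ℝ) : ℂ := SS c (Real.exp v) * Complex.exp (-s * v)

lemma measurable_SS (c : ℕ → ℂ) : Measurable (fun v : ℝ => SS c (Real.exp v)) := by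
  have h1 : Measurable (fun k : ℕ => ∑ n ∈ Finset.Icc 1 k, c n) := measurable_from_top
  exact h1.comp (Nat.measurable_floor.comp Real.measurable_exp)

lemma measurable_gg (c : ℕ → ℂ) (s : ℂ) : Measurable (gg c s) := by
  unfold gg
  refine (measurable_SS c).mul ?_
  exact (by fun_prop : Continuous fun v : ℝ => Complex.exp (-s * v)).measurable

lemma integrable_gg {c : ℕ → ℂ} {s : ℂ} (hs : 0 < s.re) (h : LSeriesSummable c (s.re : ℂ)) :
    Integrable (gg c s) := by
  refine ⟨(measurable_gg c s).aestronglyMeasurable, ?_⟩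
  have h1 : ∀ v, ‖gg c s v‖ₑ ≤ ∑' n, ‖hh c s n v‖ₑ := by
    intro v
    have : gg c s v = ∑' n, hh c s n v := (hasSum_hh c s v).tsum_eq.symm
    rw [this]
    exact enorm_tsum_le_tsum_enorm
  have h2 : ∫⁻ v, ∑' n, ‖hh c s n v‖ₑ = ∑' n, ∫⁻ v, ‖hh c s n v‖ₑ :=
    lintegral_tsum fun n => (integrable_hh c hs n).1.enorm
  have h3 : ∀ n, ∫⁻ v, ‖hh c s n v‖ₑ = ENNReal.ofReal (‖LSeries.term c (s.re : ℂ) n‖ / s.re) := by
    intro n
    rw [← integral_norm_hh c hs n, ofReal_integral_norm_eq_lintegral_enorm (integrable_hh c hs n)]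
  have h4 : ∑' n, ENNReal.ofReal (‖LSeries.term c (s.re : ℂ) n‖ / s.re) < ⊤ :=
    (h.norm.div_const _).tsum_ofReal_lt_top
  calc ∫⁻ v, ‖gg c s v‖ₑ ≤ ∫⁻ v, ∑' n, ‖hh c s n v‖ₑ := lintegral_mono h1
    _ = ∑' n, ENNReal.ofReal (‖LSeries.term c (s.re : ℂ) n‖ / s.re) := by
        rw [h2]
        exact tsum_congr h3
    _ < ⊤ := h4

lemma integral_gg {c : ℕ → ℂ} {s : ℂ} (hs : 0 < s.re) (h : LSeriesSummable c (s.re : ℂ)) :
    ∫ v, gg c s v = LSeries c s / s := by
  have h1 : ∀ v, gg c s v = ∑' n, hh c s n v := fun v => (hasSum_hh c s v).tsum_eq.symm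
  have h2 := hasSum_integral_of_summable_integral_norm (F := hh c s) (μ := volume)
    (integrable_hh c hs) (by
      simp_rw [integral_norm_hh c hs]
      exact h.norm.div_const _)
  have h3 : HasSum (fun n => LSeries.term c s n / s) (∫ v, gg c s v) := by
    simp_rw [h1]
    simp_rw [integral_hh c hs] at h2
    exact h2
  rw [LSeries, ← tsum_div_const]
  exact h3.tsum_eq.symm

lemma gg_bdd {c : ℕ → ℂ} {s : ℂ} (hs : 0 < s.re) (h : LSeriesSummable c (s.re : ℂ)) (v : ℝ) :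
    ‖gg c s v‖ ≤ ∑' n, ‖LSeries.term c (s.re : ℂ) n‖ := by
  have h1 : gg c s v = ∑' n, hh c s n v := (hasSum_hh c s v).tsum_eq.symm
  rw [h1]
  refine tsum_of_norm_bounded h.norm.hasSum fun n => ?_
  rw [norm_hh]
  by_cases hn : n = 0
  · subst hn
    simp
  · have hn' : (0 : ℝ) < n := by exact_mod_cast Nat.pos_of_ne_zero hn
    rw [if_neg hn, LSeries.norm_term_eq, if_neg hn, Complex.ofReal_re]
    refine Set.indicator_apply_le' ?_ ?_
    · intro hv
      have e : Real.exp (-s.re * Real.log n) = ((n : ℝ) ^ s.re)⁻¹ := by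
        rw [Real.rpow_def_of_pos hn', ← Real.exp_neg]
        congr 1
        ring
      rw [div_eq_mul_inv, ← e]
      refine mul_le_mul_of_nonneg_left (Real.exp_le_exp.2 ?_) (norm_nonneg _)
      have : Real.log n ≤ v := hv
      nlinarith
    · intro _
      positivity

lemma memLp_gg {c : ℕ → ℂ} {s : ℂ} (hs : 0 < s.re) (h : LSeriesSummable c (s.re : ℂ)) :
    MemLp (gg c s) 2 := by
  have hm := (measurable_gg c s).aestronglyMeasurable (μ := volume)
  rw [memLp_two_iff_integrable_sq_norm hm]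
  refine Integrable.mono' ((integrable_gg hs h).norm.const_mul
    (∑' n, ‖LSeries.term c (s.re : ℂ) n‖)) (hm.norm.pow 2) (Filter.Eventually.of_forall fun v => ?_)
  rw [Real.norm_of_nonneg (by positivity), sq]
  exact mul_le_mul_of_nonneg_right (gg_bdd hs h v) (norm_nonneg _)

lemma fourier_gg {c : ℕ → ℂ} {σ : ℝ} (hs : 0 < σ) (h : LSeriesSummable c (σ : ℂ)) (ξ : ℝ) :
    𝓕 (gg c (σ : ℂ)) ξ = LSeries c (σ + 2 * Real.pi * ξ * Complex.I) /
      (σ + 2 * Real.pi * ξ * Complex.I) := by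
  have hre : (σ + 2 * Real.pi * ξ * Complex.I : ℂ).re = σ := by simp
  have h1 := integral_gg (c := c) (s := σ + 2 * Real.pi * ξ * Complex.I) (by rw [hre]; exact hs)
    (by rw [hre]; exact h)
  rw [← h1, Real.fourier_real_eq_integral_exp_smul]
  refine integral_congr_ae (Filter.Eventually.of_forall fun v => ?_)
  simp only [gg, smul_eq_mul]
  rw [mul_left_comm, ← Complex.exp_add]
  congr 2
  push_cast
  ring

end Pool.Agent.Ell.H2_

namespace Pool.Agent.Ell

open MeasureTheory FourierTransform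

theorem p_H2 : T_H2 := by
  intro c σ hσ h
  have hre : ((σ : ℝ) : ℂ).re = σ := Complex.ofReal_re σ
  have h' : LSeriesSummable c ((((σ : ℝ) : ℂ).re : ℝ) : ℂ) := by
    rw [hre]
    exact h
  have hpos : 0 < ((σ : ℝ) : ℂ).re := by
    rw [hre]
    exact hσ
  have h1 := Pool.Agent.H25.Plancherel.eLpNorm_fourier_eq (V := ℝ)
    (H2_.integrable_gg hpos h') (H2_.memLp_gg hpos h')
  rw [eLpNorm_eq_lintegral_rpow_enorm_toReal (by norm_num) (by norm_num),
    eLpNorm_eq_lintegral_rpow_enorm_toReal (by norm_num) (by norm_num)] at h1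
  have h2 : ∫⁻ ξ : ℝ, ‖𝓕 (H2_.gg c (σ : ℂ)) ξ‖ₑ ^ (2 : ℝ) =
      ∫⁻ v : ℝ, ‖H2_.gg c (σ : ℂ) v‖ₑ ^ (2 : ℝ) := by
    have := congrArg (fun x : ENNReal => x ^ (2 : ℝ)) h1
    simpa only [ENNReal.toReal_ofNat, ← ENNReal.rpow_mul, one_div, inv_mul_cancel₀
      (two_ne_zero : (2 : ℝ) ≠ 0), ENNReal.rpow_one] using this
  have e1 : ∀ z : ℂ, ‖z‖ₑ ^ (2 : ℝ) = ENNReal.ofReal (‖z‖ ^ 2) := by
    intro z
    rw [← ofReal_norm, ENNReal.rpow_two, ENNReal.ofReal_pow (norm_nonneg _)]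
  simp_rw [e1] at h2
  have h3 : ∫⁻ v : ℝ, ENNReal.ofReal (‖SS c (Real.exp v)‖ ^ 2 * Real.exp (-(2 * σ * v))) =
      ∫⁻ v : ℝ, ENNReal.ofReal (‖H2_.gg c (σ : ℂ) v‖ ^ 2) := by
    refine lintegral_congr fun v => ?_
    congr 1
    rw [H2_.gg, norm_mul, mul_pow, Complex.norm_exp]
    congr 1
    rw [← Real.exp_nat_mul]
    congr 1
    simp
    ring
  rw [h3, ← h2]
  refine lintegral_congr fun ξ => ?_
  congr 1
  rw [H2_.fourier_gg hσ h, norm_div, div_pow]

end Pool.Agent.Ell
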