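import Pool.Agent.Ell.HalTargets

set_option autoImplicit false

/-! Halasz's theorem `T_HAL` (MP_f3f922_nt): H3, the Euler product bound. -/

namespace Pool.Agent.Ell.H3_

open Finset
open scoped BigOperators ComplexConjugate

/-! ### Mertens' first theorem, upper bound -/

theorem sum_log_le (N : ℕ) : ∑ n ∈ Finset.Ioc 0 N, Real.log n ≤ N * Real.log N := by
  calc ∑ n ∈ Finset.Ioc 0 N, Real.log n ≤ ∑ n ∈ Finset.Ioc 0 N, Real.log N := by
        apply Finset.sum_le_sum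
        intro n hn
        rw [Finset.mem_Ioc] at hn
        apply Real.log_le_log
        · exact_mod_cast hn.1
        · exact_mod_cast hn.2
    _ = N * Real.log N := by simp

theorem sum_log_primeFactors_le (n : ℕ) (hn : 0 < n) :
    ∑ p ∈ n.primeFactors, Real.log p ≤ Real.log n := by
  rw [← Real.log_prod (fun p hp => by
    have := (Nat.prime_of_mem_primeFactors hp).pos
    positivity)]
  have h := Nat.le_of_dvd hn (Nat.prod_primeFactors_dvd n)
  have hpos : 0 < ∏ p ∈ n.primeFactors, p :=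
    Finset.prod_pos fun p hp => (Nat.prime_of_mem_primeFactors hp).pos
  rw [← Nat.cast_prod]
  apply Real.log_le_log
  · exact_mod_cast hpos
  · exact_mod_cast h

theorem sum_floor_le (N : ℕ) :
    ∑ p ∈ (Finset.Iic N).filter Nat.Prime, ((N / p : ℕ) : ℝ) * Real.log p ≤ N * Real.log N := by
  have h1 : ∑ p ∈ (Finset.Iic N).filter Nat.Prime, ((N / p : ℕ) : ℝ) * Real.log p =
      ∑ n ∈ Finset.Ioc 0 N, ∑ p ∈ n.primeFactors, Real.log p := by
    have h2 : ∀ n ∈ Finset.Ioc 0 N, ∑ p ∈ n.primeFactors, Real.log p =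
        ∑ p ∈ (Finset.Iic N).filter Nat.Prime, if p ∣ n then Real.log p else 0 := by
      intro n hn
      rw [Finset.mem_Ioc] at hn
      rw [← Finset.sum_filter]
      apply Finset.sum_congr _ fun _ _ => rfl
      ext p
      simp only [Nat.mem_primeFactors, Finset.mem_filter, Finset.mem_Iic]
      constructor
      · rintro ⟨hp, hd, _⟩
        exact ⟨⟨(Nat.le_of_dvd hn.1 hd).trans hn.2, hp⟩, hd⟩
      · rintro ⟨⟨_, hp⟩, hd⟩
        exact ⟨hp, hd, by omega⟩
    rw [Finset.sum_congr rfl h2, Finset.sum_comm]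
    apply Finset.sum_congr rfl
    intro p _
    rw [← Finset.sum_filter, Finset.sum_const, Nat.Ioc_filter_dvd_card_eq_div, nsmul_eq_mul]
  rw [h1]
  refine (Finset.sum_le_sum fun n hn => sum_log_primeFactors_le n ?_).trans (sum_log_le N)
  exact (Finset.mem_Ioc.1 hn).1

theorem theta_sum (N : ℕ) :
    ∑ p ∈ (Finset.Iic N).filter Nat.Prime, Real.log p ≤ Real.log 4 * N := by
  have h := Chebyshev.theta_le_log4_mul_x (x := (N : ℝ)) (Nat.cast_nonneg N)
  refine le_trans (le_of_eq ?_) h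
  unfold Chebyshev.theta
  rw [Nat.floor_natCast]
  apply Finset.sum_congr _ fun _ _ => rfl
  ext p
  simp only [Finset.mem_filter, Finset.mem_Iic, Finset.mem_Ioc]
  constructor
  · rintro ⟨h1, h2⟩
    exact ⟨⟨h2.pos, h1⟩, h2⟩
  · rintro ⟨⟨_, h1⟩, h2⟩
    exact ⟨h1, h2⟩

theorem mertens (x : ℝ) (hx : 1 ≤ x) :
    ∑ p ∈ (Finset.Iic ⌊x⌋₊).filter Nat.Prime, Real.log p / p ≤ Real.log x + Real.log 4 := by
  set N := ⌊x⌋₊ with hN
  have hN1 : 1 ≤ N := by
    rw [hN, Nat.one_le_floor_iff]; exact hx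
  have hN0 : (0 : ℝ) < N := by exact_mod_cast hN1
  have hNx : (N : ℝ) ≤ x := Nat.floor_le (by linarith)
  have h1 : ∑ p ∈ (Finset.Iic N).filter Nat.Prime, (N * (Real.log p / p)) ≤
      ∑ p ∈ (Finset.Iic N).filter Nat.Prime, (((N / p : ℕ) : ℝ) * Real.log p + Real.log p) := by
    apply Finset.sum_le_sum
    intro p hp
    rw [Finset.mem_filter] at hp
    have hp0 : (0 : ℝ) < p := by exact_mod_cast hp.2.pos
    have hl : 0 ≤ Real.log p := Real.log_natCast_nonneg p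
    have h2 : (N : ℝ) / p ≤ ((N / p : ℕ) : ℝ) + 1 := by
      rw [div_le_iff₀ hp0]
      have := Nat.lt_div_mul_add hp.2.pos (a := N)
      have h3 : (N : ℝ) ≤ ((N / p : ℕ) : ℝ) * p + p := by
        exact_mod_cast this.le
      linarith
    calc N * (Real.log p / p) = (N : ℝ) / p * Real.log p := by ring
      _ ≤ (((N / p : ℕ) : ℝ) + 1) * Real.log p := mul_le_mul_of_nonneg_right h2 hl
      _ = _ := by ring
  rw [Finset.sum_add_distrib, ← Finset.mul_sum] at h1
  have h2 := sum_floor_le N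
  have h3 := theta_sum N
  have h4 : N * ∑ p ∈ (Finset.Iic N).filter Nat.Prime, Real.log p / p ≤
      N * (Real.log N + Real.log 4) := by linarith
  have h5 := le_of_mul_le_mul_left h4 hN0
  have h6 : Real.log N ≤ Real.log x := Real.log_le_log hN0 hNx
  linarith

/-! ### The zeta function and the sum over primes -/

theorem zeta_le (s : ℝ) (hs : 1 < s) :
    ∑' n : ℕ, 1 / ((n : ℝ) + 1) ^ s ≤ 1 + 1 / (s - 1) := by
  have h := ZetaAsymptotics.zeta_limit_aux1 hs
  have h2 : 0 ≤ ZetaAsymptotics.termTSum s :=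
    tsum_nonneg fun n => ZetaAsymptotics.term_nonneg _ _
  have h3 : 0 ≤ s * ZetaAsymptotics.termTSum s := mul_nonneg (by linarith) h2
  linarith

/-- `n ↦ n ^ (-s)` as a monoid homomorphism. -/
noncomputable def ph (s : ℝ) : ℕ →* ℝ where
  toFun n := (n : ℝ) ^ (-s)
  map_one' := by simp
  map_mul' m n := by
    push_cast
    exact Real.mul_rpow (Nat.cast_nonneg m) (Nat.cast_nonneg n)

theorem prime_sum_exp (s : ℝ) (hs : 1 < s) (N : ℕ) :
    Real.exp (∑ p ∈ N.primesBelow, (p : ℝ) ^ (-s)) ≤ 1 + 1 / (s - 1) := by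
  have hlt : ∀ {p : ℕ}, p.Prime → ‖ph s p‖ < 1 := by
    intro p hp
    change ‖(p : ℝ) ^ (-s)‖ < 1
    rw [Real.norm_of_nonneg (by positivity)]
    exact Real.rpow_lt_one_of_one_lt_of_neg (by exact_mod_cast hp.one_lt) (by linarith)
  have h1 := (EulerProduct.summable_and_hasSum_smoothNumbers_prod_primesBelow_geometric
    hlt N).2
  have hsum : Summable fun n : ℕ => (n : ℝ) ^ (-s) := Real.summable_nat_rpow.2 (by linarith)
  have h2 : ∏ p ∈ N.primesBelow, (1 - ph s p)⁻¹ ≤ ∑' n : ℕ, (n : ℝ) ^ (-s) := by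
    rw [← h1.tsum_eq]
    exact tsum_comp_le_tsum_of_inj (f := fun n : ℕ => (n : ℝ) ^ (-s)) hsum
      (fun n => by positivity) (i := fun m : N.smoothNumbers => (m : ℕ)) Subtype.val_injective
  have h3 : ∑' n : ℕ, (n : ℝ) ^ (-s) = ∑' n : ℕ, 1 / ((n : ℝ) + 1) ^ s := by
    rw [hsum.tsum_eq_zero_add]
    rw [Nat.cast_zero, Real.zero_rpow (by linarith), zero_add]
    apply tsum_congr
    intro n
    push_cast
    rw [Real.rpow_neg (by positivity), one_div]
  rw [h3] at h2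
  refine le_trans ?_ (h2.trans (zeta_le s hs))
  rw [Real.exp_sum]
  apply Finset.prod_le_prod
  · intro p _; positivity
  · intro p hp
    have hp' := Nat.prime_of_mem_primesBelow hp
    have h4 := hlt hp'
    change ‖(p : ℝ) ^ (-s)‖ < 1 at h4
    change Real.exp ((p : ℝ) ^ (-s)) ≤ (1 - (p : ℝ) ^ (-s))⁻¹
    rw [Real.norm_of_nonneg (by positivity)] at h4
    rw [le_inv_comm₀ (Real.exp_pos _) (by linarith), ← Real.exp_neg]
    have := Real.add_one_le_exp (-(p : ℝ) ^ (-s))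
    linarith


/-! ### Local factors -/

theorem norm_one_add_le (z : ℂ) : ‖1 + z‖ ≤ Real.exp (z.re + ‖z‖ ^ 2 / 2) := by
  have h1 : ‖1 + z‖ ^ 2 = 1 + (2 * z.re + ‖z‖ ^ 2) := by
    rw [← Complex.normSq_eq_norm_sq, ← Complex.normSq_eq_norm_sq, Complex.normSq_apply,
      Complex.normSq_apply]
    simp
    ring
  have h2 : ‖1 + z‖ ^ 2 ≤ Real.exp (z.re + ‖z‖ ^ 2 / 2) ^ 2 := by
    rw [h1, ← Real.exp_nat_mul]
    have := Real.add_one_le_exp (2 * z.re + ‖z‖ ^ 2)
    have e : ((2 : ℕ) : ℝ) * (z.re + ‖z‖ ^ 2 / 2) = 2 * z.re + ‖z‖ ^ 2 := by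
      push_cast; ring
    rw [e]
    linarith
  exact (abs_le_of_sq_le_sq' h2 (Real.exp_pos _).le).2

theorem local_factor (a : ℕ → ℂ) (y : ℝ) (y0 : 0 ≤ y) (y1 : y ≤ 1 / 2) (a0 : a 0 = 1)
    (ha : ∀ e, ‖a e‖ ≤ y ^ e) :
    ‖∑' e, a e‖ ≤ Real.exp ((a 1).re + 4 * y ^ 2) := by
  have hg : Summable fun e : ℕ => y ^ e := summable_geometric_of_lt_one y0 (by linarith)
  have hsa : Summable a := Summable.of_norm_bounded hg ha
  have hs1 : Summable fun e => a (e + 1) := (summable_nat_add_iff 1).2 hsa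
  have hs2 : Summable fun e => a (e + 2) := (summable_nat_add_iff 2).2 hsa
  have e1 : ∑' e, a e = 1 + ∑' e, a (e + 1) := by rw [hsa.tsum_eq_zero_add, a0]
  have e2 : ∑' e, a (e + 1) = a 1 + ∑' e, a (e + 2) := by rw [hs1.tsum_eq_zero_add]
  have b2 : ‖∑' e, a (e + 2)‖ ≤ 2 * y ^ 2 := by
    have h : HasSum (fun e : ℕ => y ^ 2 * y ^ e) (y ^ 2 * (1 - y)⁻¹) :=
      (hasSum_geometric_of_lt_one y0 (by linarith)).mul_left _
    have h2 := tsum_of_norm_bounded h (f := fun e => a (e + 2)) (fun e => by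
      refine (ha (e + 2)).trans (le_of_eq ?_); ring)
    refine h2.trans ?_
    have h3 : (1 - y)⁻¹ ≤ 2 := by
      rw [inv_le_comm₀ (by linarith) (by norm_num)]; linarith
    nlinarith [sq_nonneg y]
  have b1 : ‖∑' e, a (e + 1)‖ ≤ 2 * y := by
    have h : HasSum (fun e : ℕ => y * y ^ e) (y * (1 - y)⁻¹) :=
      (hasSum_geometric_of_lt_one y0 (by linarith)).mul_left _
    have h2 := tsum_of_norm_bounded h (f := fun e => a (e + 1)) (fun e => by
      refine (ha (e + 1)).trans (le_of_eq ?_); ring)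
    refine h2.trans ?_
    have h3 : (1 - y)⁻¹ ≤ 2 := by
      rw [inv_le_comm₀ (by linarith) (by norm_num)]; linarith
    nlinarith
  rw [e1]
  refine (norm_one_add_le _).trans ?_
  rw [Real.exp_le_exp]
  have r1 : (∑' e, a (e + 1)).re ≤ (a 1).re + 2 * y ^ 2 := by
    rw [e2, Complex.add_re]
    have := Complex.re_le_norm (∑' e, a (e + 2))
    linarith
  have r2 : ‖∑' e, a (e + 1)‖ ^ 2 ≤ (2 * y) ^ 2 := pow_le_pow_left₀ (norm_nonneg _) b1 2
  nlinarith

theorem term_mul (f : ℕ → ℂ) (hf : MB f) (s : ℂ) (m n : ℕ) (h : Nat.Coprime m n) :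
    LSeries.term f s (m * n) = LSeries.term f s m * LSeries.term f s n := by
  rcases Nat.eq_zero_or_pos m with rfl | hm
  · simp
  rcases Nat.eq_zero_or_pos n with rfl | hn
  · simp
  rw [LSeries.term_of_ne_zero (by positivity), LSeries.term_of_ne_zero hm.ne',
    LSeries.term_of_ne_zero hn.ne', hf.mul m n h]
  push_cast
  rw [Complex.natCast_mul_natCast_cpow, mul_div_mul_comm]

theorem norm_term_pow (f : ℕ → ℂ) (hf : MB f) (s : ℂ) (hs : 1 < s.re) (p : ℕ) (hp : p.Prime)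
    (e : ℕ) : ‖LSeries.term f s (p ^ e)‖ ≤ ((p : ℝ)⁻¹) ^ e := by
  have hp0 : (0 : ℝ) < p := by exact_mod_cast hp.pos
  have hp1 : (1 : ℝ) ≤ p := by exact_mod_cast hp.one_lt.le
  rw [LSeries.norm_term_eq, if_neg (pow_ne_zero e hp.ne_zero)]
  push_cast
  rw [inv_pow, div_eq_mul_inv]
  have h1 : (((p : ℝ) ^ e) ^ s.re)⁻¹ ≤ ((p : ℝ) ^ e)⁻¹ := by
    apply inv_anti₀ (by positivity)
    calc (p : ℝ) ^ e = ((p : ℝ) ^ e) ^ (1 : ℝ) := (Real.rpow_one _).symm
      _ ≤ ((p : ℝ) ^ e) ^ s.re :=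
        Real.rpow_le_rpow_of_exponent_le (one_le_pow₀ hp1) hs.le
  have h2 := hf.bd (p ^ e)
  have h3 : (0 : ℝ) ≤ (((p : ℝ) ^ e) ^ s.re)⁻¹ := by positivity
  calc ‖f (p ^ e)‖ * (((p : ℝ) ^ e) ^ s.re)⁻¹ ≤ 1 * (((p : ℝ) ^ e) ^ s.re)⁻¹ :=
        mul_le_mul_of_nonneg_right h2 h3
    _ ≤ _ := by rw [one_mul]; exact h1

theorem local_bound (f : ℕ → ℂ) (hf : MB f) (s : ℂ) (hs : 1 < s.re) (p : ℕ) (hp : p.Prime) :
    ‖∑' e, LSeries.term f s (p ^ e)‖ ≤
      Real.exp ((LSeries.term f s p).re + 4 * (p : ℝ) ^ (-2 : ℝ)) := by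
  have hp2 : (2 : ℝ) ≤ p := by exact_mod_cast hp.two_le
  have h := local_factor (fun e => LSeries.term f s (p ^ e)) ((p : ℝ)⁻¹) (by positivity)
    (by
      rw [inv_le_comm₀ (by linarith) (by norm_num)]
      linarith)
    (by simp [LSeries.term_of_ne_zero, hf.one]) (norm_term_pow f hf s hs p hp)
  simp only [pow_one] at h
  have e : ((p : ℝ)⁻¹) ^ 2 = (p : ℝ) ^ (-2 : ℝ) := by
    rw [Real.rpow_neg (by positivity), inv_pow]
    norm_cast
  rwa [e] at h

/-- the real part `ρ_p` -/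
noncomputable def rh (f : ℕ → ℂ) (t : ℝ) (p : ℕ) : ℝ := (f p * conj (nit t p)).re

theorem norm_nit (t : ℝ) (p : ℕ) (hp : 0 < p) : ‖nit t p‖ = 1 := by
  unfold nit
  rw [Complex.norm_natCast_cpow_of_pos hp]
  simp

theorem rh_abs (f : ℕ → ℂ) (hf : MB f) (t : ℝ) (p : ℕ) (hp : 0 < p) : |rh f t p| ≤ 1 := by
  unfold rh
  refine (Complex.abs_re_le_norm _).trans ?_
  rw [norm_mul, Complex.norm_conj, norm_nit t p hp, mul_one]
  exact hf.bd p

theorem term_re (f : ℕ → ℂ) (σ t : ℝ) (p : ℕ) (hp : 0 < p) :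
    (LSeries.term f ((σ : ℂ) + t * Complex.I) p).re = (p : ℝ) ^ (-σ) * rh f t p := by
  rw [LSeries.term_of_ne_zero hp.ne']
  have hp' : (p : ℂ) ≠ 0 := by exact_mod_cast hp.ne'
  rw [Complex.cpow_add _ _ hp']
  have h1 : (p : ℂ) ^ (σ : ℂ) = (((p : ℝ) ^ σ : ℝ) : ℂ) := by
    rw [Complex.ofReal_cpow (Nat.cast_nonneg p)]
    simp
  have h2 : ((p : ℂ) ^ ((t : ℂ) * Complex.I))⁻¹ = conj (nit t p) := by
    have h3 : nit t p * conj (nit t p) = 1 := by
      rw [Complex.mul_conj, Complex.normSq_eq_norm_sq, norm_nit t p hp]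
      simp
    change (nit t p)⁻¹ = _
    exact inv_eq_of_mul_eq_one_right h3
  rw [h1, div_eq_mul_inv, mul_inv, h2]
  unfold rh
  rw [Real.rpow_neg (Nat.cast_nonneg p)]
  have h4 : f p * ((((p : ℝ) ^ σ : ℝ) : ℂ)⁻¹ * conj (nit t p)) =
      ((((p : ℝ) ^ σ)⁻¹ : ℝ) : ℂ) * (f p * conj (nit t p)) := by
    push_cast; ring
  rw [h4, Complex.re_ofReal_mul]

theorem dist2_eq (f : ℕ → ℂ) (t x : ℝ) :
    dist2 f (1 : DirichletCharacter ℂ 1) t 1 x =
      ∑ p ∈ (Finset.Iic ⌊x⌋₊).filter Nat.Prime, (1 - rh f t p) / (p : ℝ) := by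
  unfold dist2 rh
  have hs : (Finset.Iic ⌊x⌋₊).filter (fun p : ℕ => p.Prime ∧ (1 : ℝ) < p) =
      (Finset.Iic ⌊x⌋₊).filter Nat.Prime := by
    ext p
    simp only [Finset.mem_filter, Finset.mem_Iic]
    constructor
    · rintro ⟨h1, h2, _⟩; exact ⟨h1, h2⟩
    · rintro ⟨h1, h2⟩; exact ⟨h1, h2, by exact_mod_cast h2.one_lt⟩
  rw [hs]
  apply Finset.sum_congr rfl
  intro p _
  rw [MulChar.one_apply (isUnit_of_subsingleton _), one_mul]


theorem sum_below (f : ℕ → ℂ) (hf : MB f) (x t : ℝ) (hx : 3 ≤ x) (hL : 1 ≤ Real.log x) (N : ℕ)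
    (hN : ⌊x⌋₊ < N) :
    dist2 f (1 : DirichletCharacter ℂ 1) t 1 x - 5 ≤
      ∑ p ∈ N.primesBelow, (p : ℝ) ^ (-(1 + 1 / Real.log x)) * (1 - rh f t p) := by
  set L := Real.log x with hLd
  have hL0 : 0 < L := by linarith
  have hsub : (Finset.Iic ⌊x⌋₊).filter Nat.Prime ⊆ N.primesBelow := by
    intro p hp
    rw [Finset.mem_filter, Finset.mem_Iic] at hp
    rw [Nat.mem_primesBelow]
    exact ⟨by omega, hp.2⟩
  have h1 : ∑ p ∈ (Finset.Iic ⌊x⌋₊).filter Nat.Prime,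
      (p : ℝ) ^ (-(1 + 1 / L)) * (1 - rh f t p) ≤
      ∑ p ∈ N.primesBelow, (p : ℝ) ^ (-(1 + 1 / L)) * (1 - rh f t p) := by
    apply Finset.sum_le_sum_of_subset_of_nonneg hsub
    intro p hp _
    have := rh_abs f hf t p (Nat.prime_of_mem_primesBelow hp).pos
    rw [abs_le] at this
    exact mul_nonneg (by positivity) (by linarith [this.2])
  have h2 : ∑ p ∈ (Finset.Iic ⌊x⌋₊).filter Nat.Prime,
      ((1 - rh f t p) / (p : ℝ) - 2 / L * (Real.log p / p)) ≤
      ∑ p ∈ (Finset.Iic ⌊x⌋₊).filter Nat.Prime,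
      (p : ℝ) ^ (-(1 + 1 / L)) * (1 - rh f t p) := by
    apply Finset.sum_le_sum
    intro p hp
    rw [Finset.mem_filter, Finset.mem_Iic] at hp
    have hp0 : (0 : ℝ) < p := by exact_mod_cast hp.2.pos
    have hr := rh_abs f hf t p hp.2.pos
    rw [abs_le] at hr
    have hlp : 0 ≤ Real.log p := Real.log_natCast_nonneg p
    have e1 : (p : ℝ) ^ (-(1 + 1 / L)) = (p : ℝ)⁻¹ * Real.exp (-(Real.log p / L)) := by
      rw [neg_add, Real.rpow_add hp0, Real.rpow_neg_one]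
      congr 1
      rw [Real.rpow_def_of_pos hp0]
      congr 1
      ring
    rw [e1]
    have e2 : 1 - Real.log p / L ≤ Real.exp (-(Real.log p / L)) := by
      have := Real.add_one_le_exp (-(Real.log p / L))
      linarith
    have e3 : (p : ℝ)⁻¹ * (1 - Real.log p / L) * (1 - rh f t p) ≤
        (p : ℝ)⁻¹ * Real.exp (-(Real.log p / L)) * (1 - rh f t p) := by
      apply mul_le_mul_of_nonneg_right _ (by linarith [hr.2])
      exact mul_le_mul_of_nonneg_left e2 (by positivity)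
    refine le_trans ?_ e3
    have e4 : 0 ≤ (p : ℝ)⁻¹ * (Real.log p / L) * (2 - (1 - rh f t p)) := by
      apply mul_nonneg (by positivity) (by linarith [hr.1])
    have e5 : (p : ℝ)⁻¹ * (1 - Real.log p / L) * (1 - rh f t p) -
        ((1 - rh f t p) / (p : ℝ) - 2 / L * (Real.log p / p)) =
        (p : ℝ)⁻¹ * (Real.log p / L) * (2 - (1 - rh f t p)) := by
      field_simp
      ring
    linarith
  rw [Finset.sum_sub_distrib, ← Finset.mul_sum, ← dist2_eq] at h2
  have h3 := mertens x (by linarith)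
  have h4 : 2 / L * ∑ p ∈ (Finset.Iic ⌊x⌋₊).filter Nat.Prime, Real.log p / p ≤
      2 / L * (L + Real.log 4) := mul_le_mul_of_nonneg_left h3 (by positivity)
  have h5 : Real.log 4 ≤ 3 / 2 := by
    have : Real.log 4 = 2 * Real.log 2 := by
      rw [show (4 : ℝ) = 2 ^ 2 by norm_num, Real.log_pow]; norm_num
    rw [this]
    have := Real.log_two_lt_d9
    linarith
  have h6 : 2 / L * (L + Real.log 4) ≤ 5 := by
    have : 2 / L * (L + Real.log 4) = 2 + 2 * Real.log 4 / L := by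
      field_simp
    rw [this]
    have h7 : 2 * Real.log 4 / L ≤ 3 := by
      rw [div_le_iff₀ hL0]
      linarith
    linarith
  linarith

theorem part_bound (f : ℕ → ℂ) (hf : MB f) (x t : ℝ) (hx : 3 ≤ x) (hL : 1 ≤ Real.log x)
    (N : ℕ) (hN : ⌊x⌋₊ < N) :
    ‖∏ p ∈ N.primesBelow, ∑' e, LSeries.term f
      ((((1 + 1 / Real.log x : ℝ)) : ℂ) + t * Complex.I) (p ^ e)‖ ≤
      2 * Real.exp 9 * Real.log x *
        Real.exp (-(dist2 f (1 : DirichletCharacter ℂ 1) t 1 x)) := by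
  set L := Real.log x with hLd
  have hL0 : 0 < L := by linarith
  set σ : ℝ := 1 + 1 / L with hσ
  have hσ1 : 1 < σ := by
    have : 0 < 1 / L := by positivity
    linarith
  set s : ℂ := (σ : ℂ) + t * Complex.I with hs
  have hsre : s.re = σ := by simp [hs]
  rw [norm_prod]
  have h1 : ∏ p ∈ N.primesBelow, ‖∑' e, LSeries.term f s (p ^ e)‖ ≤
      ∏ p ∈ N.primesBelow, Real.exp ((LSeries.term f s p).re + 4 * (p : ℝ) ^ (-2 : ℝ)) := by
    apply Finset.prod_le_prod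
    · intro p _; exact norm_nonneg _
    · intro p hp
      exact local_bound f hf s (by rw [hsre]; exact hσ1) p (Nat.prime_of_mem_primesBelow hp)
  refine h1.trans ?_
  rw [← Real.exp_sum, Finset.sum_add_distrib]
  have h2 : ∑ p ∈ N.primesBelow, (LSeries.term f s p).re =
      ∑ p ∈ N.primesBelow, (p : ℝ) ^ (-σ) -
        ∑ p ∈ N.primesBelow, (p : ℝ) ^ (-σ) * (1 - rh f t p) := by
    rw [← Finset.sum_sub_distrib]
    apply Finset.sum_congr rfl
    intro p hp
    rw [hs, term_re f σ t p (Nat.prime_of_mem_primesBelow hp).pos]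
    ring
  have h3 := sum_below f hf x t hx hL N hN
  rw [← hLd, ← hσ] at h3
  have h4 : ∑ p ∈ N.primesBelow, 4 * (p : ℝ) ^ (-2 : ℝ) ≤ 4 := by
    rw [← Finset.mul_sum]
    have h5 := prime_sum_exp 2 (by norm_num) N
    have h6 := Real.add_one_le_exp (∑ p ∈ N.primesBelow, (p : ℝ) ^ (-2 : ℝ))
    norm_num at h5 h6 ⊢
    linarith
  have h7 := prime_sum_exp σ hσ1 N
  have h8 : 1 + 1 / (σ - 1) ≤ 2 * L := by
    have : σ - 1 = 1 / L := by rw [hσ]; ring
    rw [this, one_div_one_div]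
    linarith
  calc Real.exp (∑ p ∈ N.primesBelow, (LSeries.term f s p).re +
        ∑ p ∈ N.primesBelow, 4 * (p : ℝ) ^ (-2 : ℝ))
      ≤ Real.exp (∑ p ∈ N.primesBelow, (p : ℝ) ^ (-σ) +
          (9 + -(dist2 f (1 : DirichletCharacter ℂ 1) t 1 x))) := by
        rw [Real.exp_le_exp, h2]
        linarith
    _ = Real.exp (∑ p ∈ N.primesBelow, (p : ℝ) ^ (-σ)) *
          (Real.exp 9 * Real.exp (-(dist2 f (1 : DirichletCharacter ℂ 1) t 1 x))) := by
        rw [Real.exp_add, Real.exp_add]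
    _ ≤ (2 * L) * (Real.exp 9 * Real.exp (-(dist2 f (1 : DirichletCharacter ℂ 1) t 1 x))) :=
        mul_le_mul_of_nonneg_right (h7.trans h8) (by positivity)
    _ = _ := by ring

end Pool.Agent.Ell.H3_

namespace Pool.Agent.Ell

open H3_

theorem p_H3 : T_H3 := by
  refine ⟨2 * Real.exp 9, by positivity, ?_⟩
  intro f hf x t hx
  have hL : 1 ≤ Real.log x := by
    rw [Real.le_log_iff_exp_le (by linarith)]
    have := Real.exp_one_lt_d9
    linarith
  have hL0 : 0 < Real.log x := by linarith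
  have hse : (1 : ℂ) + ((1 / Real.log x : ℝ) : ℂ) + t * Complex.I =
      (((1 + 1 / Real.log x : ℝ)) : ℂ) + t * Complex.I := by
    push_cast; ring
  rw [hse]
  set s : ℂ := (((1 + 1 / Real.log x : ℝ)) : ℂ) + t * Complex.I with hs
  have hsre : 1 < s.re := by
    have : s.re = 1 + 1 / Real.log x := by simp [hs]
    rw [this]
    have : 0 < 1 / Real.log x := by positivity
    linarith
  have hsum : LSeriesSummable f s :=
    LSeriesSummable_of_bounded_of_one_lt_re (m := 1) (fun n _ => hf.bd n) hsre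
  have hE := EulerProduct.eulerProduct (f := LSeries.term f s)
    (by simp [LSeries.term_of_ne_zero, hf.one])
    (fun {m n} h => term_mul f hf s m n h) hsum.norm (LSeries.term_zero f s)
  have hE' := hE.norm
  apply le_of_tendsto hE'
  filter_upwards [Filter.eventually_gt_atTop ⌊x⌋₊] with N hN
  exact part_bound f hf x t hx hL N hN

end Pool.Agent.Ell
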