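import Pool.Agent.Ell.HalTargets

set_option autoImplicit false

/-! Halasz, H4: the mean square bound. -/

namespace Pool.Agent.Ell.H4_

open Finset MeasureTheory
open scoped BigOperators ComplexConjugate

/-- `f(p) log p` on primes -/
noncomputable def gl (f : ℕ → ℂ) (n : ℕ) : ℂ := if n.Prime then f n * (Real.log n : ℂ) else 0

theorem gl_norm {f : ℕ → ℂ} (hf : MB f) (n : ℕ) : ‖gl f n‖ ≤ Real.log n := by
  unfold gl
  split_ifs with h
  · rw [norm_mul, Complex.norm_real, Real.norm_of_nonneg (Real.log_natCast_nonneg n)]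
    exact mul_le_of_le_one_left (Real.log_natCast_nonneg n) (hf.bd n)
  · simpa using Real.log_natCast_nonneg n

theorem SS_eq_Ioc (c : ℕ → ℂ) (u : ℝ) : SS c u = ∑ n ∈ Finset.Ioc 0 ⌊u⌋₊, c n := by
  unfold SS
  refine Finset.sum_congr ?_ fun _ _ => rfl
  ext n
  simp only [Finset.mem_Icc, Finset.mem_Ioc]
  omega

theorem PS_eq (f : ℕ → ℂ) (u : ℝ) : PS f u = SS (LSeries.convolution (gl f) f) u := by
  rw [SS_eq_Ioc, LSeries.convolution, ArithmeticFunction.sum_Ioc_mul_eq_sum_sum]
  unfold PS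
  rw [Finset.sum_filter]
  have hI : Finset.Icc 1 ⌊u⌋₊ = Finset.Ioc 0 ⌊u⌋₊ := by
    ext n
    simp [Finset.mem_Icc, Finset.mem_Ioc]
    omega
  rw [hI]
  refine Finset.sum_congr rfl fun p hp => ?_
  have hp0 : p ≠ 0 := by
    have := (Finset.mem_Ioc.1 hp).1
    omega
  rw [SS_eq_Ioc, Nat.floor_div_natCast]
  have h1 : ∑ m ∈ Finset.Ioc 0 (⌊u⌋₊ / p), (toArithmeticFunction f) m =
      ∑ m ∈ Finset.Ioc 0 (⌊u⌋₊ / p), f m := by
    refine Finset.sum_congr rfl fun m hm => ?_
    have hm0 : m ≠ 0 := by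
      have := (Finset.mem_Ioc.1 hm).1
      omega
    simp [toArithmeticFunction, hm0]
  rw [h1]
  simp only [toArithmeticFunction, ArithmeticFunction.coe_mk, hp0, if_false, gl]
  split_ifs <;> simp

/-- `∑ n^{-1-β} ≤ 1 + 1/β` -/
theorem zeta_le {s : ℝ} (hs : 1 < s) : ∑' n : ℕ, 1 / ((n : ℝ) + 1) ^ s ≤ 1 + 1 / (s - 1) := by
  have h := ZetaAsymptotics.zeta_limit_aux1 hs
  have h0 : 0 ≤ s * ZetaAsymptotics.termTSum s := by
    refine mul_nonneg (by linarith) ?_
    unfold ZetaAsymptotics.termTSum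
    exact tsum_nonneg fun n => ZetaAsymptotics.term_nonneg _ _
  linarith

theorem log_le {β : ℝ} (hβ : 0 < β) (n : ℕ) :
    Real.log n ≤ (1 / β) * (n : ℝ) ^ β := by
  have := Real.log_le_rpow_div (Nat.cast_nonneg n) hβ
  rw [one_div, inv_mul_eq_div]
  exact this

theorem gl_summable {f : ℕ → ℂ} (hf : MB f) {s : ℂ} (hs : 1 < s.re) : LSeriesSummable (gl f) s := by
  set β := (s.re - 1) / 2 with hβ
  have hβ0 : 0 < β := by rw [hβ]; linarith
  refine LSeriesSummable_of_le_const_mul_rpow (x := 1 + β) (by rw [hβ]; linarith)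
    ⟨1 / β, fun n hn => ?_⟩
  refine (gl_norm hf n).trans ?_
  have := log_le hβ0 n
  simpa using this

theorem f_summable {f : ℕ → ℂ} (hf : MB f) {s : ℂ} (hs : 1 < s.re) : LSeriesSummable f s :=
  LSeriesSummable_of_bounded_of_one_lt_re (m := 1) (fun n _ => hf.bd n) hs

/-- the bound for `G` -/
theorem G_bound {f : ℕ → ℂ} (hf : MB f) {α : ℝ} (hα : 0 < α) (hα1 : α ≤ 1) {s : ℂ}
    (hs : s.re = 1 + α) : ‖LSeries (gl f) s‖ ≤ 6 / α ^ 2 := by
  have hs1 : 1 < s.re := by rw [hs]; linarith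
  have hsum := (gl_summable hf hs1).norm
  have hz : Summable fun n : ℕ => 1 / ((n : ℝ) + 1) ^ (1 + α / 2) := by
    have := (Real.summable_one_div_nat_rpow (p := 1 + α / 2)).2 (by linarith)
    have h2 := (summable_nat_add_iff 1).2 this
    simpa using h2
  calc ‖LSeries (gl f) s‖ ≤ ∑' n, ‖LSeries.term (gl f) s n‖ := norm_tsum_le_tsum_norm hsum
    _ = ∑' n, ‖LSeries.term (gl f) s (n + 1)‖ := by
        rw [hsum.tsum_eq_zero_add]
        simp
    _ ≤ ∑' n : ℕ, (2 / α) * (1 / ((n : ℝ) + 1) ^ (1 + α / 2)) := by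
        refine Summable.tsum_le_tsum (fun n => ?_) ((summable_nat_add_iff 1).2 hsum)
          (hz.mul_left _)
        rw [LSeries.norm_term_eq, if_neg (Nat.succ_ne_zero n), hs]
        have hn : (0 : ℝ) < (n : ℝ) + 1 := by positivity
        have h1 := (gl_norm hf (n + 1)).trans (log_le (β := α / 2) (by positivity)
          (n + 1))
        push_cast at h1 ⊢
        rw [div_le_iff₀ (Real.rpow_pos_of_pos hn _)]
        refine h1.trans (le_of_eq ?_)
        have h3 : ((n : ℝ) + 1) ^ (1 + α) = ((n : ℝ) + 1) ^ (1 + α / 2) * ((n : ℝ) + 1) ^ (α / 2) := by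
          rw [← Real.rpow_add hn]
          ring_nf
        rw [h3]
        have h4 := (Real.rpow_pos_of_pos hn (1 + α / 2)).ne'
        field_simp
    _ = (2 / α) * ∑' n : ℕ, (1 / ((n : ℝ) + 1) ^ (1 + α / 2)) := tsum_mul_left
    _ ≤ (2 / α) * (1 + 1 / (α / 2)) := by
        refine mul_le_mul_of_nonneg_left ?_ (by positivity)
        have := zeta_le (s := 1 + α / 2) (by linarith)
        simpa using this
    _ ≤ 6 / α ^ 2 := by
        rw [div_mul_eq_mul_div, div_le_div_iff₀ hα (by positivity)]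
        have : 2 * (1 + 1 / (α / 2)) * α ^ 2 = (2 * α + 4) * α := by
          field_simp
          ring
        rw [this]
        nlinarith

theorem dist2_nonneg {f : ℕ → ℂ} (hf : MB f) (t x : ℝ) :
    0 ≤ dist2 f (1 : DirichletCharacter ℂ 1) t 1 x := by
  unfold dist2
  refine Finset.sum_nonneg fun p hp => div_nonneg ?_ (Nat.cast_nonneg p)
  have h1 : ‖f p * conj ((1 : DirichletCharacter ℂ 1) (p : ZMod 1) * nit t p)‖ ≤ 1 := by
    rw [norm_mul, RCLike.norm_conj, norm_mul]
    have h2 : ‖(1 : DirichletCharacter ℂ 1) (p : ZMod 1)‖ ≤ 1 := DirichletCharacter.norm_le_one _ _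
    have h3 : ‖nit t p‖ ≤ 1 := by
      unfold nit
      rcases Nat.eq_zero_or_pos p with h | h
      · subst h
        by_cases ht : (t : ℂ) * Complex.I = 0
        · rw [ht]; simp
        · rw [Nat.cast_zero, Complex.zero_cpow ht]; simp
      · rw [Complex.norm_natCast_cpow_of_pos h]
        simp
    calc ‖f p‖ * (‖(1 : DirichletCharacter ℂ 1) (p : ZMod 1)‖ * ‖nit t p‖) ≤ 1 * (1 * 1) := by
          gcongr
          exact hf.bd p
      _ = 1 := by norm_num
  have := (Complex.re_le_norm _).trans h1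
  linarith

/-- the tail integral -/
theorem tail_int {x : ℝ} (hx : 0 < x) :
    ∫⁻ ξ : ℝ, ENNReal.ofReal ((2 / x ^ 2) * (1 + (2 * Real.pi / x * ξ) ^ 2)⁻¹) =
      ENNReal.ofReal (1 / x) := by
  have hc : 0 < 2 * Real.pi / x := by positivity
  have hI : Integrable fun ξ : ℝ => (2 / x ^ 2) * (1 + (2 * Real.pi / x * ξ) ^ 2)⁻¹ :=
    (integrable_inv_one_add_sq.comp_mul_left' hc.ne').const_mul _
  rw [← ofReal_integral_eq_lintegral_ofReal hI (Filter.Eventually.of_forall fun ξ => by positivity),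
    integral_const_mul, Measure.integral_comp_mul_left (fun ξ : ℝ => (1 + ξ ^ 2)⁻¹),
    integral_univ_inv_one_add_sq, abs_of_pos (inv_pos.2 hc), smul_eq_mul]
  congr 1
  have := Real.pi_pos.ne'
  field_simp

/-- mean square of the sum over primes -/
theorem theta_int {f : ℕ → ℂ} (hf : MB f) {α : ℝ} (hα : 0 < α) :
    ∫⁻ v : ℝ, ENNReal.ofReal (‖SS (gl f) (Real.exp v)‖ ^ 2 * Real.exp (-(2 * (1 + α) * v))) ≤
      ENNReal.ofReal (Real.log 4 ^ 2 / (2 * α)) := by
  have hb : ∀ v : ℝ, ‖SS (gl f) (Real.exp v)‖ ≤ Real.log 4 * Real.exp v := by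
    intro v
    refine le_trans ?_ (Chebyshev.theta_le_log4_mul_x (Real.exp_pos v).le)
    rw [Chebyshev.theta_eq_sum_Icc, Finset.sum_filter]
    unfold SS
    refine (norm_sum_le _ _).trans ?_
    have hsub : Finset.Icc 1 ⌊Real.exp v⌋₊ ⊆ Finset.Icc 0 ⌊Real.exp v⌋₊ :=
      Finset.Icc_subset_Icc_left (by norm_num)
    refine le_trans (Finset.sum_le_sum fun n _ => ?_)
      (Finset.sum_le_sum_of_subset_of_nonneg hsub fun n _ _ => ?_)
    · unfold gl
      split_ifs with h
      · rw [norm_mul, Complex.norm_real, Real.norm_of_nonneg (Real.log_natCast_nonneg n)]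
        exact mul_le_of_le_one_left (Real.log_natCast_nonneg n) (hf.bd n)
      · simp
    · split_ifs
      · exact Real.log_natCast_nonneg n
      · exact le_rfl
  have h0 : ∀ v : ℝ, v < 0 → SS (gl f) (Real.exp v) = 0 := by
    intro v hv
    unfold SS
    have : ⌊Real.exp v⌋₊ = 0 := by
      rw [Nat.floor_eq_zero]
      simpa using hv
    rw [this]
    simp
  have hI : IntegrableOn (fun v : ℝ => Real.log 4 ^ 2 * Real.exp (-(2 * α) * v)) (Set.Ioi 0) :=
    (integrableOn_exp_mul_Ioi (by linarith) 0).const_mul _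
  calc ∫⁻ v : ℝ, ENNReal.ofReal (‖SS (gl f) (Real.exp v)‖ ^ 2 * Real.exp (-(2 * (1 + α) * v)))
      ≤ ∫⁻ v : ℝ, (Set.Ici 0).indicator
          (fun v => ENNReal.ofReal (Real.log 4 ^ 2 * Real.exp (-(2 * α) * v))) v := by
        refine lintegral_mono fun v => ?_
        by_cases hv : v < 0
        · rw [h0 v hv]
          simp
        · rw [Set.indicator_of_mem (show v ∈ Set.Ici (0 : ℝ) from not_lt.1 hv)]
          refine ENNReal.ofReal_le_ofReal ?_
          have h2 : Real.exp (-(2 * α) * v) = Real.exp v ^ 2 * Real.exp (-(2 * (1 + α) * v)) := by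
            rw [← Real.exp_nat_mul, ← Real.exp_add]
            push_cast
            ring_nf
          rw [h2, ← mul_assoc, ← mul_pow]
          gcongr
          exact hb v
    _ = ∫⁻ v in Set.Ioi (0 : ℝ), ENNReal.ofReal (Real.log 4 ^ 2 * Real.exp (-(2 * α) * v)) := by
        rw [lintegral_indicator measurableSet_Ici, ← restrict_Ioi_eq_restrict_Ici]
    _ = ENNReal.ofReal (Real.log 4 ^ 2 / (2 * α)) := by
        rw [← ofReal_integral_eq_lintegral_ofReal hI
          (Filter.Eventually.of_forall fun v => by positivity), integral_const_mul,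
          integral_exp_mul_Ioi (by linarith) 0]
        congr 1
        rw [mul_zero, Real.exp_zero]
        field_simp

end Pool.Agent.Ell.H4_

namespace Pool.Agent.Ell

open Finset MeasureTheory
open scoped BigOperators ComplexConjugate

theorem p_H4 (h2 : T_H2) (h3 : T_H3) : T_H4 := by
  obtain ⟨C3, hC3, h3⟩ := h3
  refine ⟨Real.exp 2 * (C3 ^ 2 * (Real.log 4 ^ 2) + (6 * C3) ^ 2) , ?_, ?_⟩
  · positivity
  intro f hf x A hx hA hd
  set l := Real.log x with hl
  have hx0 : 0 < x := by linarith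
  have hl1 : 1 ≤ l := by
    rw [hl, Real.le_log_iff_exp_le hx0]
    have := Real.exp_one_lt_d9
    linarith
  have hl0 : 0 < l := by linarith
  set α := 1 / l with hα
  have hα0 : 0 < α := by positivity
  have hα1 : α ≤ 1 := by
    rw [hα, div_le_one hl0]
    exact hl1
  have hre : ∀ ξ : ℝ, (((1 + α : ℝ) : ℂ) + 2 * Real.pi * ξ * Complex.I).re = 1 + α := by
    intro ξ
    simp
  have him : ∀ ξ : ℝ, (((1 + α : ℝ) : ℂ) + 2 * Real.pi * ξ * Complex.I).im = 2 * Real.pi * ξ := by
    intro ξ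
    simp
  have hσ : 1 < (((1 + α : ℝ) : ℂ)).re := by
    simp only [Complex.ofReal_re]
    linarith
  have e1 := h2 (LSeries.convolution (H4_.gl f) f) (1 + α) (by linarith)
    ((H4_.gl_summable hf hσ).convolution (H4_.f_summable hf hσ))
  have e2 := h2 (H4_.gl f) (1 + α) (by linarith) (H4_.gl_summable hf hσ)
  have e3 := H4_.theta_int hf hα0
  rw [e2] at e3
  have e4 : ∫⁻ ξ : ℝ, ENNReal.ofReal
      (‖LSeries (LSeries.convolution (H4_.gl f) f) (((1 + α : ℝ) : ℂ) + 2 * Real.pi * ξ * Complex.I)‖ ^ 2 /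
      ‖(((1 + α : ℝ) : ℂ) + 2 * Real.pi * ξ * Complex.I : ℂ)‖ ^ 2) ≤
      ENNReal.ofReal ((C3 * l * Real.exp (-A)) ^ 2) * ENNReal.ofReal (Real.log 4 ^ 2 / (2 * α)) +
      ENNReal.ofReal ((6 * C3 * l ^ 3) ^ 2) * ENNReal.ofReal (1 / x) := by
    rw [← H4_.tail_int hx0]
    calc _ ≤ ∫⁻ ξ : ℝ, (ENNReal.ofReal ((C3 * l * Real.exp (-A)) ^ 2) * ENNReal.ofReal
          (‖LSeries (H4_.gl f) (((1 + α : ℝ) : ℂ) + 2 * Real.pi * ξ * Complex.I)‖ ^ 2 /
          ‖(((1 + α : ℝ) : ℂ) + 2 * Real.pi * ξ * Complex.I : ℂ)‖ ^ 2) +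
          ENNReal.ofReal ((6 * C3 * l ^ 3) ^ 2) *
            ENNReal.ofReal ((2 / x ^ 2) * (1 + (2 * Real.pi / x * ξ) ^ 2)⁻¹)) := by
          refine lintegral_mono fun ξ => ?_
          rw [← ENNReal.ofReal_mul (by positivity), ← ENNReal.ofReal_mul (by positivity),
            ← ENNReal.ofReal_add (by positivity) (by positivity)]
          refine ENNReal.ofReal_le_ofReal ?_
          have hs1 : 1 < (((1 + α : ℝ) : ℂ) + 2 * Real.pi * ξ * Complex.I).re := by
            rw [hre]
            linarith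
          rw [LSeries_convolution' (H4_.gl_summable hf hs1) (H4_.f_summable hf hs1), norm_mul]
          have hFe : LSeries f (((1 + α : ℝ) : ℂ) + 2 * Real.pi * ξ * Complex.I) =
              LSeries f (1 + (1 / Real.log x : ℝ) + (2 * Real.pi * ξ : ℝ) * Complex.I) := by
            congr 1
            rw [hα]
            push_cast
            ring
          have hF := h3 f hf x (2 * Real.pi * ξ) hx
          rw [← hFe] at hF
          have hG := H4_.G_bound hf hα0 hα1 (hre ξ)
          set F := ‖LSeries f (((1 + α : ℝ) : ℂ) + 2 * Real.pi * ξ * Complex.I)‖ with hFd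
          set G := ‖LSeries (H4_.gl f) (((1 + α : ℝ) : ℂ) + 2 * Real.pi * ξ * Complex.I)‖ with hGd
          have hF0 : 0 ≤ F := norm_nonneg _
          have hG0 : 0 ≤ G := norm_nonneg _
          have hs0 : (2 * Real.pi * ξ) ^ 2 ≤
              ‖(((1 + α : ℝ) : ℂ) + 2 * Real.pi * ξ * Complex.I : ℂ)‖ ^ 2 := by
            rw [← Complex.normSq_eq_norm_sq, Complex.normSq_apply, him]
            nlinarith [mul_self_nonneg ((((1 + α : ℝ) : ℂ) + 2 * Real.pi * ξ * Complex.I).re)]
          set s2 := ‖(((1 + α : ℝ) : ℂ) + 2 * Real.pi * ξ * Complex.I : ℂ)‖ ^ 2 with hs2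
          have hs20 : 0 ≤ s2 := by positivity
          by_cases hξ : |2 * Real.pi * ξ| ≤ x
          · have h5 : F ≤ C3 * l * Real.exp (-A) := by
              refine hF.trans ?_
              have := hd _ hξ
              gcongr
            have h6 : (G * F) ^ 2 / s2 ≤ (C3 * l * Real.exp (-A)) ^ 2 * (G ^ 2 / s2) := by
              rw [mul_pow, mul_comm (G ^ 2), mul_div_assoc]
              gcongr
            have h7 : 0 ≤ (6 * C3 * l ^ 3) ^ 2 * ((2 / x ^ 2) * (1 + (2 * Real.pi / x * ξ) ^ 2)⁻¹) := by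
              positivity
            linarith
          · push Not at hξ
            have h5 : F ≤ C3 * l := by
              refine hF.trans ?_
              have h8 := H4_.dist2_nonneg hf (2 * Real.pi * ξ) x
              have : Real.exp (-(dist2 f (1 : DirichletCharacter ℂ 1) (2 * Real.pi * ξ) 1 x)) ≤ 1 := by
                rw [Real.exp_le_one_iff]
                linarith
              have h9 : 0 ≤ C3 * Real.log x := by positivity
              nlinarith
            have h6 : G ≤ 6 * l ^ 2 := by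
              refine hG.trans (le_of_eq ?_)
              rw [hα]
              field_simp
            have h10 : G * F ≤ 6 * C3 * l ^ 3 := by
              calc G * F ≤ (6 * l ^ 2) * (C3 * l) := by gcongr
                _ = 6 * C3 * l ^ 3 := by ring
            have hy : x ^ 2 < (2 * Real.pi * ξ) ^ 2 := by
              have := sq_lt_sq' (a := x) (b := |2 * Real.pi * ξ|) (by linarith) hξ
              rwa [sq_abs] at this
            have hx2 : 0 < x ^ 2 := by positivity
            have h11 : (G * F) ^ 2 / s2 ≤ (6 * C3 * l ^ 3) ^ 2 *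
                ((2 / x ^ 2) * (1 + (2 * Real.pi / x * ξ) ^ 2)⁻¹) := by
              have h12 : (2 / x ^ 2) * (1 + (2 * Real.pi / x * ξ) ^ 2)⁻¹ =
                  2 / (x ^ 2 + (2 * Real.pi * ξ) ^ 2) := by
                field_simp
              rw [h12, div_eq_mul_inv]
              have h13 : s2⁻¹ ≤ 2 / (x ^ 2 + (2 * Real.pi * ξ) ^ 2) := by
                rw [inv_eq_one_div, div_le_div_iff₀ (by linarith) (by linarith)]
                linarith
              gcongr
            have h14 : 0 ≤ (C3 * l * Real.exp (-A)) ^ 2 * (G ^ 2 / s2) := by positivity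
            linarith
      _ = _ := by
          rw [lintegral_add_right _ (by fun_prop), lintegral_const_mul' _ _ ENNReal.ofReal_ne_top,
            lintegral_const_mul' _ _ ENNReal.ofReal_ne_top]
      _ ≤ _ := by gcongr
  rw [← e1] at e4
  by_cases hint : IntegrableOn (fun v : ℝ => ‖PS f (Real.exp v)‖ ^ 2 * Real.exp (-(2 * v)))
      (Set.Ioc 0 l)
  swap
  · rw [intervalIntegral.integral_of_le hl0.le, integral_undef hint]
    positivity
  have e5 : ENNReal.ofReal (∫ v in (0 : ℝ)..l, ‖PS f (Real.exp v)‖ ^ 2 * Real.exp (-(2 * v))) ≤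
      ENNReal.ofReal (Real.exp 2) * (ENNReal.ofReal ((C3 * l * Real.exp (-A)) ^ 2) *
        ENNReal.ofReal (Real.log 4 ^ 2 / (2 * α)) +
      ENNReal.ofReal ((6 * C3 * l ^ 3) ^ 2) * ENNReal.ofReal (1 / x)) := by
    rw [intervalIntegral.integral_of_le hl0.le, ofReal_integral_eq_lintegral_ofReal hint
      (Filter.Eventually.of_forall fun v => by positivity)]
    refine le_trans ?_ (mul_le_mul_right e4 _)
    rw [← lintegral_const_mul' _ _ ENNReal.ofReal_ne_top]
    refine le_trans ?_ (setLIntegral_le_lintegral (Set.Ioc 0 l) _)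
    refine setLIntegral_mono' measurableSet_Ioc fun v hv => ?_
    rw [← ENNReal.ofReal_mul (by positivity), H4_.PS_eq]
    refine ENNReal.ofReal_le_ofReal ?_
    have h15 : Real.exp (-(2 * v)) ≤ Real.exp 2 * Real.exp (-(2 * (1 + α) * v)) := by
      rw [← Real.exp_add, Real.exp_le_exp]
      have : α * v ≤ 1 := by
        rw [hα, div_mul_eq_mul_div, one_mul, div_le_one hl0]
        exact hv.2
      nlinarith
    calc ‖SS (LSeries.convolution (H4_.gl f) f) (Real.exp v)‖ ^ 2 * Real.exp (-(2 * v)) ≤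
        ‖SS (LSeries.convolution (H4_.gl f) f) (Real.exp v)‖ ^ 2 * (Real.exp 2 * Real.exp (-(2 * (1 + α) * v))) := by
          gcongr
      _ = _ := by ring
  rw [← ENNReal.ofReal_mul (by positivity), ← ENNReal.ofReal_mul (by positivity),
    ← ENNReal.ofReal_add (by positivity) (by positivity), ← ENNReal.ofReal_mul (by positivity)] at e5
  have e6 := (ENNReal.ofReal_le_ofReal_iff (by positivity)).1 e5
  refine e6.trans ?_
  have hA2 : Real.exp (-A) ^ 2 = Real.exp (-(2 * A)) := by
    rw [← Real.exp_nat_mul]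
    push_cast
    ring_nf
  have h16 : (C3 * l * Real.exp (-A)) ^ 2 * (Real.log 4 ^ 2 / (2 * α)) =
      C3 ^ 2 * Real.log 4 ^ 2 * (l ^ 3 * Real.exp (-(2 * A))) / 2 := by
    rw [mul_pow, hA2, hα]
    field_simp
  rw [h16]
  set P := l ^ 3 * Real.exp (-(2 * A)) with hP
  set Q := l ^ 3 * (l ^ 3 / x) with hQ
  have hP0 : 0 ≤ P := by positivity
  have hQ0 : 0 ≤ Q := by positivity
  have h17 : (6 * C3 * l ^ 3) ^ 2 * (1 / x) = (6 * C3) ^ 2 * Q := by
    rw [hQ]
    ring
  rw [h17]
  have h18 : Real.exp 2 * (C3 ^ 2 * Real.log 4 ^ 2 + (6 * C3) ^ 2) * l ^ 3 *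
      (Real.exp (-(2 * A)) + l ^ 3 / x) =
      Real.exp 2 * ((C3 ^ 2 * Real.log 4 ^ 2 + (6 * C3) ^ 2) * (P + Q)) := by
    rw [hP, hQ]
    ring
  rw [h18]
  have ha : 0 ≤ C3 ^ 2 * Real.log 4 ^ 2 := by positivity
  have hb : 0 ≤ (6 * C3) ^ 2 := by positivity
  refine mul_le_mul_of_nonneg_left ?_ (Real.exp_pos 2).le
  nlinarith [mul_nonneg ha hP0, mul_nonneg ha hQ0, mul_nonneg hb hP0, mul_nonneg hb hQ0]

end Pool.Agent.Ell
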