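import Pool.Agent.Ell.HalTargets

set_option autoImplicit false

/-! Halasz's theorem: from the mean square to `L¹` (`T_H5`). -/

namespace Pool.Agent.Ell

namespace H5_

open Finset MeasureTheory
open scoped BigOperators ComplexConjugate

lemma measurable_SS (f : ℕ → ℂ) : Measurable (SS f) := by
  have h1 : Measurable (fun n : ℕ => ∑ k ∈ Finset.Icc 1 n, f k) := measurable_from_nat
  exact h1.comp Nat.measurable_floor

lemma SS_bound (f : ℕ → ℂ) (hf : MB f) (u : ℝ) (hu : 0 ≤ u) : ‖SS f u‖ ≤ u := by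
  unfold SS
  calc ‖∑ n ∈ Finset.Icc 1 ⌊u⌋₊, f n‖ ≤ ∑ n ∈ Finset.Icc 1 ⌊u⌋₊, ‖f n‖ := norm_sum_le _ _
    _ ≤ ∑ n ∈ Finset.Icc 1 ⌊u⌋₊, (1 : ℝ) := Finset.sum_le_sum (fun n _ => hf.bd n)
    _ = (⌊u⌋₊ : ℝ) := by simp
    _ ≤ u := Nat.floor_le hu

lemma SS_zero (f : ℕ → ℂ) (u : ℝ) (hu : u < 1) : SS f u = 0 := by
  unfold SS
  have : ⌊u⌋₊ = 0 := Nat.floor_eq_zero.mpr hu
  simp [this]

lemma PS_eq (f : ℕ → ℂ) (N : ℕ) (u : ℝ) (hu : ⌊u⌋₊ ≤ N) :
    PS f u = ∑ p ∈ (Finset.Icc 1 N).filter Nat.Prime, f p * (Real.log p : ℂ) * SS f (u / p) := by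
  unfold PS
  apply Finset.sum_subset
  · intro p hp
    simp only [Finset.mem_filter, Finset.mem_Icc] at hp ⊢
    exact ⟨⟨hp.1.1, hp.1.2.trans hu⟩, hp.2⟩
  · intro p hp hp'
    simp only [Finset.mem_filter, Finset.mem_Icc, not_and] at hp hp'
    have h2 : ¬ (p ≤ ⌊u⌋₊) := fun h => hp' ⟨hp.1.1, h⟩ hp.2
    have h3 : u < p := by
      by_contra h
      exact h2 (Nat.le_floor (not_lt.mp h))
    have hp0 : (0 : ℝ) < p := by exact_mod_cast hp.2.pos
    rw [SS_zero f (u / p) ((div_lt_one hp0).mpr h3), mul_zero]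

/-- the finite sum that replaces `PS f (exp v)` for `v ≤ L` -/
noncomputable def PN (f : ℕ → ℂ) (N : ℕ) (v : ℝ) : ℂ :=
  ∑ p ∈ (Finset.Icc 1 N).filter Nat.Prime, f p * (Real.log p : ℂ) * SS f (Real.exp v / p)

lemma measurable_PN (f : ℕ → ℂ) (N : ℕ) : Measurable (PN f N) := by
  unfold PN
  apply Finset.measurable_fun_sum
  intro p _
  exact measurable_const.mul ((measurable_SS f).comp (Real.measurable_exp.div_const _))

lemma PN_bound (f : ℕ → ℂ) (hf : MB f) (N : ℕ) (L : ℝ) (v : ℝ) (hv : v ≤ L) :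
    ‖PN f N v‖ ≤ ∑ p ∈ (Finset.Icc 1 N).filter Nat.Prime, Real.log p * Real.exp L := by
  unfold PN
  refine (norm_sum_le _ _).trans (Finset.sum_le_sum ?_)
  intro p hp
  simp only [Finset.mem_filter, Finset.mem_Icc] at hp
  have hp1 : (1 : ℝ) ≤ p := by exact_mod_cast hp.1.1
  have hlog : 0 ≤ Real.log p := Real.log_nonneg hp1
  rw [norm_mul, norm_mul, Complex.norm_real, Real.norm_eq_abs, abs_of_nonneg hlog]
  have h1 : ‖SS f (Real.exp v / p)‖ ≤ Real.exp L := by
    refine (SS_bound f hf _ (by positivity)).trans ?_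
    refine (div_le_self (Real.exp_pos v).le hp1).trans ?_
    exact Real.exp_le_exp.mpr hv
  calc ‖f p‖ * Real.log p * ‖SS f (Real.exp v / p)‖ ≤ 1 * Real.log p * Real.exp L := by
        gcongr
        exact hf.bd p
    _ = Real.log p * Real.exp L := by ring

lemma PS_exp_eq (f : ℕ → ℂ) (L : ℝ) (v : ℝ) (hv : v ≤ L) :
    PS f (Real.exp v) = PN f ⌊Real.exp L⌋₊ v := by
  rw [PS_eq f ⌊Real.exp L⌋₊ (Real.exp v)
    (Nat.floor_le_floor (Real.exp_le_exp.mpr hv))]
  rfl

/-- bounded measurable functions are interval integrable -/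
lemma intervalIntegrable_of_bdd (F : ℝ → ℝ) (hF : Measurable F) (a b C : ℝ) (hab : a ≤ b)
    (hC : ∀ v, v ≤ b → a ≤ v → |F v| ≤ C) : IntervalIntegrable F volume a b := by
  rw [intervalIntegrable_iff_integrableOn_Ioc_of_le hab]
  refine ⟨hF.aestronglyMeasurable, ?_⟩
  refine HasFiniteIntegral.restrict_of_bounded C (by simp) ?_
  refine (ae_restrict_iff' measurableSet_Ioc).mpr (Filter.Eventually.of_forall ?_)
  intro v hv
  rw [Real.norm_eq_abs]
  exact hC v hv.2 hv.1.le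

lemma intG (f : ℕ → ℂ) (hf : MB f) (L B : ℝ) (hL : 0 < L) (hB : 0 ≤ B)
    (h : ∫ v in (0 : ℝ)..L, ‖PS f (Real.exp v)‖ ^ 2 * Real.exp (-(2 * v)) ≤ B ^ 2 * L ^ 3) :
    ∫ v in (0 : ℝ)..L, ‖PN f ⌊Real.exp L⌋₊ v‖ * Real.exp (-v) ≤ B * L ^ 2 := by
  set N := ⌊Real.exp L⌋₊ with hN
  set M := ∑ p ∈ (Finset.Icc 1 N).filter Nat.Prime, Real.log p * Real.exp L with hM
  have hmeas : Measurable (fun v : ℝ => ‖PN f N v‖ * Real.exp (-v)) :=
    (measurable_PN f N).norm.mul (Real.measurable_exp.comp measurable_neg)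
  have hbd : ∀ v : ℝ, v ≤ L → 0 ≤ v → |‖PN f N v‖ * Real.exp (-v)| ≤ M := by
    intro v hv hv0
    rw [abs_of_nonneg (by positivity)]
    have h1 := PN_bound f hf N L v hv
    have h2 : Real.exp (-v) ≤ 1 := Real.exp_le_one_iff.mpr (by linarith)
    calc ‖PN f N v‖ * Real.exp (-v) ≤ M * 1 := by
          apply mul_le_mul h1 h2 (Real.exp_pos _).le ((norm_nonneg _).trans h1)
      _ = M := mul_one _
  have hI1 : IntervalIntegrable (fun v : ℝ => ‖PN f N v‖ * Real.exp (-v)) volume 0 L :=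
    intervalIntegrable_of_bdd _ hmeas 0 L M hL.le hbd
  have hI2 : IntervalIntegrable (fun v : ℝ => (‖PN f N v‖ * Real.exp (-v)) ^ 2) volume 0 L := by
    refine intervalIntegrable_of_bdd _ (hmeas.pow_const 2) 0 L (M ^ 2) hL.le ?_
    intro v hv hv0
    rw [abs_pow]
    exact pow_le_pow_left₀ (abs_nonneg _) (hbd v hv hv0) 2
  have hsq : ∫ v in (0 : ℝ)..L, (‖PN f N v‖ * Real.exp (-v)) ^ 2 ≤ B ^ 2 * L ^ 3 := by
    refine le_trans (le_of_eq ?_) h
    apply intervalIntegral.integral_congr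
    intro v hv
    rw [Set.uIcc_of_le hL.le] at hv
    simp only []
    rw [PS_exp_eq f L v hv.2, mul_pow, ← Real.exp_nat_mul]
    congr 2
    push_cast
    ring
  apply le_of_forall_pos_le_add
  intro ε hε
  set B' := B + ε / L ^ 2 with hB'
  have hB'pos : 0 < B' := by positivity
  have hBB' : B ≤ B' := by
    have : 0 ≤ ε / L ^ 2 := by positivity
    linarith
  have key : ∫ v in (0 : ℝ)..L, ‖PN f N v‖ * Real.exp (-v) ≤
      ∫ v in (0 : ℝ)..L, ((1 / (2 * B' * L)) * (‖PN f N v‖ * Real.exp (-v)) ^ 2 + B' * L / 2) := by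
    apply intervalIntegral.integral_mono_on hL.le hI1
    · exact (hI2.const_mul _).add intervalIntegrable_const
    · intro v _
      set g := ‖PN f N v‖ * Real.exp (-v) with hg
      have h3 : 0 ≤ (g - B' * L) ^ 2 / (2 * B' * L) := by positivity
      have h4 : (g - B' * L) ^ 2 / (2 * B' * L) = (1 / (2 * B' * L)) * g ^ 2 + B' * L / 2 - g := by
        field_simp
        ring
      linarith
  rw [intervalIntegral.integral_add (hI2.const_mul _) intervalIntegrable_const,
    intervalIntegral.integral_const_mul, intervalIntegral.integral_const] at key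
  have h5 : (1 / (2 * B' * L)) * ∫ v in (0 : ℝ)..L, (‖PN f N v‖ * Real.exp (-v)) ^ 2 ≤
      (1 / (2 * B' * L)) * (B' ^ 2 * L ^ 3) := by
    apply mul_le_mul_of_nonneg_left _ (by positivity)
    refine hsq.trans ?_
    gcongr
  have h6 : (1 / (2 * B' * L)) * (B' ^ 2 * L ^ 3) = B' * L ^ 2 / 2 := by
    field_simp
  have h7 : B' * L ^ 2 = B * L ^ 2 + ε := by
    rw [hB']
    field_simp
  rw [smul_eq_mul, sub_zero] at key
  calc ∫ v in (0 : ℝ)..L, ‖PN f N v‖ * Real.exp (-v) ≤ _ := key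
    _ ≤ B' * L ^ 2 / 2 + L * (B' * L / 2) := by linarith
    _ = B' * L ^ 2 := by ring
    _ = B * L ^ 2 + ε := h7

end H5_

open H5_ MeasureTheory in
/-- H5 -/
theorem p_H5 (h : T_H1) : T_H5 := by
  obtain ⟨C1, hC1, h1⟩ := h
  refine ⟨max 1 C1, by positivity, ?_⟩
  intro f hf x θ B hx hθ hθ1 hB hint
  set L := Real.log x with hL'
  have hL : 0 < L := Real.log_pos (by linarith)
  set N := ⌊Real.exp L⌋₊ with hN
  have hG := intG f hf L B hL hB hint
  rw [← hN] at hG
  set M := ∑ p ∈ (Finset.Icc 1 N).filter Nat.Prime, Real.log p * Real.exp L with hM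
  have hmeasG : Measurable (fun v : ℝ => ‖PN f N v‖ * Real.exp (-v)) :=
    (measurable_PN f N).norm.mul (Real.measurable_exp.comp measurable_neg)
  have hbdG : ∀ v : ℝ, v ≤ L → 0 ≤ v → |‖PN f N v‖ * Real.exp (-v)| ≤ M := by
    intro v hv hv0
    rw [abs_of_nonneg (by positivity)]
    have h1 := PN_bound f hf N L v hv
    have h2 : Real.exp (-v) ≤ 1 := Real.exp_le_one_iff.mpr (by linarith)
    calc ‖PN f N v‖ * Real.exp (-v) ≤ M * 1 := by
          apply mul_le_mul h1 h2 (Real.exp_pos _).le ((norm_nonneg _).trans h1)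
      _ = M := mul_one _
  have hIG : ∀ a b : ℝ, 0 ≤ a → a ≤ b → b ≤ L →
      IntervalIntegrable (fun v : ℝ => ‖PN f N v‖ * Real.exp (-v)) volume a b := by
    intro a b ha hab hb
    exact intervalIntegrable_of_bdd _ hmeasG a b M hab
      (fun v hv hv' => hbdG v (hv.trans hb) (ha.trans hv'))
  have hmeasS : Measurable (fun v : ℝ => ‖SS f (Real.exp v)‖ * Real.exp (-v)) :=
    ((measurable_SS f).comp Real.measurable_exp).norm.mul (Real.measurable_exp.comp measurable_neg)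
  have hS1 : ∀ v : ℝ, ‖SS f (Real.exp v)‖ * Real.exp (-v) ≤ 1 := by
    intro v
    have h2 := SS_bound f hf (Real.exp v) (Real.exp_pos v).le
    calc ‖SS f (Real.exp v)‖ * Real.exp (-v) ≤ Real.exp v * Real.exp (-v) := by gcongr
      _ = 1 := by rw [← Real.exp_add]; simp
  have hIS : ∀ a b : ℝ, a ≤ b →
      IntervalIntegrable (fun v : ℝ => ‖SS f (Real.exp v)‖ * Real.exp (-v)) volume a b := by
    intro a b hab
    refine intervalIntegrable_of_bdd _ hmeasS a b 1 hab (fun v _ _ => ?_)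
    rw [abs_of_nonneg (by positivity)]
    exact hS1 v
  have hθL : 0 ≤ θ * L := by positivity
  have hθL' : θ * L ≤ L := by nlinarith
  rw [← intervalIntegral.integral_add_adjacent_intervals (hIS 0 (θ * L) hθL)
    (hIS (θ * L) L hθL')]
  have hA : ∫ v in (0 : ℝ)..(θ * L), ‖SS f (Real.exp v)‖ * Real.exp (-v) ≤ θ * L := by
    have := intervalIntegral.integral_mono_on hθL (hIS 0 (θ * L) hθL)
      (intervalIntegrable_const (c := (1 : ℝ))) (fun v _ => hS1 v)
    rw [intervalIntegral.integral_const] at this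
    simpa using this
  have hB2 : ∫ v in (θ * L)..L, ‖SS f (Real.exp v)‖ * Real.exp (-v) ≤
      ∫ v in (θ * L)..L, (1 / (θ * L)) * (‖PN f N v‖ * Real.exp (-v) + C1) := by
    apply intervalIntegral.integral_mono_on hθL' (hIS (θ * L) L hθL')
    · exact ((hIG (θ * L) L hθL hθL' le_rfl).add intervalIntegrable_const).const_mul _
    · intro v hv
      have hv0 : 0 < v := lt_of_lt_of_le (by positivity) hv.1
      have h2 := h1 f hf (Real.exp v) (Real.one_le_exp hv0.le)
      rw [Real.log_exp, PS_exp_eq f L v hv.2] at h2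
      have h3 : ‖SS f (Real.exp v)‖ * (θ * L) ≤ ‖PN f N v‖ + C1 * Real.exp v := by
        refine le_trans ?_ h2
        gcongr
        exact hv.1
      have h4 : ‖SS f (Real.exp v)‖ * Real.exp (-v) * (θ * L) ≤
          ‖PN f N v‖ * Real.exp (-v) + C1 := by
        calc ‖SS f (Real.exp v)‖ * Real.exp (-v) * (θ * L) =
            (‖SS f (Real.exp v)‖ * (θ * L)) * Real.exp (-v) := by ring
          _ ≤ (‖PN f N v‖ + C1 * Real.exp v) * Real.exp (-v) := by gcongr
          _ = ‖PN f N v‖ * Real.exp (-v) + C1 * (Real.exp v * Real.exp (-v)) := by ring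
          _ = ‖PN f N v‖ * Real.exp (-v) + C1 := by
              rw [← Real.exp_add]
              simp
      rw [one_div, inv_mul_eq_div, le_div_iff₀ (by positivity)]
      exact h4
  have hC2 : ∫ v in (θ * L)..L, (1 / (θ * L)) * (‖PN f N v‖ * Real.exp (-v) + C1) ≤
      (1 / (θ * L)) * (B * L ^ 2 + C1 * L) := by
    rw [intervalIntegral.integral_const_mul]
    apply mul_le_mul_of_nonneg_left _ (by positivity)
    rw [intervalIntegral.integral_add (hIG (θ * L) L hθL hθL' le_rfl) intervalIntegrable_const,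
      intervalIntegral.integral_const, smul_eq_mul]
    have h5 : ∫ v in (θ * L)..L, ‖PN f N v‖ * Real.exp (-v) ≤
        ∫ v in (0 : ℝ)..L, ‖PN f N v‖ * Real.exp (-v) := by
      rw [← intervalIntegral.integral_add_adjacent_intervals (hIG 0 (θ * L) le_rfl hθL hθL')
        (hIG (θ * L) L hθL hθL' le_rfl)]
      have h6 : 0 ≤ ∫ v in (0 : ℝ)..(θ * L), ‖PN f N v‖ * Real.exp (-v) :=
        intervalIntegral.integral_nonneg hθL (fun v _ => by positivity)
      linarith
    have h7 : (L - θ * L) * C1 ≤ C1 * L := by nlinarith [mul_pos hθ hL, mul_nonneg hθL hC1.le]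
    linarith
  have hfin : (1 / (θ * L)) * (B * L ^ 2 + C1 * L) ≤ L * (max 1 C1 * (B + 1 / L) / θ) := by
    have h8 : L * (max 1 C1 * (B + 1 / L) / θ) = (1 / (θ * L)) * (max 1 C1 * (B * L ^ 2 + L)) := by
      field_simp
    rw [h8]
    apply mul_le_mul_of_nonneg_left _ (by positivity)
    have h9 : B * L ^ 2 ≤ max 1 C1 * (B * L ^ 2) := by
      have : 0 ≤ B * L ^ 2 := by positivity
      nlinarith [le_max_left 1 C1]
    have h10 : C1 * L ≤ max 1 C1 * L := by
      have := le_max_right 1 C1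
      gcongr
    linarith
  calc _ ≤ θ * L + (1 / (θ * L)) * (B * L ^ 2 + C1 * L) := by linarith [hB2.trans hC2]
    _ ≤ θ * L + L * (max 1 C1 * (B + 1 / L) / θ) := by linarith
    _ = L * (θ + max 1 C1 * (B + 1 / L) / θ) := by ring

end Pool.Agent.Ell
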