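import Pool.Agent.Ell.HalTargets

set_option autoImplicit false

/-! Halasz's theorem (MP_f3f922_nt), job H6: from `L¹` to pointwise. -/

namespace Pool.Agent.Ell.H6_

open MeasureTheory
open scoped BigOperators ComplexConjugate

lemma meas_g (f : ℕ → ℂ) : Measurable fun u : ℝ => ‖SS f u‖ := by
  have h : Measurable fun u : ℝ => (fun n : ℕ => ‖∑ i ∈ Finset.Icc 1 n, f i‖) ⌊u⌋₊ :=
    (measurable_from_nat (f := fun n : ℕ => ‖∑ i ∈ Finset.Icc 1 n, f i‖)).comp Nat.measurable_floor
  exact h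

lemma g_le {f : ℕ → ℂ} (hf : MB f) {u : ℝ} (hu : 0 ≤ u) : ‖SS f u‖ ≤ u := by
  unfold SS
  refine (norm_sum_le _ _).trans ?_
  refine (Finset.sum_le_sum (g := fun _ => (1 : ℝ)) fun n _ => hf.bd n).trans ?_
  simp only [Finset.sum_const, Nat.card_Icc, Nat.add_sub_cancel, nsmul_eq_mul, mul_one]
  exact Nat.floor_le hu

lemma g_zero (f : ℕ → ℂ) {u : ℝ} (hu : u < 1) : SS f u = 0 := by
  unfold SS
  rw [Nat.floor_eq_zero.mpr hu]
  simp

lemma g_diff {f : ℕ → ℂ} (hf : MB f) {x y : ℝ} (hy : 0 ≤ y) (hxy : y ≤ x) :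
    ‖SS f x‖ ≤ ‖SS f y‖ + (x - y + 1) := by
  have hfl : ⌊y⌋₊ ≤ ⌊x⌋₊ := Nat.floor_le_floor hxy
  have h1 : SS f x = SS f y + ∑ i ∈ Finset.Ioc ⌊y⌋₊ ⌊x⌋₊, f i := by
    unfold SS
    have h := Finset.sum_Ioc_consecutive f (Nat.zero_le ⌊y⌋₊) hfl
    exact h.symm
  have h2 : ‖∑ i ∈ Finset.Ioc ⌊y⌋₊ ⌊x⌋₊, f i‖ ≤ x - y + 1 := by
    refine (norm_sum_le _ _).trans ?_
    refine (Finset.sum_le_sum (g := fun _ => (1 : ℝ)) fun n _ => hf.bd n).trans ?_
    simp only [Finset.sum_const, Nat.card_Ioc, nsmul_eq_mul, mul_one]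
    rw [Nat.cast_sub hfl]
    have h3 := Nat.floor_le (hy.trans hxy)
    have h4 := Nat.lt_floor_add_one y
    linarith
  rw [h1]
  exact (norm_add_le _ _).trans (by linarith)

lemma ii {h : ℝ → ℝ} (hm : Measurable h) {a b M : ℝ} (hb : ∀ u ∈ Set.uIoc a b, |h u| ≤ M) :
    IntervalIntegrable h volume a b := by
  rw [intervalIntegrable_iff]
  refine Measure.integrableOn_of_bounded (M := M) ?_ hm.aestronglyMeasurable ?_
  · rw [Set.uIoc]
    simp
  · exact (ae_restrict_iff' measurableSet_uIoc).mpr (ae_of_all _ hb)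

lemma g_ii {f : ℕ → ℂ} (hf : MB f) {a b : ℝ} (ha : 0 ≤ a) (hb : 0 ≤ b) :
    IntervalIntegrable (fun u => ‖SS f u‖) volume a b := by
  refine ii (meas_g f) (M := max a b) fun u hu => ?_
  rw [abs_of_nonneg (norm_nonneg _)]
  have h1 : 0 ≤ u := by
    have := hu.1
    have h2 : 0 ≤ min a b := le_min ha hb
    linarith
  exact (g_le hf h1).trans hu.2

/-- `∫_0^x g(u)/u^2 du = ∫_0^{log x} g(e^v) e^{-v} dv`. -/
lemma subst (f : ℕ → ℂ) {x : ℝ} (hx : 1 ≤ x) :
    ∫ u in (0 : ℝ)..x, ‖SS f u‖ / u ^ 2 =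
      ∫ v in (0 : ℝ)..Real.log x, ‖SS f (Real.exp v)‖ * Real.exp (-v) := by
  have hlog : 0 ≤ Real.log x := Real.log_nonneg hx
  have himg : Real.exp '' Set.Ioc 0 (Real.log x) = Set.Ioc 1 x := by
    ext y
    simp only [Set.mem_image, Set.mem_Ioc]
    constructor
    · rintro ⟨v, ⟨h1, h2⟩, rfl⟩
      refine ⟨Real.one_lt_exp_iff.mpr h1, ?_⟩
      calc Real.exp v ≤ Real.exp (Real.log x) := Real.exp_le_exp.mpr h2
        _ = x := Real.exp_log (by linarith)
    · rintro ⟨h1, h2⟩
      exact ⟨Real.log y, ⟨Real.log_pos h1, Real.log_le_log (by linarith) h2⟩,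
        Real.exp_log (by linarith)⟩
  have hcv := integral_image_eq_integral_abs_deriv_smul (s := Set.Ioc 0 (Real.log x))
    (f := Real.exp) (f' := Real.exp) measurableSet_Ioc
    (fun v _ => (Real.hasDerivAt_exp v).hasDerivWithinAt) Real.exp_injective.injOn
    (fun u => ‖SS f u‖ / u ^ 2)
  rw [himg] at hcv
  rw [intervalIntegral.integral_of_le hlog, intervalIntegral.integral_of_le (by linarith)]
  have h1 : ∫ u in Set.Ioc 0 x, ‖SS f u‖ / u ^ 2 = ∫ u in Set.Ioc 1 x, ‖SS f u‖ / u ^ 2 := by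
    have hsub : Set.Ioc 1 x ⊆ Set.Ioc 0 x := Set.Ioc_subset_Ioc_left zero_le_one
    have := setIntegral_eq_of_subset_of_ae_sdiff_eq_zero (μ := volume) (s := Set.Ioc 1 x)
      (t := Set.Ioc 0 x) (f := fun u => ‖SS f u‖ / u ^ 2) measurableSet_Ioc.nullMeasurableSet hsub ?_
    · exact this
    · have hne : ∀ᵐ u : ℝ ∂volume, u ≠ 1 := by
        rw [ae_iff]
        simp
      filter_upwards [hne] with u hu hmem
      have h2 : u < 1 := by
        rcases lt_or_ge u 1 with h | h
        · exact h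
        · exfalso
          refine hmem.2 ⟨lt_of_le_of_ne h (Ne.symm hu), hmem.1.2⟩
      simp [g_zero f h2]
  rw [h1, hcv]
  refine setIntegral_congr_fun measurableSet_Ioc fun v _ => ?_
  simp only [smul_eq_mul, abs_of_pos (Real.exp_pos v), Real.exp_neg]
  have := (Real.exp_pos v).ne'
  field_simp

/-- weighted sum over primes -/
lemma prime_sum {x u : ℝ} (hx : 0 ≤ x) (hu : 0 < u) :
    ∑ p ∈ (Finset.Icc 1 ⌊x⌋₊).filter Nat.Prime,
      (p * Real.log p) * (if u ≤ x / p then 1 else 0) ≤ Real.log 4 * (x / u) ^ 2 := by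
  have hxu : 0 ≤ x / u := div_nonneg hx hu.le
  have h1 : ∑ p ∈ (Finset.Icc 1 ⌊x⌋₊).filter Nat.Prime,
      ((p : ℝ) * Real.log p) * (if u ≤ x / p then 1 else 0) ≤
      ∑ p ∈ (Finset.Ioc 0 ⌊x / u⌋₊).filter Nat.Prime, (x / u) * Real.log p := by
    rw [← Finset.sum_filter_add_sum_filter_not _ (fun p : ℕ => u ≤ x / p)]
    have hz : ∑ p ∈ ((Finset.Icc 1 ⌊x⌋₊).filter Nat.Prime).filter (fun p : ℕ => ¬ u ≤ x / p),
        ((p : ℝ) * Real.log p) * (if u ≤ x / p then 1 else 0) = 0 := by
      refine Finset.sum_eq_zero fun p hp => ?_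
      rw [if_neg (Finset.mem_filter.mp hp).2, mul_zero]
    rw [hz, add_zero]
    have hle : ∀ p : ℕ, 1 ≤ p → u ≤ x / p → (p : ℝ) ≤ x / u := by
      intro p hp h
      have hp' : (0 : ℝ) < p := by exact_mod_cast hp
      rw [le_div_iff₀ hp'] at h
      rw [le_div_iff₀ hu]
      linarith
    refine (Finset.sum_le_sum (g := fun p : ℕ => (x / u) * Real.log p) fun p hp => ?_).trans ?_
    · simp only [Finset.mem_filter, Finset.mem_Icc] at hp
      rw [if_pos hp.2, mul_one]
      have hl : 0 ≤ Real.log p := Real.log_natCast_nonneg p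
      exact mul_le_mul_of_nonneg_right (hle p hp.1.1.1 hp.2) hl
    · refine Finset.sum_le_sum_of_subset_of_nonneg ?_ fun p _ _ =>
        mul_nonneg hxu (Real.log_natCast_nonneg p)
      intro p hp
      simp only [Finset.mem_filter, Finset.mem_Icc, Finset.mem_Ioc] at hp ⊢
      exact ⟨⟨hp.1.1.1, Nat.le_floor (hle p hp.1.1.1 hp.2)⟩, hp.1.2⟩
  refine h1.trans ?_
  rw [← Finset.mul_sum]
  have h2 : ∑ p ∈ (Finset.Ioc 0 ⌊x / u⌋₊).filter Nat.Prime, Real.log p ≤ Real.log 4 * (x / u) :=
    Chebyshev.theta_le_log4_mul_x hxu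
  calc (x / u) * ∑ p ∈ (Finset.Ioc 0 ⌊x / u⌋₊).filter Nat.Prime, Real.log p
      ≤ (x / u) * (Real.log 4 * (x / u)) := mul_le_mul_of_nonneg_left h2 hxu
    _ = Real.log 4 * (x / u) ^ 2 := by ring

/-- the main integral inequality -/
lemma main_int {f : ℕ → ℂ} (hf : MB f) {x y0 : ℝ} (hy0 : 0 ≤ y0) (hyx : y0 ≤ x) (hx : 1 ≤ x) :
    ∑ p ∈ (Finset.Icc 1 ⌊x⌋₊).filter Nat.Prime, Real.log p * ∫ y in y0..x, ‖SS f (y / p)‖ ≤
      Real.log 4 * x ^ 2 * ∫ u in (0 : ℝ)..x, ‖SS f u‖ / u ^ 2 := by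
  have hx0 : 0 ≤ x := by linarith
  have step1 : ∀ p ∈ (Finset.Icc 1 ⌊x⌋₊).filter Nat.Prime,
      Real.log p * ∫ y in y0..x, ‖SS f (y / p)‖ ≤
      ∫ u in (0 : ℝ)..x, (p * Real.log p) * (if u ≤ x / p then 1 else 0) * ‖SS f u‖ := by
    intro p hp
    simp only [Finset.mem_filter, Finset.mem_Icc] at hp
    have hp0 : (0 : ℝ) < p := by exact_mod_cast hp.1.1
    have hp1 : (1 : ℝ) ≤ p := by exact_mod_cast hp.1.1
    have hl : 0 ≤ Real.log p := Real.log_natCast_nonneg p
    have hxp : x / p ≤ x := div_le_self hx0 hp1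
    have hxp0 : 0 ≤ x / p := div_nonneg hx0 hp0.le
    have hyp0 : 0 ≤ y0 / p := div_nonneg hy0 hp0.le
    rw [intervalIntegral.integral_comp_div (fun u => ‖SS f u‖) hp0.ne', smul_eq_mul]
    have h1 : ∫ u in (y0 / p)..(x / p), ‖SS f u‖ ≤ ∫ u in (0 : ℝ)..(x / p), ‖SS f u‖ := by
      refine intervalIntegral.integral_mono_interval hyp0
        (div_le_div_of_nonneg_right hyx hp0.le) le_rfl ?_ (g_ii hf le_rfl hxp0)
      exact ae_of_all _ fun u => norm_nonneg _
    have h2 : ∫ u in (0 : ℝ)..x, (p * Real.log p) * (if u ≤ x / p then 1 else 0) * ‖SS f u‖ =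
        (p * Real.log p) * ∫ u in (0 : ℝ)..(x / p), ‖SS f u‖ := by
      rw [← intervalIntegral.integral_indicator (f := fun u => ‖SS f u‖)
        (show x / p ∈ Set.Icc 0 x from ⟨hxp0, hxp⟩), ← intervalIntegral.integral_const_mul]
      refine intervalIntegral.integral_congr fun u _ => ?_
      simp only [Set.indicator_apply, Set.mem_ofPred_eq]
      split_ifs <;> ring
    rw [h2]
    calc Real.log p * (p * ∫ u in (y0 / p)..(x / p), ‖SS f u‖)
        = (p * Real.log p) * ∫ u in (y0 / p)..(x / p), ‖SS f u‖ := by ring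
      _ ≤ _ := mul_le_mul_of_nonneg_left h1 (mul_nonneg hp0.le hl)
  refine (Finset.sum_le_sum step1).trans ?_
  have hint : ∀ p ∈ (Finset.Icc 1 ⌊x⌋₊).filter Nat.Prime, IntervalIntegrable
      (fun u => ((p : ℝ) * Real.log p) * (if u ≤ x / p then 1 else 0) * ‖SS f u‖)
      volume 0 x := by
    intro p _
    have hl : 0 ≤ Real.log p := Real.log_natCast_nonneg p
    refine ii ?_ (M := (p * Real.log p) * x) fun u hu => ?_
    · refine Measurable.mul (measurable_const.mul ?_) (meas_g f)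
      exact Measurable.ite measurableSet_Iic measurable_const measurable_const
    · rw [Set.uIoc_of_le hx0] at hu
      have hg := g_le hf hu.1.le
      have hgn := norm_nonneg (SS f u)
      have hpl : 0 ≤ (p : ℝ) * Real.log p := mul_nonneg (Nat.cast_nonneg p) hl
      split_ifs
      · rw [mul_one, abs_of_nonneg (mul_nonneg hpl hgn)]
        exact mul_le_mul_of_nonneg_left (hg.trans hu.2) hpl
      · simp only [mul_zero, zero_mul, abs_zero]
        exact mul_nonneg hpl hx0
  rw [← intervalIntegral.integral_finsetSum hint, ← intervalIntegral.integral_const_mul]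
  refine intervalIntegral.integral_mono_on hx0 ?_ ?_ ?_
  · have := IntervalIntegrable.sum _ hint
    simpa only [Finset.sum_fn] using this
  · refine IntervalIntegrable.const_mul ?_ _
    refine ii ((meas_g f).div (measurable_id.pow_const 2)) (M := 1) fun u hu => ?_
    rw [Set.uIoc_of_le hx0] at hu
    rcases lt_or_ge u 1 with h | h
    · simp [g_zero f h]
    · have := g_le hf hu.1.le
      simp only [id, Pi.div_apply]
      rw [abs_of_nonneg (div_nonneg (norm_nonneg _) (by positivity)), div_le_one (by positivity)]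
      nlinarith
  · intro u hu
    rcases eq_or_lt_of_le hu.1 with h0 | h0
    · have h1 : SS f u = 0 := g_zero f (by rw [← h0]; norm_num)
      simp [h1]
    · rw [← Finset.sum_mul]
      have h := prime_sum hx0 h0
      calc _ ≤ (Real.log 4 * (x / u) ^ 2) * ‖SS f u‖ :=
            mul_le_mul_of_nonneg_right h (norm_nonneg _)
        _ = _ := by ring

theorem p_H6 (h : T_H1) : T_H6 := by
  obtain ⟨C1, hC1, h1⟩ := h
  refine ⟨2 * Real.log 4 + 2 * C1, ?_, ?_⟩
  · have : 0 < Real.log 4 := Real.log_pos (by norm_num)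
    linarith
  intro f hf x δ η hx hδ hδ2 hη hI
  have hx0 : 0 < x := by linarith
  have hL4 : 0 < Real.log 4 := Real.log_pos (by norm_num)
  have hlog : 0 < Real.log x := Real.log_pos (by linarith)
  set y0 := (1 - δ) * x with hy0
  have hy0x : y0 ≤ x := by nlinarith
  have hy0h : x / 2 ≤ y0 := by nlinarith
  have hy00 : 0 ≤ y0 := by linarith
  set T := ∑ p ∈ (Finset.Icc 1 ⌊x⌋₊).filter Nat.Prime,
    Real.log p * ∫ y in y0..x, ‖SS f (y / p)‖ with hT
  have hTle : T ≤ Real.log 4 * x ^ 2 * (η * Real.log x) := by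
    refine (main_int hf hy00 hy0x (by linarith)).trans ?_
    rw [subst f (by linarith)]
    exact mul_le_mul_of_nonneg_left hI (by positivity)
  -- pointwise bound
  have hpt : ∀ y ∈ Set.Icc y0 x, ‖SS f x‖ ≤
      2 / Real.log x * (∑ p ∈ (Finset.Icc 1 ⌊x⌋₊).filter Nat.Prime,
        Real.log p * ‖SS f (y / p)‖ + C1 * x) + (δ * x + 1) := by
    intro y hy
    have hy1 : 1 ≤ y := by linarith [hy.1]
    have hd := g_diff hf (by linarith : 0 ≤ y) hy.2
    have hxy : x - y ≤ δ * x := by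
      have := hy.1
      rw [hy0] at this
      nlinarith
    have hH := h1 f hf y hy1
    have hly : Real.log x / 2 ≤ Real.log y := by
      have e1 : Real.log (x / 2) ≤ Real.log y :=
        Real.log_le_log (by linarith) (by linarith [hy.1])
      have e2 : Real.log (x / 2) = Real.log x - Real.log 2 :=
        Real.log_div (by linarith) (by norm_num)
      have e3 : Real.log 4 ≤ Real.log x := Real.log_le_log (by norm_num) hx
      have e4 : Real.log 4 = 2 * Real.log 2 := by
        rw [show (4 : ℝ) = 2 ^ 2 by norm_num, Real.log_pow]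
        norm_num
      linarith
    have hP : ‖PS f y‖ ≤ ∑ p ∈ (Finset.Icc 1 ⌊x⌋₊).filter Nat.Prime,
        Real.log p * ‖SS f (y / p)‖ := by
      unfold PS
      refine (norm_sum_le _ _).trans ?_
      refine (Finset.sum_le_sum (g := fun p : ℕ => Real.log p * ‖SS f (y / p)‖)
        fun p _ => ?_).trans ?_
      · rw [norm_mul, norm_mul, Complex.norm_real, Real.norm_eq_abs,
          abs_of_nonneg (Real.log_natCast_nonneg p)]
        have e1 := hf.bd p
        have e2 : 0 ≤ Real.log p * ‖SS f (y / p)‖ :=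
          mul_nonneg (Real.log_natCast_nonneg p) (norm_nonneg _)
        calc ‖f p‖ * Real.log p * ‖SS f (y / p)‖ = ‖f p‖ * (Real.log p * ‖SS f (y / p)‖) := by ring
          _ ≤ 1 * (Real.log p * ‖SS f (y / p)‖) := mul_le_mul_of_nonneg_right e1 e2
          _ = _ := one_mul _
      · refine Finset.sum_le_sum_of_subset_of_nonneg ?_ fun p _ _ =>
          mul_nonneg (Real.log_natCast_nonneg p) (norm_nonneg _)
        refine Finset.filter_subset_filter _ (Finset.Icc_subset_Icc_right ?_)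
        exact Nat.floor_le_floor hy.2
    have hC : C1 * y ≤ C1 * x := mul_le_mul_of_nonneg_left hy.2 hC1.le
    have hg : ‖SS f y‖ ≤ 2 / Real.log x * (∑ p ∈ (Finset.Icc 1 ⌊x⌋₊).filter Nat.Prime,
        Real.log p * ‖SS f (y / p)‖ + C1 * x) := by
      have e1 : ‖SS f y‖ * (Real.log x / 2) ≤ ∑ p ∈ (Finset.Icc 1 ⌊x⌋₊).filter Nat.Prime,
          Real.log p * ‖SS f (y / p)‖ + C1 * x := by
        have := mul_le_mul_of_nonneg_left hly (norm_nonneg (SS f y))
        linarith
      have e2 : ‖SS f y‖ = 2 / Real.log x * (‖SS f y‖ * (Real.log x / 2)) := by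
        field_simp
      rw [e2]
      exact mul_le_mul_of_nonneg_left e1 (by positivity)
    linarith
  -- integrate
  have hint1 : ∀ p ∈ (Finset.Icc 1 ⌊x⌋₊).filter Nat.Prime,
      IntervalIntegrable (fun y => Real.log p * ‖SS f (y / p)‖) volume y0 x := by
    intro p _
    refine IntervalIntegrable.const_mul ?_ _
    refine ii ((meas_g f).comp (measurable_id.div_const _)) (M := x) fun y hy => ?_
    rw [Set.uIoc_of_le hy0x] at hy
    have hy0' : 0 ≤ y := by linarith [hy.1]
    simp only [id, Function.comp]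
    rw [abs_of_nonneg (norm_nonneg _)]
    refine (g_le hf (div_nonneg hy0' (Nat.cast_nonneg p))).trans ?_
    rcases Nat.eq_zero_or_pos p with rfl | hp
    · simp; linarith
    · have hp1 : (1 : ℝ) ≤ p := by exact_mod_cast hp
      exact (div_le_self hy0' hp1).trans hy.2
  have hint2 : IntervalIntegrable (fun y => ∑ p ∈ (Finset.Icc 1 ⌊x⌋₊).filter Nat.Prime,
      Real.log p * ‖SS f (y / p)‖) volume y0 x := by
    have := IntervalIntegrable.sum _ hint1
    simpa only [Finset.sum_fn] using this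
  have hconst : ∀ c : ℝ, IntervalIntegrable (fun _ : ℝ => c) volume y0 x :=
    fun c => intervalIntegrable_const
  have hmain := intervalIntegral.integral_mono_on hy0x (hconst ‖SS f x‖)
    (((hint2.add (hconst (C1 * x))).const_mul (2 / Real.log x)).add (hconst (δ * x + 1))) hpt
  rw [intervalIntegral.integral_const, smul_eq_mul,
    intervalIntegral.integral_add ((hint2.add (hconst (C1 * x))).const_mul (2 / Real.log x))
      (hconst (δ * x + 1)), intervalIntegral.integral_const_mul,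
    intervalIntegral.integral_add hint2 (hconst (C1 * x)), intervalIntegral.integral_const,
    intervalIntegral.integral_const, smul_eq_mul, smul_eq_mul,
    intervalIntegral.integral_finsetSum hint1] at hmain
  simp only [intervalIntegral.integral_const_mul] at hmain
  rw [← hT] at hmain
  have hxy : x - y0 = δ * x := by rw [hy0]; ring
  rw [hxy] at hmain
  have hδx : 0 < δ * x := mul_pos hδ hx0
  -- conclude
  have hk : 2 / Real.log x * (T + δ * x * (C1 * x)) ≤
      2 / Real.log x * (Real.log 4 * x ^ 2 * (η * Real.log x) + δ * x * (C1 * x)) :=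
    mul_le_mul_of_nonneg_left (by linarith) (by positivity)
  have hfin : δ * x * ‖SS f x‖ ≤ δ * x * (x * (δ + (2 * Real.log 4 * η / δ +
      2 * C1 / Real.log x)) + 1) := by
    have e : 2 / Real.log x * (Real.log 4 * x ^ 2 * (η * Real.log x) + δ * x * (C1 * x)) +
        δ * x * (δ * x + 1) = δ * x * (x * (δ + (2 * Real.log 4 * η / δ +
      2 * C1 / Real.log x)) + 1) := by
      field_simp
      ring
    linarith
  have hfin2 := le_of_mul_le_mul_left hfin hδx
  refine hfin2.trans ?_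
  have hkey : 2 * Real.log 4 * η / δ + 2 * C1 / Real.log x ≤
      (2 * Real.log 4 + 2 * C1) * (η + 1 / Real.log x) / δ := by
    rw [le_div_iff₀ hδ]
    have e1 : (2 * Real.log 4 * η / δ + 2 * C1 / Real.log x) * δ =
        2 * Real.log 4 * η + 2 * C1 * (1 / Real.log x) * δ := by
      field_simp
    rw [e1]
    have e2 : 0 < 1 / Real.log x := by positivity
    have e3 : 2 * C1 * (1 / Real.log x) * δ ≤ 2 * C1 * (1 / Real.log x) := by
      have : 0 ≤ 2 * C1 * (1 / Real.log x) := by positivity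
      nlinarith
    have e4 : 0 ≤ 2 * C1 * η := by positivity
    have e5 : 0 ≤ 2 * Real.log 4 * (1 / Real.log x) := by positivity
    nlinarith
  have := mul_le_mul_of_nonneg_left hkey hx0.le
  nlinarith

end Pool.Agent.Ell.H6_

namespace Pool.Agent.Ell

theorem p_H6 (h : T_H1) : T_H6 := H6_.p_H6 h

end Pool.Agent.Ell
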