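import Pool.Agent.Ell.HalTargets

set_option autoImplicit false

/-! Halasz: assembly of `T_HAL` from `T_H4`, `T_H5`, `T_H6`. -/

namespace Pool.Agent.Ell

open Finset Filter
open scoped BigOperators ComplexConjugate

theorem hal_of (h4 : T_H4) (h5 : T_H5) (h6 : T_H6) : T_HAL := by
  obtain ⟨C4, hC4, h4⟩ := h4
  obtain ⟨C5, hC5, h5⟩ := h5
  obtain ⟨C6, hC6, h6⟩ := h6
  intro ε0 hε0
  set ε := min ε0 1 with hε
  have hεp : 0 < ε := lt_min hε0 one_pos
  have hε1 : ε ≤ 1 := min_le_right _ _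
  set δ := ε / 8 with hδ
  have hδ0 : 0 < δ := by positivity
  have hδ1 : δ ≤ 1 / 2 := by rw [hδ]; linarith
  set η := ε * δ / (8 * C6) with hη
  have hη0 : 0 < η := by positivity
  set θ := min (η / 2) 1 with hθ
  have hθ0 : 0 < θ := lt_min (by positivity) one_pos
  have hθ1 : θ ≤ 1 := min_le_right _ _
  have hθη : θ ≤ η / 2 := min_le_left _ _
  set B := η * θ / (8 * C5) with hB
  have hB0 : 0 < B := by positivity
  -- choice of A
  obtain ⟨A, hA0, hA⟩ : ∃ A : ℝ, 0 ≤ A ∧ C4 * Real.exp (-(2 * A)) ≤ B ^ 2 / 2 := by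
    have h : Tendsto (fun A : ℝ => C4 * Real.exp (-(2 * A))) atTop (nhds (C4 * 0)) := by
      refine Tendsto.const_mul _ ?_
      refine Real.tendsto_exp_neg_atTop_nhds_zero.comp ?_
      exact tendsto_id.const_mul_atTop (by norm_num)
    rw [mul_zero] at h
    obtain ⟨A, hA⟩ := ((h.eventually_le_const (show (0 : ℝ) < B ^ 2 / 2 by positivity)).and
      (eventually_ge_atTop 0)).exists
    exact ⟨A, hA.2, hA.1⟩
  have hlog : Tendsto (fun x : ℝ => 1 / Real.log x) atTop (nhds 0) := by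
    have h := Real.tendsto_log_atTop.inv_tendsto_atTop
    refine h.congr fun x => ?_
    rw [Pi.inv_apply, one_div]
  have hl3 : Tendsto (fun x : ℝ => Real.log x ^ 3 / x) atTop (nhds 0) :=
    (Real.isLittleO_pow_log_id_atTop (n := 3)).tendsto_div_nhds_zero
  have ev : ∀ᶠ x : ℝ in atTop, 4 ≤ x ∧ C4 * (Real.log x ^ 3 / x) ≤ B ^ 2 / 2 ∧
      C5 * (1 / Real.log x) ≤ η * θ / 8 ∧ C6 * (1 / Real.log x) ≤ ε * δ / 8 ∧ 1 ≤ ε / 8 * x := by
    have g1 : Tendsto (fun x : ℝ => C4 * (Real.log x ^ 3 / x)) atTop (nhds 0) := by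
      simpa using hl3.const_mul C4
    have g2 : Tendsto (fun x : ℝ => C5 * (1 / Real.log x)) atTop (nhds 0) := by
      simpa using hlog.const_mul C5
    have g3 : Tendsto (fun x : ℝ => C6 * (1 / Real.log x)) atTop (nhds 0) := by
      simpa using hlog.const_mul C6
    have g4 : Tendsto (fun x : ℝ => ε / 8 * x) atTop atTop :=
      tendsto_id.const_mul_atTop (by positivity)
    filter_upwards [eventually_ge_atTop 4, g1.eventually_le_const (show (0 : ℝ) < B ^ 2 / 2 by positivity),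
      g2.eventually_le_const (show (0 : ℝ) < η * θ / 8 by positivity),
      g3.eventually_le_const (show (0 : ℝ) < ε * δ / 8 by positivity), g4.eventually_ge_atTop 1]
      with x a b c d e
    exact ⟨a, b, c, d, e⟩
  obtain ⟨X, hX⟩ := eventually_atTop.1 ((tendsto_natCast_atTop_atTop (R := ℝ)).eventually ev)
  refine ⟨A, X, fun x f hx hf hd => ?_⟩
  obtain ⟨a1, a2, a3, a4, a5⟩ := hX x hx
  have hx0 : (0 : ℝ) < x := by linarith
  have hl : 0 < Real.log (x : ℝ) := Real.log_pos (by linarith)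
  have b4 := h4 f hf x A (by linarith) hA0 hd
  have b4' : ∫ v in (0 : ℝ)..Real.log x, ‖PS f (Real.exp v)‖ ^ 2 * Real.exp (-(2 * v)) ≤
      B ^ 2 * Real.log x ^ 3 := by
    refine b4.trans ?_
    have : C4 * (Real.exp (-(2 * A)) + Real.log x ^ 3 / x) ≤ B ^ 2 := by
      rw [mul_add]
      linarith
    calc C4 * Real.log x ^ 3 * (Real.exp (-(2 * A)) + Real.log x ^ 3 / x) =
        (C4 * (Real.exp (-(2 * A)) + Real.log x ^ 3 / x)) * Real.log x ^ 3 := by ring
      _ ≤ B ^ 2 * Real.log x ^ 3 := by gcongr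
  have b5 := h5 f hf x θ B (by linarith) hθ0 hθ1 hB0.le b4'
  have b5' : ∫ v in (0 : ℝ)..Real.log x, ‖SS f (Real.exp v)‖ * Real.exp (-v) ≤
      η * Real.log x := by
    refine b5.trans ?_
    have hh : C5 * (B + 1 / Real.log x) / θ ≤ η / 4 := by
      rw [div_le_iff₀ hθ0, mul_add]
      have : C5 * B = η * θ / 8 := by
        rw [hB]
        field_simp
      rw [this]
      linarith
    rw [mul_comm η]
    refine mul_le_mul_of_nonneg_left ?_ hl.le
    linarith
  have b6 := h6 f hf x δ η a1 hδ0 hδ1 hη0.le b5'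
  have hS : SS f (x : ℝ) = ∑ n ∈ Finset.Icc 1 x, f n := by
    unfold SS
    rw [Nat.floor_natCast]
  rw [hS] at b6
  refine b6.trans ?_
  have hh : C6 * (η + 1 / Real.log x) / δ ≤ ε / 4 := by
    rw [div_le_iff₀ hδ0, mul_add]
    have : C6 * η = ε * δ / 8 := by
      rw [hη]
      field_simp
    rw [this]
    linarith
  have hε0' : ε ≤ ε0 := min_le_left _ _
  calc (x : ℝ) * (δ + C6 * (η + 1 / Real.log x) / δ) + 1 ≤ x * (ε / 8 + ε / 4) + ε / 8 * x := by
        gcongr
    _ = (ε / 2) * x := by ring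
    _ ≤ ε0 * x := by
        gcongr
        linarith

end Pool.Agent.Ell
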