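import Pool.Agent.Ell.H1
import Pool.Agent.Ell.H2
import Pool.Agent.Ell.H3
import Pool.Agent.Ell.H4
import Pool.Agent.Ell.H5
import Pool.Agent.Ell.H6
import Pool.Agent.Ell.HalAsm

set_option autoImplicit false

/-! E10: Halasz's theorem for multiplicative functions into the closed unit disc. -/

namespace Pool.Agent.Ell

theorem p_HAL : T_HAL := hal_of (p_H4 p_H2 p_H3) (p_H5 p_H1) (p_H6 p_H1)

end Pool.Agent.Ell
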