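import Pool.Agent.Ell.Targets

set_option autoImplicit false

/-! E11: Halász's theorem with a periodic weight and a twist. -/

namespace Pool.Agent.Ell

open Finset
open scoped BigOperators ComplexConjugate

namespace HALP_

/-! ### Basic facts -/

lemma nit_eq {t : ℝ} {n : ℕ} (hn : 0 < n) :
    nit t n = Complex.exp ((t * Real.log n : ℝ) * Complex.I) := by
  unfold nit
  rw [Complex.cpow_def_of_ne_zero (by exact_mod_cast hn.ne'), ← Complex.natCast_log]
  congr 1
  push_cast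
  ring

lemma nit_one (t : ℝ) : nit t 1 = 1 := by
  unfold nit; simp

lemma nit_mul (t : ℝ) (m n : ℕ) : nit t (m * n) = nit t m * nit t n := by
  unfold nit
  push_cast
  exact Complex.natCast_mul_natCast_cpow m n _

lemma nit_norm (t : ℝ) (n : ℕ) : ‖nit t n‖ ≤ 1 := by
  rcases Nat.eq_zero_or_pos n with rfl | hn
  · unfold nit
    rw [Nat.cast_zero]
    by_cases h : (t : ℂ) * Complex.I = 0
    · rw [h, Complex.cpow_zero]; simp
    · rw [Complex.zero_cpow h]; simp
  · rw [nit_eq hn, Complex.norm_exp_ofReal_mul_I]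

lemma nit_conj {t s : ℝ} {n : ℕ} (hn : 0 < n) :
    nit s n * conj (nit t n) = conj (nit (t - s) n) := by
  rw [nit_eq hn, nit_eq hn, nit_eq hn, ← Complex.exp_conj, ← Complex.exp_conj, ← Complex.exp_add]
  congr 1
  simp only [map_mul, Complex.conj_ofReal, Complex.conj_I]
  push_cast
  ring

lemma conj_inv_char {q : ℕ} (χ : DirichletCharacter ℂ q) (a : ZMod q) :
    conj (χ⁻¹ a) = χ a := by
  have h := MulChar.star_apply' χ a
  rw [← h]
  exact star_star _

lemma char_norm {q : ℕ} (χ : DirichletCharacter ℂ q) (a : ZMod q) : ‖χ a‖ ≤ 1 :=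
  DirichletCharacter.norm_le_one χ a

/-- the twisted function -/
noncomputable def tw {q : ℕ} (f : ℕ → ℂ) (T : ℝ) (χ : DirichletCharacter ℂ q) (n : ℕ) : ℂ :=
  f n * nit T n * χ (n : ZMod q)

lemma tw_MB {q : ℕ} {f : ℕ → ℂ} (hf : MB f) (T : ℝ) (χ : DirichletCharacter ℂ q) :
    MB (tw f T χ) := by
  refine ⟨?_, ?_, ?_⟩
  · unfold tw
    rw [hf.one, nit_one]; simp
  · intro m n h
    unfold tw
    rw [hf.mul m n h, nit_mul, Nat.cast_mul, map_mul]
    ring
  · intro n
    unfold tw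
    rw [norm_mul, norm_mul]
    have h1 := hf.bd n
    have h2 := nit_norm T n
    have h3 := char_norm χ (n : ZMod q)
    calc ‖f n‖ * ‖nit T n‖ * ‖χ (n : ZMod q)‖ ≤ 1 * 1 * 1 := by gcongr
      _ = 1 := by norm_num

lemma dist2_tw {q : ℕ} (f : ℕ → ℂ) (T t : ℝ) (χ : DirichletCharacter ℂ q) (y x : ℝ) :
    dist2 (tw f T χ) (1 : DirichletCharacter ℂ 1) t y x = dist2 f χ⁻¹ (t - T) y x := by
  unfold dist2
  refine Finset.sum_congr rfl fun p hp => ?_
  rw [Finset.mem_filter] at hp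
  have hp0 : 0 < p := hp.2.1.pos
  congr 2
  have h1 : (1 : DirichletCharacter ℂ 1) (p : ZMod 1) = 1 := by
    rw [show (p : ZMod 1) = 1 from Subsingleton.elim _ _, map_one]
  rw [h1, one_mul, map_mul, conj_inv_char, ← nit_conj hp0]
  unfold tw
  congr 1
  ring

/-- the distance grows slowly -/
lemma dist2_mono {q : ℕ} {f : ℕ → ℂ} (hf : MB f) (χ : DirichletCharacter ℂ q) (t : ℝ) {z x : ℕ}
    (hzx : x ≤ z ^ 2) {C : ℝ}
    (hM : ∑ p ∈ (Finset.Iic ⌊(z : ℝ) ^ 2⌋₊).filter (fun p : ℕ => p.Prime ∧ (z : ℝ) < p),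
      1 / (p : ℝ) ≤ C) :
    dist2 f χ t 1 x ≤ dist2 f χ t 1 z + 2 * C := by
  have h0 : ∀ p : ℕ, |(f p * conj (χ (p : ZMod q) * nit t p)).re| ≤ 1 := by
    intro p
    refine (Complex.abs_re_le_norm _).trans ?_
    rw [norm_mul, RCLike.norm_conj, norm_mul]
    have h1 := hf.bd p
    have h2 := nit_norm t p
    have h3 := char_norm χ (p : ZMod q)
    calc ‖f p‖ * (‖χ (p : ZMod q)‖ * ‖nit t p‖) ≤ 1 * (1 * 1) := by gcongr
      _ = 1 := by norm_num
  unfold dist2
  rw [Nat.floor_natCast, Nat.floor_natCast]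
  have hfl : ⌊(z : ℝ) ^ 2⌋₊ = z ^ 2 := by
    rw [show ((z : ℝ) ^ 2) = ((z ^ 2 : ℕ) : ℝ) by push_cast; ring, Nat.floor_natCast]
  rw [hfl] at hM
  have hsub : (Finset.Iic x).filter (fun p : ℕ => p.Prime ∧ (1 : ℝ) < p) ⊆
      (Finset.Iic z).filter (fun p : ℕ => p.Prime ∧ (1 : ℝ) < p) ∪
      (Finset.Iic (z ^ 2)).filter (fun p : ℕ => p.Prime ∧ (z : ℝ) < p) := by
    intro p hp
    rw [Finset.mem_filter, Finset.mem_Iic] at hp
    rw [Finset.mem_union, Finset.mem_filter, Finset.mem_filter, Finset.mem_Iic, Finset.mem_Iic]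
    rcases le_or_gt p z with h | h
    · exact Or.inl ⟨h, hp.2⟩
    · exact Or.inr ⟨hp.1.trans hzx, hp.2.1, by exact_mod_cast h⟩
  have hnn : ∀ p : ℕ, 0 ≤ (1 - (f p * conj (χ (p : ZMod q) * nit t p)).re) / (p : ℝ) := by
    intro p
    have := (abs_le.1 (h0 p)).2
    exact div_nonneg (by linarith) (by positivity)
  refine (Finset.sum_le_sum_of_subset_of_nonneg hsub fun p _ _ => hnn p).trans ?_
  have hun := Finset.sum_union_inter (s₁ := (Finset.Iic z).filter
    (fun p : ℕ => p.Prime ∧ (1 : ℝ) < p)) (s₂ := (Finset.Iic (z ^ 2)).filter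
    (fun p : ℕ => p.Prime ∧ (z : ℝ) < p))
    (f := fun p : ℕ => (1 - (f p * conj (χ (p : ZMod q) * nit t p)).re) / (p : ℝ))
  have hin : 0 ≤ ∑ p ∈ (Finset.Iic z).filter (fun p : ℕ => p.Prime ∧ (1 : ℝ) < p) ∩
      (Finset.Iic (z ^ 2)).filter (fun p : ℕ => p.Prime ∧ (z : ℝ) < p),
      (1 - (f p * conj (χ (p : ZMod q) * nit t p)).re) / (p : ℝ) :=
    Finset.sum_nonneg fun p _ => hnn p
  refine (show _ ≤ _ from by linarith [hun, hin] : _ ≤
    ∑ p ∈ (Finset.Iic z).filter (fun p : ℕ => p.Prime ∧ (1 : ℝ) < p),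
      (1 - (f p * conj (χ (p : ZMod q) * nit t p)).re) / (p : ℝ) +
    ∑ p ∈ (Finset.Iic (z ^ 2)).filter (fun p : ℕ => p.Prime ∧ (z : ℝ) < p),
      (1 - (f p * conj (χ (p : ZMod q) * nit t p)).re) / (p : ℝ)).trans ?_
  refine add_le_add le_rfl ?_
  calc ∑ p ∈ (Finset.Iic (z ^ 2)).filter (fun p : ℕ => p.Prime ∧ (z : ℝ) < p),
        (1 - (f p * conj (χ (p : ZMod q) * nit t p)).re) / (p : ℝ)
      ≤ ∑ p ∈ (Finset.Iic (z ^ 2)).filter (fun p : ℕ => p.Prime ∧ (z : ℝ) < p),
        2 * (1 / (p : ℝ)) := by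
        refine Finset.sum_le_sum fun p _ => ?_
        have := (abs_le.1 (h0 p)).1
        rw [mul_one_div]
        exact div_le_div_of_nonneg_right (by linarith) (by positivity)
    _ = 2 * ∑ p ∈ (Finset.Iic (z ^ 2)).filter (fun p : ℕ => p.Prime ∧ (z : ℝ) < p),
        1 / (p : ℝ) := by rw [Finset.mul_sum]
    _ ≤ 2 * C := by linarith

/-! ### One character -/

lemma one_char {q0 : ℕ} {ε' A' C : ℝ} {X' : ℕ}
    (hC : ∀ y : ℝ, 1 ≤ y →
      ∑ p ∈ (Finset.Iic ⌊y ^ 2⌋₊).filter (fun p : ℕ => p.Prime ∧ y < p), 1 / (p : ℝ) ≤ C)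
    (hH : ∀ (x : ℕ) (f : ℕ → ℂ), X' ≤ x → MB f →
      (∀ t : ℝ, |t| ≤ x → A' ≤ dist2 f (1 : DirichletCharacter ℂ 1) t 1 x) →
      ‖∑ n ∈ Finset.Icc 1 x, f n‖ ≤ ε' * x)
    {x : ℕ} {f : ℕ → ℂ} {T : ℝ} (hf : MB f)
    (hD : ∀ (χ : DirichletCharacter ℂ q0) (t : ℝ), |t| ≤ |T| + x → A' + 2 * C ≤ dist2 f χ t 1 x)
    (χ : DirichletCharacter ℂ q0) {z : ℕ} (hz : X' ≤ z) (hz1 : 1 ≤ z) (hzx : z ≤ x)
    (hxz : x ≤ z ^ 2) :
    ‖∑ n ∈ Finset.Icc 1 z, tw f T χ n‖ ≤ ε' * z := by
  refine hH z _ hz (tw_MB hf T χ) fun t ht => ?_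
  rw [dist2_tw]
  have h1 : |t - T| ≤ |T| + x := by
    have h2 : (z : ℝ) ≤ x := by exact_mod_cast hzx
    have h3 := abs_sub t T
    linarith
  have h4 := hD χ⁻¹ (t - T) h1
  have h5 := dist2_mono hf χ⁻¹ (t - T) hxz (hC z (by exact_mod_cast hz1))
  linarith

/-! ### Periodic functions and characters -/

lemma per_mod {q : ℕ} {ξ : ℕ → ℂ} (h : Per q ξ) (m : ℕ) : ξ (m % q) = ξ m := by
  have h1 : ∀ k a : ℕ, ξ (a + k * q) = ξ a := by
    intro k
    induction k with
    | zero => intro a; simp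
    | succ k ih =>
      intro a
      rw [Nat.succ_mul, ← add_assoc, h (a + k * q), ih]
  conv_rhs => rw [← Nat.mod_add_div m q, mul_comm q]
  rw [h1]

lemma per_mul {q : ℕ} {ξ : ℕ → ℂ} (h : Per q ξ) (d m : ℕ) : ξ (d * (m % q)) = ξ (d * m) := by
  rw [← per_mod h (d * m), ← per_mod h (d * (m % q))]
  congr 1
  rw [Nat.mul_mod, Nat.mod_mod, ← Nat.mul_mod]

/-- expansion into characters -/
lemma char_exp {q : ℕ} [NeZero q] (G : ZMod q → ℂ) (b : ZMod q) :
    ∑ a : ZMod q, (if IsUnit a then G a else 0) *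
      ∑ χ : DirichletCharacter ℂ q, χ a⁻¹ * χ b =
    if IsUnit b then (q.totient : ℂ) * G b else 0 := by
  classical
  have h1 : ∀ a : ZMod q, (if IsUnit a then G a else 0) *
      ∑ χ : DirichletCharacter ℂ q, χ a⁻¹ * χ b =
      if a = b then (if IsUnit b then (q.totient : ℂ) * G b else 0) else 0 := by
    intro a
    by_cases ha : IsUnit a
    · rw [if_pos ha, DirichletCharacter.sum_char_inv_mul_char_eq ℂ ha b]
      by_cases hab : a = b
      · subst hab
        rw [if_pos rfl, if_pos rfl, if_pos ha]; ring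
      · rw [if_neg hab, if_neg hab, mul_zero]
    · rw [if_neg ha, zero_mul]
      by_cases hab : a = b
      · subst hab
        rw [if_pos rfl, if_neg ha]
      · rw [if_neg hab]
  simp only [h1]
  rw [Finset.sum_ite_eq' Finset.univ b]
  simp

/-- sums over `m` coprime to `q` with a weight depending on `m mod q` -/
lemma coprime_sum {q : ℕ} [NeZero q] (G : ZMod q → ℂ) (hG : ∀ a, ‖G a‖ ≤ 1) (F : ℕ → ℂ) (z : ℕ)
    {M : ℝ} (hM : ∀ χ : DirichletCharacter ℂ q, ‖∑ m ∈ Finset.Icc 1 z, F m * χ (m : ZMod q)‖ ≤ M) :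
    ‖∑ m ∈ (Finset.Icc 1 z).filter (fun m => Nat.Coprime m q), F m * G (m : ZMod q)‖ ≤
      q * M := by
  classical
  have hM0 : 0 ≤ M := (norm_nonneg _).trans (hM 1)
  have hφ : (0 : ℝ) < (q.totient : ℝ) := by
    exact_mod_cast Nat.totient_pos.2 (Nat.pos_of_ne_zero (NeZero.ne q))
  have hcard : (Fintype.card (DirichletCharacter ℂ q) : ℝ) = q.totient := by
    rw [← DirichletCharacter.card_eq_totient_of_hasEnoughRootsOfUnity ℂ q,
      Nat.card_eq_fintype_card]
  have hunit : (((Finset.univ : Finset (ZMod q)).filter fun a => IsUnit a).card : ℝ) = q.totient := by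
    have : ((Finset.univ : Finset (ZMod q)).filter fun a => IsUnit a) =
        (Finset.univ : Finset (ZMod q)ˣ).image (fun u : (ZMod q)ˣ => (u : ZMod q)) := by
      ext a
      simp only [Finset.mem_filter, Finset.mem_univ, true_and, Finset.mem_image]
      exact ⟨fun ⟨u, hu⟩ => ⟨u, hu⟩, fun ⟨u, hu⟩ => ⟨u, hu⟩⟩
    rw [this, Finset.card_image_of_injective _ Units.val_injective, Finset.card_univ,
      ZMod.card_units_eq_totient]
  have key : (q.totient : ℂ) *
      ∑ m ∈ (Finset.Icc 1 z).filter (fun m => Nat.Coprime m q), F m * G (m : ZMod q) =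
      ∑ a : ZMod q, (if IsUnit a then G a else 0) *
        ∑ χ : DirichletCharacter ℂ q, χ a⁻¹ * ∑ m ∈ Finset.Icc 1 z, F m * χ (m : ZMod q) := by
    have e1 : ∀ a : ZMod q, (if IsUnit a then G a else 0) *
        ∑ χ : DirichletCharacter ℂ q, χ a⁻¹ * ∑ m ∈ Finset.Icc 1 z, F m * χ (m : ZMod q) =
        ∑ m ∈ Finset.Icc 1 z, F m * ((if IsUnit a then G a else 0) *
          ∑ χ : DirichletCharacter ℂ q, χ a⁻¹ * χ (m : ZMod q)) := by
      intro a
      simp only [Finset.mul_sum]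
      rw [Finset.sum_comm]
      refine Finset.sum_congr rfl fun m _ => Finset.sum_congr rfl fun χ _ => ?_
      ring
    simp only [e1]
    rw [Finset.sum_comm]
    simp only [← Finset.mul_sum, char_exp]
    rw [Finset.sum_filter, Finset.mul_sum]
    refine Finset.sum_congr rfl fun m _ => ?_
    by_cases h : Nat.Coprime m q
    · rw [if_pos h, if_pos ((ZMod.isUnit_iff_coprime m q).2 h)]; ring
    · rw [if_neg h, if_neg (fun h' => h ((ZMod.isUnit_iff_coprime m q).1 h'))]; ring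
  have h1 : (q.totient : ℝ) *
      ‖∑ m ∈ (Finset.Icc 1 z).filter (fun m => Nat.Coprime m q), F m * G (m : ZMod q)‖ ≤
      q.totient * (q.totient * M) := by
    calc (q.totient : ℝ) *
        ‖∑ m ∈ (Finset.Icc 1 z).filter (fun m => Nat.Coprime m q), F m * G (m : ZMod q)‖
        = ‖(q.totient : ℂ) *
          ∑ m ∈ (Finset.Icc 1 z).filter (fun m => Nat.Coprime m q), F m * G (m : ZMod q)‖ := by
          rw [norm_mul, Complex.norm_natCast]
      _ = ‖∑ a : ZMod q, (if IsUnit a then G a else 0) *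
        ∑ χ : DirichletCharacter ℂ q, χ a⁻¹ * ∑ m ∈ Finset.Icc 1 z, F m * χ (m : ZMod q)‖ := by
          rw [key]
      _ ≤ ∑ a : ZMod q, (if IsUnit a then (q.totient * M) else 0) := by
          refine norm_sum_le_of_le _ fun a _ => ?_
          by_cases ha : IsUnit a
          · rw [if_pos ha, if_pos ha, norm_mul]
            calc ‖G a‖ * ‖∑ χ : DirichletCharacter ℂ q, χ a⁻¹ *
                  ∑ m ∈ Finset.Icc 1 z, F m * χ (m : ZMod q)‖
                ≤ 1 * ∑ _χ : DirichletCharacter ℂ q, M := by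
                  refine mul_le_mul (hG a) (norm_sum_le_of_le _ fun χ _ => ?_) (norm_nonneg _)
                    zero_le_one
                  rw [norm_mul]
                  calc ‖χ a⁻¹‖ * ‖∑ m ∈ Finset.Icc 1 z, F m * χ (m : ZMod q)‖ ≤ 1 * M :=
                        mul_le_mul (char_norm χ _) (hM χ) (norm_nonneg _) zero_le_one
                    _ = M := one_mul M
              _ = q.totient * M := by
                  rw [one_mul, Finset.sum_const, Finset.card_univ, nsmul_eq_mul, hcard]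
          · rw [if_neg ha, if_neg ha, zero_mul, norm_zero]
      _ = q.totient * (q.totient * M) := by
          rw [← Finset.sum_filter, Finset.sum_const, nsmul_eq_mul, hunit]
  have h2 := le_of_mul_le_mul_left h1 hφ
  refine h2.trans (mul_le_mul_of_nonneg_right ?_ hM0)
  exact_mod_cast Nat.totient_le q

/-! ### The part of `n` composed of primes dividing `q` -/

lemma bad_dvd {q E n : ℕ} (hq : 0 < q) (h : ¬ Nat.Coprime (n / Nat.gcd n (q ^ E)) q) :
    ∃ p ∈ q.primeFactors, p ^ (E + 1) ∣ n := by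
  obtain ⟨p, hp, h1, h2⟩ := Nat.Prime.not_coprime_iff_dvd.1 h
  have hg : Nat.gcd n (q ^ E) * (n / Nat.gcd n (q ^ E)) = n :=
    Nat.mul_div_cancel' (Nat.gcd_dvd_left _ _)
  have h3 : ∀ j ≤ E, p ^ j ∣ Nat.gcd n (q ^ E) := by
    intro j
    induction j with
    | zero => intro _; simp
    | succ j ih =>
      intro hj
      refine Nat.dvd_gcd ?_ ?_
      · rw [← hg, pow_succ]
        exact mul_dvd_mul (ih (by omega)) h1
      · exact (pow_dvd_pow p hj).trans (pow_dvd_pow_of_dvd h2 E)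
  refine ⟨p, Nat.mem_primeFactors.2 ⟨hp, h2, hq.ne'⟩, ?_⟩
  rw [← hg, pow_succ]
  exact mul_dvd_mul (h3 E le_rfl) h1

lemma bad_card {q E y : ℕ} (hq : 0 < q) :
    (((Finset.Icc 1 y).filter
      (fun n => ¬ Nat.Coprime (n / Nat.gcd n (q ^ E)) q)).card : ℝ) ≤ q * (y / 2 ^ (E + 1)) := by
  classical
  have hsub : (Finset.Icc 1 y).filter (fun n => ¬ Nat.Coprime (n / Nat.gcd n (q ^ E)) q) ⊆
      q.primeFactors.biUnion fun p => (Finset.Ioc 0 y).filter fun n => p ^ (E + 1) ∣ n := by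
    intro n hn
    rw [Finset.mem_filter, Finset.mem_Icc] at hn
    obtain ⟨p, hp, h1⟩ := bad_dvd hq hn.2
    rw [Finset.mem_biUnion]
    refine ⟨p, hp, ?_⟩
    rw [Finset.mem_filter, Finset.mem_Ioc]
    exact ⟨⟨hn.1.1, hn.1.2⟩, h1⟩
  have h1 := (Finset.card_le_card hsub).trans Finset.card_biUnion_le
  simp only [Nat.Ioc_filter_dvd_card_eq_div] at h1
  have h2 : ((∑ p ∈ q.primeFactors, y / p ^ (E + 1) : ℕ) : ℝ) ≤
      ∑ _p ∈ q.primeFactors, (y : ℝ) / 2 ^ (E + 1) := by
    push_cast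
    refine Finset.sum_le_sum fun p hp => ?_
    refine Nat.cast_div_le.trans ?_
    push_cast
    have h3 : (2 : ℝ) ≤ p := by exact_mod_cast (Nat.prime_of_mem_primeFactors hp).two_le
    exact div_le_div_of_nonneg_left (by positivity) (by positivity)
      (pow_le_pow_left₀ (by norm_num) h3 _)
  rw [Finset.sum_const, nsmul_eq_mul] at h2
  have h4 : (q.primeFactors.card : ℝ) ≤ q := by
    have h5 : q.primeFactors ⊆ Finset.Icc 1 q := by
      intro p hp
      rw [Finset.mem_Icc]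
      exact ⟨(Nat.prime_of_mem_primeFactors hp).one_lt.le, Nat.le_of_mem_primeFactors hp⟩
    have h6 := Finset.card_le_card h5
    rw [Nat.card_Icc] at h6
    have h7 : q.primeFactors.card ≤ q := by omega
    exact_mod_cast h7
  calc (((Finset.Icc 1 y).filter
      (fun n => ¬ Nat.Coprime (n / Nat.gcd n (q ^ E)) q)).card : ℝ)
      ≤ ((∑ p ∈ q.primeFactors, y / p ^ (E + 1) : ℕ) : ℝ) := by exact_mod_cast h1
    _ ≤ q.primeFactors.card * ((y : ℝ) / 2 ^ (E + 1)) := h2
    _ ≤ q * (y / 2 ^ (E + 1)) := mul_le_mul_of_nonneg_right h4 (by positivity)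

lemma good_sum {q E y : ℕ} (hq : 0 < q) (F : ℕ → ℂ) :
    ∑ n ∈ (Finset.Icc 1 y).filter (fun n => Nat.Coprime (n / Nat.gcd n (q ^ E)) q), F n =
    ∑ d ∈ (q ^ E).divisors,
      ∑ m ∈ (Finset.Icc 1 (y / d)).filter (fun m => Nat.Coprime m q), F (d * m) := by
  classical
  have hD : q ^ E ≠ 0 := pow_ne_zero _ hq.ne'
  rw [← Finset.sum_fiberwise_of_maps_to (g := fun n => Nat.gcd n (q ^ E)) (t := (q ^ E).divisors)]
  · refine Finset.sum_congr rfl fun d hd => ?_
    have hd1 : d ∣ q ^ E := Nat.dvd_of_mem_divisors hd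
    have hd0 : 0 < d := Nat.pos_of_dvd_of_pos hd1 (Nat.pos_of_ne_zero hD)
    refine Finset.sum_nbij' (fun n => n / d) (fun m => d * m) ?_ ?_ ?_ ?_ ?_
    · intro n hn
      rw [Finset.mem_filter, Finset.mem_filter, Finset.mem_Icc] at hn
      obtain ⟨⟨⟨h1, h2⟩, h3⟩, h4⟩ := hn
      rw [h4] at h3
      rw [Finset.mem_filter, Finset.mem_Icc]
      have h5 : d ∣ n := by rw [← h4]; exact Nat.gcd_dvd_left _ _
      exact ⟨⟨Nat.div_pos (Nat.le_of_dvd h1 h5) hd0, Nat.div_le_div_right h2⟩, h3⟩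
    · intro m hm
      rw [Finset.mem_filter, Finset.mem_Icc] at hm
      obtain ⟨⟨h1, h2⟩, h3⟩ := hm
      have h4 : Nat.gcd (d * m) (q ^ E) = d := by
        rw [Nat.Coprime.gcd_mul_right_cancel d (Nat.Coprime.pow_right E h3)]
        exact Nat.gcd_eq_left hd1
      rw [Finset.mem_filter, Finset.mem_filter, Finset.mem_Icc]
      refine ⟨⟨⟨Nat.mul_pos hd0 h1, ?_⟩, ?_⟩, h4⟩
      · calc d * m ≤ d * (y / d) := Nat.mul_le_mul_left d h2
          _ ≤ y := Nat.mul_div_le y d
      · rw [h4, Nat.mul_div_cancel_left m hd0]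
        exact h3
    · intro n hn
      rw [Finset.mem_filter] at hn
      have h5 : d ∣ n := by rw [← hn.2]; exact Nat.gcd_dvd_left _ _
      exact Nat.mul_div_cancel' h5
    · intro m _
      exact Nat.mul_div_cancel_left m hd0
    · intro n hn
      rw [Finset.mem_filter] at hn
      have h5 : d ∣ n := by rw [← hn.2]; exact Nat.gcd_dvd_left _ _
      rw [Nat.mul_div_cancel' h5]
  · intro n _
    exact Nat.mem_divisors.2 ⟨Nat.gcd_dvd_right _ _, hD⟩

end HALP_

open HALP_ in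
theorem p_HALP (h1 : T_HAL) (h2 : T_MERT) : T_HALP := by
  classical
  intro ε q0 hε hq0
  obtain ⟨C, hC0, hC⟩ := h2
  have hq : 0 < q0 := hq0
  have : NeZero q0 := ⟨hq.ne'⟩
  have hqr : (0 : ℝ) < q0 := by exact_mod_cast hq
  -- the exponent `E`
  obtain ⟨E, hE⟩ : ∃ E : ℕ, (q0 : ℝ) / 2 ^ (E + 1) ≤ ε / 2 := by
    obtain ⟨n, hn⟩ := pow_unbounded_of_one_lt (2 * (q0 : ℝ) / ε) (one_lt_two)
    refine ⟨n, ?_⟩
    rw [div_le_iff₀ (by positivity)]
    rw [div_lt_iff₀ hε] at hn
    rw [pow_succ]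
    nlinarith [pow_pos (show (0 : ℝ) < 2 by norm_num) n]
  set D0 : ℕ := q0 ^ E with hD0
  have hD0p : 0 < D0 := pow_pos hq E
  have hD0r : (0 : ℝ) < D0 := by exact_mod_cast hD0p
  set ε' : ℝ := ε / (2 * D0 * q0) with hε'
  have hε'0 : 0 < ε' := by positivity
  obtain ⟨A', X', hH⟩ := h1 ε' hε'0
  -- the threshold
  obtain ⟨X, hX⟩ : ∃ X : ℕ, ∀ x : ℕ, X ≤ x → √x + X' + 1 ≤ ε * x / D0 := by
    refine ⟨⌈((X' + 2) * D0 / ε) ^ 2⌉₊ + 1, fun x hx => ?_⟩
    have hx1 : ((X' + 2) * D0 / ε) ^ 2 ≤ (x : ℝ) :=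
      (Nat.le_ceil _).trans (by exact_mod_cast (Nat.le_succ _).trans hx)
    have hx2 : (1 : ℝ) ≤ x := by
      have : 1 ≤ x := le_trans (by omega) hx
      exact_mod_cast this
    have hs1 : 1 ≤ √(x : ℝ) := by rw [Real.one_le_sqrt]; exact hx2
    have hs2 : (X' + 2) * D0 / ε ≤ √(x : ℝ) := Real.le_sqrt_of_sq_le hx1
    have hs3 : √(x : ℝ) * √(x : ℝ) = x := Real.mul_self_sqrt (by positivity)
    rw [le_div_iff₀ hD0r]
    rw [div_le_iff₀ hε] at hs2
    have hX'0 : (0 : ℝ) ≤ X' := by positivity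
    calc (√(x : ℝ) + X' + 1) * D0 ≤ ((X' + 2) * √(x : ℝ)) * D0 := by
          refine mul_le_mul_of_nonneg_right ?_ hD0r.le
          nlinarith
      _ = ((X' + 2) * D0) * √(x : ℝ) := by ring
      _ ≤ (√(x : ℝ) * ε) * √(x : ℝ) := mul_le_mul_of_nonneg_right hs2 (Real.sqrt_nonneg _)
      _ = ε * x := by rw [mul_right_comm, hs3]; ring
  refine ⟨A' + 2 * C, X, fun x f T hx hf hD ξ hξ hξ1 y hyx => ?_⟩
  set F : ℕ → ℂ := fun n => f n * nit T n * ξ n with hF
  have hF1 : ∀ n, ‖F n‖ ≤ 1 := by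
    intro n
    simp only [hF]
    rw [norm_mul, norm_mul]
    have a1 := hf.bd n
    have a2 := nit_norm T n
    have a3 := hξ1 n
    calc ‖f n‖ * ‖nit T n‖ * ‖ξ n‖ ≤ 1 * 1 * 1 := by gcongr
      _ = 1 := by norm_num
  have hyr : (y : ℝ) ≤ x := by exact_mod_cast hyx
  rcases le_or_gt (y : ℝ) (ε * x) with hy | hy
  · refine (norm_sum_le_of_le _ fun n _ => hF1 n).trans ?_
    rw [Finset.sum_const, Nat.card_Icc, nsmul_eq_mul, mul_one, Nat.add_sub_cancel]
    exact hy
  · rw [← Finset.sum_filter_add_sum_filter_not _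
      (fun n => Nat.Coprime (n / Nat.gcd n (q0 ^ E)) q0)]
    refine (norm_add_le _ _).trans ?_
    have hbad : ‖∑ n ∈ (Finset.Icc 1 y).filter
        (fun n => ¬ Nat.Coprime (n / Nat.gcd n (q0 ^ E)) q0), F n‖ ≤ ε / 2 * x := by
      refine (norm_sum_le_of_le _ fun n _ => hF1 n).trans ?_
      rw [Finset.sum_const, nsmul_eq_mul, mul_one]
      refine (bad_card hq).trans ?_
      calc (q0 : ℝ) * (y / 2 ^ (E + 1)) = q0 / 2 ^ (E + 1) * y := by ring
        _ ≤ ε / 2 * x := mul_le_mul hE hyr (by positivity) (by positivity)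
    have hgood : ‖∑ n ∈ (Finset.Icc 1 y).filter
        (fun n => Nat.Coprime (n / Nat.gcd n (q0 ^ E)) q0), F n‖ ≤ ε / 2 * x := by
      rw [good_sum hq F]
      have hin : ∀ d ∈ (q0 ^ E).divisors,
          ‖∑ m ∈ (Finset.Icc 1 (y / d)).filter (fun m => Nat.Coprime m q0), F (d * m)‖ ≤
          q0 * (ε' * x) := by
        intro d hd
        have hd1 : d ∣ D0 := Nat.dvd_of_mem_divisors hd
        have hd0 : 0 < d := Nat.pos_of_dvd_of_pos hd1 hD0p
        have hdD : d ≤ D0 := Nat.le_of_dvd hD0p hd1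
        set z := y / d with hz
        have hzr : ε * x / D0 - 1 ≤ (z : ℝ) := by
          have b1 : (y : ℝ) / d - 1 ≤ z := by
            have b2 : y < (z + 1) * d := by
              rw [hz, mul_comm]; exact Nat.lt_mul_div_succ y hd0
            have b3 : (y : ℝ) ≤ (z + 1) * d := by exact_mod_cast b2.le
            have hdr : (0 : ℝ) < d := by exact_mod_cast hd0
            rw [← div_le_iff₀ hdr] at b3
            linarith
          have b4 : ε * x / D0 ≤ (y : ℝ) / d := by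
            have hdr : (0 : ℝ) < d := by exact_mod_cast hd0
            have hdDr : (d : ℝ) ≤ D0 := by exact_mod_cast hdD
            exact div_le_div₀ (by positivity) hy.le hdr hdDr
          linarith
        have hzs : √(x : ℝ) + X' ≤ z := by linarith [hX x hx]
        have hzX : X' ≤ z := by
          have : (X' : ℝ) ≤ z := by linarith [Real.sqrt_nonneg (x : ℝ)]
          exact_mod_cast this
        have hxpos : 0 < x := by
          rcases Nat.eq_zero_or_pos x with h0 | h0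
          · exfalso
            have hy0 : y = 0 := by omega
            rw [h0, hy0] at hy
            simp at hy
          · exact h0
        have hz1 : 1 ≤ z := by
          have c1 : (1 : ℝ) ≤ √(x : ℝ) := by
            rw [Real.one_le_sqrt]; exact_mod_cast hxpos
          have c2 : (1 : ℝ) ≤ z := by
            have : (0 : ℝ) ≤ X' := by positivity
            linarith
          exact_mod_cast c2
        have hzx : z ≤ x := (Nat.div_le_self _ _).trans hyx
        have hxz : x ≤ z ^ 2 := by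
          have c1 : √(x : ℝ) ≤ z := by
            have : (0 : ℝ) ≤ X' := by positivity
            linarith
          have c2 : (x : ℝ) ≤ (z : ℝ) ^ 2 := (Real.sqrt_le_left (by positivity)).1 c1
          exact_mod_cast c2
        have hM : ∀ χ : DirichletCharacter ℂ q0,
            ‖∑ m ∈ Finset.Icc 1 z, (f m * nit T m) * χ (m : ZMod q0)‖ ≤ ε' * x := by
          intro χ
          refine (one_char hC hH hf hD χ hzX hz1 hzx hxz).trans ?_
          have : (z : ℝ) ≤ x := by exact_mod_cast hzx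
          exact mul_le_mul_of_nonneg_left this hε'0.le
        have hcs := coprime_sum (q := q0) (fun a => ξ (d * a.val)) (fun a => hξ1 _)
          (fun m => f m * nit T m) z hM
        have hrew : ∑ m ∈ (Finset.Icc 1 z).filter (fun m => Nat.Coprime m q0), F (d * m) =
            (f d * nit T d) * ∑ m ∈ (Finset.Icc 1 z).filter (fun m => Nat.Coprime m q0),
              (f m * nit T m) * ξ (d * ((m : ZMod q0)).val) := by
          rw [Finset.mul_sum]
          refine Finset.sum_congr rfl fun m hm => ?_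
          rw [Finset.mem_filter] at hm
          have hcop : Nat.Coprime d m :=
            (Nat.Coprime.coprime_dvd_right hd1 (Nat.Coprime.pow_right E hm.2)).symm
          simp only [hF]
          rw [hf.mul d m hcop, nit_mul, ZMod.val_natCast, per_mul hξ]
          ring
        rw [hrew, norm_mul]
        have hfd : ‖f d * nit T d‖ ≤ 1 := by
          rw [norm_mul]
          have a1 := hf.bd d
          have a2 := nit_norm T d
          calc ‖f d‖ * ‖nit T d‖ ≤ 1 * 1 := by gcongr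
            _ = 1 := by norm_num
        calc ‖f d * nit T d‖ * _ ≤ 1 * (q0 * (ε' * x)) :=
              mul_le_mul hfd hcs (norm_nonneg _) zero_le_one
          _ = q0 * (ε' * x) := one_mul _
      refine (norm_sum_le_of_le _ hin).trans ?_
      rw [Finset.sum_const, nsmul_eq_mul]
      have hcard : (((q0 ^ E).divisors.card : ℕ) : ℝ) ≤ D0 := by
        exact_mod_cast Nat.card_divisors_le_self _
      calc (((q0 ^ E).divisors.card : ℕ) : ℝ) * (q0 * (ε' * x)) ≤ D0 * (q0 * (ε' * x)) :=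
            mul_le_mul_of_nonneg_right hcard (by positivity)
        _ = ε / 2 * x := by
            rw [hε']
            field_simp
    linarith

end Pool.Agent.Ell
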