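import Pool.Agent.Ell.Targets

set_option autoImplicit false

/-!
# ELL-E8: Katai's orthogonality criterion with a fixed finite set of primes
-/

namespace Pool.Agent.Ell.Kat

open Finset
open scoped BigOperators ComplexConjugate

/-- finite sets of large primes with a large sum of reciprocals -/
theorem exists_P (Y : ℝ) (N0 : ℕ) :
    ∃ P : Finset ℕ, (∀ p ∈ P, p.Prime ∧ N0 < p) ∧ Y ≤ ∑ p ∈ P, 1 / (p : ℝ) := by
  by_contra hc
  push Not at hc
  refine not_summable_one_div_on_primes ?_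
  rw [← summable_nat_add_iff (N0 + 1)]
  refine summable_of_sum_range_le (c := Y) (fun n => ?_) (fun n => ?_)
  · exact Set.indicator_nonneg (fun _ _ => by positivity) _
  · have h := hc (((Finset.range n).image (fun i => i + (N0 + 1))).filter Nat.Prime) (by
      intro p hp
      rw [mem_filter, mem_image] at hp
      obtain ⟨⟨i, _, rfl⟩, h2⟩ := hp
      exact ⟨h2, by omega⟩)
    refine le_of_eq_of_le ?_ h.le
    rw [sum_filter, sum_image (fun a _ b _ hab => by
      have : a + (N0 + 1) = b + (N0 + 1) := hab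
      omega)]
    refine sum_congr rfl fun i _ => ?_
    simp only [Set.indicator, Set.mem_ofPred_eq]

theorem sum_inv_sq (P : Finset ℕ) (hP : ∀ p ∈ P, p.Prime) :
    ∑ p ∈ P, 1 / (p : ℝ) ^ 2 ≤ 1 := by
  have h1 : P ⊆ Finset.Ioc 1 (P.sup id + 1) := by
    intro p hp
    rw [mem_Ioc]
    have : p ≤ P.sup id := Finset.le_sup (f := id) hp
    exact ⟨(hP p hp).one_lt, by omega⟩
  have h2 := sum_Ioc_inv_sq_le_sub (α := ℝ) (k := 1) (n := P.sup id + 1) one_ne_zero (by omega)
  calc ∑ p ∈ P, 1 / (p : ℝ) ^ 2 ≤ ∑ p ∈ Finset.Ioc 1 (P.sup id + 1), 1 / (p : ℝ) ^ 2 :=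
        sum_le_sum_of_subset_of_nonneg h1 fun _ _ _ => by positivity
    _ = ∑ i ∈ Finset.Ioc 1 (P.sup id + 1), ((i : ℝ) ^ 2)⁻¹ :=
        sum_congr rfl fun _ _ => one_div _
    _ ≤ ((1 : ℕ) : ℝ)⁻¹ - ((P.sup id + 1 : ℕ) : ℝ)⁻¹ := h2
    _ ≤ 1 := by
        have : (0 : ℝ) ≤ ((P.sup id + 1 : ℕ) : ℝ)⁻¹ := by positivity
        norm_num at this ⊢
        linarith

/-- the number of prime divisors in `P` -/
noncomputable def om (P : Finset ℕ) (n : ℕ) : ℝ := ∑ p ∈ P, if p ∣ n then 1 else 0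

theorem count (x d : ℕ) :
    ∑ n ∈ Finset.Icc 1 x, (if d ∣ n then (1 : ℝ) else 0) = ((x / d : ℕ) : ℝ) := by
  rw [← sum_filter, sum_const, nsmul_eq_mul, mul_one]
  congr 1
  exact Nat.Ioc_filter_dvd_card_eq_div x d

theorem sum_mult {M : Type*} [AddCommMonoid M] (x p : ℕ) (hp : 0 < p) (g : ℕ → M) :
    ∑ n ∈ (Finset.Icc 1 x).filter (p ∣ ·), g n = ∑ m ∈ Finset.Icc 1 (x / p), g (p * m) := by
  refine sum_nbij' (fun n => n / p) (fun m => p * m) ?_ ?_ ?_ ?_ ?_
  · intro n hn
    rw [mem_filter, mem_Icc] at hn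
    rw [mem_Icc]
    exact ⟨Nat.div_pos (Nat.le_of_dvd (by omega) hn.2) hp, Nat.div_le_div_right hn.1.2⟩
  · intro m hm
    rw [mem_Icc] at hm
    rw [mem_filter, mem_Icc]
    refine ⟨⟨Nat.mul_pos hp hm.1, ?_⟩, dvd_mul_right _ _⟩
    rw [mul_comm]
    exact (Nat.le_div_iff_mul_le hp).1 hm.2
  · intro n hn
    rw [mem_filter] at hn
    exact Nat.mul_div_cancel' hn.2
  · intro m _
    exact Nat.mul_div_cancel_left m hp
  · intro n hn
    rw [mem_filter] at hn
    rw [Nat.mul_div_cancel' hn.2]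

theorem pair (x p q : ℕ) (hp : p.Prime) (hq : q.Prime) :
    ∑ n ∈ Finset.Icc 1 x, ((if p ∣ n then (1 : ℝ) else 0) * (if q ∣ n then 1 else 0)) ≤
      (if p = q then (x : ℝ) / p else 0) + (x : ℝ) / (p * q) := by
  by_cases h : p = q
  · subst h
    rw [if_pos rfl]
    have : ∀ n, ((if p ∣ n then (1 : ℝ) else 0) * (if p ∣ n then 1 else 0)) =
        if p ∣ n then 1 else 0 := fun n => by split_ifs <;> simp
    simp only [this]
    rw [count]
    have h1 : ((x / p : ℕ) : ℝ) ≤ (x : ℝ) / p := Nat.cast_div_le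
    have h2 : (0 : ℝ) ≤ (x : ℝ) / (p * p) := by positivity
    linarith
  · rw [if_neg h, zero_add]
    have hco : Nat.Coprime p q := (Nat.coprime_primes hp hq).2 h
    calc ∑ n ∈ Finset.Icc 1 x, ((if p ∣ n then (1 : ℝ) else 0) * (if q ∣ n then 1 else 0))
        ≤ ∑ n ∈ Finset.Icc 1 x, (if p * q ∣ n then (1 : ℝ) else 0) := by
          refine sum_le_sum fun n _ => ?_
          by_cases h1 : p ∣ n
          · by_cases h2 : q ∣ n
            · rw [if_pos h1, if_pos h2, if_pos (hco.mul_dvd_of_dvd_of_dvd h1 h2), mul_one]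
            · rw [if_neg h2, mul_zero]
              split_ifs <;> norm_num
          · rw [if_neg h1, zero_mul]
            split_ifs <;> norm_num
      _ = ((x / (p * q) : ℕ) : ℝ) := count _ _
      _ ≤ (x : ℝ) / (p * q) := by
          have := Nat.cast_div_le (α := ℝ) (m := x) (n := p * q)
          push_cast at this
          exact this

/-- Turan-Kubilius for a fixed set of primes -/
theorem turan (P : Finset ℕ) (hP : ∀ p ∈ P, p.Prime) (x : ℕ) (L : ℝ)
    (hL : L = ∑ p ∈ P, 1 / (p : ℝ)) :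
    ∑ n ∈ Finset.Icc 1 x, (om P n - L) ^ 2 ≤ L * x + 2 * L * P.card := by
  have hL0 : 0 ≤ L := by rw [hL]; positivity
  have h1 : ∑ n ∈ Finset.Icc 1 x, (om P n) ^ 2 ≤ L * x + L ^ 2 * x := by
    have e1 : ∀ n, (om P n) ^ 2 = ∑ p ∈ P, ∑ q ∈ P,
        ((if p ∣ n then (1 : ℝ) else 0) * (if q ∣ n then 1 else 0)) := by
      intro n
      rw [sq, om, sum_mul_sum]
    simp only [e1]
    rw [sum_comm]
    calc ∑ p ∈ P, ∑ n ∈ Finset.Icc 1 x, ∑ q ∈ P,
          ((if p ∣ n then (1 : ℝ) else 0) * (if q ∣ n then 1 else 0))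
        = ∑ p ∈ P, ∑ q ∈ P, ∑ n ∈ Finset.Icc 1 x,
          ((if p ∣ n then (1 : ℝ) else 0) * (if q ∣ n then 1 else 0)) :=
          sum_congr rfl fun _ _ => sum_comm
      _ ≤ ∑ p ∈ P, ∑ q ∈ P, ((if p = q then (x : ℝ) / p else 0) + (x : ℝ) / (p * q)) :=
          sum_le_sum fun p hp => sum_le_sum fun q hq => pair x p q (hP p hp) (hP q hq)
      _ = L * x + L ^ 2 * x := by
          simp only [sum_add_distrib]
          congr 1
          · rw [hL, sum_mul]
            refine sum_congr rfl fun p hp => ?_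
            rw [sum_ite_eq, if_pos hp]
            ring
          · rw [hL, sq, sum_mul_sum, sum_mul]
            refine sum_congr rfl fun p _ => ?_
            rw [sum_mul]
            refine sum_congr rfl fun q _ => ?_
            rw [div_mul_div_comm, one_mul, div_mul_eq_mul_div, one_mul]
  have h2 : L * x - P.card ≤ ∑ n ∈ Finset.Icc 1 x, om P n := by
    unfold om
    rw [sum_comm]
    have e1 : ∑ p ∈ P, (1 / (p : ℝ) * x - 1) ≤
        ∑ p ∈ P, ∑ n ∈ Finset.Icc 1 x, (if p ∣ n then (1 : ℝ) else 0) := by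
      refine sum_le_sum fun p hp => ?_
      rw [count]
      have h3 := Nat.lt_div_mul_add (hP p hp).pos (a := x)
      have hp0 : (0 : ℝ) < p := by exact_mod_cast (hP p hp).pos
      have h4 : (x : ℝ) < ((x / p : ℕ) : ℝ) * p + p := by exact_mod_cast h3
      rw [one_div, inv_mul_eq_div, sub_le_iff_le_add, div_le_iff₀ hp0]
      linarith
    rw [sum_sub_distrib, ← sum_mul, ← hL] at e1
    simpa using e1
  have h3 : ∑ n ∈ Finset.Icc 1 x, (om P n - L) ^ 2 =
      ∑ n ∈ Finset.Icc 1 x, (om P n) ^ 2 - 2 * L * ∑ n ∈ Finset.Icc 1 x, om P n + L ^ 2 * x := by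
    rw [mul_sum, ← sum_sub_distrib]
    have : L ^ 2 * (x : ℝ) = ∑ _n ∈ Finset.Icc 1 x, L ^ 2 := by
      rw [sum_const, Nat.card_Icc, Nat.add_sub_cancel, nsmul_eq_mul, mul_comm]
    rw [this, ← sum_add_distrib]
    refine sum_congr rfl fun n _ => ?_
    ring
  rw [h3]
  nlinarith [mul_le_mul_of_nonneg_left h2 hL0]

theorem turan_abs (P : Finset ℕ) (hP : ∀ p ∈ P, p.Prime) (x : ℕ) (L : ℝ)
    (hL : L = ∑ p ∈ P, 1 / (p : ℝ)) (hx : 2 * P.card ≤ x) :
    ∑ n ∈ Finset.Icc 1 x, |om P n - L| ≤ √(2 * L) * x := by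
  have hL0 : 0 ≤ L := by rw [hL]; positivity
  have h1 := turan P hP x L hL
  have h2 := sq_sum_le_card_mul_sum_sq (s := Finset.Icc 1 x) (f := fun n => |om P n - L|)
  simp only [sq_abs, Nat.card_Icc, Nat.add_sub_cancel] at h2
  have h3 : (2 : ℝ) * P.card ≤ x := by exact_mod_cast hx
  have h4 : (∑ n ∈ Finset.Icc 1 x, |om P n - L|) ^ 2 ≤ (√(2 * L) * x) ^ 2 := by
    rw [mul_pow, Real.sq_sqrt (by positivity)]
    refine h2.trans ?_
    have : ∑ n ∈ Finset.Icc 1 x, (om P n - L) ^ 2 ≤ 2 * L * x := by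
      refine h1.trans ?_
      nlinarith [mul_le_mul_of_nonneg_left h3 hL0]
    calc (x : ℝ) * ∑ n ∈ Finset.Icc 1 x, (om P n - L) ^ 2 ≤ x * (2 * L * x) :=
          mul_le_mul_of_nonneg_left this (by positivity)
      _ = _ := by ring
  exact abs_le_of_sq_le_sq' h4 (by positivity) |>.2

theorem main_part (P : Finset ℕ) (hP : ∀ p ∈ P, p.Prime) (x : ℕ) (L δ : ℝ)
    (hL : L = ∑ p ∈ P, 1 / (p : ℝ)) (hδ : δ * (P.card : ℝ) ^ 2 ≤ 1) (hδ0 : 0 ≤ δ) (hL1 : 1 ≤ L)
    (f H : ℕ → ℂ) (hf : ∀ n, ‖f n‖ ≤ 1) (hH : ∀ n, ‖H n‖ ≤ 1)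
    (hc : ∀ p ∈ P, ∀ q ∈ P, p ≠ q →
      ‖∑ m ∈ Finset.Icc 1 (x / max p q), H (p * m) * conj (H (q * m))‖ ≤ δ * x) :
    ‖∑ p ∈ P, ∑ m ∈ Finset.Icc 1 (x / p), f p * f m * H (p * m)‖ ≤ √(2 * L) * x := by
  have hpos : ∀ p ∈ P, 0 < p := fun p hp => (hP p hp).pos
  set a : ℕ → ℕ → ℂ := fun p m => if m ≤ x / p then f p * H (p * m) else 0 with ha
  have ha1 : ∀ p m, ‖a p m‖ ≤ if m ≤ x / p then 1 else 0 := by
    intro p m
    simp only [ha]
    split_ifs
    · rw [norm_mul]
      exact mul_le_one₀ (hf _) (norm_nonneg _) (hH _)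
    · rw [norm_zero]
  have e1 : ∑ p ∈ P, ∑ m ∈ Finset.Icc 1 (x / p), f p * f m * H (p * m) =
      ∑ m ∈ Finset.Icc 1 x, f m * ∑ p ∈ P, a p m := by
    have : ∀ p ∈ P, ∑ m ∈ Finset.Icc 1 (x / p), f p * f m * H (p * m) =
        ∑ m ∈ Finset.Icc 1 x, f m * a p m := by
      intro p _
      have h1 : Finset.Icc 1 (x / p) = (Finset.Icc 1 x).filter (fun m => m ≤ x / p) := by
        ext m
        rw [mem_filter, mem_Icc, mem_Icc]
        have := Nat.div_le_self x p
        omega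
      rw [h1, sum_filter]
      refine sum_congr rfl fun m _ => ?_
      simp only [ha]
      split_ifs
      · ring
      · rw [mul_zero]
    rw [sum_congr rfl this, sum_comm]
    exact sum_congr rfl fun m _ => (mul_sum _ _ _).symm
  rw [e1]
  have h1 : ‖∑ m ∈ Finset.Icc 1 x, f m * ∑ p ∈ P, a p m‖ ≤
      ∑ m ∈ Finset.Icc 1 x, ‖∑ p ∈ P, a p m‖ := by
    refine (norm_sum_le _ _).trans (sum_le_sum fun m _ => ?_)
    rw [norm_mul]
    exact mul_le_of_le_one_left (norm_nonneg _) (hf m)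
  refine h1.trans ?_
  have h2 := sq_sum_le_card_mul_sum_sq (s := Finset.Icc 1 x) (f := fun m => ‖∑ p ∈ P, a p m‖)
  simp only [Nat.card_Icc, Nat.add_sub_cancel] at h2
  have h3 : ∑ m ∈ Finset.Icc 1 x, ‖∑ p ∈ P, a p m‖ ^ 2 ≤ 2 * L * x := by
    have e2 : ((∑ m ∈ Finset.Icc 1 x, ‖∑ p ∈ P, a p m‖ ^ 2 : ℝ) : ℂ) =
        ∑ p ∈ P, ∑ q ∈ P, ∑ m ∈ Finset.Icc 1 x, a p m * conj (a q m) := by
      push_cast
      have : ∀ m, (‖∑ p ∈ P, a p m‖ : ℂ) ^ 2 = ∑ p ∈ P, ∑ q ∈ P, a p m * conj (a q m) := by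
        intro m
        rw [← Complex.mul_conj', map_sum, sum_mul_sum]
      simp only [this]
      rw [sum_comm]
      exact sum_congr rfl fun _ _ => sum_comm
    have e3 : ∑ m ∈ Finset.Icc 1 x, ‖∑ p ∈ P, a p m‖ ^ 2 =
        ‖((∑ m ∈ Finset.Icc 1 x, ‖∑ p ∈ P, a p m‖ ^ 2 : ℝ) : ℂ)‖ := by
      rw [Complex.norm_real, Real.norm_of_nonneg (by positivity)]
    rw [e3, e2]
    calc ‖∑ p ∈ P, ∑ q ∈ P, ∑ m ∈ Finset.Icc 1 x, a p m * conj (a q m)‖
        ≤ ∑ p ∈ P, ∑ q ∈ P, ‖∑ m ∈ Finset.Icc 1 x, a p m * conj (a q m)‖ :=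
          (norm_sum_le _ _).trans (sum_le_sum fun _ _ => norm_sum_le _ _)
      _ ≤ ∑ p ∈ P, ∑ q ∈ P, ((if p = q then 1 / (p : ℝ) * x else 0) + δ * x) := by
          refine sum_le_sum fun p hp => sum_le_sum fun q hq => ?_
          by_cases hpq : p = q
          · subst hpq
            rw [if_pos rfl]
            have t1 : ‖∑ m ∈ Finset.Icc 1 x, a p m * conj (a p m)‖ ≤
                ∑ m ∈ Finset.Icc 1 x, (if m ≤ x / p then (1 : ℝ) else 0) := by
              refine (norm_sum_le _ _).trans (sum_le_sum fun m _ => ?_)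
              rw [norm_mul, RCLike.norm_conj]
              have := ha1 p m
              split_ifs at this ⊢
              · exact mul_le_one₀ this (norm_nonneg _) this
              · have : ‖a p m‖ = 0 := le_antisymm this (norm_nonneg _)
                rw [this, zero_mul]
            have t2 : ∑ m ∈ Finset.Icc 1 x, (if m ≤ x / p then (1 : ℝ) else 0) ≤
                1 / (p : ℝ) * x := by
              rw [← sum_filter, sum_const, nsmul_eq_mul, mul_one]
              have : (Finset.Icc 1 x).filter (fun m => m ≤ x / p) ⊆ Finset.Icc 1 (x / p) := by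
                intro m
                rw [mem_filter, mem_Icc, mem_Icc]
                omega
              have h5 := card_le_card this
              rw [Nat.card_Icc, Nat.add_sub_cancel] at h5
              have h6 : ((x / p : ℕ) : ℝ) ≤ (x : ℝ) / p := Nat.cast_div_le
              have h7 : (((Finset.Icc 1 x).filter (fun m => m ≤ x / p)).card : ℝ) ≤
                  ((x / p : ℕ) : ℝ) := by exact_mod_cast h5
              rw [one_div, inv_mul_eq_div]
              linarith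
            have : 0 ≤ δ * x := by positivity
            linarith
          · rw [if_neg hpq, zero_add]
            have e4 : ∑ m ∈ Finset.Icc 1 x, a p m * conj (a q m) =
                f p * conj (f q) *
                  ∑ m ∈ Finset.Icc 1 (x / max p q), H (p * m) * conj (H (q * m)) := by
              have h8 : Finset.Icc 1 (x / max p q) =
                  (Finset.Icc 1 x).filter (fun m => m ≤ x / p ∧ m ≤ x / q) := by
                ext m
                have hmax : m * max p q ≤ x ↔ m * p ≤ x ∧ m * q ≤ x := by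
                  rcases le_total p q with h | h
                  · rw [max_eq_right h]
                    exact ⟨fun h2 => ⟨(Nat.mul_le_mul_left m h).trans h2, h2⟩, fun h2 => h2.2⟩
                  · rw [max_eq_left h]
                    exact ⟨fun h2 => ⟨h2, (Nat.mul_le_mul_left m h).trans h2⟩, fun h2 => h2.1⟩
                rw [mem_filter, mem_Icc, mem_Icc, Nat.le_div_iff_mul_le (hpos p hp),
                  Nat.le_div_iff_mul_le (hpos q hq),
                  Nat.le_div_iff_mul_le (lt_max_of_lt_left (hpos p hp)), hmax]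
                have := hpos p hp
                constructor
                · rintro ⟨h1, h2, h3⟩
                  exact ⟨⟨h1, le_trans (Nat.le_mul_of_pos_right m this) h2⟩, h2, h3⟩
                · rintro ⟨⟨h1, _⟩, h2, h3⟩
                  exact ⟨h1, h2, h3⟩
              rw [h8, sum_filter, mul_sum]
              refine sum_congr rfl fun m _ => ?_
              simp only [ha]
              by_cases c1 : m ≤ x / p
              · by_cases c2 : m ≤ x / q
                · rw [if_pos c1, if_pos c2, if_pos ⟨c1, c2⟩, map_mul]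
                  ring
                · rw [if_neg c2, map_zero, mul_zero,
                    if_neg (fun h : m ≤ x / p ∧ m ≤ x / q => c2 h.2), mul_zero]
              · rw [if_neg c1, zero_mul,
                  if_neg (fun h : m ≤ x / p ∧ m ≤ x / q => c1 h.1), mul_zero]
            rw [e4, norm_mul, norm_mul, RCLike.norm_conj]
            calc ‖f p‖ * ‖f q‖ *
                  ‖∑ m ∈ Finset.Icc 1 (x / max p q), H (p * m) * conj (H (q * m))‖
                ≤ 1 * (δ * x) :=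
                  mul_le_mul (mul_le_one₀ (hf _) (norm_nonneg _) (hf _)) (hc p hp q hq hpq)
                    (norm_nonneg _) zero_le_one
              _ = δ * x := one_mul _
      _ = L * x + δ * (P.card : ℝ) ^ 2 * x := by
          simp only [sum_add_distrib]
          congr 1
          · rw [hL, sum_mul]
            refine sum_congr rfl fun p hp => ?_
            rw [sum_ite_eq, if_pos hp]
          · simp only [sum_const, nsmul_eq_mul]
            ring
      _ ≤ 2 * L * x := by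
          have : (0 : ℝ) ≤ x := by positivity
          nlinarith
  have h4 : (∑ m ∈ Finset.Icc 1 x, ‖∑ p ∈ P, a p m‖) ^ 2 ≤ (√(2 * L) * x) ^ 2 := by
    rw [mul_pow, Real.sq_sqrt (by positivity)]
    refine h2.trans ?_
    calc (x : ℝ) * ∑ m ∈ Finset.Icc 1 x, ‖∑ p ∈ P, a p m‖ ^ 2 ≤ x * (2 * L * x) :=
          mul_le_mul_of_nonneg_left h3 (by positivity)
      _ = _ := by ring
  exact abs_le_of_sq_le_sq' h4 (by positivity) |>.2

theorem mult_part (P : Finset ℕ) (hP : ∀ p ∈ P, p.Prime) (x : ℕ) (f H : ℕ → ℂ) (hf : MB f)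
    (hH : ∀ n, ‖H n‖ ≤ 1) :
    ‖∑ p ∈ P, ∑ m ∈ Finset.Icc 1 (x / p), f (p * m) * H (p * m) -
      ∑ p ∈ P, ∑ m ∈ Finset.Icc 1 (x / p), f p * f m * H (p * m)‖ ≤ 2 * x := by
  rw [← sum_sub_distrib]
  calc ‖∑ p ∈ P, (∑ m ∈ Finset.Icc 1 (x / p), f (p * m) * H (p * m) -
        ∑ m ∈ Finset.Icc 1 (x / p), f p * f m * H (p * m))‖
      ≤ ∑ p ∈ P, 1 / (p : ℝ) ^ 2 * (2 * x) := by
        refine (norm_sum_le _ _).trans (sum_le_sum fun p hp => ?_)
        rw [← sum_sub_distrib]
        have hpp := hP p hp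
        calc ‖∑ m ∈ Finset.Icc 1 (x / p), (f (p * m) * H (p * m) - f p * f m * H (p * m))‖
            ≤ ∑ m ∈ Finset.Icc 1 (x / p), 2 * (if p ∣ m then (1 : ℝ) else 0) := by
              refine (norm_sum_le _ _).trans (sum_le_sum fun m _ => ?_)
              by_cases h : p ∣ m
              · rw [if_pos h, mul_one, ← sub_mul, norm_mul]
                have h1 : ‖f (p * m) - f p * f m‖ ≤ 2 := by
                  refine (norm_sub_le _ _).trans ?_
                  rw [norm_mul]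
                  have := hf.bd (p * m)
                  have := mul_le_one₀ (hf.bd p) (norm_nonneg _) (hf.bd m)
                  linarith
                calc ‖f (p * m) - f p * f m‖ * ‖H (p * m)‖ ≤ 2 * 1 :=
                      mul_le_mul h1 (hH _) (norm_nonneg _) (by norm_num)
                  _ = 2 := by norm_num
              · rw [if_neg h, hf.mul p m ((Nat.Prime.coprime_iff_not_dvd hpp).2 h), sub_self,
                  norm_zero, mul_zero]
          _ = 2 * ((x / p / p : ℕ) : ℝ) := by rw [← mul_sum, count]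
          _ ≤ 1 / (p : ℝ) ^ 2 * (2 * x) := by
              have h1 : ((x / p / p : ℕ) : ℝ) ≤ (x : ℝ) / p ^ 2 := by
                rw [Nat.div_div_eq_div_mul]
                have := Nat.cast_div_le (α := ℝ) (m := x) (n := p * p)
                push_cast at this
                rw [sq]
                exact this
              calc 2 * ((x / p / p : ℕ) : ℝ) ≤ 2 * ((x : ℝ) / p ^ 2) := by linarith
                _ = _ := by ring
    _ = (∑ p ∈ P, 1 / (p : ℝ) ^ 2) * (2 * x) := by rw [sum_mul]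
    _ ≤ 1 * (2 * x) := mul_le_mul_of_nonneg_right (sum_inv_sq P hP) (by positivity)
    _ = 2 * x := one_mul _

theorem final (P : Finset ℕ) (hP : ∀ p ∈ P, p.Prime) (x : ℕ) (L δ : ℝ)
    (hL : L = ∑ p ∈ P, 1 / (p : ℝ)) (hδ : δ * (P.card : ℝ) ^ 2 ≤ 1) (hδ0 : 0 ≤ δ) (hL1 : 1 ≤ L)
    (hx : 2 * P.card ≤ x) (f H : ℕ → ℂ) (hf : MB f) (hH : ∀ n, ‖H n‖ ≤ 1)
    (hc : ∀ p ∈ P, ∀ q ∈ P, p ≠ q →
      ‖∑ m ∈ Finset.Icc 1 (x / max p q), H (p * m) * conj (H (q * m))‖ ≤ δ * x) :
    L * ‖∑ n ∈ Finset.Icc 1 x, f n * H n‖ ≤ 5 * √L * x := by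
  have hL0 : 0 ≤ L := by linarith
  have e1 : ∑ n ∈ Finset.Icc 1 x, f n * H n * (om P n : ℂ) =
      ∑ p ∈ P, ∑ m ∈ Finset.Icc 1 (x / p), f (p * m) * H (p * m) := by
    have : ∀ n, f n * H n * (om P n : ℂ) = ∑ p ∈ P, if p ∣ n then f n * H n else 0 := by
      intro n
      rw [om]
      push_cast
      rw [mul_sum]
      refine sum_congr rfl fun p _ => ?_
      split_ifs
      · rw [Complex.ofReal_one, mul_one]
      · rw [Complex.ofReal_zero, mul_zero]
    simp only [this]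
    rw [sum_comm]
    refine sum_congr rfl fun p hp => ?_
    rw [← sum_filter]
    exact sum_mult x p (hP p hp).pos _
  have e2 : (L : ℂ) * ∑ n ∈ Finset.Icc 1 x, f n * H n =
      ∑ n ∈ Finset.Icc 1 x, f n * H n * (om P n : ℂ) -
        ∑ n ∈ Finset.Icc 1 x, f n * H n * ((om P n - L : ℝ) : ℂ) := by
    rw [mul_sum, ← sum_sub_distrib]
    refine sum_congr rfl fun n _ => ?_
    push_cast
    ring
  have h1 : ‖∑ n ∈ Finset.Icc 1 x, f n * H n * ((om P n - L : ℝ) : ℂ)‖ ≤ √(2 * L) * x := by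
    refine le_trans ?_ (turan_abs P hP x L hL hx)
    refine (norm_sum_le _ _).trans (sum_le_sum fun n _ => ?_)
    rw [norm_mul, norm_mul, Complex.norm_real, Real.norm_eq_abs]
    exact mul_le_of_le_one_left (abs_nonneg _) (mul_le_one₀ (hf.bd n) (norm_nonneg _) (hH n))
  have h2 := mult_part P hP x f H hf hH
  have h3 := main_part P hP x L δ hL hδ hδ0 hL1 f H hf.bd hH hc
  have h4 : L * ‖∑ n ∈ Finset.Icc 1 x, f n * H n‖ =
      ‖(L : ℂ) * ∑ n ∈ Finset.Icc 1 x, f n * H n‖ := by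
    rw [norm_mul, Complex.norm_real, Real.norm_of_nonneg hL0]
  rw [h4, e2, e1]
  have h5 := norm_sub_le (∑ p ∈ P, ∑ m ∈ Finset.Icc 1 (x / p), f (p * m) * H (p * m))
    (∑ n ∈ Finset.Icc 1 x, f n * H n * ((om P n - L : ℝ) : ℂ))
  have h6 : ‖∑ p ∈ P, ∑ m ∈ Finset.Icc 1 (x / p), f (p * m) * H (p * m)‖ ≤
      √(2 * L) * x + 2 * x := by
    have := norm_sub_norm_le (∑ p ∈ P, ∑ m ∈ Finset.Icc 1 (x / p), f (p * m) * H (p * m))
      (∑ p ∈ P, ∑ m ∈ Finset.Icc 1 (x / p), f p * f m * H (p * m))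
    linarith
  have h7 : √(2 * L) ≤ 3 / 2 * √L := by
    rw [Real.sqrt_le_left (by positivity), mul_pow, Real.sq_sqrt hL0]
    linarith
  have h8 : 1 ≤ √L := by
    rw [Real.one_le_sqrt]
    exact hL1
  have hx0 : (0 : ℝ) ≤ x := by positivity
  have h9 : √(2 * L) * x ≤ 3 / 2 * √L * x := mul_le_mul_of_nonneg_right h7 hx0
  have h10 : 1 * (x : ℝ) ≤ √L * x := mul_le_mul_of_nonneg_right h8 hx0
  linarith

end Pool.Agent.Ell.Kat

namespace Pool.Agent.Ell

open Kat

theorem p_KAT : T_KAT := by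
  intro ε N0 hε
  obtain ⟨P, hP, hY⟩ := exists_P (max 1 (25 / ε ^ 2)) N0
  refine ⟨P, 1 / ((P.card : ℝ) ^ 2 + 1), 2 * P.card, hP, by positivity, ?_⟩
  intro x hx f H hf hH hc
  have hL1 := (le_max_left _ _).trans hY
  have hL2 := (le_max_right _ _).trans hY
  have h := final P (fun p hp => (hP p hp).1) x _ (1 / ((P.card : ℝ) ^ 2 + 1)) rfl (by
    rw [div_mul_eq_mul_div, one_mul, div_le_one (by positivity)]
    linarith) (by positivity) hL1 hx f H hf hH hc
  set L := ∑ p ∈ P, 1 / (p : ℝ) with hL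
  have hL0 : 0 < L := by linarith
  have h1 : 5 ≤ ε * √L := by
    have : 25 ≤ ε ^ 2 * L := by
      rw [div_le_iff₀ (by positivity)] at hL2
      linarith
    have h2 : (5 : ℝ) ^ 2 ≤ (ε * √L) ^ 2 := by
      rw [mul_pow, Real.sq_sqrt hL0.le]
      linarith
    exact (abs_le_of_sq_le_sq' h2 (by positivity)).2
  have h3 : L * ‖∑ n ∈ Finset.Icc 1 x, f n * H n‖ ≤ L * (ε * x) := by
    refine h.trans ?_
    have hs : 0 ≤ √L * x := by positivity
    calc 5 * √L * x = 5 * (√L * x) := by ring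
      _ ≤ ε * √L * (√L * x) := mul_le_mul_of_nonneg_right h1 hs
      _ = (√L * √L) * (ε * x) := by ring
      _ = L * (ε * x) := by rw [Real.mul_self_sqrt hL0.le]
  exact le_of_mul_le_mul_left h3 hL0

end Pool.Agent.Ell
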