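import Pool.Agent.Ell.KeyE

set_option autoImplicit false

/-! Asymptotic Elliott conjecture: `T_KEY` and `T_OO`. -/

namespace Pool.Agent.Ell

open Finset Filter Pool.Agent.Ell.KeyA Pool.Agent.Ell.KeyB Pool.Agent.Ell.KeyC
  Pool.Agent.Ell.KeyD Pool.Agent.Ell.KeyE
open scoped BigOperators ComplexConjugate

theorem p_KEY (hKAT : T_KAT) (hMS : T_MS) (hEQ : T_EQ) : T_KEY := by
  intro k a C ε hk ha ha0 hC hε
  obtain ⟨P, δ, X, hP, hδ, hKAT⟩ := hKAT (ε / 2) (Finset.univ.sup (fun j => (a j).natAbs))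
    (by positivity)
  have hPa : ∀ p ∈ P, ∀ j, |a j| < (p : ℤ) := by
    intro p hp j
    have h1 := (hP p hp).2
    have h2 : (a j).natAbs ≤ Finset.univ.sup (fun j => (a j).natAbs) :=
      Finset.le_sup (f := fun j => (a j).natAbs) (Finset.mem_univ j)
    have h3 : (a j).natAbs < p := lt_of_le_of_lt h2 h1
    rw [Int.abs_eq_natAbs]
    exact_mod_cast h3
  have H : ∀ᶠ z : ℕ in atTop, ∀ p ∈ P, ∀ q ∈ P, p ≠ q →
      ∀ q0 : ℕ, 1 ≤ q0 → (∀ p : ℕ, p.Prime → p ∣ q0 → p ≤ z) →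
      ∀ᶠ A : ℝ in atTop, ∀ᶠ x : ℕ in atTop, ∀ (t : Fin k → ℝ) (ζ : Fin k → ℕ → ℂ) (ξ : ℕ → ℂ),
      (∀ j, |t j| ≤ (x : ℝ) ^ C) → (∀ j ℓ, ‖ζ j ℓ‖ ≤ 1) → Per q0 ξ → (∀ n, ‖ξ n‖ ≤ 1) →
      ∀ M : ℕ, M ≤ x →
      ‖∑ m ∈ Finset.Icc 1 M, Hf a t ζ ξ z ⌊(x : ℝ) ^ (1 / A)⌋₊ (p * m) *
        conj (Hf a t ζ ξ z ⌊(x : ℝ) ^ (1 / A)⌋₊ (q * m))‖ ≤ δ * x := by
    rw [Filter.eventually_all_finset]
    intro p hp
    rw [Filter.eventually_all_finset]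
    intro q hq
    by_cases hpq : p = q
    · exact Filter.Eventually.of_forall (fun z h => absurd hpq h)
    · exact (cross hMS hEQ k a p q C δ hk ha ha0 (hP p hp).1 (hP q hq).1 hpq (hPa p hp)
        (hPa q hq) hC hδ).mono (fun z hz _ => hz)
  filter_upwards [H, eventually_ge_atTop k] with z hz hkz q0 hq0 hq0z
  have H2 : ∀ᶠ A : ℝ in atTop, ∀ p ∈ P, ∀ q ∈ P, p ≠ q →
      ∀ᶠ x : ℕ in atTop, ∀ (t : Fin k → ℝ) (ζ : Fin k → ℕ → ℂ) (ξ : ℕ → ℂ),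
      (∀ j, |t j| ≤ (x : ℝ) ^ C) → (∀ j ℓ, ‖ζ j ℓ‖ ≤ 1) → Per q0 ξ → (∀ n, ‖ξ n‖ ≤ 1) →
      ∀ M : ℕ, M ≤ x →
      ‖∑ m ∈ Finset.Icc 1 M, Hf a t ζ ξ z ⌊(x : ℝ) ^ (1 / A)⌋₊ (p * m) *
        conj (Hf a t ζ ξ z ⌊(x : ℝ) ^ (1 / A)⌋₊ (q * m))‖ ≤ δ * x := by
    rw [Filter.eventually_all_finset]
    intro p hp
    rw [Filter.eventually_all_finset]
    intro q hq
    by_cases hpq : p = q
    · exact Filter.Eventually.of_forall (fun z h => absurd hpq h)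
    · exact (hz p hp q hq hpq q0 hq0 hq0z).mono (fun z hz _ => hz)
  filter_upwards [H2] with A hA
  have H3 : ∀ᶠ x : ℕ in atTop, ∀ p ∈ P, ∀ q ∈ P, p ≠ q →
      ∀ (t : Fin k → ℝ) (ζ : Fin k → ℕ → ℂ) (ξ : ℕ → ℂ),
      (∀ j, |t j| ≤ (x : ℝ) ^ C) → (∀ j ℓ, ‖ζ j ℓ‖ ≤ 1) → Per q0 ξ → (∀ n, ‖ξ n‖ ≤ 1) →
      ∀ M : ℕ, M ≤ x →
      ‖∑ m ∈ Finset.Icc 1 M, Hf a t ζ ξ z ⌊(x : ℝ) ^ (1 / A)⌋₊ (p * m) *
        conj (Hf a t ζ ξ z ⌊(x : ℝ) ^ (1 / A)⌋₊ (q * m))‖ ≤ δ * x := by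
    rw [Filter.eventually_all_finset]
    intro p hp
    rw [Filter.eventually_all_finset]
    intro q hq
    by_cases hpq : p = q
    · exact Filter.Eventually.of_forall (fun z h => absurd hpq h)
    · exact (hA p hp q hq hpq).mono (fun z hz _ => hz)
  filter_upwards [H3, eventually_ge_atTop X] with x hx hxX t ζ ξ f ht hζ hξ hξb hf
  set w := ⌊(x : ℝ) ^ (1 / A)⌋₊ with hw
  have key := hKAT x hxX f (fun n => (1 / 2 : ℂ) * Hf a t ζ ξ z w n) hf ?_ ?_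
  · have e : ∑ n ∈ Finset.Icc 1 x, f n * (ph a t n * ξ n * (PhiF a ζ z w n - cF ζ z w)) =
        2 * ∑ n ∈ Finset.Icc 1 x, f n * ((1 / 2 : ℂ) * Hf a t ζ ξ z w n) := by
      rw [Finset.mul_sum]
      refine Finset.sum_congr rfl (fun n _ => ?_)
      unfold Hf
      ring
    rw [e, norm_mul]
    have h2 : ‖(2 : ℂ)‖ = 2 := by simp
    rw [h2]
    linarith
  · intro n
    rw [norm_mul]
    have h1 := norm_Hf a t ζ ξ z w hkz hζ hξb n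
    have h2 : ‖(1 / 2 : ℂ)‖ = 1 / 2 := by simp
    rw [h2]
    linarith
  · intro p hp q hq hpq
    have h1 := hx p hp q hq hpq t ζ ξ ht hζ hξ hξb (x / max p q) (Nat.div_le_self _ _)
    have e : ∑ m ∈ Finset.Icc 1 (x / max p q), (1 / 2 : ℂ) * Hf a t ζ ξ z w (p * m) *
        conj ((1 / 2 : ℂ) * Hf a t ζ ξ z w (q * m)) =
        (1 / 4) * ∑ m ∈ Finset.Icc 1 (x / max p q), Hf a t ζ ξ z w (p * m) *
        conj (Hf a t ζ ξ z w (q * m)) := by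
      rw [Finset.mul_sum]
      refine Finset.sum_congr rfl (fun n _ => ?_)
      have : conj ((1 / 2 : ℂ)) = 1 / 2 := by rw [map_div₀, map_one, map_ofNat]
      rw [map_mul, this]
      ring
    rw [e, norm_mul]
    have h2 : ‖(1 / 4 : ℂ)‖ = 1 / 4 := by simp
    rw [h2]
    have h3 : 0 ≤ δ * x := by positivity
    linarith

theorem p_OO (hKAT : T_KAT) (hEQ : T_EQ) (hOSC : T_OSC) : T_OO := by
  intro k a C ε hk ha ha0 hC hε
  obtain ⟨P, δ, X, hP, hδ, hKAT⟩ := hKAT ε (Finset.univ.sup (fun j => (a j).natAbs)) hε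
  have hPa : ∀ p ∈ P, ∀ j, |a j| < (p : ℤ) := by
    intro p hp j
    have h1 := (hP p hp).2
    have h2 : (a j).natAbs ≤ Finset.univ.sup (fun j => (a j).natAbs) :=
      Finset.le_sup (f := fun j => (a j).natAbs) (Finset.mem_univ j)
    have h3 : (a j).natAbs < p := lt_of_le_of_lt h2 h1
    rw [Int.abs_eq_natAbs]
    exact_mod_cast h3
  have H : ∀ᶠ B : ℝ in atTop, ∀ p ∈ P, ∀ q ∈ P, p ≠ q →
      ∀ q0 : ℕ, 1 ≤ q0 →
      ∀ᶠ x : ℕ in atTop, ∀ (t : Fin k → ℝ) (ξ : ℕ → ℂ),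
      (∀ j, |t j| ≤ (x : ℝ) ^ C) → B ≤ Lam a t x → Per q0 ξ → (∀ n, ‖ξ n‖ ≤ 1) →
      ∀ M : ℕ, M ≤ x →
      ‖∑ m ∈ Finset.Icc 1 M, (ph a t (p * m) * ξ (p * m)) *
        conj (ph a t (q * m) * ξ (q * m))‖ ≤ δ * x := by
    rw [Filter.eventually_all_finset]
    intro p hp
    rw [Filter.eventually_all_finset]
    intro q hq
    by_cases hpq : p = q
    · exact Filter.Eventually.of_forall (fun z h => absurd hpq h)
    · exact (cross0 hEQ hOSC k a p q C δ hk ha ha0 (hP p hp).1 (hP q hq).1 hpq (hPa p hp)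
        (hPa q hq) hC hδ).mono (fun z hz _ => hz)
  filter_upwards [H] with B hB q0 hq0
  have H3 : ∀ᶠ x : ℕ in atTop, ∀ p ∈ P, ∀ q ∈ P, p ≠ q →
      ∀ (t : Fin k → ℝ) (ξ : ℕ → ℂ),
      (∀ j, |t j| ≤ (x : ℝ) ^ C) → B ≤ Lam a t x → Per q0 ξ → (∀ n, ‖ξ n‖ ≤ 1) →
      ∀ M : ℕ, M ≤ x →
      ‖∑ m ∈ Finset.Icc 1 M, (ph a t (p * m) * ξ (p * m)) *
        conj (ph a t (q * m) * ξ (q * m))‖ ≤ δ * x := by
    rw [Filter.eventually_all_finset]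
    intro p hp
    rw [Filter.eventually_all_finset]
    intro q hq
    by_cases hpq : p = q
    · exact Filter.Eventually.of_forall (fun z h => absurd hpq h)
    · exact (hB p hp q hq hpq q0 hq0).mono (fun z hz _ => hz)
  filter_upwards [H3, eventually_ge_atTop X] with x hx hxX t ξ f ht hLam hξ hξb hf
  exact hKAT x hxX f (fun n => ph a t n * ξ n) hf
    (fun n => by rw [norm_mul]; exact mul_le_one₀ (norm_ph a t n) (norm_nonneg _) (hξb n))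
    (fun p hp q hq hpq => hx p hp q hq hpq t ξ ht hLam hξ hξb (x / max p q) (Nat.div_le_self _ _))

end Pool.Agent.Ell
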