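import Pool.Agent.Ell.Targets2

set_option autoImplicit false

/-! ELL-E13: `T_LL`, `T_SM`. -/

namespace Pool.Agent.Ell

namespace LLaux

open Finset
open scoped BigOperators ComplexConjugate

/-- `‖1 - ζ‖² ≤ 2 (1 - Re ζ)` on the unit disc -/
lemma normSq_one_sub {ζ : ℂ} (h : ‖ζ‖ ≤ 1) : ‖1 - ζ‖ ^ 2 ≤ 2 * (1 - ζ.re) := by
  have h1 : ‖1 - ζ‖ ^ 2 = (1 - ζ.re) ^ 2 + ζ.im ^ 2 := by
    rw [← Complex.normSq_eq_norm_sq, Complex.normSq_apply]
    simp
    ring
  have h2 : ζ.re ^ 2 + ζ.im ^ 2 ≤ 1 := by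
    have : ‖ζ‖ ^ 2 = ζ.re ^ 2 + ζ.im ^ 2 := by
      rw [← Complex.normSq_eq_norm_sq, Complex.normSq_apply]
      ring
    rw [← this]
    exact pow_le_one₀ (norm_nonneg _) h
  rw [h1]
  nlinarith

lemma re_le_one {ζ : ℂ} (h : ‖ζ‖ ≤ 1) : ζ.re ≤ 1 := (Complex.re_le_norm ζ).trans h

lemma factor {k : ℕ} (ζ : Fin k → ℂ) (j0 : Fin k) (h : ∀ j, ‖ζ j‖ ≤ 1) (l : ℝ) (hl : 2 * (k : ℝ) ≤ l)
    (hl0 : 0 < l) :
    ‖1 - (∑ j, (1 - ζ j)) / (l : ℂ)‖ ^ 2 ≤ Real.exp (-((1 - (ζ j0).re) / l)) := by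
  set s : ℂ := (∑ j, (1 - ζ j)) / (l : ℂ) with hs
  have hre : s.re = (∑ j, (1 - (ζ j).re)) / l := by
    rw [hs, Complex.div_ofReal_re, Complex.re_sum]
    simp
  have hsum0 : ∀ j, 0 ≤ 1 - (ζ j).re := fun j => by linarith [re_le_one (h j)]
  have hsq : ‖s‖ ^ 2 ≤ s.re := by
    have h1 : ‖s‖ ≤ (∑ j, ‖1 - ζ j‖) / l := by
      rw [hs, norm_div, Complex.norm_real, Real.norm_of_nonneg hl0.le]
      gcongr
      exact norm_sum_le _ _
    have h2 : (∑ j, ‖1 - ζ j‖) ^ 2 ≤ k * ∑ j, ‖1 - ζ j‖ ^ 2 := by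
      have := sq_sum_le_card_mul_sum_sq (s := (Finset.univ : Finset (Fin k)))
        (f := fun j => ‖1 - ζ j‖)
      simpa using this
    have h3 : ∑ j, ‖1 - ζ j‖ ^ 2 ≤ 2 * ∑ j, (1 - (ζ j).re) := by
      rw [Finset.mul_sum]
      exact Finset.sum_le_sum fun j _ => normSq_one_sub (h j)
    have hS : 0 ≤ ∑ j, (1 - (ζ j).re) := Finset.sum_nonneg fun j _ => hsum0 j
    calc ‖s‖ ^ 2 ≤ ((∑ j, ‖1 - ζ j‖) / l) ^ 2 := by gcongr
      _ = (∑ j, ‖1 - ζ j‖) ^ 2 / l ^ 2 := by rw [div_pow]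
      _ ≤ (k * (2 * ∑ j, (1 - (ζ j).re))) / l ^ 2 := by
          gcongr
          exact h2.trans (by gcongr)
      _ = (2 * k) * (∑ j, (1 - (ζ j).re)) / l ^ 2 := by ring
      _ ≤ l * (∑ j, (1 - (ζ j).re)) / l ^ 2 := by gcongr
      _ = s.re := by rw [hre]; field_simp
  have hmain : ‖1 - s‖ ^ 2 ≤ 1 - s.re := by
    have h1 : ‖1 - s‖ ^ 2 = 1 - 2 * s.re + ‖s‖ ^ 2 := by
      rw [← Complex.normSq_eq_norm_sq, ← Complex.normSq_eq_norm_sq, Complex.normSq_apply,
        Complex.normSq_apply]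
      simp
      ring
    rw [h1]
    linarith
  have hle : (1 - (ζ j0).re) / l ≤ s.re := by
    rw [hre]
    gcongr
    exact Finset.single_le_sum (f := fun j => 1 - (ζ j).re) (fun j _ => hsum0 j)
      (Finset.mem_univ j0)
  calc ‖1 - s‖ ^ 2 ≤ 1 - s.re := hmain
    _ ≤ Real.exp (-s.re) := by
        have := Real.add_one_le_exp (-s.re)
        linarith
    _ ≤ Real.exp (-((1 - (ζ j0).re) / l)) := by
        apply Real.exp_le_exp.2
        linarith

end LLaux

theorem p_SM : T_SM := by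
  intro k ζ z w j0 hz hζ
  have h1 : ‖cF ζ z w‖ ^ 2 = ∏ l ∈ prs z w, ‖1 - (∑ j, (1 - ζ j l)) / (l : ℂ)‖ ^ 2 := by
    rw [cF, norm_prod, Finset.prod_pow]
  rw [h1, ← Finset.sum_neg_distrib, Real.exp_sum]
  apply Finset.prod_le_prod
  · intro l _
    positivity
  · intro l hl
    have hl' : z < l := by
      simp only [prs, Finset.mem_filter, Finset.mem_Ioc] at hl
      exact hl.1.1
    have hk : 1 ≤ k := Nat.one_le_iff_ne_zero.2 (by rintro rfl; exact j0.elim0)
    have hl2 : (2 * k : ℝ) ≤ (l : ℝ) := by exact_mod_cast (hz.trans hl'.le)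
    have hl0 : (0 : ℝ) < l := by
      have : 0 < l := by omega
      exact_mod_cast this
    have := LLaux.factor (fun j => ζ j l) j0 (fun j => hζ j l) (l : ℝ) hl2 hl0
    simpa using this


namespace LLaux

open Finset
open scoped BigOperators ComplexConjugate

/-- partial summation bound -/
lemma abel (c e : ℕ → ℂ) (D L : ℝ) (hL0 : 0 ≤ L) (m : ℕ)
    (y : ℕ) (hmy : m ≤ y) (hS : ∀ i, i ≤ y → ‖∑ n ∈ Icc 1 i, c n‖ ≤ D)
    (he : ∀ n, m < n → ‖e n‖ ≤ 1) (hL : ∀ n, m < n → ‖e (n + 1) - e n‖ ≤ L) :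
    ‖∑ n ∈ Ioc m y, c n * e n‖ ≤ D * (2 + (y - m) * L) := by
  have hD : 0 ≤ D := (norm_nonneg _).trans (hS 0 (Nat.zero_le _))
  set S : ℕ → ℂ := fun i => ∑ n ∈ Icc 1 i, c n with hSdef
  have hSs : ∀ i, S (i + 1) = S i + c (i + 1) := by
    intro i
    simp only [hSdef]
    rw [Finset.sum_Icc_succ_top (by omega)]
  rcases hmy.eq_or_lt with rfl | hlt
  · simp only [Finset.Ioc_self, Finset.sum_empty, norm_zero]
    have : (0 : ℝ) ≤ 2 + ((m : ℝ) - m) * L := by simp
    positivity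
  · have hid : ∀ y, m + 1 ≤ y → ∑ n ∈ Ioc m y, c n * e n =
        S y * e y - S m * e (m + 1) - ∑ n ∈ Ico (m + 1) y, S n * (e (n + 1) - e n) := by
      intro y hy
      induction y, hy using Nat.le_induction with
      | base =>
        simp only [Finset.Ico_self, Finset.sum_empty]
        rw [← Finset.Ico_succ_succ_eq_Ioc]
        simp [hSs m]
        ring
      | succ y hy ih =>
        rw [Finset.sum_Ioc_succ_top (by omega), ih, Finset.sum_Ico_succ_top hy, hSs y]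
        ring
    rw [hid y hlt]
    have h1 : ‖S y * e y‖ ≤ D := by
      rw [norm_mul]
      calc ‖S y‖ * ‖e y‖ ≤ D * 1 := by
            gcongr
            · exact hS y le_rfl
            · exact he y hlt
        _ = D := mul_one _
    have h2 : ‖S m * e (m + 1)‖ ≤ D := by
      rw [norm_mul]
      calc ‖S m‖ * ‖e (m + 1)‖ ≤ D * 1 := by
            gcongr
            · exact hS m hlt.le
            · exact he (m + 1) (by omega)
        _ = D := mul_one _
    have h3 : ‖∑ n ∈ Ico (m + 1) y, S n * (e (n + 1) - e n)‖ ≤ D * ((y - m) * L) := by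
      calc ‖∑ n ∈ Ico (m + 1) y, S n * (e (n + 1) - e n)‖
          ≤ ∑ n ∈ Ico (m + 1) y, ‖S n * (e (n + 1) - e n)‖ := norm_sum_le _ _
        _ ≤ ∑ n ∈ Ico (m + 1) y, D * L := by
            apply Finset.sum_le_sum
            intro n hn
            rw [Finset.mem_Ico] at hn
            rw [norm_mul]
            gcongr
            · exact hS n hn.2.le
            · exact hL n (by omega)
        _ = ((y - (m + 1) : ℕ) : ℝ) * (D * L) := by simp
        _ ≤ ((y : ℝ) - m) * (D * L) := by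
            gcongr
            have : y - (m + 1) ≤ y - m := by omega
            calc ((y - (m + 1) : ℕ) : ℝ) ≤ ((y - m : ℕ) : ℝ) := by exact_mod_cast this
              _ = (y : ℝ) - m := by rw [Nat.cast_sub hlt.le]
        _ = D * ((y - m) * L) := by ring
    calc ‖S y * e y - S m * e (m + 1) - ∑ n ∈ Ico (m + 1) y, S n * (e (n + 1) - e n)‖
        ≤ ‖S y * e y‖ + ‖S m * e (m + 1)‖ +
          ‖∑ n ∈ Ico (m + 1) y, S n * (e (n + 1) - e n)‖ := by
          refine (norm_sub_le _ _).trans ?_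
          gcongr
          exact norm_sub_le _ _
      _ ≤ D + D + D * ((y - m) * L) := by gcongr
      _ = D * (2 + (y - m) * L) := by ring

lemma expand (k : ℕ) (a u : ℝ) (hu : u ≠ 0) (hua : u + a ≠ 0) :
    1 / (u + a) - 1 / u = ∑ l ∈ Icc 1 k, (-a) ^ l / u ^ (l + 1) +
      (-a) ^ (k + 1) / (u ^ (k + 1) * (u + a)) := by
  induction k with
  | zero =>
    simp
    field_simp
    ring
  | succ k ih =>
    rw [ih, Finset.sum_Icc_succ_top (by omega)]
    field_simp
    ring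

/-- the phase relative to `n ^ {i T}` -/
noncomputable def Psi {k : ℕ} (a : Fin k → ℤ) (t : Fin k → ℝ) (u : ℝ) : ℝ :=
  ∑ j, t j * (Real.log (u + a j) - Real.log u)

lemma hasDeriv_Psi {k : ℕ} (a : Fin k → ℤ) (t : Fin k → ℝ) (u : ℝ) (hu : u ≠ 0)
    (hua : ∀ j, u + a j ≠ 0) :
    HasDerivAt (Psi a t) (∑ j, t j * (1 / (u + a j) - 1 / u)) u := by
  unfold Psi
  apply HasDerivAt.fun_sum
  intro j _
  apply HasDerivAt.const_mul
  apply HasDerivAt.sub
  · have := (hasDerivAt_id u).add_const (a j : ℝ)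
    exact this.log (hua j)
  · exact (hasDerivAt_id u).log hu

/-- bound of the derivative -/
lemma deriv_bound {k : ℕ} (a : Fin k → ℤ) (t : Fin k → ℝ) (x B Cv M δ u : ℝ)
    (hx : 1 ≤ x) (hB : 0 ≤ B) (hCv : 0 ≤ Cv) (hM : ∀ j, |(a j : ℝ)| ≤ M) (hM0 : 0 ≤ M)
    (hδ : 0 < δ) (hL : Lam a t x ≤ B)
    (ht : ∀ j, |t j| ≤ Cv * B * x ^ k) (hu : δ * x ≤ u) (huM : 2 * M ≤ u) :
    |∑ j, t j * (1 / (u + a j) - 1 / u)| ≤
      ((∑ l ∈ Icc 1 k, B / δ ^ (l + 1)) + 2 * k * Cv * B * M ^ (k + 1) / δ ^ (k + 2)) / x := by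
  have hx0 : 0 < x := by linarith
  have hδx : 0 < δ * x := by positivity
  have hu0 : 0 < u := by linarith
  have hua : ∀ j, u / 2 ≤ u + a j := by
    intro j
    have := (abs_le.1 (hM j)).1
    linarith
  have hua0 : ∀ j, u + a j ≠ 0 := fun j => by have := hua j; linarith
  have h1 : ∑ j, t j * (1 / (u + a j) - 1 / u) =
      (∑ l ∈ Icc 1 k, (-1) ^ l * tau a t l / u ^ (l + 1)) +
        ∑ j, t j * ((-(a j : ℝ)) ^ (k + 1) / (u ^ (k + 1) * (u + a j))) := by
    have : ∀ j, t j * (1 / (u + a j) - 1 / u) =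
        (∑ l ∈ Icc 1 k, t j * ((-(a j : ℝ)) ^ l / u ^ (l + 1))) +
          t j * ((-(a j : ℝ)) ^ (k + 1) / (u ^ (k + 1) * (u + a j))) := by
      intro j
      rw [expand k (a j) u hu0.ne' (hua0 j), mul_add, Finset.mul_sum]
    rw [Finset.sum_congr rfl (fun j _ => this j), Finset.sum_add_distrib, Finset.sum_comm]
    congr 1
    apply Finset.sum_congr rfl
    intro l _
    rw [tau, Finset.mul_sum, Finset.sum_div]
    apply Finset.sum_congr rfl
    intro j _
    rw [neg_pow (a j : ℝ) l]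
    ring
  have hlam : ∀ l ∈ Icc 1 k, |tau a t l| ≤ B * x ^ l := by
    intro l hl
    have h2 : |tau a t l| / x ^ l ≤ B :=
      (Finset.single_le_sum (f := fun l => |tau a t l| / x ^ l)
        (fun i _ => by positivity) hl).trans hL
    rwa [div_le_iff₀ (by positivity)] at h2
  rw [h1]
  have h2 : |∑ l ∈ Icc 1 k, (-1) ^ l * tau a t l / u ^ (l + 1)| ≤
      (∑ l ∈ Icc 1 k, B / δ ^ (l + 1)) / x := by
    refine (Finset.abs_sum_le_sum_abs _ _).trans ?_
    rw [Finset.sum_div]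
    apply Finset.sum_le_sum
    intro l hl
    rw [abs_div, abs_mul, abs_pow, abs_neg, abs_one, one_pow, one_mul, abs_of_pos (pow_pos hu0 _)]
    calc |tau a t l| / u ^ (l + 1) ≤ (B * x ^ l) / (δ * x) ^ (l + 1) := by
          gcongr
          exact hlam l hl
      _ = B / δ ^ (l + 1) / x := by
          rw [mul_pow]
          field_simp
          ring
  have h3 : |∑ j, t j * ((-(a j : ℝ)) ^ (k + 1) / (u ^ (k + 1) * (u + a j)))| ≤
      (2 * k * Cv * B * M ^ (k + 1) / δ ^ (k + 2)) / x := by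
    refine (Finset.abs_sum_le_sum_abs _ _).trans ?_
    have h4 : ∀ j : Fin k, |t j * ((-(a j : ℝ)) ^ (k + 1) / (u ^ (k + 1) * (u + a j)))| ≤
        2 * Cv * B * M ^ (k + 1) / δ ^ (k + 2) / x := by
      intro j
      have h5 : 0 < u + a j := by have := hua j; linarith
      rw [abs_mul, abs_div, abs_pow, abs_neg, abs_of_pos (mul_pos (pow_pos hu0 _) h5)]
      calc |t j| * (|(a j : ℝ)| ^ (k + 1) / (u ^ (k + 1) * (u + a j)))
          ≤ (Cv * B * x ^ k) * (M ^ (k + 1) / ((δ * x) ^ (k + 1) * (δ * x / 2))) := by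
            gcongr
            · exact ht j
            · exact hM j
            · have := hua j; linarith
        _ = 2 * Cv * B * M ^ (k + 1) / δ ^ (k + 2) / (x ^ 2) := by
            rw [mul_pow]
            field_simp
            ring
        _ ≤ 2 * Cv * B * M ^ (k + 1) / δ ^ (k + 2) / x := by
            gcongr
            nlinarith
    calc ∑ j : Fin k, |t j * ((-(a j : ℝ)) ^ (k + 1) / (u ^ (k + 1) * (u + a j)))|
        ≤ ∑ j : Fin k, 2 * Cv * B * M ^ (k + 1) / δ ^ (k + 2) / x :=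
          Finset.sum_le_sum fun j _ => h4 j
      _ = (2 * k * Cv * B * M ^ (k + 1) / δ ^ (k + 2)) / x := by
          simp
          ring
  calc _ ≤ |∑ l ∈ Icc 1 k, (-1) ^ l * tau a t l / u ^ (l + 1)| +
        |∑ j, t j * ((-(a j : ℝ)) ^ (k + 1) / (u ^ (k + 1) * (u + a j)))| := abs_add_le _ _
    _ ≤ (∑ l ∈ Icc 1 k, B / δ ^ (l + 1)) / x +
        (2 * k * Cv * B * M ^ (k + 1) / δ ^ (k + 2)) / x := add_le_add h2 h3
    _ = _ := by ring

lemma Psi_diff {k : ℕ} (a : Fin k → ℤ) (t : Fin k → ℝ) (K M u : ℝ)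
    (hM : ∀ j, |(a j : ℝ)| ≤ M) (hu0 : 0 < u) (huM : 2 * M ≤ u)
    (hK : ∀ v, u ≤ v → v ≤ u + 1 → |∑ j, t j * (1 / (v + a j) - 1 / v)| ≤ K) :
    |Psi a t (u + 1) - Psi a t u| ≤ K := by
  have h := Convex.norm_image_sub_le_of_norm_hasDerivWithin_le (f := Psi a t)
    (f' := fun v => ∑ j, t j * (1 / (v + a j) - 1 / v)) (s := Set.Icc u (u + 1)) (C := K)
    (x := u) (y := u + 1)
    (fun v hv => by
      apply HasDerivAt.hasDerivWithinAt
      apply hasDeriv_Psi
      · linarith [hv.1]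
      · intro j
        have := (abs_le.1 (hM j)).1
        have h1 := hv.1
        intro h0
        nlinarith [abs_nonneg (a j : ℝ)])
    (fun v hv => by rw [Real.norm_eq_abs]; exact hK v hv.1 hv.2) (convex_Icc _ _)
    ⟨le_rfl, by linarith⟩ ⟨by linarith, le_rfl⟩
  simpa using h

lemma norm_ei (x : ℝ) : ‖ei x‖ = 1 := by
  rw [ei, Complex.norm_exp_ofReal_mul_I]

lemma norm_ei_sub (x y : ℝ) : ‖ei x - ei y‖ ≤ |x - y| := by
  have h : ei x - ei y = ei y * (Complex.exp (Complex.I * ((x - y : ℝ) : ℂ)) - 1) := by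
    rw [ei, ei, mul_sub, mul_one, ← Complex.exp_add]
    congr 2
    push_cast
    ring
  rw [h, norm_mul, norm_ei, one_mul]
  exact Real.norm_exp_I_mul_ofReal_sub_one_le

lemma nit_eq {n : ℕ} (hn : 0 < n) (t : ℝ) : nit t n = ei (t * Real.log n) := by
  rw [nit, ei, Complex.cpow_def_of_ne_zero (by exact_mod_cast hn.ne'), ← Complex.natCast_log]
  congr 1
  push_cast
  ring

lemma norm_nit_le (t : ℝ) (n : ℕ) : ‖nit t n‖ ≤ 1 := by
  rcases Nat.eq_zero_or_pos n with rfl | hn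
  · rw [nit]
    by_cases ht : t = 0
    · simp [ht]
    · rw [Nat.cast_zero, Complex.zero_cpow]
      · simp
      · simp [ht]
  · rw [nit_eq hn, norm_ei]

lemma norm_ph_le {k : ℕ} (a : Fin k → ℤ) (t : Fin k → ℝ) (n : ℕ) : ‖ph a t n‖ ≤ 1 := by
  rw [ph, norm_prod]
  exact Finset.prod_le_one (fun _ _ => norm_nonneg _) (fun _ _ => norm_nit_le _ _)

lemma ei_add (x y : ℝ) : ei (x + y) = ei x * ei y := by
  rw [ei, ei, ei, ← Complex.exp_add]
  congr 1
  push_cast
  ring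

lemma ei_sum {ι : Type*} (s : Finset ι) (g : ι → ℝ) : ei (∑ i ∈ s, g i) = ∏ i ∈ s, ei (g i) := by
  classical
  induction s using Finset.induction_on with
  | empty => simp [ei]
  | insert i s hi ih => rw [Finset.sum_insert hi, Finset.prod_insert hi, ei_add, ih]

lemma ph_eq {k : ℕ} (a : Fin k → ℤ) (t : Fin k → ℝ) (n : ℕ) (hn : ∀ j, |(a j : ℝ)| < n) :
    ph a t n = nit (∑ j, t j) n * ei (Psi a t n) ∨ k = 0 := by
  rcases Nat.eq_zero_or_pos k with hk | hk
  · exact Or.inr hk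
  left
  have hn0 : 0 < n := by
    have := hn ⟨0, hk⟩
    have h2 : (0 : ℝ) < n := lt_of_le_of_lt (abs_nonneg _) this
    exact_mod_cast h2
  have h1 : ∀ j, nit (t j) (sh (a j) n) = ei (t j * Real.log ((n : ℝ) + a j)) := by
    intro j
    have h2 : (0 : ℤ) < (n : ℤ) + a j := by
      have h3 := (abs_lt.1 (hn j)).1
      have h4 : (0 : ℝ) < (n : ℝ) + (a j : ℝ) := by linarith
      exact_mod_cast h4
    have h3 : 0 < sh (a j) n := by
      rw [sh]
      omega
    rw [nit_eq h3]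
    congr 2
    have h5 : ((sh (a j) n : ℕ) : ℤ) = (n : ℤ) + a j := by
      rw [sh]
      exact Int.toNat_of_nonneg h2.le
    have h6 : ((sh (a j) n : ℕ) : ℝ) = ((n : ℝ) + (a j : ℝ)) := by exact_mod_cast h5
    rw [h6]
  rw [ph, Finset.prod_congr rfl (fun j _ => h1 j), ← ei_sum, nit_eq hn0, ← ei_add]
  congr 1
  rw [Psi, Finset.sum_mul, ← Finset.sum_add_distrib]
  apply Finset.sum_congr rfl
  intro j _
  ring

end LLaux

open Finset in
theorem p_LL (h1 : T_HALP) (h2 : T_VDM) : T_LL := by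
  intro k a ε B q0 hk ha ha0 hε hq0
  obtain ⟨Cv, hCv, hvdm⟩ := h2 k a ha ha0
  set B' : ℝ := max B 0 with hB'
  have hB'0 : 0 ≤ B' := le_max_right _ _
  set M : ℝ := ∑ j, |(a j : ℝ)| with hMdef
  have hM0 : 0 ≤ M := Finset.sum_nonneg fun j _ => abs_nonneg _
  have hM : ∀ j, |(a j : ℝ)| ≤ M := fun j =>
    Finset.single_le_sum (f := fun j => |(a j : ℝ)|) (fun i _ => abs_nonneg _) (Finset.mem_univ j)
  set δ : ℝ := ε / 4 with hδdef
  have hδ : 0 < δ := by positivity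
  set K : ℝ := (∑ l ∈ Icc 1 k, B' / δ ^ (l + 1)) + 2 * k * Cv * B' * M ^ (k + 1) / δ ^ (k + 2)
    with hKdef
  have hK0 : 0 ≤ K := by
    rw [hKdef]
    have : 0 ≤ ∑ l ∈ Icc 1 k, B' / δ ^ (l + 1) := Finset.sum_nonneg fun l _ => by positivity
    positivity
  set ε' : ℝ := ε / (4 * (2 + K)) with hε'def
  have hε' : 0 < ε' := by positivity
  obtain ⟨A1, X1, hA1⟩ := h1 ε' q0 hε' hq0
  refine ⟨max A1 (k * Cv * B' + 1), max X1 (⌈(2 * M + 1) / δ⌉₊ + 1), ?_⟩
  intro x t ξ f hx hL hξ hξ1 hf hdist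
  have hxX1 : X1 ≤ x := (le_max_left _ _).trans hx
  have hx2 : ⌈(2 * M + 1) / δ⌉₊ + 1 ≤ x := (le_max_right _ _).trans hx
  have hx1 : 1 ≤ x := by omega
  have hx1r : (1 : ℝ) ≤ x := by exact_mod_cast hx1
  have hx0 : (0 : ℝ) < x := by linarith
  have hδx : 2 * M + 1 ≤ δ * x := by
    have h3 : (2 * M + 1) / δ ≤ (x : ℝ) := by
      refine (Nat.le_ceil _).trans ?_
      have : ⌈(2 * M + 1) / δ⌉₊ ≤ x := by omega
      exact_mod_cast this
    rw [div_le_iff₀ hδ] at h3
    linarith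
  have hLB : Lam a t x ≤ B' := hL.trans (le_max_left _ _)
  have ht : ∀ j, |t j| ≤ Cv * B' * (x : ℝ) ^ k := by
    intro j
    refine (hvdm t j x hx1r).trans ?_
    gcongr
  have hxk : (x : ℝ) ≤ (x : ℝ) ^ k := by
    calc (x : ℝ) = (x : ℝ) ^ 1 := (pow_one _).symm
      _ ≤ (x : ℝ) ^ k := pow_le_pow_right₀ hx1r hk
  set T : ℝ := ∑ j, t j with hT
  have hTle : |T| + x ≤ (k * Cv * B' + 1) * (x : ℝ) ^ k := by
    have h3 : |T| ≤ ∑ j : Fin k, Cv * B' * (x : ℝ) ^ k :=
      (Finset.abs_sum_le_sum_abs _ _).trans (Finset.sum_le_sum fun j _ => ht j)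
    have h4 : ∑ j : Fin k, Cv * B' * (x : ℝ) ^ k = k * Cv * B' * (x : ℝ) ^ k := by
      simp
      ring
    rw [h4] at h3
    linarith
  have hpart : ∀ y : ℕ, y ≤ x → ‖∑ n ∈ Icc 1 y, f n * nit T n * ξ n‖ ≤ ε' * x := by
    apply hA1 x f T hxX1 hf _ ξ hξ hξ1
    intro χ t' ht'
    refine (le_max_left _ _).trans (hdist χ t' ?_)
    refine ht'.trans (hTle.trans ?_)
    gcongr
    exact le_max_right _ _
  set m : ℕ := ⌊δ * x⌋₊ with hm
  have hmle : (m : ℝ) ≤ δ * x := Nat.floor_le (by positivity)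
  have hmlt : δ * x < m + 1 := Nat.lt_floor_add_one _
  have hsmall : ∀ y : ℕ, ‖∑ n ∈ Icc 1 y, f n * (ph a t n * ξ n)‖ ≤ y := by
    intro y
    calc ‖∑ n ∈ Icc 1 y, f n * (ph a t n * ξ n)‖ ≤ ∑ n ∈ Icc 1 y, ‖f n * (ph a t n * ξ n)‖ :=
          norm_sum_le _ _
      _ ≤ ∑ n ∈ Icc 1 y, (1 : ℝ) := by
          apply Finset.sum_le_sum
          intro n _
          rw [norm_mul, norm_mul]
          calc ‖f n‖ * (‖ph a t n‖ * ‖ξ n‖) ≤ 1 * (1 * 1) := by
                gcongr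
                · exact hf.bd n
                · exact LLaux.norm_ph_le a t n
                · exact hξ1 n
            _ = 1 := by norm_num
      _ = y := by simp
  rcases le_or_gt x m with hmx | hmx
  · have h3 : (x : ℝ) ≤ m := by exact_mod_cast hmx
    calc ‖∑ n ∈ Icc 1 x, f n * (ph a t n * ξ n)‖ ≤ x := hsmall x
      _ ≤ m := h3
      _ ≤ δ * x := hmle
      _ ≤ ε * x := by rw [hδdef]; nlinarith
  · have hsplit : ∑ n ∈ Icc 1 x, f n * (ph a t n * ξ n) =
        ∑ n ∈ Icc 1 m, f n * (ph a t n * ξ n) + ∑ n ∈ Ioc m x, f n * (ph a t n * ξ n) := by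
      rw [← Finset.sum_union]
      · congr 1
        ext n
        simp only [Finset.mem_union, Finset.mem_Icc, Finset.mem_Ioc]
        omega
      · rw [Finset.disjoint_left]
        intro n hn hn'
        rw [Finset.mem_Icc] at hn
        rw [Finset.mem_Ioc] at hn'
        omega
    have hnm : ∀ n : ℕ, m < n → δ * x ≤ n := by
      intro n hn
      have : (m : ℝ) + 1 ≤ n := by exact_mod_cast hn
      linarith
    have hrew : ∑ n ∈ Ioc m x, f n * (ph a t n * ξ n) =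
        ∑ n ∈ Ioc m x, (f n * nit T n * ξ n) * ei (LLaux.Psi a t n) := by
      apply Finset.sum_congr rfl
      intro n hn
      rw [Finset.mem_Ioc] at hn
      have h3 : ∀ j, |(a j : ℝ)| < n := by
        intro j
        have := hM j
        have := hnm n hn.1
        linarith
      rcases LLaux.ph_eq a t n h3 with h4 | h4
      · rw [h4]
        ring
      · omega
    have habel := LLaux.abel (fun n => f n * nit T n * ξ n) (fun n => ei (LLaux.Psi a t n))
      (ε' * x) (K / x) (by positivity) m x hmx.le hpart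
      (fun n _ => (LLaux.norm_ei _).le)
      (by
        intro n hn
        refine (LLaux.norm_ei_sub _ _).trans ?_
        have hn1 := hnm n hn
        have h5 := LLaux.Psi_diff a t (K / x) M n hM (by linarith) (by linarith)
          (fun v hv _ => by
            apply LLaux.deriv_bound a t x B' Cv M δ v hx1r hB'0 hCv.le hM hM0 hδ hLB ht
              (hn1.trans hv) (by linarith))
        simpa using h5)
    rw [hsplit, hrew]
    calc _ ≤ ‖∑ n ∈ Icc 1 m, f n * (ph a t n * ξ n)‖ +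
          ‖∑ n ∈ Ioc m x, (f n * nit T n * ξ n) * ei (LLaux.Psi a t n)‖ := norm_add_le _ _
      _ ≤ δ * x + ε' * x * (2 + (x - m) * (K / x)) := by
          gcongr
          exact (hsmall m).trans hmle
      _ ≤ δ * x + ε' * x * (2 + x * (K / x)) := by
          gcongr
          have : (0 : ℝ) ≤ m := Nat.cast_nonneg m
          linarith
      _ = δ * x + ε' * (2 + K) * x := by field_simp
      _ = ε / 4 * x + ε / 4 * x := by
          rw [hε'def, hδdef]
          have : (2 + K) ≠ 0 := by positivity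
          field_simp
      _ ≤ ε * x := by nlinarith

end Pool.Agent.Ell
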