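import Pool.Agent.Ell.Targets

set_option autoImplicit false

/-! E1: a Mertens type upper bound. -/

namespace Pool.Agent.Ell.Mert

open Finset
open scoped BigOperators

/-- one dyadic block -/
lemma block (t : ℝ) (ht : 2 ≤ t) :
    ∑ p ∈ (Finset.Iic ⌊2 * t⌋₊).filter (fun p : ℕ => p.Prime ∧ t < p), 1 / (p : ℝ) ≤
      2 * Real.log 4 / Real.log t := by
  have ht0 : 0 < t := by linarith
  have hlt : 0 < Real.log t := Real.log_pos (by linarith)
  have h1 : ∀ p ∈ (Finset.Iic ⌊2 * t⌋₊).filter (fun p : ℕ => p.Prime ∧ t < p),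
      1 / (p : ℝ) ≤ (1 / (t * Real.log t)) * Real.log p := by
    intro p hp
    rw [Finset.mem_filter] at hp
    have hp2 : t < p := hp.2.2
    have hp0 : (0 : ℝ) < p := by linarith
    have hl : Real.log t ≤ Real.log p := Real.log_le_log ht0 hp2.le
    rw [one_div_mul_eq_div, div_le_div_iff₀ hp0 (mul_pos ht0 hlt), one_mul]
    calc t * Real.log t ≤ p * Real.log p := mul_le_mul hp2.le hl hlt.le hp0.le
      _ = Real.log p * p := mul_comm _ _
  have h2 : ∑ p ∈ (Finset.Iic ⌊2 * t⌋₊).filter (fun p : ℕ => p.Prime ∧ t < p), Real.log (p : ℝ) ≤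
      Chebyshev.theta (2 * t) := by
    unfold Chebyshev.theta
    apply Finset.sum_le_sum_of_subset_of_nonneg
    · intro p hp
      rw [Finset.mem_filter] at hp ⊢
      rw [Finset.mem_Ioc]
      exact ⟨⟨hp.2.1.pos, Finset.mem_Iic.1 hp.1⟩, hp.2.1⟩
    · intro p hp _
      rw [Finset.mem_filter] at hp
      exact Real.log_nonneg (by exact_mod_cast hp.2.one_lt.le)
  have h3 := Chebyshev.theta_le_log4_mul_x (x := 2 * t) (by linarith)
  calc ∑ p ∈ (Finset.Iic ⌊2 * t⌋₊).filter (fun p : ℕ => p.Prime ∧ t < p), 1 / (p : ℝ)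
      ≤ ∑ p ∈ (Finset.Iic ⌊2 * t⌋₊).filter (fun p : ℕ => p.Prime ∧ t < p),
          (1 / (t * Real.log t)) * Real.log p := Finset.sum_le_sum h1
    _ = (1 / (t * Real.log t)) *
        ∑ p ∈ (Finset.Iic ⌊2 * t⌋₊).filter (fun p : ℕ => p.Prime ∧ t < p), Real.log (p : ℝ) := by
        rw [Finset.mul_sum]
    _ ≤ (1 / (t * Real.log t)) * (Real.log 4 * (2 * t)) := by
        apply mul_le_mul_of_nonneg_left (le_trans h2 h3)
        positivity
    _ = 2 * Real.log 4 / Real.log t := by
        field_simp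

/-- several dyadic blocks -/
lemma blocks (y : ℝ) (hy : 2 ≤ y) (i : ℕ) :
    ∑ p ∈ (Finset.Iic ⌊y * 2 ^ i⌋₊).filter (fun p : ℕ => p.Prime ∧ y < p), 1 / (p : ℝ) ≤
      i * (2 * Real.log 4 / Real.log y) := by
  have hy0 : 0 < y := by linarith
  have hly : 0 < Real.log y := Real.log_pos (by linarith)
  induction i with
  | zero =>
    have : (Finset.Iic ⌊y * 2 ^ 0⌋₊).filter (fun p : ℕ => p.Prime ∧ y < p) = ∅ := by
      rw [Finset.filter_eq_empty_iff]
      intro p hp h
      rw [Finset.mem_Iic, pow_zero, mul_one] at hp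
      have := (Nat.le_floor_iff hy0.le).1 hp
      linarith [h.2]
    rw [this]
    simp
  | succ i ih =>
    have ht : y ≤ y * 2 ^ i := le_mul_of_one_le_right hy0.le (one_le_pow₀ (by norm_num))
    have hb := block (y * 2 ^ i) (le_trans hy ht)
    have hsub : (Finset.Iic ⌊y * 2 ^ (i + 1)⌋₊).filter (fun p : ℕ => p.Prime ∧ y < p) ⊆
        (Finset.Iic ⌊y * 2 ^ i⌋₊).filter (fun p : ℕ => p.Prime ∧ y < p) ∪
        (Finset.Iic ⌊2 * (y * 2 ^ i)⌋₊).filter (fun p : ℕ => p.Prime ∧ y * 2 ^ i < p) := by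
      intro p hp
      rw [Finset.mem_filter, Finset.mem_Iic] at hp
      rw [Finset.mem_union, Finset.mem_filter, Finset.mem_filter, Finset.mem_Iic, Finset.mem_Iic]
      by_cases h : (p : ℝ) ≤ y * 2 ^ i
      · left
        exact ⟨Nat.le_floor h, hp.2⟩
      · right
        refine ⟨?_, hp.2.1, not_le.1 h⟩
        have e : 2 * (y * 2 ^ i) = y * 2 ^ (i + 1) := by ring
        rw [e]
        exact hp.1
    have hle : 2 * Real.log 4 / Real.log (y * 2 ^ i) ≤ 2 * Real.log 4 / Real.log y := by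
      apply div_le_div_of_nonneg_left _ hly (Real.log_le_log hy0 ht)
      have := Real.log_nonneg (show (1 : ℝ) ≤ 4 by norm_num)
      linarith
    calc ∑ p ∈ (Finset.Iic ⌊y * 2 ^ (i + 1)⌋₊).filter (fun p : ℕ => p.Prime ∧ y < p), 1 / (p : ℝ)
        ≤ ∑ p ∈ (Finset.Iic ⌊y * 2 ^ i⌋₊).filter (fun p : ℕ => p.Prime ∧ y < p) ∪
          (Finset.Iic ⌊2 * (y * 2 ^ i)⌋₊).filter (fun p : ℕ => p.Prime ∧ y * 2 ^ i < p),
            1 / (p : ℝ) := by
          apply Finset.sum_le_sum_of_subset_of_nonneg hsub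
          intro p _ _
          positivity
      _ ≤ ∑ p ∈ (Finset.Iic ⌊y * 2 ^ i⌋₊).filter (fun p : ℕ => p.Prime ∧ y < p), 1 / (p : ℝ) +
          ∑ p ∈ (Finset.Iic ⌊2 * (y * 2 ^ i)⌋₊).filter (fun p : ℕ => p.Prime ∧ y * 2 ^ i < p),
            1 / (p : ℝ) := by
          rw [← Finset.sum_union_inter]
          apply le_add_of_nonneg_right
          apply Finset.sum_nonneg
          intro p _
          positivity
      _ ≤ i * (2 * Real.log 4 / Real.log y) + 2 * Real.log 4 / Real.log y :=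
          add_le_add ih (le_trans hb hle)
      _ = ((i + 1 : ℕ) : ℝ) * (2 * Real.log 4 / Real.log y) := by
          push_cast
          ring

end Pool.Agent.Ell.Mert

namespace Pool.Agent.Ell

open Finset
open scoped BigOperators

theorem p_MERT : T_MERT := by
  refine ⟨8, by norm_num, ?_⟩
  intro y hy
  rcases lt_or_ge y 2 with h2 | h2
  · have hsub : (Finset.Iic ⌊y ^ 2⌋₊).filter (fun p : ℕ => p.Prime ∧ y < p) ⊆ Finset.Iic 4 := by
      intro p hp
      rw [Finset.mem_filter, Finset.mem_Iic] at hp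
      rw [Finset.mem_Iic]
      have h4 : ⌊y ^ 2⌋₊ ≤ 4 := by
        apply Nat.floor_le_of_le
        push_cast
        nlinarith
      exact le_trans hp.1 h4
    calc ∑ p ∈ (Finset.Iic ⌊y ^ 2⌋₊).filter (fun p : ℕ => p.Prime ∧ y < p), 1 / (p : ℝ)
        ≤ ∑ p ∈ (Finset.Iic 4 : Finset ℕ), (1 : ℝ) / (p : ℝ) := by
          apply Finset.sum_le_sum_of_subset_of_nonneg hsub
          intro p _ _
          positivity
      _ ≤ ∑ p ∈ (Finset.Iic 4 : Finset ℕ), (1 : ℝ) := by
          apply Finset.sum_le_sum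
          intro p _
          rcases Nat.eq_zero_or_pos p with h | h
          · rw [h]
            norm_num
          · rw [div_le_one (by exact_mod_cast h)]
            exact_mod_cast h
      _ ≤ 8 := by
          rw [Finset.sum_const, Nat.card_Iic]
          norm_num
  · have hy0 : 0 < y := by linarith
    have hly : 0 < Real.log y := Real.log_pos (by linarith)
    have hl2 : 0 < Real.log 2 := Real.log_pos (by norm_num)
    have hl2y : Real.log 2 ≤ Real.log y := Real.log_le_log (by norm_num) h2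
    set i : ℕ := ⌈Real.log y / Real.log 2⌉₊ with hi
    have hi1 : Real.log y / Real.log 2 ≤ i := Nat.le_ceil _
    have hi2 : (i : ℝ) < Real.log y / Real.log 2 + 1 := Nat.ceil_lt_add_one (by positivity)
    have hyi : y ≤ 2 ^ i := by
      have h : Real.log y ≤ Real.log ((2 : ℝ) ^ i) := by
        rw [Real.log_pow]
        rwa [div_le_iff₀ hl2] at hi1
      exact (Real.log_le_log_iff hy0 (by positivity)).1 h
    have hsub : (Finset.Iic ⌊y ^ 2⌋₊).filter (fun p : ℕ => p.Prime ∧ y < p) ⊆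
        (Finset.Iic ⌊y * 2 ^ i⌋₊).filter (fun p : ℕ => p.Prime ∧ y < p) := by
      apply Finset.filter_subset_filter
      apply Finset.Iic_subset_Iic.2
      apply Nat.floor_le_floor
      rw [sq]
      exact mul_le_mul_of_nonneg_left hyi hy0.le
    have hlog4 : Real.log 4 = 2 * Real.log 2 := by
      rw [show (4 : ℝ) = 2 ^ 2 by norm_num, Real.log_pow]
      norm_num
    calc ∑ p ∈ (Finset.Iic ⌊y ^ 2⌋₊).filter (fun p : ℕ => p.Prime ∧ y < p), 1 / (p : ℝ)
        ≤ ∑ p ∈ (Finset.Iic ⌊y * 2 ^ i⌋₊).filter (fun p : ℕ => p.Prime ∧ y < p), 1 / (p : ℝ) := by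
          apply Finset.sum_le_sum_of_subset_of_nonneg hsub
          intro p _ _
          positivity
      _ ≤ i * (2 * Real.log 4 / Real.log y) := Mert.blocks y h2 i
      _ ≤ (2 * (Real.log y / Real.log 2)) * (2 * Real.log 4 / Real.log y) := by
          apply mul_le_mul_of_nonneg_right
          · have : 1 ≤ Real.log y / Real.log 2 := by
              rw [le_div_iff₀ hl2]
              linarith
            linarith
          · rw [hlog4]
            positivity
      _ = 8 := by
          rw [hlog4]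
          field_simp
          norm_num

end Pool.Agent.Ell
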