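import Mathlib
import Pool.Agent.Ell.Targets

set_option autoImplicit false

/-! E6: the phases `Φ(b + Q v)` satisfy `OF` (`T_PHI`, `T_VDM`). -/

namespace Pool.Agent.Ell

open Finset Matrix

namespace Phi

/-- Cramer's rule for a Vandermonde system with well spaced nodes. -/
lemma vdm_bound {k : ℕ} (x : Fin k → ℝ) (δ : ℝ) (hδ : 0 < δ) (hδ1 : δ ≤ 1)
    (hx : ∀ i, |x i| ≤ 4) (hgap : ∀ i j, i ≠ j → δ ≤ |x i - x j|) (β : Fin k → ℝ) (Y : ℝ)
    (hY : ∀ i, |∑ l : Fin k, β l * x i ^ (l : ℕ)| ≤ Y) (l : Fin k) :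
    |β l| * δ ^ (k ^ 2) ≤ k * (k.factorial * (4 ^ k : ℝ) ^ k) * Y := by
  classical
  set M : Matrix (Fin k) (Fin k) ℝ := vandermonde x with hM
  have hY0 : 0 ≤ Y := (abs_nonneg _).trans (hY l)
  -- determinant
  have hdet : δ ^ (k ^ 2) ≤ |M.det| := by
    rw [hM, det_vandermonde, abs_prod]
    have h1 : ∀ i : Fin k, δ ^ k ≤ |∏ j ∈ Ioi i, (x j - x i)| := by
      intro i
      rw [abs_prod]
      calc δ ^ k ≤ δ ^ (Ioi i).card := by
            apply pow_le_pow_of_le_one hδ.le hδ1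
            exact (card_le_univ _).trans (by simp)
        _ = ∏ j ∈ Ioi i, δ := by rw [prod_const]
        _ ≤ ∏ j ∈ Ioi i, |x j - x i| := by
            apply prod_le_prod
            · intro _ _; exact hδ.le
            · intro j hj
              exact hgap j i (ne_of_gt (mem_Ioi.1 hj))
    calc δ ^ (k ^ 2) = ∏ _i : Fin k, δ ^ k := by
          rw [prod_const, card_univ, Fintype.card_fin, ← pow_mul]; congr 1; ring
      _ ≤ _ := prod_le_prod (fun _ _ => by positivity) fun i _ => h1 i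
  -- Cramer
  have h4 : (1 : ℝ) ≤ 4 ^ k := one_le_pow₀ (by norm_num)
  have hent : ∀ i j, |M i j| ≤ 4 ^ k := by
    intro i j
    rw [hM, vandermonde_apply, abs_pow]
    calc |x i| ^ (j : ℕ) ≤ 4 ^ (j : ℕ) := pow_le_pow_left₀ (abs_nonneg _) (hx i) _
      _ ≤ 4 ^ k := pow_le_pow_right₀ (by norm_num) j.2.le
  have hadj : ∀ i j, |M.adjugate i j| ≤ k.factorial * (4 ^ k : ℝ) ^ k := by
    intro i j
    rw [adjugate_apply]
    have h1 := det_le (A := M.updateRow j (Pi.single i 1)) (abv := AbsoluteValue.abs)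
      (x := (4 : ℝ) ^ k) (by
        intro a b
        simp only [AbsoluteValue.abs_apply]
        by_cases ha : a = j
        · subst ha
          rw [updateRow_self]
          by_cases hb : b = i
          · subst hb; simpa using h4
          · rw [Pi.single_eq_of_ne hb, abs_zero]; positivity
        · rw [updateRow_ne ha]; exact hent a b)
    simpa [AbsoluteValue.abs_apply, nsmul_eq_mul] using h1
  have hmul : M.adjugate *ᵥ (M *ᵥ β) = M.det • β := by
    rw [mulVec_mulVec, adjugate_mul, smul_mulVec, one_mulVec]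
  have h5 : M.det * β l = ∑ i, M.adjugate l i * (∑ l : Fin k, β l * x i ^ (l : ℕ)) := by
    have h6 := congrFun hmul l
    simp only [Pi.smul_apply, smul_eq_mul] at h6
    rw [← h6]
    simp only [mulVec, dotProduct, hM, vandermonde_apply]
    refine sum_congr rfl fun i _ => ?_
    congr 1
    refine sum_congr rfl fun j _ => ?_
    ring
  calc |β l| * δ ^ (k ^ 2) ≤ |β l| * |M.det| := by gcongr
    _ = |M.det * β l| := by rw [abs_mul, mul_comm]
    _ ≤ ∑ i, |M.adjugate l i * (∑ l : Fin k, β l * x i ^ (l : ℕ))| := by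
        rw [h5]; exact abs_sum_le_sum_abs _ _
    _ ≤ ∑ _i : Fin k, (k.factorial * (4 ^ k : ℝ) ^ k) * Y := by
        refine sum_le_sum fun i _ => ?_
        rw [abs_mul]
        exact mul_le_mul (hadj l i) (hY i) (abs_nonneg _) (by positivity)
    _ = k * (k.factorial * (4 ^ k : ℝ) ^ k) * Y := by
        rw [sum_const, card_univ, Fintype.card_fin, nsmul_eq_mul]; ring

end Phi

/-- E6b -/
theorem p_VDM : T_VDM := by
  intro k a hinj ha0
  classical
  set v : Fin k → ℝ := fun j => (a j : ℝ) with hv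
  have hvinj : Function.Injective v := fun i j h => hinj (by simpa [hv] using h)
  set M : Matrix (Fin k) (Fin k) ℝ := (vandermonde v)ᵀ with hM
  have hdet : M.det ≠ 0 := by
    rw [hM, det_transpose]
    exact det_vandermonde_ne_zero_iff.2 hvinj
  have hunit : IsUnit M.det := isUnit_iff_ne_zero.2 hdet
  refine ⟨1 + ∑ j, ∑ l, |M⁻¹ j l|, ?_, ?_⟩
  · have : 0 ≤ ∑ j, ∑ l, |M⁻¹ j l| := sum_nonneg fun _ _ => sum_nonneg fun _ _ => abs_nonneg _
    linarith
  intro t j N hN
  set t' : Fin k → ℝ := fun j => t j * a j with ht'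
  set T : Fin k → ℝ := fun l => tau a t (l + 1) with hT
  have hMt : M *ᵥ t' = T := by
    ext l
    simp only [mulVec, dotProduct, hM, transpose_apply, vandermonde_apply, hv, ht', hT, tau]
    refine sum_congr rfl fun j _ => ?_
    ring
  have h1 : t' = M⁻¹ *ᵥ T := by
    rw [← hMt, mulVec_mulVec, nonsing_inv_mul _ hunit, one_mulVec]
  have hLam0 : 0 ≤ Lam a t N := by
    unfold Lam
    exact sum_nonneg fun l _ => by positivity
  have hTl : ∀ l : Fin k, |T l| ≤ Lam a t N * N ^ k := by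
    intro l
    have h2 : |tau a t (l + 1)| / N ^ ((l : ℕ) + 1) ≤ Lam a t N := by
      unfold Lam
      refine single_le_sum (f := fun l => |tau a t l| / N ^ l) (fun i _ => by positivity) ?_
      rw [mem_Icc]; have := l.2; omega
    have h3 : 0 < N := by linarith
    rw [div_le_iff₀ (by positivity)] at h2
    refine h2.trans ?_
    exact mul_le_mul_of_nonneg_left (pow_le_pow_right₀ hN l.2) hLam0
  have h2 : |t' j| ≤ (∑ j, ∑ l, |M⁻¹ j l|) * (Lam a t N * N ^ k) := by
    have h3 : t' j = ∑ l, M⁻¹ j l * T l := by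
      conv_lhs => rw [h1]
      rfl
    rw [h3]
    calc |∑ l, M⁻¹ j l * T l| ≤ ∑ l, |M⁻¹ j l * T l| := abs_sum_le_sum_abs _ _
      _ ≤ ∑ l, |M⁻¹ j l| * (Lam a t N * N ^ k) := by
          refine sum_le_sum fun l _ => ?_
          rw [abs_mul]
          exact mul_le_mul_of_nonneg_left (hTl l) (abs_nonneg _)
      _ = (∑ l, |M⁻¹ j l|) * (Lam a t N * N ^ k) := by rw [sum_mul]
      _ ≤ _ := by
          have hN0 : 0 < N := by linarith
          refine mul_le_mul_of_nonneg_right ?_ (by positivity)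
          exact single_le_sum (f := fun j => ∑ l, |M⁻¹ j l|)
            (fun _ _ => sum_nonneg fun _ _ => abs_nonneg _) (mem_univ j)
  have h3 : |t j| ≤ |t' j| := by
    simp only [ht', abs_mul]
    have h4 : (1 : ℝ) ≤ |(a j : ℝ)| := by
      have := Int.one_le_abs (ha0 j)
      exact_mod_cast this
    nlinarith [abs_nonneg (t j)]
  have hN0 : 0 < N := by linarith
  calc |t j| ≤ (∑ j, ∑ l, |M⁻¹ j l|) * (Lam a t N * N ^ k) := h3.trans h2
    _ ≤ (1 + ∑ j, ∑ l, |M⁻¹ j l|) * (Lam a t N * N ^ k) := by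
        refine mul_le_mul_of_nonneg_right (by linarith) (by positivity)
    _ = _ := by ring

namespace Phi

/-- truncated negative binomial series -/
lemma geo (m k : ℕ) : ∃ C : ℝ, 0 < C ∧ ∀ r : ℝ, |r| ≤ 1 / 2 →
    |1 / (1 - r) ^ (m + 1) - ∑ l ∈ range (k + 1), (((l + m).choose m : ℕ) : ℝ) * r ^ l| ≤
      C * |r| ^ (k + 1) := by
  have hF : Summable fun l : ℕ => (((l + m).choose m : ℕ) : ℝ) * (1 / 2 : ℝ) ^ l :=
    summable_choose_mul_geometric_of_norm_lt_one m (by norm_num)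
  have hF2 := (summable_nat_add_iff (k + 1)).2 hF
  have hg : Summable fun l : ℕ => (((l + (k + 1) + m).choose m : ℕ) : ℝ) * (1 / 2 : ℝ) ^ l := by
    refine (hF2.mul_left (2 ^ (k + 1))).congr fun l => ?_
    rw [pow_add (1 / 2 : ℝ) l (k + 1)]
    have : (2 : ℝ) ^ (k + 1) * (1 / 2) ^ (k + 1) = 1 := by
      rw [← mul_pow]; norm_num
    linear_combination (((l + (k + 1) + m).choose m : ℕ) : ℝ) * (1 / 2 : ℝ) ^ l * this
  refine ⟨(∑' l : ℕ, (((l + (k + 1) + m).choose m : ℕ) : ℝ) * (1 / 2 : ℝ) ^ l) + 1, ?_, ?_⟩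
  · have : 0 ≤ ∑' l : ℕ, (((l + (k + 1) + m).choose m : ℕ) : ℝ) * (1 / 2 : ℝ) ^ l :=
      tsum_nonneg fun l => by positivity
    linarith
  intro r hr
  have hr1 : ‖r‖ < 1 := by rw [Real.norm_eq_abs]; linarith
  have hs := hasSum_choose_mul_geometric_of_norm_lt_one m hr1
  have h1 := hs.summable.sum_add_tsum_nat_add (k + 1)
  rw [hs.tsum_eq] at h1
  rw [← h1, add_sub_cancel_left]
  have h2 := tsum_of_norm_bounded (f := fun i : ℕ =>
      (((i + (k + 1) + m).choose m : ℕ) : ℝ) * r ^ (i + (k + 1)))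
    (hg.hasSum.mul_right (|r| ^ (k + 1))) (by
      intro i
      rw [Real.norm_eq_abs, abs_mul, abs_pow, pow_add, ← mul_assoc, Nat.abs_cast]
      gcongr)
  rw [Real.norm_eq_abs] at h2
  refine h2.trans ?_
  refine mul_le_mul_of_nonneg_right (by linarith) (by positivity)

/-- the coefficients of the expansion -/
noncomputable def kap (m p q l : ℕ) : ℝ :=
  (((l + m).choose m : ℕ) : ℝ) * (-1) ^ l * ((1 / (p : ℝ)) ^ l - (1 / (q : ℝ)) ^ l)

/-- the main term -/
noncomputable def SS {k : ℕ} (a : Fin k → ℤ) (t : Fin k → ℝ) (m p q : ℕ) (u : ℝ) : ℝ :=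
  ∑ l ∈ Icc 1 k, kap m p q l * tau a t l * (1 / u) ^ l

lemma one_side {p : ℕ} (hp : 1 ≤ p) {u A : ℝ} (hu : 0 < u) (x : ℤ) (hx : |(x : ℝ)| ≤ A)
    (hA : 2 * A ≤ u) (m : ℕ) :
    |-(x : ℝ) / (p * u)| ≤ A / u ∧ |-(x : ℝ) / (p * u)| ≤ 1 / 2 ∧
    ((p : ℝ) / (p * u + x)) ^ (m + 1) = (1 / u) ^ (m + 1) * (1 / (1 - (-(x : ℝ) / (p * u))) ^ (m + 1)) := by
  have hp0 : (1 : ℝ) ≤ p := by exact_mod_cast hp
  have hA0 : 0 ≤ A := (abs_nonneg _).trans hx
  have h1 : |-(x : ℝ) / (p * u)| ≤ A / u := by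
    rw [abs_div, abs_neg, abs_of_pos (by positivity : (0 : ℝ) < p * u)]
    rw [div_le_div_iff₀ (by positivity) hu]
    have : |(x : ℝ)| * u ≤ A * u := by gcongr
    nlinarith [mul_nonneg hA0 hu.le]
  have h2 : A / u ≤ 1 / 2 := by rw [div_le_iff₀ hu]; linarith
  refine ⟨h1, h1.trans h2, ?_⟩
  have h3 : 1 - (-(x : ℝ) / (p * u)) ≠ 0 := by
    have := abs_le.1 (h1.trans h2)
    have h4 := this.2
    intro h5
    linarith
  have h4 : (p : ℝ) * u + x = (p * u) * (1 - (-(x : ℝ) / (p * u))) := by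
    have : (p : ℝ) * u ≠ 0 := by positivity
    field_simp
    ring
  rw [h4, ← _root_.one_div_pow (1 - (-(x : ℝ) / (p * u))), ← mul_pow]
  congr 1
  have : (p : ℝ) ≠ 0 := by positivity
  rw [one_div_mul_one_div, div_eq_div_iff (mul_ne_zero (by positivity) h3)
    (mul_ne_zero hu.ne' h3)]
  ring

lemma expand (k m : ℕ) : ∃ C : ℝ, 0 < C ∧ ∀ (a : Fin k → ℤ) (t : Fin k → ℝ) (p q : ℕ) (A u : ℝ),
    1 ≤ p → 1 ≤ q → (∀ j, |(a j : ℝ)| ≤ A) → 2 * A ≤ u → 0 < u →
    |PF a t p q (m + 1) u - (-1) ^ m * (m.factorial : ℝ) * (1 / u) ^ (m + 1) * SS a t m p q u| ≤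
      m.factorial * (1 / u) ^ (m + 1) * (∑ j, |t j|) * (2 * C * (A / u) ^ (k + 1)) := by
  obtain ⟨C, hC, hgeo⟩ := geo m k
  refine ⟨C, hC, ?_⟩
  intro a t p q A u hp hq ha hA hu
  have hSS : SS a t m p q u = ∑ j, t j * ∑ l ∈ range (k + 1),
      (((l + m).choose m : ℕ) : ℝ) * ((-(a j : ℝ) / (p * u)) ^ l - (-(a j : ℝ) / (q * u)) ^ l) := by
    have h0 : SS a t m p q u = ∑ l ∈ range (k + 1), kap m p q l * tau a t l * (1 / u) ^ l := by
      unfold SS
      rw [range_eq_Ico, sum_eq_sum_Ico_succ_bot (by omega)]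
      have : kap m p q 0 = 0 := by simp [kap]
      rw [this]
      have h1 : Icc 1 k = Ico (0 + 1) (k + 1) := by
        ext i; simp only [mem_Icc, mem_Ico]; omega
      rw [h1]; simp
    rw [h0]
    simp only [tau, mul_sum, sum_mul]
    rw [sum_comm]
    refine sum_congr rfl fun j _ => sum_congr rfl fun l _ => ?_
    unfold kap
    have hp0 : (p : ℝ) ≠ 0 := by positivity
    have hq0 : (q : ℝ) ≠ 0 := by positivity
    have e1 : (-(a j : ℝ) / (p * u)) ^ l = (-1) ^ l * (a j : ℝ) ^ l * (1 / (p : ℝ)) ^ l * (1 / u) ^ l := by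
      rw [← mul_pow, ← mul_pow, ← mul_pow]; congr 1; field_simp
    have e2 : (-(a j : ℝ) / (q * u)) ^ l = (-1) ^ l * (a j : ℝ) ^ l * (1 / (q : ℝ)) ^ l * (1 / u) ^ l := by
      rw [← mul_pow, ← mul_pow, ← mul_pow]; congr 1; field_simp
    rw [e1, e2]; ring
  have hPF : PF a t p q (m + 1) u = (-1) ^ m * (m.factorial : ℝ) * (1 / u) ^ (m + 1) *
      ∑ j, t j * (1 / (1 - (-(a j : ℝ) / (p * u))) ^ (m + 1) -
        1 / (1 - (-(a j : ℝ) / (q * u))) ^ (m + 1)) := by
    rw [PF, mul_sum]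
    refine sum_congr rfl fun j _ => ?_
    rw [(one_side hp hu (a j) (ha j) hA m).2.2, (one_side hq hu (a j) (ha j) hA m).2.2]
    ring
  rw [hPF, hSS, ← mul_sub, ← sum_sub_distrib, abs_mul, abs_mul, abs_mul, abs_pow, abs_neg, abs_one,
    one_pow, one_mul, Nat.abs_cast, abs_of_pos (by positivity : (0 : ℝ) < (1 / u) ^ (m + 1)),
    mul_assoc _ (∑ j, |t j|)]
  refine mul_le_mul_of_nonneg_left ?_ (by positivity)
  refine (abs_sum_le_sum_abs _ _).trans ?_
  rw [sum_mul]
  refine sum_le_sum fun j _ => ?_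
  rw [← mul_sub, abs_mul]
  refine mul_le_mul_of_nonneg_left ?_ (abs_nonneg _)
  obtain ⟨p1, p2, -⟩ := one_side hp hu (a j) (ha j) hA m
  obtain ⟨q1, q2, -⟩ := one_side hq hu (a j) (ha j) hA m
  have g1 := hgeo _ p2
  have g2 := hgeo _ q2
  have e1 : C * |-(a j : ℝ) / (p * u)| ^ (k + 1) ≤ C * (A / u) ^ (k + 1) := by gcongr
  have e2 : C * |-(a j : ℝ) / (q * u)| ^ (k + 1) ≤ C * (A / u) ^ (k + 1) := by gcongr
  simp only [mul_sub, sum_sub_distrib]
  have e3 := abs_le.1 (g1.trans e1)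
  have e4 := abs_le.1 (g2.trans e2)
  rw [abs_le]
  constructor <;> linarith [e3.1, e3.2, e4.1, e4.2]

lemma Lam_nonneg {k : ℕ} (a : Fin k → ℤ) (t : Fin k → ℝ) {N : ℝ} (hN : 0 ≤ N) :
    0 ≤ Lam a t N := sum_nonneg fun l _ => by positivity

lemma kap_ne_zero {m p q l : ℕ} (hp : 1 ≤ p) (hq : 1 ≤ q) (hpq : p ≠ q) (hl : 1 ≤ l) :
    kap m p q l ≠ 0 := by
  unfold kap
  refine mul_ne_zero (mul_ne_zero ?_ ?_) ?_
  · have := Nat.choose_pos (show m ≤ l + m by omega)
    exact_mod_cast this.ne'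
  · exact pow_ne_zero _ (by norm_num)
  · intro h
    have h1 : (1 / (p : ℝ)) ^ l = (1 / (q : ℝ)) ^ l := sub_eq_zero.1 h
    have h2 : (1 / (p : ℝ)) = (1 / (q : ℝ)) :=
      (pow_left_inj₀ (by positivity) (by positivity) (by omega)).1 h1
    have hp0 : (p : ℝ) ≠ 0 := by positivity
    have hq0 : (q : ℝ) ≠ 0 := by positivity
    rw [div_eq_div_iff hp0 hq0, one_mul, one_mul] at h2
    exact hpq (by exact_mod_cast h2.symm)

lemma single {k : ℕ} (a : Fin k → ℤ) (p q m : ℕ) (hk : 1 ≤ k) (hinj : Function.Injective a)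
    (ha0 : ∀ j, a j ≠ 0) (hp : 1 ≤ p) (hq : 1 ≤ q) (hpq : p ≠ q) :
    ∃ c C N0 : ℝ, 0 < c ∧ 0 < C ∧ 1 ≤ N0 ∧ ∀ (t : Fin k → ℝ) (N : ℝ), N0 ≤ N →
      (∀ u, N / 4 ≤ u → u ≤ 9 * N → |PF a t p q (m + 1) u| ≤ C * Lam a t N / N ^ (m + 1)) ∧
      (∀ η, 0 < η → η ≤ 1 → 1 ≤ η ^ (k ^ 2) * √N → ∀ u : Fin k → ℝ,
        (∀ i, N / 4 ≤ u i ∧ u i ≤ 9 * N) → (∀ i j, i ≠ j → η * N ≤ |u i - u j|) →
        ∃ i, c * η ^ (k ^ 2) * Lam a t N / N ^ (m + 1) ≤ |PF a t p q (m + 1) (u i)|) := by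
  obtain ⟨CV, hCV, hV⟩ := p_VDM k a hinj ha0
  obtain ⟨CE, hCE, hE⟩ := expand k m
  set A : ℝ := 1 + ∑ j, |(a j : ℝ)| with hA
  have hA1 : 1 ≤ A := by
    have : 0 ≤ ∑ j, |(a j : ℝ)| := sum_nonneg fun _ _ => abs_nonneg _
    linarith
  have haA : ∀ j, |(a j : ℝ)| ≤ A := by
    intro j
    have := single_le_sum (f := fun j => |(a j : ℝ)|) (fun _ _ => abs_nonneg _) (mem_univ j)
    linarith
  set Kx : ℝ := 1 + ∑ l ∈ Icc 1 k, |kap m p q l| with hKx
  have hKx0 : 0 ≤ ∑ l ∈ Icc 1 k, |kap m p q l| := sum_nonneg fun _ _ => abs_nonneg _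
  have hKx1 : ∀ l ∈ Icc 1 k, |kap m p q l| ≤ Kx := by
    intro l hl
    have := single_le_sum (f := fun l => |kap m p q l|) (fun _ _ => abs_nonneg _) hl
    linarith
  obtain ⟨κ0, hκ0, hκ⟩ : ∃ κ0 : ℝ, 0 < κ0 ∧ ∀ l ∈ Icc 1 k, κ0 ≤ |kap m p q l| := by
    obtain ⟨l0, hl0, hmin⟩ := exists_min_image (Icc 1 k) (fun l => |kap m p q l|)
      ⟨1, mem_Icc.2 ⟨le_rfl, hk⟩⟩
    exact ⟨|kap m p q l0|, abs_pos.2 (kap_ne_zero hp hq hpq (mem_Icc.1 hl0).1), hmin⟩
  set CR : ℝ := k * CV * (2 * CE * (4 * A) ^ (k + 1)) with hCR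
  have hk0 : (1 : ℝ) ≤ k := by exact_mod_cast hk
  have hCR0 : 0 < CR := by positivity
  set K1 : ℝ := 81 ^ (k ^ 2) * (k * (k.factorial * (4 ^ k : ℝ) ^ k)) * 9 with hK1
  have hK10 : 0 < K1 := by
    have : (0 : ℝ) < k.factorial := by exact_mod_cast Nat.factorial_pos k
    positivity
  set c : ℝ := κ0 / (4 * k * K1 * 9 ^ (m + 1)) with hc
  have hc0 : 0 < c := by positivity
  set N1 : ℝ := 4 * k * K1 * CR / κ0 with hN1
  have hN10 : 0 < N1 := by positivity
  have hmf : (1 : ℝ) ≤ m.factorial := by exact_mod_cast Nat.factorial_pos m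
  refine ⟨c, m.factorial * 4 ^ (m + 1) * (Kx * 4 ^ k + CR), 8 * A + N1 ^ 2, hc0, by positivity,
    by nlinarith [sq_nonneg N1], ?_⟩
  intro t N hN
  have hN8 : 8 * A ≤ N := by nlinarith [sq_nonneg N1]
  have hN1' : 1 ≤ N := by linarith
  have hN0 : 0 < N := by linarith
  have hNN1 : N1 ≤ √N := by
    rw [← Real.sqrt_sq hN10.le]
    exact Real.sqrt_le_sqrt (by linarith)
  have hLam0 := Lam_nonneg a t hN0.le
  set Λ : ℝ := Lam a t N with hΛ
  -- the remainder
  have hrem : ∀ u, N / 4 ≤ u → u ≤ 9 * N →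
      |PF a t p q (m + 1) u - (-1) ^ m * (m.factorial : ℝ) * (1 / u) ^ (m + 1) * SS a t m p q u| ≤
      m.factorial * (1 / u) ^ (m + 1) * (CR * Λ / N) := by
    intro u hu1 hu2
    have hu0 : 0 < u := by linarith
    refine (hE a t p q A u hp hq haA (by linarith) hu0).trans ?_
    rw [mul_assoc _ (∑ j, |t j|)]
    refine mul_le_mul_of_nonneg_left ?_ (by positivity)
    have h1 : ∑ j, |t j| ≤ k * (CV * Λ * N ^ k) := by
      calc ∑ j, |t j| ≤ ∑ _j : Fin k, CV * Λ * N ^ k := sum_le_sum fun j _ => hV t j N hN1'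
        _ = _ := by rw [sum_const, card_univ, Fintype.card_fin, nsmul_eq_mul]
    have h2 : (A / u) ^ (k + 1) ≤ (4 * A / N) ^ (k + 1) := by
      apply pow_le_pow_left₀ (by positivity)
      rw [div_le_div_iff₀ hu0 hN0]; nlinarith
    calc (∑ j, |t j|) * (2 * CE * (A / u) ^ (k + 1))
        ≤ (k * (CV * Λ * N ^ k)) * (2 * CE * (4 * A / N) ^ (k + 1)) := by
          apply mul_le_mul h1 _ (by positivity) (by positivity)
          exact mul_le_mul_of_nonneg_left h2 (by positivity)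
      _ = CR * Λ / N := by
          rw [hCR, div_pow]
          field_simp
          ring
  constructor
  · -- upper bound
    intro u hu1 hu2
    have hu0 : 0 < u := by linarith
    have h1 := hrem u hu1 hu2
    have hS : |SS a t m p q u| ≤ Kx * 4 ^ k * Λ := by
      unfold SS
      refine (abs_sum_le_sum_abs _ _).trans ?_
      rw [hΛ, Lam, mul_sum]
      refine sum_le_sum fun l hl => ?_
      have hl' := mem_Icc.1 hl
      rw [abs_mul, abs_mul, abs_pow, abs_of_pos (by positivity : (0 : ℝ) < 1 / u)]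
      have h2 : (1 / u) ^ l ≤ 4 ^ k / N ^ l := by
        have h3 : (1 / u) ^ l ≤ (4 / N) ^ l := by
          apply pow_le_pow_left₀ (by positivity)
          rw [div_le_div_iff₀ hu0 hN0]; linarith
        refine h3.trans ?_
        rw [div_pow]
        gcongr
        · norm_num
        · exact hl'.2
      calc |kap m p q l| * |tau a t l| * (1 / u) ^ l ≤ Kx * |tau a t l| * (4 ^ k / N ^ l) := by
            have := hKx1 l hl
            gcongr
        _ = Kx * 4 ^ k * (|tau a t l| / N ^ l) := by ring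
    have h3 : |PF a t p q (m + 1) u| ≤
        m.factorial * (1 / u) ^ (m + 1) * (|SS a t m p q u| + CR * Λ / N) := by
      have h4 : |(-1) ^ m * (m.factorial : ℝ) * (1 / u) ^ (m + 1) * SS a t m p q u| =
          m.factorial * (1 / u) ^ (m + 1) * |SS a t m p q u| := by
        rw [abs_mul, abs_mul, abs_mul, abs_pow, abs_neg, abs_one, one_pow, one_mul, Nat.abs_cast,
          abs_of_pos (by positivity : (0 : ℝ) < (1 / u) ^ (m + 1))]
      have h5 := abs_sub_abs_le_abs_sub (PF a t p q (m + 1) u)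
        ((-1) ^ m * (m.factorial : ℝ) * (1 / u) ^ (m + 1) * SS a t m p q u)
      rw [h4] at h5
      rw [mul_add]; linarith
    refine h3.trans ?_
    have h6 : (1 / u) ^ (m + 1) ≤ 4 ^ (m + 1) / N ^ (m + 1) := by
      rw [← div_pow]
      apply pow_le_pow_left₀ (by positivity)
      rw [div_le_div_iff₀ hu0 hN0]; linarith
    have h7 : CR * Λ / N ≤ CR * Λ := div_le_self (by positivity) hN1'
    calc m.factorial * (1 / u) ^ (m + 1) * (|SS a t m p q u| + CR * Λ / N)
        ≤ m.factorial * (4 ^ (m + 1) / N ^ (m + 1)) * (Kx * 4 ^ k * Λ + CR * Λ) := by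
          gcongr
      _ = _ := by ring
  · -- lower bound
    intro η hη hη1 hηN u hu hgap
    by_contra hcon
    push Not at hcon
    set E0 : ℝ := η ^ (k ^ 2) with hE0
    have hE00 : 0 < E0 := by positivity
    have hΛpos : 0 < Λ := by
      rcases hLam0.lt_or_eq with h | h
      · exact h
      · have := hcon ⟨0, by omega⟩
        rw [← h] at this
        simp only [mul_zero, zero_div] at this
        exact absurd (abs_nonneg _) (not_le.2 this)
    have hsq : 0 < √N := Real.sqrt_pos.2 hN0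
    set X : ℝ := 9 ^ (m + 1) * c + CR / √N with hX
    have hSS : ∀ i, |SS a t m p q (u i)| ≤ X * (E0 * Λ) := by
      intro i
      have hu0 : 0 < u i := by have := (hu i).1; linarith
      have h1 := hrem (u i) (hu i).1 (hu i).2
      have h4 : |(-1) ^ m * (m.factorial : ℝ) * (1 / u i) ^ (m + 1) * SS a t m p q (u i)| =
          m.factorial * (1 / u i) ^ (m + 1) * |SS a t m p q (u i)| := by
        rw [abs_mul, abs_mul, abs_mul, abs_pow, abs_neg, abs_one, one_pow, one_mul, Nat.abs_cast,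
          abs_of_pos (by positivity : (0 : ℝ) < (1 / u i) ^ (m + 1))]
      have h5 := abs_sub_abs_le_abs_sub
        ((-1) ^ m * (m.factorial : ℝ) * (1 / u i) ^ (m + 1) * SS a t m p q (u i))
        (PF a t p q (m + 1) (u i))
      rw [abs_sub_comm, h4] at h5
      have h6 := hcon i
      have h7 : m.factorial * (1 / u i) ^ (m + 1) * |SS a t m p q (u i)| ≤
          c * E0 * Λ / N ^ (m + 1) + m.factorial * (1 / u i) ^ (m + 1) * (CR * Λ / N) := by
        linarith
      have h8 : |SS a t m p q (u i)| ≤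
          c * E0 * Λ / N ^ (m + 1) * (u i) ^ (m + 1) + CR * Λ / N := by
        have h9 : (0 : ℝ) < m.factorial * (1 / u i) ^ (m + 1) := by positivity
        have h10 : c * E0 * Λ / N ^ (m + 1) ≤
            m.factorial * (1 / u i) ^ (m + 1) * (c * E0 * Λ / N ^ (m + 1) * (u i) ^ (m + 1)) := by
          have h11 : (1 / u i) ^ (m + 1) * (u i) ^ (m + 1) = 1 := by
            rw [← mul_pow, one_div, inv_mul_cancel₀ hu0.ne', one_pow]
          have h12 : m.factorial * (1 / u i) ^ (m + 1) *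
              (c * E0 * Λ / N ^ (m + 1) * (u i) ^ (m + 1)) =
              m.factorial * (c * E0 * Λ / N ^ (m + 1)) * ((1 / u i) ^ (m + 1) * (u i) ^ (m + 1)) := by
            ring
          rw [h12, h11, mul_one]
          have : 0 ≤ c * E0 * Λ / N ^ (m + 1) := by positivity
          nlinarith
        have h13 : m.factorial * (1 / u i) ^ (m + 1) * |SS a t m p q (u i)| ≤
            m.factorial * (1 / u i) ^ (m + 1) *
            (c * E0 * Λ / N ^ (m + 1) * (u i) ^ (m + 1) + CR * Λ / N) := by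
          rw [mul_add]; linarith
        exact le_of_mul_le_mul_left h13 h9
      refine h8.trans ?_
      have h14 : c * E0 * Λ / N ^ (m + 1) * (u i) ^ (m + 1) ≤ 9 ^ (m + 1) * c * (E0 * Λ) := by
        have h15 : (u i) ^ (m + 1) ≤ 9 ^ (m + 1) * N ^ (m + 1) := by
          rw [← mul_pow]; exact pow_le_pow_left₀ hu0.le (hu i).2 _
        calc c * E0 * Λ / N ^ (m + 1) * (u i) ^ (m + 1)
            ≤ c * E0 * Λ / N ^ (m + 1) * (9 ^ (m + 1) * N ^ (m + 1)) := by gcongr
          _ = _ := by field_simp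
      have h16 : CR * Λ / N ≤ CR / √N * (E0 * Λ) := by
        have h17 : N = √N * √N := (Real.mul_self_sqrt hN0.le).symm
        have h18 : CR * Λ / N = CR / √N * Λ * (1 / √N) := by
          conv_lhs => rw [h17]
          field_simp
        have h19 : 1 / √N ≤ E0 := by rw [div_le_iff₀ hsq]; exact hηN
        rw [h18]
        calc CR / √N * Λ * (1 / √N) ≤ CR / √N * Λ * E0 := by gcongr
          _ = _ := by ring
      rw [hX, add_mul]; linarith
    -- Vandermonde
    set x : Fin k → ℝ := fun i => N / u i with hx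
    set β : Fin k → ℝ := fun l => kap m p q (l + 1) * tau a t (l + 1) / N ^ ((l : ℕ) + 1) with hβ
    have hxpos : ∀ i, 0 < u i := fun i => by have := (hu i).1; linarith
    have hx4 : ∀ i, |x i| ≤ 4 := by
      intro i
      have h1 := hxpos i
      rw [abs_of_pos (by positivity), div_le_iff₀ h1]
      have := (hu i).1; linarith
    have hxgap : ∀ i j, i ≠ j → η / 81 ≤ |x i - x j| := by
      intro i j hij
      have h1 := hxpos i
      have h2 := hxpos j
      have h3 : x i - x j = N * (u j - u i) / (u i * u j) := by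
        simp only [hx]; field_simp
      rw [h3, abs_div, abs_mul, abs_of_pos hN0, abs_of_pos (by positivity : 0 < u i * u j),
        abs_sub_comm, div_le_div_iff₀ (by norm_num) (by positivity)]
      have h4 := hgap i j hij
      have h5 : u i * u j ≤ (9 * N) * (9 * N) := mul_le_mul (hu i).2 (hu j).2 h2.le (by positivity)
      calc η * (u i * u j) ≤ η * ((9 * N) * (9 * N)) := by gcongr
        _ = N * (η * N) * 81 := by ring
        _ ≤ N * |u i - u j| * 81 := by gcongr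
    have hsum : ∀ i, SS a t m p q (u i) = x i * ∑ l : Fin k, β l * x i ^ (l : ℕ) := by
      intro i
      have h1 := hxpos i
      unfold SS
      have h2 : Icc 1 k = Ico (0 + 1) (k + 1) := by
        ext i; simp only [mem_Icc, mem_Ico]; omega
      rw [h2, ← sum_Ico_add' _ 0 k 1, ← range_eq_Ico, sum_range, mul_sum]
      refine sum_congr rfl fun l _ => ?_
      simp only [hβ, hx]
      rw [div_pow, div_pow, one_pow]
      field_simp
      try ring
    have hY : ∀ i, |∑ l : Fin k, β l * x i ^ (l : ℕ)| ≤ 9 * (X * (E0 * Λ)) := by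
      intro i
      have h1 := hxpos i
      have h2 : 1 / 9 ≤ x i := by
        simp only [hx]
        rw [div_le_div_iff₀ (by norm_num) h1]
        have := (hu i).2; linarith
      have h3 : |SS a t m p q (u i)| = x i * |∑ l : Fin k, β l * x i ^ (l : ℕ)| := by
        rw [hsum i, abs_mul, abs_of_pos (by linarith)]
      have h4 := hSS i
      rw [h3] at h4
      nlinarith [abs_nonneg (∑ l : Fin k, β l * x i ^ (l : ℕ))]
    have hδ : (η / 81) ^ (k ^ 2) = E0 / 81 ^ (k ^ 2) := by rw [div_pow]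
    have hβl : ∀ l : Fin k, |β l| ≤ K1 * X * Λ := by
      intro l
      have h1 := vdm_bound x (η / 81) (by positivity) (by linarith) hx4 hxgap β _ hY l
      rw [hδ] at h1
      have h2 : |β l| * E0 ≤ (K1 * X * Λ) * E0 := by
        have h3 : |β l| * E0 = 81 ^ (k ^ 2) * (|β l| * (E0 / 81 ^ (k ^ 2))) := by field_simp
        rw [h3]
        calc 81 ^ (k ^ 2) * (|β l| * (E0 / 81 ^ (k ^ 2)))
            ≤ 81 ^ (k ^ 2) * (k * (k.factorial * (4 ^ k : ℝ) ^ k) * (9 * (X * (E0 * Λ)))) := by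
              gcongr
          _ = _ := by rw [hK1]; ring
      exact le_of_mul_le_mul_right h2 hE00
    have hfin : κ0 * Λ ≤ k * (K1 * X * Λ) := by
      have hΛs : κ0 * Λ = ∑ l : Fin k, κ0 * (|tau a t (l + 1)| / N ^ ((l : ℕ) + 1)) := by
        rw [hΛ, Lam, mul_sum]
        have h2 : Icc 1 k = Ico (0 + 1) (k + 1) := by
          ext i; simp only [mem_Icc, mem_Ico]; omega
        rw [h2, ← sum_Ico_add' _ 0 k 1, ← range_eq_Ico, sum_range]
      rw [hΛs]
      calc ∑ l : Fin k, κ0 * (|tau a t (l + 1)| / N ^ ((l : ℕ) + 1))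
          ≤ ∑ _l : Fin k, K1 * X * Λ := by
            refine sum_le_sum fun l _ => ?_
            refine le_trans ?_ (hβl l)
            simp only [hβ]
            rw [abs_div, abs_mul, abs_of_pos (by positivity : (0 : ℝ) < N ^ ((l : ℕ) + 1)),
              mul_div_assoc]
            have h3 := hκ (l + 1) (mem_Icc.2 ⟨by omega, l.2⟩)
            gcongr
        _ = _ := by rw [sum_const, card_univ, Fintype.card_fin, nsmul_eq_mul]
    have hfin2 : κ0 ≤ k * (K1 * X) := by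
      have : κ0 * Λ ≤ (k * (K1 * X)) * Λ := by linarith
      exact le_of_mul_le_mul_right this hΛpos
    have h20 : k * K1 * (9 ^ (m + 1) * c) = κ0 / 4 := by
      rw [hc]; field_simp
    have h21 : k * K1 * (CR / √N) ≤ κ0 / 4 := by
      rw [← mul_div_assoc, div_le_iff₀ hsq]
      have h22 : κ0 / 4 * N1 = k * K1 * CR := by rw [hN1]; field_simp
      rw [← h22]; gcongr
    have h23 : k * (K1 * X) = k * K1 * (9 ^ (m + 1) * c) + k * K1 * (CR / √N) := by
      rw [hX]; ring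
    rw [h23, h20] at hfin2
    linarith

lemma hasDerivAt_frac (p x u : ℝ) (h : 0 < p * u + x) (n : ℕ) :
    HasDerivAt (fun u : ℝ => (p / (p * u + x)) ^ (n + 1))
      (-((n : ℝ) + 1) * (p / (p * u + x)) ^ (n + 2)) u := by
  have h1 : HasDerivAt (fun u : ℝ => p * u + x) p u := by
    simpa using ((hasDerivAt_id u).const_mul p).add_const x
  have h2 : HasDerivAt (fun u : ℝ => p / (p * u + x)) ((0 * (p * u + x) - p * p) / (p * u + x) ^ 2) u :=
    (hasDerivAt_const u p).div h1 h.ne'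
  have h3 := h2.pow (n + 1)
  refine (h3.congr_deriv ?_)
  have e : (0 * (p * u + x) - p * p) / (p * u + x) ^ 2 = -(p / (p * u + x)) ^ 2 := by
    rw [div_pow]; ring
  rw [e, Nat.add_sub_cancel]
  push_cast
  generalize p / (p * u + x) = X
  ring

lemma hasDerivAt_PF {k : ℕ} (a : Fin k → ℤ) (t : Fin k → ℝ) (p q : ℕ) (u : ℝ)
    (hp : ∀ j, 0 < (p : ℝ) * u + a j) (hq : ∀ j, 0 < (q : ℝ) * u + a j) (n : ℕ) :
    HasDerivAt (PF a t p q n) (PF a t p q (n + 1) u) u := by
  cases n with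
  | zero =>
    have h0 : PF a t p q 0 = fun u => ∑ j, t j *
        (Real.log (p * u + a j) - Real.log (q * u + a j)) := rfl
    rw [h0, PF]
    apply HasDerivAt.fun_sum
    intro j _
    have e : t j * ((-1) ^ 0 * (Nat.factorial 0 : ℝ) * (((p : ℝ) / (p * u + a j)) ^ (0 + 1) -
        ((q : ℝ) / (q * u + a j)) ^ (0 + 1))) =
        t j * ((p : ℝ) / (p * u + a j) - (q : ℝ) / (q * u + a j)) := by simp
    rw [e]
    have h1 : HasDerivAt (fun u : ℝ => (p : ℝ) * u + a j) p u := by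
      simpa using ((hasDerivAt_id u).const_mul (p : ℝ)).add_const (a j : ℝ)
    have h2 : HasDerivAt (fun u : ℝ => (q : ℝ) * u + a j) q u := by
      simpa using ((hasDerivAt_id u).const_mul (q : ℝ)).add_const (a j : ℝ)
    exact ((h1.log (hp j).ne').sub (h2.log (hq j).ne')).const_mul (t j)
  | succ n =>
    have h0 : PF a t p q (n + 1) = fun u => ∑ j, t j * ((-1) ^ n * (n.factorial : ℝ) *
      (((p : ℝ) / (p * u + a j)) ^ (n + 1) - ((q : ℝ) / (q * u + a j)) ^ (n + 1))) := rfl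
    rw [h0, PF]
    apply HasDerivAt.fun_sum
    intro j _
    have h1 := hasDerivAt_frac p (a j) u (hp j) n
    have h2 := hasDerivAt_frac q (a j) u (hq j) n
    have h3 := ((h1.sub h2).const_mul ((-1) ^ n * (n.factorial : ℝ))).const_mul (t j)
    refine h3.congr_deriv ?_
    rw [Nat.factorial_succ]
    push_cast
    ring

/-- uniform constants for all orders up to `R` -/
lemma multi {k : ℕ} (a : Fin k → ℤ) (p q : ℕ) (hk : 1 ≤ k) (hinj : Function.Injective a)
    (ha0 : ∀ j, a j ≠ 0) (hp : 1 ≤ p) (hq : 1 ≤ q) (hpq : p ≠ q) (R : ℕ) :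
    ∃ c C N0 : ℝ, 0 < c ∧ 0 < C ∧ 1 ≤ N0 ∧ ∀ m < R, ∀ (t : Fin k → ℝ) (N : ℝ), N0 ≤ N →
      (∀ u, N / 4 ≤ u → u ≤ 9 * N → |PF a t p q (m + 1) u| ≤ C * Lam a t N / N ^ (m + 1)) ∧
      (∀ η, 0 < η → η ≤ 1 → 1 ≤ η ^ (k ^ 2) * √N → ∀ u : Fin k → ℝ,
        (∀ i, N / 4 ≤ u i ∧ u i ≤ 9 * N) → (∀ i j, i ≠ j → η * N ≤ |u i - u j|) →
        ∃ i, c * η ^ (k ^ 2) * Lam a t N / N ^ (m + 1) ≤ |PF a t p q (m + 1) (u i)|) := by
  induction R with
  | zero => exact ⟨1, 1, 1, one_pos, one_pos, le_rfl, fun m hm => absurd hm (by omega)⟩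
  | succ R ih =>
    obtain ⟨c1, C1, N1, hc1, hC1, hN1, h1⟩ := ih
    obtain ⟨c2, C2, N2, hc2, hC2, hN2, h2⟩ := single a p q R hk hinj ha0 hp hq hpq
    refine ⟨min c1 c2, max C1 C2, max N1 N2, lt_min hc1 hc2, lt_max_of_lt_left hC1,
      hN1.trans (le_max_left _ _), ?_⟩
    intro m hm t N hN
    have hN1' : N1 ≤ N := (le_max_left _ _).trans hN
    have hN2' : N2 ≤ N := (le_max_right _ _).trans hN
    have hN0 : 0 < N := by linarith
    have hL := Lam_nonneg a t hN0.le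
    rcases Nat.lt_succ_iff_lt_or_eq.1 hm with hm | rfl
    · obtain ⟨u1, l1⟩ := h1 m hm t N hN1'
      refine ⟨fun u ha hb => (u1 u ha hb).trans ?_, fun η e1 e2 e3 u e4 e5 => ?_⟩
      · gcongr; exact le_max_left _ _
      · obtain ⟨i, hi⟩ := l1 η e1 e2 e3 u e4 e5
        refine ⟨i, le_trans ?_ hi⟩
        gcongr; exact min_le_left _ _
    · obtain ⟨u1, l1⟩ := h2 t N hN2'
      refine ⟨fun u ha hb => (u1 u ha hb).trans ?_, fun η e1 e2 e3 u e4 e5 => ?_⟩
      · gcongr; exact le_max_right _ _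
      · obtain ⟨i, hi⟩ := l1 η e1 e2 e3 u e4 e5
        refine ⟨i, le_trans ?_ hi⟩
        gcongr; exact min_le_right _ _

end Phi

/-- E6 -/
theorem p_PHI : T_PHI := by
  intro k a p q R hk hinj ha0 hp hq hpq
  obtain ⟨c, C, N1, hc, hC, hN1, hmul⟩ := Phi.multi a p q hk hinj ha0 hp hq hpq R
  set A : ℝ := 1 + ∑ j, |(a j : ℝ)| with hA
  have hA1 : 1 ≤ A := by
    have : 0 ≤ ∑ j, |(a j : ℝ)| := sum_nonneg fun _ _ => abs_nonneg _
    linarith
  have haA : ∀ j, |(a j : ℝ)| ≤ A := by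
    intro j
    have := single_le_sum (f := fun j => |(a j : ℝ)|) (fun _ _ => abs_nonneg _) (mem_univ j)
    linarith
  refine ⟨c, C, max N1 (8 * A), hc, hC, hN1.trans (le_max_left _ _), ?_⟩
  intro t N Q b hN hQ hQN hbQ
  have hNN1 : N1 ≤ N := (le_max_left _ _).trans hN
  have hN8 : 8 * A ≤ N := (le_max_right _ _).trans hN
  have hN0 : 0 < N := by linarith
  have hQ0 : (0 : ℝ) < Q := by exact_mod_cast hQ
  have hQ1 : (1 : ℝ) ≤ Q := by exact_mod_cast hQ
  have hbQ' : (b : ℝ) ≤ Q := by exact_mod_cast hbQ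
  have hb0 : (0 : ℝ) ≤ b := Nat.cast_nonneg b
  have hlo : ∀ v : ℝ, N / Q / 4 ≤ v → N / 4 ≤ b + Q * v := by
    intro v hv
    have : N / Q / 4 * Q ≤ v * Q := by gcongr
    have e : N / Q / 4 * Q = N / 4 := by field_simp
    rw [e] at this
    linarith
  have hhi : ∀ v : ℝ, v ≤ 8 * (N / Q) → b + Q * v ≤ 9 * N := by
    intro v hv
    have : v * Q ≤ 8 * (N / Q) * Q := by gcongr
    have e : 8 * (N / Q) * Q = 8 * N := by field_simp
    rw [e] at this
    linarith
  refine ⟨?_, ?_, ?_⟩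
  · -- derivatives
    intro n v hv1 hv2
    have hu := hlo v hv1
    have hpos : ∀ r : ℕ, 1 ≤ r → ∀ j, 0 < (r : ℝ) * (b + Q * v) + a j := by
      intro r hr j
      have hr1 : (1 : ℝ) ≤ r := by exact_mod_cast hr
      have h1 := (abs_le.1 (haA j)).1
      nlinarith
    have h1 := Phi.hasDerivAt_PF a t p q (b + Q * v) (hpos p hp) (hpos q hq) n
    have h2 : HasDerivAt (fun v : ℝ => (b : ℝ) + Q * v) Q v := by
      simpa using ((hasDerivAt_id v).const_mul (Q : ℝ)).const_add (b : ℝ)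
    have h3 := (h1.comp v h2).const_mul ((Q : ℝ) ^ n)
    refine HasDerivAt.congr_deriv (f := SC Q b (PF a t p q) n) h3 ?_
    unfold SC
    rw [pow_succ]; ring
  · -- upper bounds
    intro n v hn1 hnR hv1 hv2
    obtain ⟨m, rfl⟩ : ∃ m, n = m + 1 := ⟨n - 1, by omega⟩
    have h1 := (hmul m (by omega) t N hNN1).1 _ (hlo v hv1) (hhi v hv2)
    unfold SC
    rw [abs_mul, abs_of_pos (by positivity : (0 : ℝ) < (Q : ℝ) ^ (m + 1)), div_pow]
    calc (Q : ℝ) ^ (m + 1) * |PF a t p q (m + 1) (b + Q * v)|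
        ≤ (Q : ℝ) ^ (m + 1) * (C * Lam a t N / N ^ (m + 1)) := by gcongr
      _ = _ := by field_simp
  · -- lower bounds
    intro n hn1 hnR η hη0 hη1 v hv hgap
    obtain ⟨m, rfl⟩ : ∃ m, n = m + 1 := ⟨n - 1, by omega⟩
    have hy1 : 1 ≤ N / Q := by rw [le_div_iff₀ hQ0]; linarith
    have hy0 : 0 < N / Q := by linarith
    have hηpos : 0 < η := lt_of_lt_of_le (Real.rpow_pos_of_pos hy0 _) hη0
    have hk0 : (0 : ℝ) < k := by exact_mod_cast hk
    have hηN : 1 ≤ η ^ (k ^ 2) * √N := by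
      have h1 : (N / Q) ^ (-(1 / 2 : ℝ)) ≤ η ^ (k ^ 2) := by
        calc (N / Q) ^ (-(1 / 2 : ℝ)) = ((N / Q) ^ (-(1 / (2 * (k : ℝ) ^ 2)))) ^ (k ^ 2) := by
              rw [← Real.rpow_natCast, ← Real.rpow_mul hy0.le]
              congr 1
              push_cast
              field_simp
          _ ≤ η ^ (k ^ 2) := pow_le_pow_left₀ (Real.rpow_nonneg hy0.le _) hη0 _
      have h2 : √(N / Q) ≤ √N := Real.sqrt_le_sqrt (div_le_self hN0.le hQ1)
      have h3 : (N / Q) ^ (-(1 / 2 : ℝ)) * √(N / Q) = 1 := by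
        rw [Real.sqrt_eq_rpow, ← Real.rpow_add hy0]; norm_num
      calc (1 : ℝ) = (N / Q) ^ (-(1 / 2 : ℝ)) * √(N / Q) := h3.symm
        _ ≤ η ^ (k ^ 2) * √N := by
            apply mul_le_mul h1 h2 (Real.sqrt_nonneg _) (by positivity)
    obtain ⟨i, hi⟩ := (hmul m (by omega) t N hNN1).2 η hηpos hη1 hηN
      (fun i => b + Q * v i) (fun i => ⟨hlo _ (hv i).1, hhi _ (hv i).2⟩) (by
        intro i j hij
        have h1 := hgap i j hij
        have h2 : (b : ℝ) + Q * v i - (b + Q * v j) = Q * (v i - v j) := by ring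
        rw [h2, abs_mul, abs_of_pos hQ0]
        calc η * N = Q * (η * (N / Q)) := by field_simp
          _ ≤ Q * |v i - v j| := by gcongr)
    refine ⟨i, ?_⟩
    unfold SC
    rw [abs_mul, abs_of_pos (by positivity : (0 : ℝ) < (Q : ℝ) ^ (m + 1)), div_pow]
    calc c * η ^ (k ^ 2) * Lam a t N / (N ^ (m + 1) / (Q : ℝ) ^ (m + 1))
        = (Q : ℝ) ^ (m + 1) * (c * η ^ (k ^ 2) * Lam a t N / N ^ (m + 1)) := by field_simp
      _ ≤ _ := by gcongr

end Pool.Agent.Ell
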