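import Pool.Agent.Ell.Targets

set_option autoImplicit false

/-! E9: structured functions. -/

namespace Pool.Agent.Ell

open Finset
open scoped BigOperators ComplexConjugate

namespace Rep

lemma nit_norm (t : ℝ) {n : ℕ} (hn : 0 < n) : ‖nit t n‖ = 1 := by
  unfold nit
  rw [Complex.norm_natCast_cpow_of_pos hn]
  simp

lemma nit_mul (t : ℝ) (m n : ℕ) : nit t (m * n) = nit t m * nit t n := by
  unfold nit
  rw [Nat.cast_mul]
  exact Complex.natCast_mul_natCast_cpow m n _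

lemma nit_one (t : ℝ) : nit t 1 = 1 := by
  unfold nit
  simp

lemma norm_prod_sub_prod (s : Finset ℕ) (a b : ℕ → ℂ) (ha : ∀ i ∈ s, ‖a i‖ ≤ 1)
    (hb : ∀ i ∈ s, ‖b i‖ ≤ 1) : ‖∏ i ∈ s, a i - ∏ i ∈ s, b i‖ ≤ ∑ i ∈ s, ‖a i - b i‖ := by
  induction s using Finset.induction_on with
  | empty => simp
  | insert j s hj ih =>
    rw [Finset.prod_insert hj, Finset.prod_insert hj, Finset.sum_insert hj]
    have ih' := ih (fun i hi => ha i (Finset.mem_insert_of_mem hi))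
      (fun i hi => hb i (Finset.mem_insert_of_mem hi))
    have h1 : ‖∏ i ∈ s, a i‖ ≤ 1 := by
      rw [norm_prod]
      exact Finset.prod_le_one (fun i _ => norm_nonneg _)
        fun i hi => ha i (Finset.mem_insert_of_mem hi)
    have h2 : ‖b j‖ ≤ 1 := hb j (Finset.mem_insert_self _ _)
    calc ‖a j * ∏ i ∈ s, a i - b j * ∏ i ∈ s, b i‖
        = ‖(a j - b j) * ∏ i ∈ s, a i + b j * (∏ i ∈ s, a i - ∏ i ∈ s, b i)‖ := by
          congr 1
          ring
      _ ≤ ‖(a j - b j) * ∏ i ∈ s, a i‖ + ‖b j * (∏ i ∈ s, a i - ∏ i ∈ s, b i)‖ := norm_add_le _ _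
      _ ≤ ‖a j - b j‖ * 1 + 1 * ‖∏ i ∈ s, a i - ∏ i ∈ s, b i‖ := by
          rw [norm_mul, norm_mul]
          gcongr
      _ ≤ _ := by linarith

lemma mult_sqf (F : ℕ → ℂ) (h1 : F 1 = 1)
    (hm : ∀ m n : ℕ, Nat.Coprime m n → F (m * n) = F m * F n) {m : ℕ} (hs : Squarefree m) :
    F m = ∏ p ∈ m.primeFactors, F p := by
  rw [Nat.multiplicative_factorization F hm h1 hs.ne_zero]
  unfold Finsupp.prod
  rw [Nat.support_factorization]
  refine Finset.prod_congr rfl fun p hp => ?_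
  have hpp := Nat.prime_of_mem_primeFactors hp
  have hpd := Nat.dvd_of_mem_primeFactors hp
  have : m.factorization p = 1 :=
    (hs.natFactorization_le_one _).antisymm <| (hpp.dvd_iff_one_le_factorization hs.ne_zero).1 hpd
  simp only [this, pow_one]

/-- the product of the small prime powers -/
def Q1 (z e : ℕ) : ℕ := ∏ p ∈ (Finset.Icc 1 z).filter Nat.Prime, p ^ e

lemma Q1_pos (z e : ℕ) : 0 < Q1 z e := by
  unfold Q1
  exact Finset.prod_pos fun p hp => pow_pos (Finset.mem_filter.1 hp).2.pos _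

lemma dvd_Q1 {z e p : ℕ} (hp : p.Prime) (hz : p ≤ z) : p ^ e ∣ Q1 z e := by
  unfold Q1
  exact Finset.dvd_prod_of_mem (fun p => p ^ e)
    (Finset.mem_filter.2 ⟨Finset.mem_Icc.2 ⟨hp.one_lt.le, hz⟩, hp⟩)

lemma le_of_dvd_Q1 {z e p : ℕ} (hp : p.Prime) (h : p ∣ Q1 z e) : p ≤ z := by
  unfold Q1 at h
  rw [(Nat.Prime.prime hp).dvd_finsetProd_iff] at h
  obtain ⟨q, hq, hpq⟩ := h
  have hq' := Finset.mem_filter.1 hq
  have h1 := (Nat.prime_dvd_prime_iff_eq hp hq'.2).1 (hp.dvd_of_dvd_pow hpq)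
  rw [h1]
  exact (Finset.mem_Icc.1 hq'.1).2

def Bad (z e n : ℕ) : Prop :=
  (∃ p, p.Prime ∧ z < p ∧ p ^ 2 ∣ n) ∨ ∃ p, p.Prime ∧ p ≤ z ∧ p ^ (e + 1) ∣ n

lemma good_structure {z e n : ℕ} (hn : 0 < n) (hg : ¬ Bad z e n) :
    n = n.gcd (Q1 z e) * (n / n.gcd (Q1 z e)) ∧
    (∀ p : ℕ, p.Prime → p ∣ n / n.gcd (Q1 z e) → z < p) ∧
    Nat.Coprime (n.gcd (Q1 z e)) (n / n.gcd (Q1 z e)) ∧
    Squarefree (n / n.gcd (Q1 z e)) := by
  unfold Bad at hg
  push Not at hg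
  obtain ⟨hg1, hg2⟩ := hg
  set d := n.gcd (Q1 z e) with hd
  have hdn : d ∣ n := Nat.gcd_dvd_left _ _
  have hdQ : d ∣ Q1 z e := Nat.gcd_dvd_right _ _
  have heq : d * (n / d) = n := Nat.mul_div_cancel' hdn
  have hb : ∀ p : ℕ, p.Prime → p ∣ n / d → z < p := by
    intro p hp hpm
    by_contra hz
    rw [not_lt] at hz
    set k := n.factorization p with hk
    have h1 : p ^ k ∣ n := Nat.ordProj_dvd n p
    have h2 : ¬ p ^ (k + 1) ∣ n := Nat.pow_succ_factorization_not_dvd hn.ne' hp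
    have h3 : k ≤ e := by
      by_contra h
      exact hg2 p hp hz ((pow_dvd_pow p (by omega)).trans h1)
    have h4 : p ^ k ∣ d := Nat.dvd_gcd h1 ((pow_dvd_pow p h3).trans (dvd_Q1 hp hz))
    apply h2
    rw [pow_succ, ← heq]
    exact mul_dvd_mul h4 hpm
  refine ⟨heq.symm, hb, ?_, ?_⟩
  · refine Nat.coprime_of_dvd ?_
    intro p hp hpd hpm
    exact absurd (le_of_dvd_Q1 hp (hpd.trans hdQ)) (not_le.2 (hb p hp hpm))
  · rw [Nat.squarefree_iff_prime_squarefree]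
    intro p hp hpp
    have h1 := hb p hp ((Dvd.intro _ rfl).trans hpp)
    apply hg1 p hp h1
    rw [pow_two, ← heq]
    exact hpp.trans (Dvd.intro_left _ rfl)


/-- the structured function -/
noncomputable def xi (f : ℕ → ℂ) {r : ℕ} (χ : DirichletCharacter ℂ r) (t : ℝ) (Q n : ℕ) : ℂ :=
  f (n.gcd Q) * conj (nit t (n.gcd Q)) * χ ((n / n.gcd Q : ℕ) : ZMod r)

lemma xi_norm {f : ℕ → ℂ} (hf : MB f) {r : ℕ} (χ : DirichletCharacter ℂ r) (t : ℝ) {Q : ℕ}
    (hQ : 0 < Q) (n : ℕ) : ‖xi f χ t Q n‖ ≤ 1 := by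
  unfold xi
  have h1 : ‖conj (nit t (n.gcd Q))‖ = 1 := by
    rw [RCLike.norm_conj]
    exact nit_norm t (Nat.gcd_pos_of_pos_right _ hQ)
  rw [norm_mul, norm_mul, h1, mul_one]
  calc _ ≤ (1 : ℝ) * 1 := mul_le_mul (hf.bd _) (χ.norm_le_one _) (norm_nonneg _) zero_le_one
    _ = 1 := one_mul 1

lemma xi_per (f : ℕ → ℂ) {r : ℕ} (χ : DirichletCharacter ℂ r) (t : ℝ) {Q k : ℕ} (hQ : 0 < Q)
    (hk : r ∣ k) : Per (Q * k) (xi f χ t Q) := by
  intro m
  unfold xi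
  have h1 : (m + Q * k).gcd Q = m.gcd Q := by
    rw [Nat.gcd_add_mul_left_left]
  rw [h1]
  congr 2
  set d := m.gcd Q with hd
  have hdQ : d ∣ Q := Nat.gcd_dvd_right _ _
  have hdm : d ∣ m := Nat.gcd_dvd_left _ _
  have hd0 : 0 < d := Nat.gcd_pos_of_pos_right _ hQ
  have h2 : (m + Q * k) / d = m / d + (Q / d) * k := by
    rw [Nat.add_div_of_dvd_right hdm]
    congr 1
    rw [Nat.mul_comm Q k, Nat.mul_div_assoc _ hdQ, Nat.mul_comm]
  rw [h2]
  push_cast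
  have h3 : ((k : ℕ) : ZMod r) = 0 := (ZMod.natCast_eq_zero_iff _ _).2 hk
  rw [h3, mul_zero, add_zero]

lemma norm_g_le {r : ℕ} (χ : DirichletCharacter ℂ r) (t : ℝ) {p : ℕ} (hp : 0 < p) :
    ‖χ (p : ZMod r) * nit t p‖ ≤ 1 := by
  rw [norm_mul, nit_norm t hp, mul_one]
  exact χ.norm_le_one _

lemma chi_norm_one {r : ℕ} (χ : DirichletCharacter ℂ r) {p : ℕ} (hp : p.Prime)
    (hr : 1 ≤ r) (h : r < p) : ‖χ (p : ZMod r)‖ = 1 := by
  have hcop : Nat.Coprime p r := by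
    rw [Nat.Prime.coprime_iff_not_dvd hp]
    intro hd
    exact absurd (Nat.le_of_dvd hr hd) (not_le.2 h)
  have hu : IsUnit ((p : ℕ) : ZMod r) := (ZMod.isUnit_iff_coprime p r).2 hcop
  have : NeZero r := ⟨by omega⟩
  exact χ.unit_norm_eq_one hu.unit

/-- the pointwise identity -/
lemma good_bound {f : ℕ → ℂ} (hf : MB f) {r : ℕ} (χ : DirichletCharacter ℂ r) (t : ℝ)
    {z e n w : ℕ} (hr : 1 ≤ r) (hrz : r ≤ z) (hn : 0 < n) (hg : ¬ Bad z e n) :
    ‖f n - nit t n * (xi f χ t (Q1 z e) n * ∏ ℓ ∈ (prs z w).filter (· ∣ n),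
      (f ℓ * conj (χ (ℓ : ZMod r) * nit t ℓ)))‖ ≤
      ∑ p ∈ (n / n.gcd (Q1 z e)).primeFactors.filter (fun p => ¬ p ≤ w),
        ‖f p - χ (p : ZMod r) * nit t p‖ := by
  obtain ⟨heq, hbig, hcop, hsq⟩ := good_structure hn hg
  have hQ := Q1_pos z e
  unfold xi
  set d := n.gcd (Q1 z e) with hd
  set m := n / d with hm
  have hd0 : 0 < d := Nat.gcd_pos_of_pos_right _ hQ
  have hm0 : m ≠ 0 := hsq.ne_zero
  have hprod : (prs z w).filter (· ∣ n) = m.primeFactors.filter (fun p => p ≤ w) := by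
    ext p
    unfold prs
    simp only [Finset.mem_filter, Finset.mem_Ioc, Nat.mem_primeFactors]
    constructor
    · rintro ⟨⟨⟨h1, h2⟩, h3⟩, h4⟩
      refine ⟨⟨h3, ?_, hm0⟩, h2⟩
      rw [heq] at h4
      rcases (Nat.Prime.dvd_mul h3).1 h4 with h5 | h5
      · exact absurd (le_of_dvd_Q1 h3 (h5.trans (Nat.gcd_dvd_right _ _))) (not_le.2 h1)
      · exact h5
    · rintro ⟨⟨h1, h2, _⟩, h3⟩
      refine ⟨⟨⟨hbig p h1 h2, h3⟩, h1⟩, ?_⟩
      rw [heq]
      exact h2.mul_left _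
  rw [hprod]
  have e1 : f n = f d * ∏ p ∈ m.primeFactors, f p := by
    rw [← mult_sqf f hf.one hf.mul hsq, ← hf.mul _ _ hcop, ← heq]
  have e2 : nit t n = nit t d * ∏ p ∈ m.primeFactors, nit t p := by
    rw [← mult_sqf (nit t) (nit_one t) (fun a b _ => nit_mul t a b) hsq, ← nit_mul, ← heq]
  have e3 : χ ((m : ℕ) : ZMod r) = ∏ p ∈ m.primeFactors, χ ((p : ℕ) : ZMod r) := by
    refine mult_sqf (fun k => χ ((k : ℕ) : ZMod r)) (by simp) (fun a b _ => ?_) hsq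
    push_cast
    rw [map_mul]
  have e4 : nit t d * conj (nit t d) = 1 := by
    rw [Complex.mul_conj, Complex.normSq_eq_norm_sq, nit_norm t hd0]
    simp
  set B : ℕ → ℂ := fun p => if p ≤ w then f p else χ (p : ZMod r) * nit t p with hB
  have e5 : nit t n * (f d * conj (nit t d) * χ ((m : ℕ) : ZMod r) *
      ∏ ℓ ∈ m.primeFactors.filter (fun p => p ≤ w), (f ℓ * conj (χ (ℓ : ZMod r) * nit t ℓ))) =
      f d * ∏ p ∈ m.primeFactors, B p := by
    rw [e2, e3, Finset.prod_filter]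
    have e6 : (∏ p ∈ m.primeFactors, nit t p) * (∏ p ∈ m.primeFactors, χ ((p : ℕ) : ZMod r)) *
        (∏ ℓ ∈ m.primeFactors, if ℓ ≤ w then (f ℓ * conj (χ (ℓ : ZMod r) * nit t ℓ)) else 1) =
        ∏ p ∈ m.primeFactors, B p := by
      rw [← Finset.prod_mul_distrib, ← Finset.prod_mul_distrib]
      refine Finset.prod_congr rfl fun p hp => ?_
      have hpp := Nat.prime_of_mem_primeFactors hp
      have hpd := Nat.dvd_of_mem_primeFactors hp
      have hz := hbig p hpp hpd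
      simp only [hB]
      split_ifs with h
      · have h1 : χ (p : ZMod r) * nit t p * conj (χ (p : ZMod r) * nit t p) = 1 := by
          rw [Complex.mul_conj, Complex.normSq_eq_norm_sq, norm_mul, nit_norm t hpp.pos,
            chi_norm_one χ hpp hr (by omega)]
          simp
        calc nit t p * χ (p : ZMod r) * (f p * conj (χ (p : ZMod r) * nit t p))
            = f p * (χ (p : ZMod r) * nit t p * conj (χ (p : ZMod r) * nit t p)) := by ring
          _ = f p := by rw [h1, mul_one]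
      · ring
    rw [← e6]
    calc _ = (nit t d * conj (nit t d)) * (f d * ((∏ p ∈ m.primeFactors, nit t p) *
          (∏ p ∈ m.primeFactors, χ ((p : ℕ) : ZMod r)) *
          (∏ ℓ ∈ m.primeFactors, if ℓ ≤ w then (f ℓ * conj (χ (ℓ : ZMod r) * nit t ℓ)) else 1))) := by
          ring
      _ = _ := by rw [e4, one_mul]
  rw [e5, e1, ← mul_sub, norm_mul]
  calc ‖f d‖ * ‖∏ p ∈ m.primeFactors, f p - ∏ p ∈ m.primeFactors, B p‖
      ≤ 1 * ∑ p ∈ m.primeFactors, ‖f p - B p‖ := by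
        refine mul_le_mul (hf.bd _) (norm_prod_sub_prod _ _ _ (fun p _ => hf.bd p) ?_)
          (norm_nonneg _) zero_le_one
        intro p hp
        simp only [hB]
        split_ifs with h
        · exact hf.bd p
        · exact norm_g_le χ t (Nat.prime_of_mem_primeFactors hp).pos
    _ = ∑ p ∈ m.primeFactors, (if ¬ p ≤ w then ‖f p - χ (p : ZMod r) * nit t p‖ else 0) := by
        rw [one_mul]
        refine Finset.sum_congr rfl fun p _ => ?_
        simp only [hB]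
        by_cases h : p ≤ w <;> simp [h]
    _ ≤ _ := by rw [Finset.sum_filter]

/-- crude bound -/
lemma crude_bound {f : ℕ → ℂ} (hf : MB f) {r : ℕ} (χ : DirichletCharacter ℂ r) (t : ℝ)
    {z e n w : ℕ} (hn : 0 < n) :
    ‖f n - nit t n * (xi f χ t (Q1 z e) n * ∏ ℓ ∈ (prs z w).filter (· ∣ n),
      (f ℓ * conj (χ (ℓ : ZMod r) * nit t ℓ)))‖ ≤ 2 := by
  have h1 : ‖∏ ℓ ∈ (prs z w).filter (· ∣ n), (f ℓ * conj (χ (ℓ : ZMod r) * nit t ℓ))‖ ≤ 1 := by
    rw [norm_prod]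
    refine Finset.prod_le_one (fun i _ => norm_nonneg _) fun ℓ hℓ => ?_
    unfold prs at hℓ
    simp only [Finset.mem_filter, Finset.mem_Ioc] at hℓ
    rw [norm_mul, RCLike.norm_conj]
    calc _ ≤ (1 : ℝ) * 1 := mul_le_mul (hf.bd _) (norm_g_le χ t hℓ.1.2.pos) (norm_nonneg _)
          zero_le_one
      _ = 1 := one_mul 1
  calc _ ≤ ‖f n‖ + ‖nit t n * (xi f χ t (Q1 z e) n * ∏ ℓ ∈ (prs z w).filter (· ∣ n),
        (f ℓ * conj (χ (ℓ : ZMod r) * nit t ℓ)))‖ := norm_sub_le _ _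
    _ ≤ 1 + 1 * (1 * 1) := by
        rw [norm_mul, norm_mul, nit_norm t hn]
        gcongr
        · exact hf.bd n
        · exact xi_norm hf χ t (Q1_pos z e) n
    _ = 2 := by norm_num


/-- Mertens iterated -/
lemma mert_iter {C1 : ℝ} (hM : ∀ y : ℝ, 1 ≤ y →
    ∑ p ∈ (Finset.Iic ⌊y ^ 2⌋₊).filter (fun p : ℕ => p.Prime ∧ y < p), 1 / (p : ℝ) ≤ C1)
    (y : ℝ) (hy : 1 ≤ y) (J : ℕ) :
    ∑ p ∈ (Finset.Iic ⌊y ^ (2 ^ J)⌋₊).filter (fun p : ℕ => p.Prime ∧ y < p), 1 / (p : ℝ) ≤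
      J * C1 := by
  induction J with
  | zero =>
    have h : (Finset.Iic ⌊y ^ (2 ^ 0)⌋₊).filter (fun p : ℕ => p.Prime ∧ y < p) = ∅ := by
      refine Finset.filter_eq_empty_iff.2 ?_
      intro p hp
      rw [Finset.mem_Iic, Nat.le_floor_iff (by positivity)] at hp
      rintro ⟨-, h2⟩
      simp only [pow_zero, pow_one] at hp
      linarith
    rw [h]
    simp
  | succ J ih =>
    have h1 : (1 : ℝ) ≤ y ^ (2 ^ J) := one_le_pow₀ hy
    have h2 := hM (y ^ (2 ^ J)) h1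
    have hsub : (Finset.Iic ⌊y ^ (2 ^ (J + 1))⌋₊).filter (fun p : ℕ => p.Prime ∧ y < p) ⊆
        (Finset.Iic ⌊y ^ (2 ^ J)⌋₊).filter (fun p : ℕ => p.Prime ∧ y < p) ∪
        (Finset.Iic ⌊(y ^ (2 ^ J)) ^ 2⌋₊).filter (fun p : ℕ => p.Prime ∧ y ^ (2 ^ J) < p) := by
      intro p hp
      simp only [Finset.mem_filter, Finset.mem_union, Finset.mem_Iic] at hp ⊢
      obtain ⟨h3, h4, h5⟩ := hp
      by_cases h : (p : ℝ) ≤ y ^ (2 ^ J)
      · left
        exact ⟨(Nat.le_floor_iff (by positivity)).2 h, h4, h5⟩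
      · right
        refine ⟨?_, h4, not_le.1 h⟩
        rw [← pow_mul, ← pow_succ]
        exact h3
    calc _ ≤ ∑ p ∈ (Finset.Iic ⌊y ^ (2 ^ J)⌋₊).filter (fun p : ℕ => p.Prime ∧ y < p) ∪
        (Finset.Iic ⌊(y ^ (2 ^ J)) ^ 2⌋₊).filter (fun p : ℕ => p.Prime ∧ y ^ (2 ^ J) < p),
          1 / (p : ℝ) := Finset.sum_le_sum_of_subset_of_nonneg hsub fun _ _ _ => by positivity
      _ ≤ J * C1 + C1 := by
        refine le_trans ?_ (add_le_add ih h2)
        rw [← Finset.sum_union_inter]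
        have : 0 ≤ ∑ p ∈ (Finset.Iic ⌊y ^ (2 ^ J)⌋₊).filter (fun p : ℕ => p.Prime ∧ y < p) ∩
          (Finset.Iic ⌊(y ^ (2 ^ J)) ^ 2⌋₊).filter (fun p : ℕ => p.Prime ∧ y ^ (2 ^ J) < p),
          1 / (p : ℝ) := Finset.sum_nonneg fun _ _ => by positivity
        linarith
      _ = _ := by push_cast; ring

/-- the number of doublings -/
lemma exists_J {A : ℝ} (hA : 1 ≤ A) : ∃ J : ℕ, A ≤ 2 ^ J ∧ (J : ℝ) ≤ 3 * √A := by
  refine ⟨⌈Real.logb 2 A⌉₊, ?_, ?_⟩
  · rw [← Real.rpow_natCast, ← Real.logb_le_iff_le_rpow (by norm_num) (by linarith)]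
    exact Nat.le_ceil _
  · have h0 : 0 ≤ Real.logb 2 A := Real.logb_nonneg (by norm_num) hA
    have h1 : (⌈Real.logb 2 A⌉₊ : ℝ) < Real.logb 2 A + 1 := Nat.ceil_lt_add_one h0
    have hs : 1 ≤ √A := Real.one_le_sqrt.2 hA
    have h2 : Real.log √A ≤ √A - 1 := Real.log_le_sub_one_of_pos (by linarith)
    rw [Real.log_sqrt (by linarith)] at h2
    have h3 : Real.logb 2 A ≤ 3 * (√A - 1) := by
      unfold Real.logb
      rw [div_le_iff₀ (Real.log_pos (by norm_num))]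
      have h4 := Real.log_two_gt_d9
      nlinarith
    linarith

/-- the primes above `y` up to `x` -/
lemma sum_large {C1 : ℝ} (hC : 0 < C1) (hM : ∀ y : ℝ, 1 ≤ y →
    ∑ p ∈ (Finset.Iic ⌊y ^ 2⌋₊).filter (fun p : ℕ => p.Prime ∧ y < p), 1 / (p : ℝ) ≤ C1)
    (x : ℕ) (hx : 1 ≤ x) {A : ℝ} (hA : 1 ≤ A) :
    ∑ p ∈ (Finset.Iic ⌊(x : ℝ)⌋₊).filter (fun p : ℕ => p.Prime ∧ (x : ℝ) ^ (1 / A) < p),
      1 / (p : ℝ) ≤ 3 * √A * C1 := by
  obtain ⟨J, h1, h2⟩ := exists_J hA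
  have hx' : (1 : ℝ) ≤ x := by exact_mod_cast hx
  have hy : (1 : ℝ) ≤ (x : ℝ) ^ (1 / A) := Real.one_le_rpow hx' (by positivity)
  have h3 := mert_iter hM _ hy J
  have h4 : (x : ℝ) ≤ ((x : ℝ) ^ (1 / A)) ^ (2 ^ J) := by
    rw [← Real.rpow_natCast, ← Real.rpow_mul (by linarith)]
    calc (x : ℝ) = (x : ℝ) ^ (1 : ℝ) := (Real.rpow_one _).symm
      _ ≤ _ := by
        refine Real.rpow_le_rpow_of_exponent_le hx' ?_
        push_cast
        rw [one_div, inv_mul_eq_div, le_div_iff₀ (by linarith), one_mul]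
        exact h1
  calc _ ≤ _ := Finset.sum_le_sum_of_subset_of_nonneg (by
        refine Finset.filter_subset_filter _ ?_
        exact Finset.Iic_subset_Iic.2 (Nat.floor_le_floor h4)) fun _ _ _ => by positivity
    _ ≤ _ := h3
    _ ≤ _ := by gcongr

lemma sq_le_dist (u v : ℂ) (hu : ‖u‖ ≤ 1) (hv : ‖v‖ ≤ 1) :
    ‖u - v‖ ^ 2 ≤ 2 * (1 - (u * conj v).re) := by
  have h1 : ‖u - v‖ ^ 2 = ‖u‖ ^ 2 + ‖v‖ ^ 2 - 2 * (u * conj v).re := by
    rw [← Complex.normSq_eq_norm_sq, ← Complex.normSq_eq_norm_sq, ← Complex.normSq_eq_norm_sq,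
      Complex.normSq_sub]
  rw [h1]
  have h2 : ‖u‖ ^ 2 ≤ 1 := pow_le_one₀ (norm_nonneg _) hu
  have h3 : ‖v‖ ^ 2 ≤ 1 := pow_le_one₀ (norm_nonneg _) hv
  linarith

/-- Cauchy-Schwarz over the large primes -/
lemma sum_dist {f : ℕ → ℂ} (hf : MB f) {r : ℕ} (χ : DirichletCharacter ℂ r) (t : ℝ)
    (P : Finset ℕ) (hP : ∀ p ∈ P, p.Prime) {B D E : ℝ} (hE : 0 ≤ E)
    (h1 : ∑ p ∈ P, 1 / (p : ℝ) ≤ B)
    (h2 : ∑ p ∈ P, (1 - (f p * conj (χ (p : ZMod r) * nit t p)).re) / (p : ℝ) ≤ D)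
    (hBD : B * (2 * D) ≤ E ^ 2) :
    ∑ p ∈ P, ‖f p - χ (p : ZMod r) * nit t p‖ / p ≤ E := by
  have h0 : 0 ≤ ∑ p ∈ P, 1 / (p : ℝ) := Finset.sum_nonneg fun _ _ => by positivity
  have h3 : ∑ p ∈ P, ‖f p - χ (p : ZMod r) * nit t p‖ ^ 2 / p ≤ 2 * D := by
    calc _ ≤ ∑ p ∈ P, 2 * ((1 - (f p * conj (χ (p : ZMod r) * nit t p)).re) / (p : ℝ)) := by
          refine Finset.sum_le_sum fun p hp => ?_
          rw [← mul_div_assoc]
          exact div_le_div_of_nonneg_right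
            (sq_le_dist _ _ (hf.bd p) (norm_g_le χ t (hP p hp).pos)) (Nat.cast_nonneg _)
      _ ≤ _ := by
          rw [← Finset.mul_sum]
          linarith
  have h3' : 0 ≤ ∑ p ∈ P, ‖f p - χ (p : ZMod r) * nit t p‖ ^ 2 / p :=
    Finset.sum_nonneg fun _ _ => by positivity
  have h4 : (∑ p ∈ P, ‖f p - χ (p : ZMod r) * nit t p‖ / p) ^ 2 ≤
      (∑ p ∈ P, 1 / (p : ℝ)) * ∑ p ∈ P, ‖f p - χ (p : ZMod r) * nit t p‖ ^ 2 / p := by
    refine Finset.sum_sq_le_sum_mul_sum_of_sq_eq_mul P (fun _ _ => by positivity)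
      (fun _ _ => by positivity) fun p hp => ?_
    ring
  refine abs_le_of_sq_le_sq' ?_ hE |>.2
  calc _ ≤ _ := h4
    _ ≤ B * (2 * D) := mul_le_mul h1 h3 h3' (h0.trans h1)
    _ ≤ _ := hBD

/-- multiples -/
lemma card_dvd_le (x d : ℕ) (hd : 0 < d) :
    (((Finset.Icc 1 x).filter (d ∣ ·)).card : ℝ) ≤ (x : ℝ) / d := by
  have h : (Finset.Icc 1 x) = Finset.Ioc 0 x := by
    ext n
    simp [Finset.mem_Icc, Finset.mem_Ioc, Nat.succ_le_iff]
  rw [h, Nat.Ioc_filter_dvd_card_eq_div]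
  exact Nat.cast_div_le

/-- the number of bad integers -/
lemma card_bad (x z e : ℕ) (hz : 1 ≤ z) [DecidablePred (Bad z e)] :
    (((Finset.Icc 1 x).filter (Bad z e)).card : ℝ) ≤ x / z + x * (z / 2 ^ (e + 1)) := by
  have hsub : (Finset.Icc 1 x).filter (Bad z e) ⊆
      ((Finset.Ioc z x).biUnion fun p => (Finset.Icc 1 x).filter (p ^ 2 ∣ ·)) ∪
      ((Finset.Icc 2 z).biUnion fun p => (Finset.Icc 1 x).filter (p ^ (e + 1) ∣ ·)) := by
    intro n hn
    rw [Finset.mem_filter] at hn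
    obtain ⟨h1, h2⟩ := hn
    rw [Finset.mem_union, Finset.mem_biUnion, Finset.mem_biUnion]
    rw [Finset.mem_Icc] at h1
    rcases h2 with ⟨p, hp, hpz, hpd⟩ | ⟨p, hp, hpz, hpd⟩
    · left
      have h3 : p ^ 2 ≤ n := Nat.le_of_dvd h1.1 hpd
      have h4 : p ≤ p ^ 2 := Nat.le_self_pow (by norm_num) p
      exact ⟨p, Finset.mem_Ioc.2 ⟨hpz, by omega⟩, Finset.mem_filter.2
        ⟨Finset.mem_Icc.2 h1, hpd⟩⟩
    · right
      exact ⟨p, Finset.mem_Icc.2 ⟨hp.two_le, hpz⟩, Finset.mem_filter.2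
        ⟨Finset.mem_Icc.2 h1, hpd⟩⟩
  have h1 : (((Finset.Icc 1 x).filter (Bad z e)).card : ℝ) ≤
      ∑ p ∈ Finset.Ioc z x, (x : ℝ) / ((p : ℝ) ^ 2) +
      ∑ p ∈ Finset.Icc 2 z, (x : ℝ) / ((p : ℝ) ^ (e + 1)) := by
    calc (((Finset.Icc 1 x).filter (Bad z e)).card : ℝ)
        ≤ ((((Finset.Ioc z x).biUnion fun p => (Finset.Icc 1 x).filter (p ^ 2 ∣ ·)) ∪
      ((Finset.Icc 2 z).biUnion fun p => (Finset.Icc 1 x).filter (p ^ (e + 1) ∣ ·))).card : ℝ) := by
          exact_mod_cast Finset.card_le_card hsub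
      _ ≤ (((Finset.Ioc z x).biUnion fun p => (Finset.Icc 1 x).filter (p ^ 2 ∣ ·)).card : ℝ) +
        ((Finset.Icc 2 z).biUnion fun p => (Finset.Icc 1 x).filter (p ^ (e + 1) ∣ ·)).card := by
          exact_mod_cast Finset.card_union_le _ _
      _ ≤ (∑ p ∈ Finset.Ioc z x, ((Finset.Icc 1 x).filter (p ^ 2 ∣ ·)).card : ℝ) +
        ∑ p ∈ Finset.Icc 2 z, ((Finset.Icc 1 x).filter (p ^ (e + 1) ∣ ·)).card := by
          exact_mod_cast add_le_add Finset.card_biUnion_le Finset.card_biUnion_le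
      _ ≤ _ := by
          push_cast
          refine add_le_add (Finset.sum_le_sum fun p hp => ?_) (Finset.sum_le_sum fun p hp => ?_)
          · have hp0 : 0 < p := by
              rw [Finset.mem_Ioc] at hp
              omega
            have := card_dvd_le x (p ^ 2) (by positivity)
            push_cast at this
            exact this
          · have hp0 : 0 < p := by
              rw [Finset.mem_Icc] at hp
              omega
            have := card_dvd_le x (p ^ (e + 1)) (by positivity)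
            push_cast at this
            exact this
  refine h1.trans (add_le_add ?_ ?_)
  · rcases le_or_gt z x with hzx | hzx
    · have h2 := sum_Ioc_inv_sq_le_sub (α := ℝ) (k := z) (n := x) (by omega) hzx
      calc ∑ p ∈ Finset.Ioc z x, (x : ℝ) / ((p : ℝ) ^ 2)
          = x * ∑ p ∈ Finset.Ioc z x, ((p : ℝ) ^ 2)⁻¹ := by
            rw [Finset.mul_sum]
            rfl
        _ ≤ x * ((z : ℝ)⁻¹ - (x : ℝ)⁻¹) := by gcongr
        _ ≤ x * (z : ℝ)⁻¹ := by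
            gcongr
            have : 0 ≤ (x : ℝ)⁻¹ := by positivity
            linarith
        _ = _ := rfl
    · rw [Finset.Ioc_eq_empty (by omega)]
      simp only [Finset.sum_empty]
      positivity
  · calc ∑ p ∈ Finset.Icc 2 z, (x : ℝ) / ((p : ℝ) ^ (e + 1))
        ≤ ∑ p ∈ Finset.Icc 2 z, (x : ℝ) / ((2 : ℝ) ^ (e + 1)) := by
          refine Finset.sum_le_sum fun p hp => ?_
          rw [Finset.mem_Icc] at hp
          have h2 : (2 : ℝ) ≤ p := by exact_mod_cast hp.1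
          gcongr
      _ = ((Finset.Icc 2 z).card : ℝ) * ((x : ℝ) / ((2 : ℝ) ^ (e + 1))) := by
          rw [Finset.sum_const, nsmul_eq_mul]
      _ ≤ (z : ℝ) * ((x : ℝ) / ((2 : ℝ) ^ (e + 1))) := by
          have h3 : ((Finset.Icc 2 z).card : ℝ) ≤ z := by
            rw [Nat.card_Icc]
            exact_mod_cast (by omega : z + 1 - 2 ≤ z)
          gcongr
      _ = _ := by ring

end Rep

open Rep in
theorem p_REP (hM : T_MERT) : T_REP := by
  classical
  obtain ⟨C1, hC1, hM⟩ := hM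
  intro ε C z1 hε
  set z : ℕ := max (max z1 C) (⌈16 / ε⌉₊ + 1) with hz
  have hz1 : z1 ≤ z := (le_max_left _ _).trans (le_max_left _ _)
  have hzC : C ≤ z := (le_max_right _ _).trans (le_max_left _ _)
  have hz2 : ⌈16 / ε⌉₊ + 1 ≤ z := le_max_right _ _
  have hz3 : 1 ≤ z := by omega
  have hz4 : 16 / ε ≤ z := by
    calc 16 / ε ≤ ⌈16 / ε⌉₊ := Nat.le_ceil _
      _ ≤ z := by exact_mod_cast (by omega : ⌈16 / ε⌉₊ ≤ z)
  have hz0 : (0 : ℝ) < z := by exact_mod_cast hz3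
  have hz5 : 1 / (z : ℝ) ≤ ε / 16 := by
    rw [div_le_iff₀ hε] at hz4
    rw [div_le_div_iff₀ hz0 (by norm_num)]
    linarith
  obtain ⟨e, he⟩ : ∃ e : ℕ, (z : ℝ) / 2 ^ (e + 1) ≤ ε / 16 := by
    obtain ⟨e, he⟩ := pow_unbounded_of_one_lt (16 * (z : ℝ) / ε) (one_lt_two (α := ℝ))
    refine ⟨e, ?_⟩
    rw [div_lt_iff₀ hε] at he
    rw [div_le_div_iff₀ (by positivity) (by norm_num), pow_succ]
    nlinarith [pow_pos (zero_lt_two (α := ℝ)) e]
  refine ⟨z, Q1 z e * C.factorial, hz1, Nat.mul_pos (Q1_pos z e) (Nat.factorial_pos _), ?_,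
    max 1 ((24 * C1 / ε ^ 2) ^ 2), le_max_left _ _, ?_⟩
  · intro p hp hd
    rcases (Nat.Prime.dvd_mul hp).1 hd with h | h
    · exact le_of_dvd_Q1 hp h
    · exact ((Nat.Prime.dvd_factorial hp).1 h).trans hzC
  intro A hA
  have hA1 : 1 ≤ A := (le_max_left _ _).trans hA
  have hA2 : (24 * C1 / ε ^ 2) ^ 2 ≤ A := (le_max_right _ _).trans hA
  have hA3 : 24 * C1 / ε ^ 2 ≤ √A := Real.le_sqrt_of_sq_le hA2
  refine ⟨1, ?_⟩
  intro x f r χ t hx hf hr hrC hD
  refine ⟨xi f χ t (Q1 z e), xi_per f χ t (Q1_pos z e) (Nat.dvd_factorial hr hrC),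
    xi_norm hf χ t (Q1_pos z e), ?_⟩
  set w := ⌊(x : ℝ) ^ (1 / A)⌋₊ with hw
  set P : Finset ℕ := (Finset.Iic ⌊(x : ℝ)⌋₊).filter
    (fun p : ℕ => p.Prime ∧ (x : ℝ) ^ (1 / A) < p) with hP
  have hS := sum_large hC1 hM x hx hA1
  have hA0 : 0 < A := by linarith
  have hsA : 0 < √A := Real.sqrt_pos.2 hA0
  have hmain : ∑ p ∈ P, ‖f p - χ (p : ZMod r) * nit t p‖ / p ≤ ε / 2 := by
    refine sum_dist hf χ t P (fun p hp => (Finset.mem_filter.1 hp).2.1) (by positivity) hS hD ?_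
    have h1 : A = √A * √A := (Real.mul_self_sqrt hA0.le).symm
    have h2 : 3 * √A * C1 * (2 * (1 / A)) = 6 * C1 / √A := by
      rw [eq_div_iff hsA.ne']
      calc _ = 6 * C1 * (√A * √A) / A := by ring
        _ = _ := by rw [← h1]; field_simp
    rw [h2, div_le_iff₀ hsA]
    rw [div_le_iff₀ (by positivity)] at hA3
    nlinarith
  set a : ℕ → ℝ := fun p => ‖f p - χ (p : ZMod r) * nit t p‖ with ha
  calc _ ≤ ∑ n ∈ Finset.Icc 1 x, ((if Bad z e n then 2 else 0) +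
        ∑ p ∈ P, if p ∣ n then a p else 0) := by
        refine Finset.sum_le_sum fun n hn => ?_
        have hn1 : 0 < n := (Finset.mem_Icc.1 hn).1
        by_cases hb : Bad z e n
        · rw [if_pos hb]
          have h1 := crude_bound hf χ t (z := z) (e := e) (w := w) hn1
          have h2 : 0 ≤ ∑ p ∈ P, if p ∣ n then a p else 0 :=
            Finset.sum_nonneg fun p _ => by
              split_ifs
              · exact norm_nonneg _
              · exact le_rfl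
          linarith
        · rw [if_neg hb, zero_add]
          have h1 := good_bound hf χ t (w := w) hr (hrC.trans hzC) hn1 hb
          refine h1.trans ?_
          rw [← Finset.sum_filter]
          refine Finset.sum_le_sum_of_subset_of_nonneg ?_ fun _ _ _ => norm_nonneg _
          intro p hp
          rw [Finset.mem_filter] at hp
          obtain ⟨hp1, hp2⟩ := hp
          have hpp := Nat.prime_of_mem_primeFactors hp1
          have hpd := Nat.dvd_of_mem_primeFactors hp1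
          have hpn : p ∣ n := hpd.trans (Nat.div_dvd_of_dvd (Nat.gcd_dvd_left _ _))
          rw [Finset.mem_filter, hP, Finset.mem_filter, Finset.mem_Iic, Nat.floor_natCast]
          refine ⟨⟨?_, hpp, ?_⟩, hpn⟩
          · exact (Nat.le_of_dvd hn1 hpn).trans (Finset.mem_Icc.1 hn).2
          · rw [← Nat.floor_lt (by positivity)]
            exact not_le.1 hp2
    _ = ((Finset.Icc 1 x).filter (Bad z e)).card * 2 +
        ∑ p ∈ P, a p * (((Finset.Icc 1 x).filter (p ∣ ·)).card : ℝ) := by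
        rw [Finset.sum_add_distrib, ← Finset.sum_filter, Finset.sum_const, nsmul_eq_mul,
          Finset.sum_comm]
        congr 1
        refine Finset.sum_congr rfl fun p _ => ?_
        rw [← Finset.sum_filter, Finset.sum_const, nsmul_eq_mul, mul_comm]
    _ ≤ (x / z + x * (z / 2 ^ (e + 1))) * 2 + ∑ p ∈ P, a p * ((x : ℝ) / p) := by
        refine add_le_add ?_ (Finset.sum_le_sum fun p hp => ?_)
        · exact mul_le_mul_of_nonneg_right (card_bad x z e hz3) (by norm_num)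
        · have hpp : p.Prime := (Finset.mem_filter.1 hp).2.1
          exact mul_le_mul_of_nonneg_left (card_dvd_le x p hpp.pos) (norm_nonneg _)
    _ = (x * (1 / z) + x * (z / 2 ^ (e + 1))) * 2 + x * ∑ p ∈ P, a p / p := by
        rw [Finset.mul_sum]
        congr 1
        · ring
        · exact Finset.sum_congr rfl fun p _ => by ring
    _ ≤ (x * (ε / 16) + x * (ε / 16)) * 2 + x * (ε / 2) := by gcongr
    _ ≤ ε * x := by
        have : 0 ≤ ε * x := by positivity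
        linarith

end Pool.Agent.Ell
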