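import Pool.Agent.Ell.Main
import Pool.Agent.Ell.FL
import Pool.Agent.Ell.CRT
import Pool.Agent.Ell.MS
import Pool.Agent.Ell.Mert
import Pool.Agent.Ell.Kat
import Pool.Agent.Ell.Rep
import Pool.Agent.Ell.Phi
import Pool.Agent.Ell.EQ
import Pool.Agent.Ell.HalP
import Pool.Agent.Ell.Hal
import Pool.Agent.Ell.LL
import Pool.Agent.Ell.Key
import Pool.Agent.Ell.Final

set_option autoImplicit false

namespace Pool.Agent.Ell

theorem main_of_core (hcore : T_CORE) : T_MAIN := by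
  have hms : T_MS := p_MS (p_FL p_MERT) p_CRT
  have heq : T_EQ := p_EQ hcore p_PHI
  have hosc : T_OSC := p_OSC hcore p_PHI
  exact p_MAIN (p_KEY p_KAT hms heq) (p_OO p_KAT heq hosc)
    (p_LL (p_HALP p_HAL p_MERT) p_VDM) p_SM (p_REP p_MERT) p_VDM

end Pool.Agent.Ell
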