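import Pool.Agent.Ell.CoreB

set_option autoImplicit false

/-! E5: exponential sums: the theorem. -/

namespace Pool.Agent.Ell

open Finset
open _root_.Pool.Agent.Ell.Core
open scoped BigOperators ComplexConjugate

/-- numerical part of the fast case -/
lemma Core.fast_num (K0 N L η0 κ0 κ1 H : ℝ) (r : ℕ) (hK0 : 4 ≤ K0) (hN : 1 ≤ N) (hη0 : 0 < η0)
    (hr : 1 ≤ r) (hκ0le : κ0 ≤ 1 / 4) (hκ1 : 0 < κ1) (hκ1a : κ1 ≤ κ0 / 16)
    (hκ1b : κ1 ≤ 1 / (16 * (r : ℝ))) (hL : N ^ (1 / 16 : ℝ) / 2 ^ r ≤ L)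
    (hH : H / N ≤ N ^ (-(1 / (8 * (r : ℝ))))) :
    K0 * N * (L ^ (-κ0) + (2 * η0 + 2 * r * (H / N)) + N ^ (-(1 / 2) : ℝ)) ≤
      10 * N * ((K0 * (2 ^ r + 2 * r + 2)) * (N ^ (-κ1) + η0)) := by
  have hNpos : 0 < N := lt_of_lt_of_le one_pos hN
  have hr1 : (1 : ℝ) ≤ r := by exact_mod_cast hr
  have h2r : (1 : ℝ) ≤ 2 ^ r := one_le_pow₀ (by norm_num)
  have hN16 : 0 < N ^ (1 / 16 : ℝ) := Real.rpow_pos_of_pos hNpos _
  have e1 : L ^ (-κ0) ≤ 2 ^ r * N ^ (-κ1) := by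
    have h1 : 0 < N ^ (1 / 16 : ℝ) / 2 ^ r := by positivity
    calc L ^ (-κ0) ≤ (N ^ (1 / 16 : ℝ) / 2 ^ r) ^ (-κ0) :=
          Real.rpow_le_rpow_of_nonpos h1 hL (by linarith)
      _ = ((2 : ℝ) ^ r) ^ κ0 * (N ^ (1 / 16 : ℝ)) ^ (-κ0) := by
          rw [Real.div_rpow hN16.le (by positivity),
            Real.rpow_neg (by positivity : (0 : ℝ) ≤ 2 ^ r) κ0, div_inv_eq_mul, mul_comm]
      _ ≤ 2 ^ r * N ^ (-κ1) := by
          have h2 : ((2 : ℝ) ^ r) ^ κ0 ≤ 2 ^ r := by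
            calc ((2 : ℝ) ^ r) ^ κ0 ≤ ((2 : ℝ) ^ r) ^ (1 : ℝ) :=
                  Real.rpow_le_rpow_of_exponent_le h2r (by linarith)
              _ = 2 ^ r := Real.rpow_one _
          have h3 : (N ^ (1 / 16 : ℝ)) ^ (-κ0) ≤ N ^ (-κ1) := by
            rw [← Real.rpow_mul hNpos.le]
            exact Real.rpow_le_rpow_of_exponent_le hN (by linarith)
          exact mul_le_mul h2 h3 (Real.rpow_nonneg hN16.le _) (by positivity)
  have hNκ1 : 0 < N ^ (-κ1) := Real.rpow_pos_of_pos hNpos _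
  have e2 : H / N ≤ N ^ (-κ1) := by
    refine hH.trans (Real.rpow_le_rpow_of_exponent_le hN ?_)
    have h2 : 1 / (16 * (r : ℝ)) ≤ 1 / (8 * (r : ℝ)) := by
      apply div_le_div_of_nonneg_left (by norm_num) (by positivity)
      linarith
    linarith
  have hr16 : 1 / (16 * (r : ℝ)) ≤ 1 / 2 := by
    rw [div_le_div_iff₀ (by positivity) (by norm_num)]
    linarith
  have e3 : N ^ (-(1 / 2) : ℝ) ≤ N ^ (-κ1) :=
    Real.rpow_le_rpow_of_exponent_le hN (by linarith)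
  have e4 : L ^ (-κ0) + (2 * η0 + 2 * r * (H / N)) + N ^ (-(1 / 2) : ℝ) ≤
      (2 ^ r + 2 * r + 2) * (N ^ (-κ1) + η0) := by
    generalize N ^ (-κ1) = m at *
    generalize N ^ (-(1 / 2) : ℝ) = m2 at *
    generalize L ^ (-κ0) = m3 at *
    have h5 : 2 * (r : ℝ) * (H / N) ≤ 2 * r * m := by gcongr
    have h6 : 0 ≤ ((2 : ℝ) ^ r + 2 * r) * η0 := by positivity
    nlinarith
  calc K0 * N * (L ^ (-κ0) + (2 * η0 + 2 * r * (H / N)) + N ^ (-(1 / 2) : ℝ))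
      ≤ K0 * N * ((2 ^ r + 2 * r + 2) * (N ^ (-κ1) + η0)) := by
        refine mul_le_mul_of_nonneg_left e4 (by positivity)
    _ = 1 * (N * ((K0 * (2 ^ r + 2 * r + 2)) * (N ^ (-κ1) + η0))) := by ring
    _ ≤ 10 * (N * ((K0 * (2 ^ r + 2 * r + 2)) * (N ^ (-κ1) + η0))) := by
        refine mul_le_mul_of_nonneg_right (by norm_num) (by positivity)
    _ = _ := by ring

theorem p_CORE : T_CORE := by
  intro k r c C hk hr hc hC
  obtain ⟨K0, hK0, hslow⟩ := slow k hk (c / 2 ^ (k ^ 2)) C (by positivity) hC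
  have hkpos : (1 : ℝ) ≤ k := by exact_mod_cast hk
  have hrpos : (1 : ℝ) ≤ r := by exact_mod_cast hr
  obtain ⟨κ0, hκ0⟩ : ∃ κ0 : ℝ, κ0 = 1 / (4 * (k : ℝ) ^ 2) := ⟨_, rfl⟩
  have hκ0pos : 0 < κ0 := by rw [hκ0]; positivity
  have hκ0le : κ0 ≤ 1 / 4 := by
    rw [hκ0]
    have : (1 : ℝ) ≤ (k : ℝ) ^ 2 := one_le_pow₀ hkpos
    rw [div_le_div_iff₀ (by positivity) (by norm_num)]
    linarith
  obtain ⟨κ1, hκ1⟩ : ∃ κ1 : ℝ, κ1 = κ0 / (16 * r) := ⟨_, rfl⟩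
  have hκ1pos : 0 < κ1 := by rw [hκ1]; positivity
  have hκ1a : κ1 ≤ κ0 / 16 := by
    rw [hκ1]
    apply div_le_div_of_nonneg_left hκ0pos.le (by norm_num)
    linarith
  have hκ1b : κ1 ≤ 1 / (16 * (r : ℝ)) := by
    rw [hκ1]
    apply div_le_div_of_nonneg_right _ (by positivity)
    linarith
  obtain ⟨p, hp⟩ : ∃ p : ℝ, p = (1 / 2 : ℝ) ^ r := ⟨_, rfl⟩
  have hppos : 0 < p := by rw [hp]; positivity
  have hple : p ≤ 1 := by rw [hp]; exact pow_le_one₀ (by norm_num) (by norm_num)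
  obtain ⟨κ, hκ⟩ : ∃ κ : ℝ, κ = κ1 * p := ⟨_, rfl⟩
  have hκpos : 0 < κ := by rw [hκ]; positivity
  have hκleκ1 : κ ≤ κ1 := by
    rw [hκ]; nlinarith
  have hκlep : κ ≤ p := by
    rw [hκ]; nlinarith
  obtain ⟨K1, hK1⟩ : ∃ K1 : ℝ, K1 = K0 * (2 ^ r + 2 * r + 2) := ⟨_, rfl⟩
  have h2r : (1 : ℝ) ≤ 2 ^ r := one_le_pow₀ (by norm_num)
  have hK1K0 : K0 ≤ K1 := by
    rw [hK1]; nlinarith
  have hK1ge : 4 ≤ K1 := hK0.trans hK1K0
  refine ⟨κ, 10 * K1, hκpos, by linarith, by linarith, ?_⟩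
  intro N Λ η0 ψ hN hΛ hΛN hη0 hη1 hOF x y hx hxy hy
  have hNpos : 0 < N := by linarith
  have hΛpos : 0 < Λ := by linarith
  have hxR : (x : ℝ) ≤ y := by exact_mod_cast hxy
  have hx0 : (0 : ℝ) ≤ x := Nat.cast_nonneg _
  have hlen : (y : ℝ) - x ≤ 4 * N := by linarith
  have htriv : ‖∑ m ∈ Finset.Ioc x y, ei (ψ 0 m)‖ ≤ 4 * N := by
    refine (trivial_bound (fun m => ei (ψ 0 m)) (fun m => (norm_ei _).le) _).trans ?_
    rw [Nat.card_Ioc, Nat.cast_sub hxy]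
    exact hlen
  have hΛκ : 0 < Λ ^ (-κ) := Real.rpow_pos_of_pos hΛpos _
  have hNκ : 0 < N ^ (-κ) := Real.rpow_pos_of_pos hNpos _
  have hηκ : 0 < η0 ^ κ := Real.rpow_pos_of_pos hη0 _
  have hη0κ : η0 ≤ η0 ^ κ := by
    nth_rewrite 1 [← Real.rpow_one η0]
    exact Real.rpow_le_rpow_of_exponent_ge hη0 hη1 (by linarith)
  rcases le_or_gt Λ (N ^ (1 / 4 : ℝ)) with hcase | hcase
  · -- slow case
    have h1 := hslow N Λ η0 (ψ 0) (ψ 1) (ψ 2) x y hN hΛpos hcase hη0 hxy hlen (by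
      intro u hu1 hu2
      have a1 : N / 4 ≤ u := by linarith
      have a2 : u ≤ 8 * N := by linarith
      refine ⟨hOF.der 0 u a1 a2, hOF.der 1 u a1 a2, ?_, ?_⟩
      · have := hOF.up 1 u le_rfl (by omega) a1 a2
        simpa using this
      · exact hOF.up 2 u (by omega) (by omega) a1 a2) (by
      intro η hη1 hη2 v hv1 hv2
      obtain ⟨i, hi⟩ := hOF.low 1 le_rfl (by omega) η hη1 hη2 v
        (fun i => ⟨by linarith [(hv1 i).1], by linarith [(hv1 i).2]⟩) hv2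
      refine ⟨i, le_trans ?_ hi⟩
      have hηpos : 0 < η := by linarith
      rw [pow_one]
      gcongr
      exact div_le_self hc.le (one_le_pow₀ (by norm_num)))
    refine h1.trans ?_
    rw [← hκ0]
    have e1 : Λ ^ (-κ0) ≤ Λ ^ (-κ) :=
      Real.rpow_le_rpow_of_exponent_le hΛ (by linarith)
    have e2 : N ^ (-(1 / 2) : ℝ) ≤ N ^ (-κ) :=
      Real.rpow_le_rpow_of_exponent_le hN (by linarith)
    calc K0 * N * (Λ ^ (-κ0) + η0 + N ^ (-(1 / 2) : ℝ))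
        ≤ K0 * N * (Λ ^ (-κ) + N ^ (-κ) + η0 ^ κ) := by
          refine mul_le_mul_of_nonneg_left (by linarith) (by positivity)
      _ ≤ 10 * K1 * N * (Λ ^ (-κ) + N ^ (-κ) + η0 ^ κ) := by
          refine mul_le_mul_of_nonneg_right ?_ (by positivity)
          refine mul_le_mul_of_nonneg_right (by linarith) hNpos.le
  · -- fast case
    obtain ⟨θ, hθ⟩ : ∃ θ : ℝ, θ = K1 * (N ^ (-κ1) + η0) := ⟨_, rfl⟩
    have hNκ1 : 0 < N ^ (-κ1) := Real.rpow_pos_of_pos hNpos _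
    have hθpos : 0 < θ := by rw [hθ]; positivity
    have hNκκ1 : N ^ (-κ1) ≤ N ^ (-κ) :=
      Real.rpow_le_rpow_of_exponent_le hN (by linarith)
    rcases lt_or_ge 1 θ with hθ1 | hθ1
    · refine htriv.trans ?_
      calc 4 * N ≤ 4 * N * θ := by
            refine le_mul_of_one_le_right (by positivity) hθ1.le
        _ = 4 * K1 * N * (N ^ (-κ1) + η0) := by rw [hθ]; ring
        _ ≤ 4 * K1 * N * (Λ ^ (-κ) + N ^ (-κ) + η0 ^ κ) := by
          refine mul_le_mul_of_nonneg_left (by linarith) (by positivity)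
        _ ≤ 10 * K1 * N * (Λ ^ (-κ) + N ^ (-κ) + η0 ^ κ) := by
          refine mul_le_mul_of_nonneg_right ?_ (by positivity)
          refine mul_le_mul_of_nonneg_right (by linarith) hNpos.le
    obtain ⟨H, J, d, hH0, hHN, hH8, hJ1, hd1, hJd, hJθ', hprod⟩ :=
      params r N Λ hr hN hΛpos hΛN hcase
    have hN16 : N ^ (-(1 / (16 * (r : ℝ)))) ≤ N ^ (-κ1) :=
      Real.rpow_le_rpow_of_exponent_le hN (by linarith)
    have hJθ : 8 / (J : ℝ) ≤ 16 * θ := by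
      refine hJθ'.trans ?_
      have h1 : N ^ (-κ1) ≤ K1 * (N ^ (-κ1) + η0) := by
        have h2 : N ^ (-κ1) + η0 ≤ K1 * (N ^ (-κ1) + η0) :=
          le_mul_of_one_le_left (by positivity) (by linarith)
        linarith
      rw [hθ]
      linarith
    have hfin := differencing (ψ 0) N θ J d r hN hθpos hθ1 hJ1 (hJd.trans hHN) hJθ (by
      intro hs hlen hh x y hx hxy hy
      have hhpos : ∀ h ∈ hs, 1 ≤ h := fun h hm => hd1.trans (hh h hm).1
      have hPle : (hs.prod : ℝ) ≤ H ^ r := by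
        have h1 := list_prod_le hs (J * d) (fun a ha => (hh a ha).2)
        rw [hlen] at h1
        have h2 : (hs.prod : ℝ) ≤ ((J * d : ℕ) : ℝ) ^ r := by exact_mod_cast h1
        refine h2.trans (pow_le_pow_left₀ (by positivity) ?_ _)
        push_cast
        exact hJd
      have hPge : (d : ℝ) ^ r ≤ (hs.prod : ℝ) := by
        have h1 := le_list_prod hs d (fun a ha => (hh a ha).1)
        rw [hlen] at h1
        exact_mod_cast h1
      have hsum : (hs.sum : ℝ) ≤ r * H := by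
        have h1 := list_sum_le hs (J * d) (fun a ha => (hh a ha).2)
        rw [hlen] at h1
        have h2 : (hs.sum : ℝ) ≤ (r : ℝ) * (J * d) := by exact_mod_cast h1
        refine h2.trans ?_
        gcongr
      obtain ⟨hP1, hP2⟩ := hprod (hs.prod : ℝ) hPge hPle
      have hb := base k r c C K0 hc hr hslow N Λ η0 ψ hN hΛpos hη0 hOF H hH0 hs hlen hhpos hsum
        hP1 x y hx hxy hy
      refine hb.trans ?_
      rw [← hκ0, hθ, hK1]
      exact Core.fast_num K0 N _ η0 κ0 κ1 H r hK0 hN hη0 hr hκ0le hκ1pos hκ1a hκ1b hP2 hH8)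
      r [] (by simp) (by simp) x y hx hxy (by simpa using hy)
    rw [← hp] at hfin
    have hfin' : ‖∑ m ∈ Finset.Ioc x y, ei (ψ 0 m)‖ ≤ 10 * N * θ ^ p := hfin
    refine hfin'.trans ?_
    have hθp : θ ^ p ≤ K1 * (N ^ (-κ) + η0 ^ κ) := by
      rw [hθ, Real.mul_rpow (by linarith) (by positivity)]
      have h1 : K1 ^ p ≤ K1 := by
        calc K1 ^ p ≤ K1 ^ (1 : ℝ) := Real.rpow_le_rpow_of_exponent_le (by linarith) hple
          _ = K1 := Real.rpow_one _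
      have h2 : (N ^ (-κ1) + η0) ^ p ≤ N ^ (-κ) + η0 ^ κ := by
        refine (Real.rpow_add_le_add_rpow hNκ1.le hη0.le hppos.le hple).trans ?_
        have h3 : (N ^ (-κ1)) ^ p = N ^ (-κ) := by
          rw [← Real.rpow_mul hNpos.le]
          congr 1
          rw [hκ]; ring
        rw [h3]
        have h4 : η0 ^ p ≤ η0 ^ κ := Real.rpow_le_rpow_of_exponent_ge hη0 hη1 hκlep
        linarith
      have h5 : 0 ≤ (N ^ (-κ1) + η0) ^ p := Real.rpow_nonneg (by positivity) _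
      exact mul_le_mul h1 h2 h5 (by linarith)
    calc 10 * N * θ ^ p ≤ 10 * N * (K1 * (N ^ (-κ) + η0 ^ κ)) := by gcongr
      _ = 10 * K1 * N * (N ^ (-κ) + η0 ^ κ) := by ring
      _ ≤ 10 * K1 * N * (Λ ^ (-κ) + N ^ (-κ) + η0 ^ κ) := by
        refine mul_le_mul_of_nonneg_left (by linarith) (by positivity)

end Pool.Agent.Ell
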