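import Pool.Agent.Ell.Targets

set_option autoImplicit false

/-! E5: exponential sums (van der Corput differencing and the slow case). -/

namespace Pool.Agent.Ell.Core

open Finset
open scoped BigOperators ComplexConjugate

/-! ### Elementary facts on `ei` -/

lemma norm_ei (x : ℝ) : ‖ei x‖ = 1 := by
  unfold ei
  exact Complex.norm_exp_ofReal_mul_I x

lemma ei_add (x y : ℝ) : ei (x + y) = ei x * ei y := by
  unfold ei
  rw [← Complex.exp_add]
  congr 1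
  push_cast
  ring

lemma conj_ei (x : ℝ) : conj (ei x) = ei (-x) := by
  unfold ei
  rw [← Complex.exp_conj]
  congr 1
  simp

lemma norm_thetaI (θ : ℝ) : ‖(θ : ℂ) * Complex.I‖ = |θ| := by
  rw [norm_mul, Complex.norm_I, mul_one, Complex.norm_real]
  rfl

lemma ei_sub_one_sub (θ : ℝ) : ‖ei θ - 1 - θ * Complex.I‖ ≤ 2 * θ ^ 2 := by
  rcases le_or_gt |θ| 1 with h | h
  · have h1 := Complex.norm_exp_sub_one_sub_id_le (x := (θ : ℂ) * Complex.I) (by
      rw [norm_thetaI]; exact h)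
    rw [norm_thetaI, sq_abs] at h1
    have h2 : ‖ei θ - 1 - θ * Complex.I‖ ≤ θ ^ 2 := h1
    nlinarith [sq_nonneg θ]
  · have h1 : ‖ei θ - 1‖ ≤ |θ| := by
      unfold ei
      have := Real.norm_exp_I_mul_ofReal_sub_one_le (x := θ)
      rw [mul_comm] at this
      simpa using this
    have h2 : ‖ei θ - 1 - θ * Complex.I‖ ≤ ‖ei θ - 1‖ + ‖(θ : ℂ) * Complex.I‖ := norm_sub_le _ _
    rw [norm_thetaI] at h2
    have : θ ^ 2 = |θ| ^ 2 := (sq_abs θ).symm
    rw [this]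
    nlinarith

/-! ### A block on which the derivative is not small -/

lemma block (g0 g1 : ℝ → ℝ) (lam B1 B2 : ℝ) (hlam : 0 < lam) (hB2 : 0 ≤ B2)
    (s : ℕ) : ∀ n : ℕ,
    (∀ m : ℕ, s ≤ m → m ≤ s + n → lam ≤ |g1 m|) →
    (∀ m : ℕ, s ≤ m → m < s + n → |g0 (m + 1) - g0 m| ≤ B1 ∧
      |g0 (m + 1) - g0 m - g1 m| ≤ B2 ∧ |g1 (m + 1) - g1 m| ≤ B2) →
    ‖∑ m ∈ Finset.Ico s (s + n), ei (g0 m)‖ ≤
      2 / lam + n * (B2 / lam ^ 2 + (2 * B1 ^ 2 + B2) / lam) := by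
  intro n h1 h2
  -- the main identity
  have key : ∀ n : ℕ,
      (∀ m : ℕ, s ≤ m → m ≤ s + n → lam ≤ |g1 m|) →
      (∀ m : ℕ, s ≤ m → m < s + n → |g0 (m + 1) - g0 m| ≤ B1 ∧
        |g0 (m + 1) - g0 m - g1 m| ≤ B2 ∧ |g1 (m + 1) - g1 m| ≤ B2) →
      ‖(∑ m ∈ Finset.Ico s (s + n), Complex.I * ei (g0 m)) -
        (ei (g0 ((s + n : ℕ) : ℝ)) / (g1 ((s + n : ℕ) : ℝ) : ℂ) - ei (g0 s) / (g1 s : ℂ))‖ ≤
        n * (B2 / lam ^ 2 + (2 * B1 ^ 2 + B2) / lam) := by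
    intro n
    induction n with
    | zero => intro _ _; simp
    | succ n ih =>
      intro h1 h2
      have ih' := ih (fun m a b => h1 m a (by omega)) (fun m a b => h2 m a (by omega))
      rw [show s + (n + 1) = (s + n) + 1 by omega, Finset.sum_Ico_succ_top (by omega)]
      obtain ⟨hb1, hb2, hb3⟩ := h2 (s + n) (by omega) (by omega)
      have hl1 := h1 (s + n) (by omega) (by omega)
      have hl2 := h1 (s + n + 1) (by omega) (by omega)
      push_cast at hb1 hb2 hb3 hl1 hl2 ⊢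
      push_cast at ih'
      set u : ℝ := (s : ℝ) + n with hu
      set E : ℂ := ei (g0 u) with hE
      set E' : ℂ := ei (g0 (u + 1)) with hE'
      set θ : ℝ := g0 (u + 1) - g0 u with hθ
      have hEE' : E' = E * ei θ := by
        rw [hE, hE', ← ei_add, hθ]; congr 1; ring
      have hg1 : g1 u ≠ 0 := by
        intro h0; rw [h0, abs_zero] at hl1; linarith
      have hg2 : g1 (u + 1) ≠ 0 := by
        intro h0; rw [h0, abs_zero] at hl2; linarith
      have hg1c : (g1 u : ℂ) ≠ 0 := by exact_mod_cast hg1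
      have hg2c : (g1 (u + 1) : ℂ) ≠ 0 := by exact_mod_cast hg2
      -- the local error
      have hid : Complex.I * E - (E' / (g1 (u + 1) : ℂ) - E / (g1 u : ℂ)) =
          -(E * ((ei θ - 1 - θ * Complex.I) + (θ - g1 u : ℂ) * Complex.I)) / (g1 u : ℂ) -
            E' * ((g1 u : ℂ) - (g1 (u + 1) : ℂ)) / ((g1 u : ℂ) * (g1 (u + 1) : ℂ)) := by
        rw [hEE']
        field_simp
        ring
      have hE1 : ‖E‖ = 1 := norm_ei _
      have hE1' : ‖E'‖ = 1 := norm_ei _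
      have hn1 : ‖(ei θ - 1 - θ * Complex.I) + (θ - g1 u : ℂ) * Complex.I‖ ≤ 2 * B1 ^ 2 + B2 := by
        refine (norm_add_le _ _).trans ?_
        have e1 := ei_sub_one_sub θ
        have e2 : ‖(θ - g1 u : ℂ) * Complex.I‖ ≤ B2 := by
          have := norm_thetaI (θ - g1 u)
          push_cast at this
          rw [this]
          exact hb2
        have e3 : θ ^ 2 ≤ B1 ^ 2 := by
          rw [← sq_abs θ]
          exact pow_le_pow_left₀ (abs_nonneg _) hb1 2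
        linarith
      have hloc : ‖Complex.I * E - (E' / (g1 (u + 1) : ℂ) - E / (g1 u : ℂ))‖ ≤
          B2 / lam ^ 2 + (2 * B1 ^ 2 + B2) / lam := by
        rw [hid]
        refine (norm_sub_le _ _).trans ?_
        have f1 : ‖-(E * ((ei θ - 1 - θ * Complex.I) + (θ - g1 u : ℂ) * Complex.I)) / (g1 u : ℂ)‖ ≤
            (2 * B1 ^ 2 + B2) / lam := by
          rw [norm_div, norm_neg, norm_mul, hE1, one_mul, Complex.norm_real, Real.norm_eq_abs]
          gcongr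
        have f2 : ‖E' * ((g1 u : ℂ) - (g1 (u + 1) : ℂ)) / ((g1 u : ℂ) * (g1 (u + 1) : ℂ))‖ ≤
            B2 / lam ^ 2 := by
          rw [norm_div, norm_mul, norm_mul, hE1', one_mul, Complex.norm_real, Complex.norm_real,
            Real.norm_eq_abs, Real.norm_eq_abs, pow_two]
          have : ‖(g1 u : ℂ) - (g1 (u + 1) : ℂ)‖ ≤ B2 := by
            rw [← Complex.ofReal_sub, Complex.norm_real, Real.norm_eq_abs, abs_sub_comm]
            exact hb3
          gcongr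
        linarith
      have hsplit : (∑ m ∈ Finset.Ico s (s + n), Complex.I * ei (g0 m)) + Complex.I * E -
          (E' / (g1 (u + 1) : ℂ) - ei (g0 s) / (g1 s : ℂ)) =
          ((∑ m ∈ Finset.Ico s (s + n), Complex.I * ei (g0 m)) -
            (E / (g1 u : ℂ) - ei (g0 s) / (g1 s : ℂ))) +
          (Complex.I * E - (E' / (g1 (u + 1) : ℂ) - E / (g1 u : ℂ))) := by ring
      have hgoal : (∑ m ∈ Finset.Ico s (s + n), Complex.I * ei (g0 m)) + Complex.I * E -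
          (E' / (g1 (u + 1) : ℂ) - ei (g0 s) / (g1 s : ℂ)) =
          (∑ m ∈ Finset.Ico s (s + n), Complex.I * ei (g0 m)) + Complex.I * E -
          (E' / (g1 (u + 1) : ℂ) - ei (g0 s) / (g1 s : ℂ)) := rfl
      have hfin : ‖(∑ m ∈ Finset.Ico s (s + n), Complex.I * ei (g0 m)) + Complex.I * E -
          (E' / (g1 (u + 1) : ℂ) - ei (g0 s) / (g1 s : ℂ))‖ ≤
          ((n : ℝ) + 1) * (B2 / lam ^ 2 + (2 * B1 ^ 2 + B2) / lam) := by
        rw [hsplit]
        refine (norm_add_le _ _).trans ?_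
        linarith
      exact hfin
  have hk := key n h1 h2
  have hs1 := h1 s le_rfl (by omega)
  have hs2 := h1 (s + n) (by omega) le_rfl
  have hI : ‖∑ m ∈ Finset.Ico s (s + n), ei (g0 m)‖ =
      ‖∑ m ∈ Finset.Ico s (s + n), Complex.I * ei (g0 m)‖ := by
    rw [← Finset.mul_sum, norm_mul, Complex.norm_I, one_mul]
  rw [hI]
  have hA : ‖ei (g0 ((s + n : ℕ) : ℝ)) / (g1 ((s + n : ℕ) : ℝ) : ℂ) - ei (g0 s) / (g1 s : ℂ)‖ ≤
      2 / lam := by
    refine (norm_sub_le _ _).trans ?_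
    rw [norm_div, norm_div, norm_ei, norm_ei, Complex.norm_real, Complex.norm_real,
      Real.norm_eq_abs, Real.norm_eq_abs]
    have e1 : 1 / |g1 ((s + n : ℕ) : ℝ)| ≤ 1 / lam := by gcongr
    have e2 : 1 / |g1 s| ≤ 1 / lam := by gcongr
    have e3 : 2 / lam = 1 / lam + 1 / lam := by ring
    linarith
  have := norm_sub_norm_le (∑ m ∈ Finset.Ico s (s + n), Complex.I * ei (g0 m))
    (ei (g0 ((s + n : ℕ) : ℝ)) / (g1 ((s + n : ℕ) : ℝ) : ℂ) - ei (g0 s) / (g1 s : ℂ))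
  linarith

/-! ### Covering the bad points -/

lemma trivial_bound (E : ℕ → ℂ) (hE : ∀ m, ‖E m‖ ≤ 1) (S : Finset ℕ) :
    ‖∑ m ∈ S, E m‖ ≤ S.card := by
  refine (norm_sum_le _ _).trans ?_
  calc ∑ m ∈ S, ‖E m‖ ≤ ∑ _m ∈ S, (1 : ℝ) := Finset.sum_le_sum fun m _ => hE m
    _ = S.card := by simp

lemma cover (E : ℕ → ℂ) (hE : ∀ m, ‖E m‖ ≤ 1) (bad : ℕ → Prop) (G : ℕ) (hG : 1 ≤ G) (W τ : ℝ)
    (hW : 0 ≤ W) (hτ : 0 ≤ τ) : ∀ j x y : ℕ,
    (¬ ∃ v : Fin j → ℕ, (∀ i, x < v i ∧ v i ≤ y ∧ bad (v i)) ∧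
      ∀ i i', i < i' → v i + G ≤ v i') →
    (∀ s n : ℕ, x < s → s + n ≤ y → (∀ m, s ≤ m → m ≤ s + n → ¬ bad m) →
      ‖∑ m ∈ Finset.Ico s (s + n), E m‖ ≤ W + n * τ) →
    x ≤ y →
    ‖∑ m ∈ Finset.Ioc x y, E m‖ ≤ j * (W + G + 1) + (y - x) * τ := by
  classical
  -- a block without bad points
  have hnobad : ∀ x y : ℕ, (∀ s n : ℕ, x < s → s + n ≤ y → (∀ m, s ≤ m → m ≤ s + n → ¬ bad m) →
      ‖∑ m ∈ Finset.Ico s (s + n), E m‖ ≤ W + n * τ) → x ≤ y → (∀ m, x < m → m ≤ y → ¬ bad m) →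
      ‖∑ m ∈ Finset.Ioc x y, E m‖ ≤ (W + 1) + (y - x) * τ := by
    intro x y hblk hxy hnb
    rcases Nat.eq_or_lt_of_le hxy with h | h
    · subst h; simp; linarith
    · obtain ⟨n, hn⟩ : ∃ n, y = x + 1 + n := ⟨y - (x + 1), by omega⟩
      have h1 := hblk (x + 1) n (by omega) (by omega) (fun m a b => hnb m (by omega) (by omega))
      have h2 : Finset.Ioc x y = insert y (Finset.Ico (x + 1) (x + 1 + n)) := by
        ext m
        simp only [Finset.mem_Ioc, Finset.mem_insert, Finset.mem_Ico]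
        omega
      rw [h2, Finset.sum_insert (by simp; omega)]
      refine (norm_add_le _ _).trans ?_
      have h3 := hE y
      have h4 : ((y : ℝ) - x) = n + 1 := by rw [hn]; push_cast; ring
      rw [h4]
      nlinarith
  intro j
  induction j with
  | zero =>
    intro x y hno _ _
    exact absurd ⟨Fin.elim0, fun i => i.elim0, fun i => i.elim0⟩ hno
  | succ j ih =>
    intro x y hno hblk hxy
    by_cases hall : ∀ m, x < m → m ≤ y → ¬ bad m
    · refine (hnobad x y hblk hxy hall).trans ?_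
      push_cast
      have : 0 ≤ (j : ℝ) * (W + G + 1) := by positivity
      have hG0 : (0 : ℝ) ≤ G := by positivity
      nlinarith
    · -- the first bad point
      have hex : ∃ m, x < m ∧ m ≤ y ∧ bad m := by
        by_contra hcon
        exact hall fun m h1 h2 h3 => hcon ⟨m, h1, h2, h3⟩
      obtain ⟨hm1, hm2, hm3⟩ := Nat.find_spec hex
      have hmin : ∀ m, x < m → m < Nat.find hex → ¬ bad m := by
        intro m h1 h2 h3
        exact Nat.find_min hex h2 ⟨h1, by omega, h3⟩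
      set m1 := Nat.find hex with hm1def
      -- three pieces
      set e := min y (m1 + G - 1) with he
      have he1 : m1 - 1 ≤ e := by omega
      have he2 : e ≤ y := by omega
      have hsplit : ∑ m ∈ Finset.Ioc x y, E m = ∑ m ∈ Finset.Ioc x (m1 - 1), E m +
          ∑ m ∈ Finset.Ioc (m1 - 1) e, E m + ∑ m ∈ Finset.Ioc e y, E m := by
        rw [Finset.sum_Ioc_consecutive _ (by omega) he1, Finset.sum_Ioc_consecutive _ (by omega) he2]
      have hp1 : ‖∑ m ∈ Finset.Ioc x (m1 - 1), E m‖ ≤ (W + 1) + (((m1 - 1 : ℕ) : ℝ) - x) * τ := by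
        refine hnobad x (m1 - 1) (fun s n a b c => hblk s n a (by omega) c) (by omega) ?_
        intro m a b
        exact hmin m a (by omega)
      have hp2 : ‖∑ m ∈ Finset.Ioc (m1 - 1) e, E m‖ ≤ G := by
        refine (trivial_bound E hE _).trans ?_
        rw [Nat.card_Ioc]
        exact_mod_cast (by omega : e - (m1 - 1) ≤ G)
      have hp3 : ‖∑ m ∈ Finset.Ioc e y, E m‖ ≤ j * (W + G + 1) + ((y : ℝ) - e) * τ := by
        refine ih e y ?_ (fun s n a b c => hblk s n (by omega) b c) he2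
        rintro ⟨v, hv1, hv2⟩
        apply hno
        refine ⟨Fin.cons m1 v, ?_, ?_⟩
        · intro i
          refine Fin.cases ?_ (fun i => ?_) i
          · simpa using ⟨hm1, hm2, hm3⟩
          · have := hv1 i
            simp only [Fin.cons_succ]
            exact ⟨by omega, this.2.1, this.2.2⟩
        · intro i i'
          refine Fin.cases ?_ (fun i => ?_) i
          · refine Fin.cases ?_ (fun i' => ?_) i'
            · intro h; exact absurd h (lt_irrefl _)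
            · intro _
              have := (hv1 i').1
              have h4 := (hv1 i').2.1
              simp only [Fin.cons_zero, Fin.cons_succ]
              omega
          · refine Fin.cases ?_ (fun i' => ?_) i'
            · intro h; exact absurd h (by simp)
            · intro h
              simp only [Fin.cons_succ]
              exact hv2 i i' (by simpa using h)
      rw [hsplit]
      refine (norm_add_le _ _).trans ?_
      refine (add_le_add (norm_add_le _ _) le_rfl).trans ?_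
      have h5 : (((m1 - 1 : ℕ) : ℝ) - x) + ((y : ℝ) - e) ≤ y - x := by
        have : ((m1 - 1 : ℕ) : ℝ) ≤ (e : ℝ) := by exact_mod_cast he1
        linarith
      have h6 : (((m1 - 1 : ℕ) : ℝ) - x) * τ + ((y : ℝ) - e) * τ ≤ ((y : ℝ) - x) * τ := by
        rw [← add_mul]
        exact mul_le_mul_of_nonneg_right h5 hτ
      push_cast
      linarith

/-! ### The slow case -/

lemma mvt_bound (g g' : ℝ → ℝ) (a b B : ℝ) (hab : a ≤ b)
    (h : ∀ u, a ≤ u → u ≤ b → HasDerivAt g (g' u) u) (hB : ∀ u, a ≤ u → u ≤ b → |g' u| ≤ B) :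
    |g b - g a| ≤ B * (b - a) := by
  have := (convex_Icc a b).norm_image_sub_le_of_norm_hasDerivWithin_le (f := g) (f' := g')
    (C := B) (x := a) (y := b)
    (fun u hu => (h u hu.1 hu.2).hasDerivWithinAt) (fun u hu => hB u hu.1 hu.2)
    ⟨le_rfl, hab⟩ ⟨hab, le_rfl⟩
  rw [Real.norm_eq_abs, Real.norm_eq_abs, abs_of_nonneg (by linarith : (0 : ℝ) ≤ b - a)] at this
  exact this

lemma block_hyp (g0 g1 g2 : ℝ → ℝ) (B1 B2 : ℝ) (m : ℝ)
    (h : ∀ u, m ≤ u → u ≤ m + 1 → HasDerivAt g0 (g1 u) u ∧ HasDerivAt g1 (g2 u) u ∧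
      |g1 u| ≤ B1 ∧ |g2 u| ≤ B2) (hB2 : 0 ≤ B2) :
    |g0 (m + 1) - g0 m| ≤ B1 ∧ |g0 (m + 1) - g0 m - g1 m| ≤ B2 ∧ |g1 (m + 1) - g1 m| ≤ B2 := by
  refine ⟨?_, ?_, ?_⟩
  · have := mvt_bound g0 g1 m (m + 1) B1 (by linarith) (fun u a b => (h u a b).1)
      (fun u a b => (h u a b).2.2.1)
    simpa using this
  · obtain ⟨ξ, hξ, he⟩ := exists_hasDerivAt_eq_slope g0 g1 (by linarith : m < m + 1)
      (fun u hu => (h u hu.1 hu.2).1.continuousAt.continuousWithinAt)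
      (fun u hu => (h u hu.1.le hu.2.le).1)
    have e1 : g0 (m + 1) - g0 m = g1 ξ := by
      rw [he]; simp
    rw [e1]
    have := mvt_bound g1 g2 m ξ B2 hξ.1.le (fun u a b => (h u a (b.trans hξ.2.le)).2.1)
      (fun u a b => (h u a (b.trans hξ.2.le)).2.2.2)
    refine this.trans ?_
    have : ξ - m ≤ 1 := by linarith [hξ.2]
    nlinarith
  · have := mvt_bound g1 g2 m (m + 1) B2 (by linarith) (fun u a b => (h u a b).2.1)
      (fun u a b => (h u a b).2.2.2)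
    simpa using this

lemma slow (k : ℕ) (hk : 1 ≤ k) (c C : ℝ) (hc : 0 < c) (hC : 0 < C) :
    ∃ K0 : ℝ, 4 ≤ K0 ∧ ∀ (N Λ η0 : ℝ) (g0 g1 g2 : ℝ → ℝ) (x y : ℕ), 1 ≤ N → 0 < Λ →
      Λ ≤ N ^ (1 / 4 : ℝ) → 0 < η0 → x ≤ y → (y : ℝ) - x ≤ 4 * N →
      (∀ u : ℝ, x ≤ u → u ≤ y → HasDerivAt g0 (g1 u) u ∧ HasDerivAt g1 (g2 u) u ∧
        |g1 u| ≤ C * Λ / N ∧ |g2 u| ≤ C * Λ / N ^ 2) →
      (∀ η : ℝ, η0 ≤ η → η ≤ 1 → ∀ v : Fin k → ℝ, (∀ i, x ≤ v i ∧ v i ≤ y) →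
        (∀ i j, i ≠ j → η * N ≤ |v i - v j|) → ∃ i, c * η ^ (k ^ 2) * Λ / N ≤ |g1 (v i)|) →
      ‖∑ m ∈ Finset.Ioc x y, ei (g0 m)‖ ≤
        K0 * N * (Λ ^ (-(1 / (4 * (k : ℝ) ^ 2))) + η0 + N ^ (-(1 / 2) : ℝ)) := by
  set K0 : ℝ := 4 + k * (2 / c + 3) + 4 * (C / c ^ 2) + 4 * ((2 * C ^ 2 + C) / c) with hK0
  have hkpos : (1 : ℝ) ≤ k := by exact_mod_cast hk
  have hk4 : 4 ≤ K0 := by
    rw [hK0]
    have : 0 ≤ k * (2 / c + 3) := by positivity
    have : 0 ≤ 4 * (C / c ^ 2) := by positivity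
    have : 0 ≤ 4 * ((2 * C ^ 2 + C) / c) := by positivity
    linarith
  refine ⟨K0, hk4, ?_⟩
  intro N Λ η0 g0 g1 g2 x y hN hΛ hΛN hη0 hxy hlen hder hlow
  set κ : ℝ := 1 / (4 * (k : ℝ) ^ 2) with hκ
  have hκpos : 0 < κ := by positivity
  have hκle : κ ≤ 1 / 4 := by
    rw [hκ]
    have : (1 : ℝ) ≤ (k : ℝ) ^ 2 := one_le_pow₀ hkpos
    rw [div_le_div_iff₀ (by positivity) (by norm_num)]
    linarith
  have hNpos : 0 < N := by linarith
  -- the trivial bound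
  have htriv : ‖∑ m ∈ Finset.Ioc x y, ei (g0 m)‖ ≤ 4 * N := by
    refine (trivial_bound (fun m => ei (g0 m)) (fun m => (norm_ei _).le) _).trans ?_
    rw [Nat.card_Ioc, Nat.cast_sub hxy]
    exact hlen
  have hNh : 0 < N ^ (-(1 / 2) : ℝ) := Real.rpow_pos_of_pos hNpos _
  have hΛκ : 0 < Λ ^ (-κ) := Real.rpow_pos_of_pos hΛ _
  rcases lt_or_ge Λ 1 with hΛ1 | hΛ1
  · have h1 : 1 ≤ Λ ^ (-κ) := Real.one_le_rpow_of_pos_of_le_one_of_nonpos hΛ hΛ1.le (by linarith)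
    have h2 : 1 ≤ Λ ^ (-κ) + η0 + N ^ (-(1 / 2) : ℝ) := by linarith
    have h3 : 4 * N ≤ K0 * N := by nlinarith
    have h4 : 0 < K0 * N := by positivity
    nlinarith
  rcases lt_or_ge 1 η0 with hη1 | hη1
  · have h2 : 1 ≤ Λ ^ (-κ) + η0 + N ^ (-(1 / 2) : ℝ) := by linarith
    have h3 : 4 * N ≤ K0 * N := by nlinarith
    have h4 : 0 < K0 * N := by positivity
    nlinarith
  -- main case
  set η : ℝ := max η0 (Λ ^ (-κ)) with hη
  have hΛκ1 : Λ ^ (-κ) ≤ 1 := Real.rpow_le_one_of_one_le_of_nonpos hΛ1 (by linarith)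
  have hηpos : 0 < η := lt_max_of_lt_left hη0
  have hηle1 : η ≤ 1 := max_le hη1 hΛκ1
  have hη0le : η0 ≤ η := le_max_left _ _
  have hηsum : η ≤ η0 + Λ ^ (-κ) := max_le (by linarith) (by linarith)
  set l : ℝ := Λ ^ (1 / 4 : ℝ) with hl
  have hl1 : 1 ≤ l := Real.one_le_rpow hΛ1 (by norm_num)
  have hlpos : 0 < l := by linarith
  have hl4 : l ^ 4 = Λ := by
    rw [hl, ← Real.rpow_natCast, ← Real.rpow_mul hΛ.le]
    norm_num
  have hlinv : l⁻¹ ≤ Λ ^ (-κ) := by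
    rw [hl, ← Real.rpow_neg hΛ.le]
    exact Real.rpow_le_rpow_of_exponent_le hΛ1 (by linarith)
  have hηk : l⁻¹ ≤ η ^ (k ^ 2) := by
    have h1 : (Λ ^ (-κ)) ^ (k ^ 2) ≤ η ^ (k ^ 2) :=
      pow_le_pow_left₀ hΛκ.le (le_max_right _ _) _
    refine le_trans (le_of_eq ?_) h1
    rw [← Real.rpow_natCast (Λ ^ (-κ)), ← Real.rpow_mul hΛ.le, hl, ← Real.rpow_neg hΛ.le]
    congr 1
    rw [hκ]
    push_cast
    field_simp
  set lam : ℝ := c * η ^ (k ^ 2) * Λ / N with hlam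
  have hlampos : 0 < lam := by positivity
  have hlamge : c * l ^ 3 / N ≤ lam := by
    rw [hlam]
    apply div_le_div_of_nonneg_right _ hNpos.le
    have : c * l⁻¹ * Λ ≤ c * η ^ (k ^ 2) * Λ := by gcongr
    refine le_trans (le_of_eq ?_) this
    rw [← hl4]
    field_simp
  set G : ℕ := ⌈η * N⌉₊ with hG
  have hG1 : 1 ≤ G := Nat.one_le_iff_ne_zero.2 (by
    rw [hG]; exact (Nat.ceil_pos.2 (by positivity)).ne')
  have hGle : (G : ℝ) ≤ η * N + 1 := (Nat.ceil_lt_add_one (by positivity)).le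
  have hGge : η * N ≤ G := Nat.le_ceil _
  set B1 : ℝ := C * Λ / N with hB1
  set B2 : ℝ := C * Λ / N ^ 2 with hB2
  have hB1pos : 0 < B1 := by positivity
  have hB2pos : 0 < B2 := by positivity
  set τ : ℝ := B2 / lam ^ 2 + (2 * B1 ^ 2 + B2) / lam with hτ
  have hτpos : 0 ≤ τ := by positivity
  have hcov := cover (fun m => ei (g0 m)) (fun m => (norm_ei _).le) (fun m => |g1 m| < lam) G hG1
    (2 / lam) τ (by positivity) hτpos k x y (by
      rintro ⟨v, hv1, hv2⟩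
      obtain ⟨i, hi⟩ := hlow η hη0le hηle1 (fun i => (v i : ℝ))
        (fun i => ⟨by exact_mod_cast (hv1 i).1.le, by exact_mod_cast (hv1 i).2.1⟩) (by
          intro i j hij
          rcases lt_or_gt_of_ne hij with h | h
          · have h1 : ((v i : ℝ)) + G ≤ v j := by exact_mod_cast hv2 i j h
            rw [abs_sub_comm]
            exact le_trans (by linarith) (le_abs_self _)
          · have h1 : ((v j : ℝ)) + G ≤ v i := by exact_mod_cast hv2 j i h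
            exact le_trans (by linarith) (le_abs_self _))
      exact absurd (hv1 i).2.2 (not_lt.2 hi)) (by
      intro s n hs hn hnb
      refine block g0 g1 lam B1 B2 hlampos hB2pos.le s n (fun m a b => not_lt.1 (hnb m a b)) ?_
      intro m a b
      refine block_hyp g0 g1 g2 B1 B2 m ?_ hB2pos.le
      intro u hu1 hu2
      refine hder u ?_ ?_
      · refine le_trans ?_ hu1
        exact_mod_cast (by omega : x ≤ m)
      · refine hu2.trans ?_
        exact_mod_cast (by omega : m + 1 ≤ y)) hxy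
  refine hcov.trans ?_
  -- numerical estimates
  have hl3 : 0 < c * l ^ 3 / N := by positivity
  have e1 : 2 / lam ≤ 2 / c * N * Λ ^ (-κ) := by
    calc 2 / lam ≤ 2 / (c * l ^ 3 / N) := by gcongr
      _ = 2 / c * N * (l⁻¹ * (l⁻¹) ^ 2) := by field_simp
      _ ≤ 2 / c * N * (l⁻¹ * 1) := by
        gcongr
        exact pow_le_one₀ (by positivity) (inv_le_one_of_one_le₀ hl1)
      _ ≤ 2 / c * N * Λ ^ (-κ) := by
        rw [mul_one]; gcongr
  have e2 : N * (B2 / lam ^ 2) ≤ C / c ^ 2 * N * Λ ^ (-κ) := by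
    calc N * (B2 / lam ^ 2) ≤ N * (B2 / (c * l ^ 3 / N) ^ 2) := by gcongr
      _ = C / c ^ 2 * N * (l⁻¹ * l⁻¹) := by
        rw [hB2, ← hl4]; field_simp
      _ ≤ C / c ^ 2 * N * (l⁻¹ * 1) := by
        gcongr
        exact inv_le_one_of_one_le₀ hl1
      _ ≤ C / c ^ 2 * N * Λ ^ (-κ) := by
        rw [mul_one]; gcongr
  have hl5 : l ^ 5 ≤ N ^ (1 / 2 : ℝ) := by
    have h1 : l ≤ N ^ (1 / 16 : ℝ) := by
      rw [hl]
      calc Λ ^ (1 / 4 : ℝ) ≤ (N ^ (1 / 4 : ℝ)) ^ (1 / 4 : ℝ) :=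
            Real.rpow_le_rpow hΛ.le hΛN (by norm_num)
        _ = N ^ (1 / 16 : ℝ) := by
          rw [← Real.rpow_mul hNpos.le]; norm_num
    calc l ^ 5 ≤ (N ^ (1 / 16 : ℝ)) ^ 5 := pow_le_pow_left₀ hlpos.le h1 5
      _ = N ^ (5 / 16 : ℝ) := by
        rw [← Real.rpow_natCast, ← Real.rpow_mul hNpos.le]; norm_num
      _ ≤ N ^ (1 / 2 : ℝ) := Real.rpow_le_rpow_of_exponent_le hN (by norm_num)
  have hNhalf : N ^ (1 / 2 : ℝ) = N * N ^ (-(1 / 2) : ℝ) := by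
    nth_rewrite 2 [← Real.rpow_one N]
    rw [← Real.rpow_add hNpos]; norm_num
  have e3 : N * ((2 * B1 ^ 2 + B2) / lam) ≤ (2 * C ^ 2 + C) / c * (N * N ^ (-(1 / 2) : ℝ)) := by
    calc N * ((2 * B1 ^ 2 + B2) / lam) ≤ N * ((2 * B1 ^ 2 + B2) / (c * l ^ 3 / N)) := by gcongr
      _ = (2 * C ^ 2 * l ^ 5 + C * l) / c := by
        rw [hB1, hB2, ← hl4]; field_simp
      _ ≤ (2 * C ^ 2 * l ^ 5 + C * l ^ 5) / c := by
        gcongr
        calc l = l ^ 1 := (pow_one l).symm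
          _ ≤ l ^ 5 := pow_le_pow_right₀ hl1 (by norm_num)
      _ = (2 * C ^ 2 + C) / c * l ^ 5 := by ring
      _ ≤ (2 * C ^ 2 + C) / c * (N * N ^ (-(1 / 2) : ℝ)) := by
        rw [← hNhalf]; gcongr
  have e4 : (1 : ℝ) ≤ N * N ^ (-(1 / 2) : ℝ) := by
    rw [← hNhalf]
    exact Real.one_le_rpow hN (by norm_num)
  have e5 : (G : ℝ) + 1 ≤ N * (η0 + Λ ^ (-κ)) + 2 * (N * N ^ (-(1 / 2) : ℝ)) := by
    have : η * N ≤ (η0 + Λ ^ (-κ)) * N := by gcongr
    linarith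
  have e6 : ((y : ℝ) - x) * τ ≤ 4 * (C / c ^ 2 * N * Λ ^ (-κ)) +
      4 * ((2 * C ^ 2 + C) / c * (N * N ^ (-(1 / 2) : ℝ))) := by
    calc ((y : ℝ) - x) * τ ≤ 4 * N * τ := by gcongr
      _ = 4 * (N * (B2 / lam ^ 2)) + 4 * (N * ((2 * B1 ^ 2 + B2) / lam)) := by rw [hτ]; ring
      _ ≤ _ := by linarith
  have e7 : (k : ℝ) * (2 / lam + G + 1) ≤ k * (2 / c * N * Λ ^ (-κ) + (N * (η0 + Λ ^ (-κ)) +
      2 * (N * N ^ (-(1 / 2) : ℝ)))) :=
    mul_le_mul_of_nonneg_left (by linarith) (by positivity)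
  have hfin : k * (2 / c * N * Λ ^ (-κ) + (N * (η0 + Λ ^ (-κ)) + 2 * (N * N ^ (-(1 / 2) : ℝ)))) +
      (4 * (C / c ^ 2 * N * Λ ^ (-κ)) + 4 * ((2 * C ^ 2 + C) / c * (N * N ^ (-(1 / 2) : ℝ)))) ≤
      K0 * N * (Λ ^ (-κ) + η0 + N ^ (-(1 / 2) : ℝ)) := by
    have hA : 0 ≤ N * Λ ^ (-κ) := by positivity
    have hB : 0 ≤ N * η0 := by positivity
    have hD : 0 ≤ N * N ^ (-(1 / 2) : ℝ) := by positivity
    have hx1 : 0 ≤ (k : ℝ) * (2 / c) := by positivity
    have hx2 : 0 ≤ C / c ^ 2 := by positivity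
    have hx3 : 0 ≤ (2 * C ^ 2 + C) / c := by positivity
    have hdiff : K0 * N * (Λ ^ (-κ) + η0 + N ^ (-(1 / 2) : ℝ)) -
      (k * (2 / c * N * Λ ^ (-κ) + (N * (η0 + Λ ^ (-κ)) + 2 * (N * N ^ (-(1 / 2) : ℝ)))) +
      (4 * (C / c ^ 2 * N * Λ ^ (-κ)) + 4 * ((2 * C ^ 2 + C) / c * (N * N ^ (-(1 / 2) : ℝ))))) =
      (4 + 2 * k + 4 * ((2 * C ^ 2 + C) / c)) * (N * Λ ^ (-κ)) +
      (4 + k * (2 / c) + 2 * k + 4 * (C / c ^ 2) + 4 * ((2 * C ^ 2 + C) / c)) * (N * η0) +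
      (4 + k * (2 / c) + k + 4 * (C / c ^ 2)) * (N * N ^ (-(1 / 2) : ℝ)) := by
      rw [hK0]; ring
    have : 0 ≤ K0 * N * (Λ ^ (-κ) + η0 + N ^ (-(1 / 2) : ℝ)) -
      (k * (2 / c * N * Λ ^ (-κ) + (N * (η0 + Λ ^ (-κ)) + 2 * (N * N ^ (-(1 / 2) : ℝ)))) +
      (4 * (C / c ^ 2 * N * Λ ^ (-κ)) + 4 * ((2 * C ^ 2 + C) / c * (N * N ^ (-(1 / 2) : ℝ))))) := by
      rw [hdiff]; positivity
    linarith
  linarith

end Pool.Agent.Ell.Core
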