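import Pool.Agent.Ell.CoreA

set_option autoImplicit false

/-! E5: exponential sums: van der Corput differencing, assembly. -/

namespace Pool.Agent.Ell.Core

open Finset
open scoped BigOperators ComplexConjugate

/-! ### The van der Corput inequality with sparse shifts -/

lemma shift_sum (F : ℕ → ℂ) (x y a A : ℕ) (ha : a ≤ A)
    (hF : ∀ n, ¬ (x < n ∧ n ≤ y) → F n = 0) :
    ∑ t ∈ Finset.Ioc x (y + A), F (t - a) = ∑ m ∈ Finset.Ioc x y, F m := by
  have h1 : ∑ t ∈ Finset.Ioc (x + a) (y + a), F (t - a) = ∑ m ∈ Finset.Ioc x y, F m := by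
    rw [← Finset.map_add_right_Ioc, Finset.sum_map]
    simp
  rw [← h1]
  symm
  refine Finset.sum_subset ?_ ?_
  · intro t ht
    simp only [Finset.mem_Ioc] at ht ⊢
    omega
  · intro t _ ht
    apply hF
    simp only [Finset.mem_Ioc, not_and, not_le] at ht
    intro h
    have := ht (by omega)
    omega

lemma vdc (z : ℕ → ℂ) (hz : ∀ m, ‖z m‖ ≤ 1) (x y J d : ℕ) (hJ : 1 ≤ J) (hxy : x ≤ y) (B : ℝ)
    (hB : ∀ j, 1 ≤ j → j < J →
      ‖∑ m ∈ Finset.Ioc x (y - j * d), z (m + j * d) * conj (z m)‖ ≤ B) (hB0 : 0 ≤ B) :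
    ‖∑ m ∈ Finset.Ioc x y, z m‖ ^ 2 ≤ (((y : ℝ) - x) + J * d) * (((y : ℝ) - x) / J + B) := by
  classical
  set L : ℝ := (y : ℝ) - x with hL
  have hL0 : 0 ≤ L := by
    have : (x : ℝ) ≤ y := by exact_mod_cast hxy
    rw [hL]; linarith
  have hJpos : (0 : ℝ) < J := by exact_mod_cast hJ
  set f : ℕ → ℂ := fun n => if x < n ∧ n ≤ y then z n else 0 with hf
  have hf0 : ∀ n, ¬ (x < n ∧ n ≤ y) → f n = 0 := fun n hn => if_neg hn
  have hf1 : ∀ n, ‖f n‖ ≤ 1 := by
    intro n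
    simp only [hf]
    split_ifs
    · exact hz n
    · simp
  have hsum : ∀ i < J, ∑ t ∈ Finset.Ioc x (y + J * d), f (t - i * d) =
      ∑ m ∈ Finset.Ioc x y, z m := by
    intro i hi
    rw [shift_sum f x y (i * d) (J * d) (Nat.mul_le_mul_right d hi.le) hf0]
    refine Finset.sum_congr rfl ?_
    intro m hm
    simp only [Finset.mem_Ioc] at hm
    simp [hf, hm.1, hm.2]
  -- correlations
  have hcorr_lt : ∀ i i', i < i' → i' < J →
      ‖∑ t ∈ Finset.Ioc x (y + J * d), f (t - i * d) * conj (f (t - i' * d))‖ ≤ B := by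
    intro i i' hii' hi'
    have h1 : ∀ t, f (t - i * d) * conj (f (t - i' * d)) =
        (fun m => f (m + (i' - i) * d) * conj (f m)) (t - i' * d) := by
      intro t
      have hmul : (i' - i) * d = i' * d - i * d := Nat.sub_mul _ _ _
      have hle : i * d ≤ i' * d := Nat.mul_le_mul_right d hii'.le
      rcases le_or_gt (i' * d) t with h | h
      · have : t - i' * d + (i' - i) * d = t - i * d := by omega
        simp only [this]
      · have h0 : t - i' * d = 0 := by omega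
        have hz0 : f 0 = 0 := hf0 0 (by omega)
        simp only [h0, hz0, map_zero, mul_zero]
    rw [Finset.sum_congr rfl (fun t _ => h1 t)]
    rw [shift_sum (fun m => f (m + (i' - i) * d) * conj (f m)) x y (i' * d) (J * d)
      (Nat.mul_le_mul_right d hi'.le) (fun n hn => by simp [hf0 n hn])]
    have h2 : ∑ m ∈ Finset.Ioc x y, f (m + (i' - i) * d) * conj (f m) =
        ∑ m ∈ Finset.Ioc x (y - (i' - i) * d), z (m + (i' - i) * d) * conj (z m) := by
      symm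
      have hsub : Finset.Ioc x (y - (i' - i) * d) ⊆ Finset.Ioc x y := by
        intro m hm
        simp only [Finset.mem_Ioc] at hm ⊢
        omega
      rw [← Finset.sum_subset hsub]
      · refine Finset.sum_congr rfl ?_
        intro m hm
        simp only [Finset.mem_Ioc] at hm
        have e1 : x < m + (i' - i) * d ∧ m + (i' - i) * d ≤ y := by omega
        have e2 : x < m ∧ m ≤ y := by omega
        simp only [hf, if_pos e1, if_pos e2]
      · intro m hm hm2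
        simp only [Finset.mem_Ioc] at hm hm2
        rw [hf0 (m + (i' - i) * d) (by omega), zero_mul]
    rw [h2]
    exact hB (i' - i) (by omega) (by omega)
  have hcorr : ∀ i < J, ∀ i' < J, i ≠ i' →
      ‖∑ t ∈ Finset.Ioc x (y + J * d), f (t - i * d) * conj (f (t - i' * d))‖ ≤ B := by
    intro i hi i' hi' hne
    rcases lt_or_gt_of_ne hne with h | h
    · exact hcorr_lt i i' h hi'
    · have := hcorr_lt i' i h hi
      rw [← Complex.norm_conj, map_sum] at this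
      refine le_trans (le_of_eq ?_) this
      congr 1
      refine Finset.sum_congr rfl ?_
      intro t _
      simp [mul_comm]
  have hdiag : ∀ i < J,
      ‖∑ t ∈ Finset.Ioc x (y + J * d), f (t - i * d) * conj (f (t - i * d))‖ ≤ L := by
    intro i hi
    rw [shift_sum (fun m => f m * conj (f m)) x y (i * d) (J * d)
      (Nat.mul_le_mul_right d hi.le) (fun n hn => by simp [hf0 n hn])]
    refine (trivial_bound (fun m => f m * conj (f m)) ?_ _).trans ?_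
    · intro m
      rw [norm_mul, Complex.norm_conj]
      have := hf1 m
      nlinarith [norm_nonneg (f m)]
    · rw [Nat.card_Ioc, Nat.cast_sub hxy]
  -- windows
  set W : ℕ → ℂ := fun t => ∑ i ∈ Finset.range J, f (t - i * d) with hW
  have hWsum : ∑ t ∈ Finset.Ioc x (y + J * d), W t = J * ∑ m ∈ Finset.Ioc x y, z m := by
    simp only [hW]
    rw [Finset.sum_comm]
    rw [Finset.sum_congr rfl (fun i hi => hsum i (Finset.mem_range.1 hi))]
    simp
  have hWsq : ∑ t ∈ Finset.Ioc x (y + J * d), ‖W t‖ ^ 2 ≤ J * (L + J * B) := by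
    have h1 : ((∑ t ∈ Finset.Ioc x (y + J * d), ‖W t‖ ^ 2 : ℝ) : ℂ) =
        ∑ i ∈ Finset.range J, ∑ i' ∈ Finset.range J,
          ∑ t ∈ Finset.Ioc x (y + J * d), f (t - i * d) * conj (f (t - i' * d)) := by
      push_cast
      have h2 : ∀ t, ((‖W t‖ : ℂ)) ^ 2 = ∑ i ∈ Finset.range J, ∑ i' ∈ Finset.range J,
          f (t - i * d) * conj (f (t - i' * d)) := by
        intro t
        rw [← Complex.mul_conj']
        simp only [hW, map_sum]
        rw [Finset.sum_mul_sum]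
      rw [Finset.sum_congr rfl (fun t _ => h2 t), Finset.sum_comm]
      refine Finset.sum_congr rfl ?_
      intro i _
      rw [Finset.sum_comm]
    have h3 : (∑ t ∈ Finset.Ioc x (y + J * d), ‖W t‖ ^ 2 : ℝ) =
        ‖((∑ t ∈ Finset.Ioc x (y + J * d), ‖W t‖ ^ 2 : ℝ) : ℂ)‖ := by
      rw [Complex.norm_real, Real.norm_eq_abs, abs_of_nonneg (by positivity)]
    rw [h3, h1]
    have h4 : ∀ i ∈ Finset.range J, ‖∑ i' ∈ Finset.range J,
        ∑ t ∈ Finset.Ioc x (y + J * d), f (t - i * d) * conj (f (t - i' * d))‖ ≤ L + J * B := by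
      intro i hi
      rw [Finset.mem_range] at hi
      rw [← Finset.add_sum_erase _ _ (Finset.mem_range.2 hi)]
      refine (norm_add_le _ _).trans (add_le_add (hdiag i hi) ?_)
      refine (norm_sum_le _ _).trans ?_
      have h5 : ∀ i' ∈ (Finset.range J).erase i,
          ‖∑ t ∈ Finset.Ioc x (y + J * d), f (t - i * d) * conj (f (t - i' * d))‖ ≤ B := by
        intro i' hi'
        rw [Finset.mem_erase, Finset.mem_range] at hi'
        exact hcorr i hi i' hi'.2 (Ne.symm hi'.1)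
      refine (Finset.sum_le_sum h5).trans ?_
      rw [Finset.sum_const, nsmul_eq_mul]
      refine mul_le_mul_of_nonneg_right ?_ hB0
      have : ((Finset.range J).erase i).card ≤ J := by
        refine (Finset.card_erase_le).trans ?_
        simp
      exact_mod_cast this
    refine (norm_sum_le _ _).trans ((Finset.sum_le_sum h4).trans ?_)
    rw [Finset.sum_const, nsmul_eq_mul, Finset.card_range]
  -- Cauchy-Schwarz
  have hcs : (∑ t ∈ Finset.Ioc x (y + J * d), ‖W t‖) ^ 2 ≤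
      (L + J * d) * ∑ t ∈ Finset.Ioc x (y + J * d), ‖W t‖ ^ 2 := by
    have := sq_sum_le_card_mul_sum_sq (s := Finset.Ioc x (y + J * d)) (f := fun t => ‖W t‖)
    refine this.trans (le_of_eq ?_)
    congr 1
    rw [Nat.card_Ioc, Nat.cast_sub (by omega), hL]
    push_cast
    ring
  have hn : (J : ℝ) * ‖∑ m ∈ Finset.Ioc x y, z m‖ ≤ ∑ t ∈ Finset.Ioc x (y + J * d), ‖W t‖ := by
    have h1 := norm_sum_le (Finset.Ioc x (y + J * d)) W
    rw [hWsum, norm_mul] at h1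
    simpa using h1
  have hfin : ((J : ℝ) * ‖∑ m ∈ Finset.Ioc x y, z m‖) ^ 2 ≤ (L + J * d) * (J * (L + J * B)) := by
    refine (pow_le_pow_left₀ (by positivity) hn 2).trans (hcs.trans ?_)
    refine mul_le_mul_of_nonneg_left hWsq (by positivity)
  rw [mul_pow] at hfin
  have hJ2 : (0 : ℝ) < (J : ℝ) ^ 2 := by positivity
  have e : (L + J * d) * (J * (L + J * B)) = (J : ℝ) ^ 2 * ((L + J * d) * (L / J + B)) := by
    field_simp
  rw [e] at hfin
  exact le_of_mul_le_mul_left hfin hJ2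

/-! ### Iterated differences -/

/-- iterated differences -/
def DL : List ℕ → (ℝ → ℝ) → ℝ → ℝ
  | [], g, u => g u
  | h :: hs, g, u => DL hs g (u + h) - DL hs g u

lemma DL_hasDerivAt (ψ : ℕ → ℝ → ℝ) (lo hi : ℝ)
    (hder : ∀ n u, lo ≤ u → u ≤ hi → HasDerivAt (ψ n) (ψ (n + 1) u) u) :
    ∀ (hs : List ℕ) (n : ℕ) (u : ℝ), lo ≤ u → u + hs.sum ≤ hi →
      HasDerivAt (DL hs (ψ n)) (DL hs (ψ (n + 1)) u) u := by
  intro hs
  induction hs with
  | nil =>
    intro n u h1 h2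
    have : HasDerivAt (ψ n) (ψ (n + 1) u) u := hder n u h1 (by simpa using h2)
    exact this
  | cons h hs ih =>
    intro n u h1 h2
    rw [List.sum_cons, Nat.cast_add] at h2
    have hh : (0 : ℝ) ≤ h := Nat.cast_nonneg _
    have a1 := ih n (u + h) (by linarith) (by linarith)
    have a2 := ih n u h1 (by linarith)
    exact (a1.comp_add_const u (h : ℝ)).sub a2

lemma DL_mvt (ψ : ℕ → ℝ → ℝ) (lo hi : ℝ)
    (hder : ∀ n u, lo ≤ u → u ≤ hi → HasDerivAt (ψ n) (ψ (n + 1) u) u) :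
    ∀ (hs : List ℕ), (∀ h ∈ hs, 1 ≤ h) → ∀ (n : ℕ) (u : ℝ), lo ≤ u → u + hs.sum ≤ hi →
      ∃ ξ : ℝ, u ≤ ξ ∧ ξ ≤ u + hs.sum ∧
        DL hs (ψ n) u = (hs.prod : ℝ) * ψ (n + hs.length) ξ := by
  intro hs
  induction hs with
  | nil =>
    intro _ n u h1 h2
    exact ⟨u, le_rfl, by simp, by simp [DL]⟩
  | cons h hs ih =>
    intro hpos n u h1 h2
    rw [List.sum_cons, Nat.cast_add] at h2 ⊢
    have hh : (1 : ℝ) ≤ h := by exact_mod_cast hpos h (by simp)
    have hpos' : ∀ h ∈ hs, 1 ≤ h := fun a ha => hpos a (by simp [ha])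
    have hder' : ∀ w, u ≤ w → w ≤ u + h → HasDerivAt (DL hs (ψ n)) (DL hs (ψ (n + 1)) w) w := by
      intro w hw1 hw2
      exact DL_hasDerivAt ψ lo hi hder hs n w (by linarith) (by linarith)
    obtain ⟨w, hw, he⟩ := exists_hasDerivAt_eq_slope (DL hs (ψ n)) (DL hs (ψ (n + 1)))
      (by linarith : u < u + h)
      (fun w hw => (hder' w hw.1 hw.2).continuousAt.continuousWithinAt)
      (fun w hw => hder' w hw.1.le hw.2.le)
    obtain ⟨ξ, hξ1, hξ2, hξ3⟩ := ih hpos' (n + 1) w (by linarith [hw.1])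
      (by linarith [hw.2])
    refine ⟨ξ, by linarith [hw.1], by linarith [hw.2], ?_⟩
    have e1 : DL (h :: hs) (ψ n) u = h * DL hs (ψ (n + 1)) w := by
      rw [he]
      simp only [DL]
      have : (u + h - u) = (h : ℝ) := by ring
      rw [this]
      field_simp
    rw [e1, hξ3, List.prod_cons, List.length_cons, Nat.cast_mul]
    have e2 : n + 1 + hs.length = n + (hs.length + 1) := by omega
    rw [e2]
    ring

/-! ### Assembly -/

lemma ei_DL_cons (h : ℕ) (hs : List ℕ) (g : ℝ → ℝ) (m : ℕ) :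
    ei (DL hs g ((m + h : ℕ) : ℝ)) * conj (ei (DL hs g m)) = ei (DL (h :: hs) g m) := by
  rw [conj_ei, ← ei_add]
  simp only [DL]
  push_cast
  ring_nf

/-- the differencing step, iterated -/
lemma differencing (g : ℝ → ℝ) (N θ : ℝ) (J d r : ℕ) (hN : 1 ≤ N) (hθ0 : 0 < θ) (hθ1 : θ ≤ 1)
    (hJ : 1 ≤ J) (hJd : (J : ℝ) * d ≤ N) (hJθ : 8 / (J : ℝ) ≤ 16 * θ)
    (hbase : ∀ hs : List ℕ, hs.length = r → (∀ h ∈ hs, d ≤ h ∧ h ≤ J * d) →
      ∀ x y : ℕ, N / 2 ≤ x → x ≤ y → (y : ℝ) + hs.sum ≤ 4 * N →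
      ‖∑ m ∈ Finset.Ioc x y, ei (DL hs g m)‖ ≤ 10 * N * θ) :
    ∀ i : ℕ, ∀ hs : List ℕ, hs.length + i = r → (∀ h ∈ hs, d ≤ h ∧ h ≤ J * d) →
      ∀ x y : ℕ, N / 2 ≤ x → x ≤ y → (y : ℝ) + hs.sum ≤ 4 * N →
      ‖∑ m ∈ Finset.Ioc x y, ei (DL hs g m)‖ ≤ 10 * N * θ ^ ((1 / 2 : ℝ) ^ i) := by
  intro i
  induction i with
  | zero =>
    intro hs hlen hh x y hx hxy hy
    have := hbase hs (by omega) hh x y hx hxy hy
    simpa using this
  | succ i ih =>
    intro hs hlen hh x y hx hxy hy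
    set b : ℝ := θ ^ ((1 / 2 : ℝ) ^ i) with hb
    have hbpos : 0 < b := Real.rpow_pos_of_pos hθ0 _
    have hsq : (θ ^ ((1 / 2 : ℝ) ^ (i + 1))) ^ 2 = b := by
      rw [hb, ← Real.rpow_natCast, ← Real.rpow_mul hθ0.le]
      congr 1
      rw [pow_succ]
      push_cast
      ring
    have hθb : θ ≤ b := by
      rw [hb]
      nth_rewrite 1 [← Real.rpow_one θ]
      refine Real.rpow_le_rpow_of_exponent_ge hθ0 hθ1 ?_
      exact pow_le_one₀ (by norm_num) (by norm_num)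
    have hv := vdc (fun m => ei (DL hs g m)) (fun m => (norm_ei _).le) x y J d hJ hxy
      (10 * N * b) (by
        intro j hj1 hj2
        rw [Finset.sum_congr rfl (fun m _ => ei_DL_cons (j * d) hs g m)]
        by_cases hle : x ≤ y - j * d
        · by_cases hle2 : j * d ≤ y
          · refine ih (j * d :: hs) (by simp; omega) ?_ x (y - j * d) hx hle ?_
            · intro h hmem
              rcases List.mem_cons.1 hmem with h1 | h1
              · rw [h1]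
                exact ⟨Nat.le_mul_of_pos_left d (by omega), Nat.mul_le_mul_right d hj2.le⟩
              · exact hh h h1
            · rw [List.sum_cons, Nat.cast_add, Nat.cast_sub hle2]
              linarith
          · have hx0 : x = 0 := by omega
            have : N / 2 ≤ (0 : ℝ) := by rw [hx0] at hx; simpa using hx
            linarith
        · rw [Finset.Ioc_eq_empty (by omega)]
          simp only [Finset.sum_empty, norm_zero]
          positivity) (by positivity)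
    have hL : (y : ℝ) - x ≤ 4 * N := by
      have h1 : (0 : ℝ) ≤ x := Nat.cast_nonneg _
      have h2 : (0 : ℝ) ≤ hs.sum := Nat.cast_nonneg _
      linarith
    have hL0 : 0 ≤ (y : ℝ) - x := by
      have : (x : ℝ) ≤ y := by exact_mod_cast hxy
      linarith
    have hJpos : (0 : ℝ) < J := by exact_mod_cast hJ
    have hbound : (((y : ℝ) - x) + J * d) * (((y : ℝ) - x) / J + 10 * N * b) ≤
        (5 * N) * (N * (8 * b) + 10 * N * b) := by
      have e1 : ((y : ℝ) - x) + J * d ≤ 5 * N := by linarith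
      have e2 : ((y : ℝ) - x) / J ≤ N * (8 * b) := by
        calc ((y : ℝ) - x) / J ≤ 4 * N / J := by gcongr
          _ = N / 2 * (8 / J) := by ring
          _ ≤ N / 2 * (16 * θ) := by gcongr
          _ ≤ N / 2 * (16 * b) := by gcongr
          _ = _ := by ring
      have e3 : 0 ≤ ((y : ℝ) - x) / J + 10 * N * b := by positivity
      calc _ ≤ (5 * N) * (((y : ℝ) - x) / J + 10 * N * b) :=
            mul_le_mul_of_nonneg_right e1 e3
        _ ≤ _ := by gcongr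
    have hfin : ‖∑ m ∈ Finset.Ioc x y, ei (DL hs g m)‖ ^ 2 ≤
        (10 * N * θ ^ ((1 / 2 : ℝ) ^ (i + 1))) ^ 2 := by
      refine hv.trans (hbound.trans ?_)
      rw [mul_pow, hsq]
      nlinarith [mul_pos (mul_pos (by linarith : 0 < N) (by linarith : 0 < N)) hbpos]
    have hpos : 0 ≤ 10 * N * θ ^ ((1 / 2 : ℝ) ^ (i + 1)) := by
      have : 0 < θ ^ ((1 / 2 : ℝ) ^ (i + 1)) := Real.rpow_pos_of_pos hθ0 _
      positivity
    exact le_of_sq_le_sq hfin hpos

lemma list_prod_le (hs : List ℕ) (b : ℕ) (h : ∀ a ∈ hs, a ≤ b) : hs.prod ≤ b ^ hs.length := by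
  induction hs with
  | nil => simp
  | cons a hs ih =>
    rw [List.prod_cons, List.length_cons, pow_succ, mul_comm]
    exact Nat.mul_le_mul (ih fun x hx => h x (by simp [hx])) (h a (by simp))

lemma le_list_prod (hs : List ℕ) (b : ℕ) (h : ∀ a ∈ hs, b ≤ a) : b ^ hs.length ≤ hs.prod := by
  induction hs with
  | nil => simp
  | cons a hs ih =>
    rw [List.prod_cons, List.length_cons, pow_succ, mul_comm]
    exact Nat.mul_le_mul (h a (by simp)) (ih fun x hx => h x (by simp [hx]))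

lemma list_sum_le (hs : List ℕ) (b : ℕ) (h : ∀ a ∈ hs, a ≤ b) : hs.sum ≤ hs.length * b := by
  induction hs with
  | nil => simp
  | cons a hs ih =>
    rw [List.sum_cons, List.length_cons, Nat.succ_mul, Nat.add_comm]
    exact Nat.add_le_add (ih fun x hx => h x (by simp [hx])) (h a (by simp))

lemma params (r : ℕ) (N Λ : ℝ) (hr : 1 ≤ r) (hN : 1 ≤ N) (hΛ : 0 < Λ)
    (hΛN : Λ ≤ N ^ ((r : ℝ) / 2)) (hcase : N ^ (1 / 4 : ℝ) < Λ) :
    ∃ (H : ℝ) (J d : ℕ), 0 < H ∧ H ≤ N ∧ H / N ≤ N ^ (-(1 / (8 * (r : ℝ)))) ∧ 1 ≤ J ∧ 1 ≤ d ∧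
      (J : ℝ) * d ≤ H ∧ 8 / (J : ℝ) ≤ 16 * N ^ (-(1 / (16 * (r : ℝ)))) ∧
      ∀ P : ℝ, (d : ℝ) ^ r ≤ P → P ≤ H ^ r → Λ * P / N ^ r ≤ N ^ (1 / 4 : ℝ) ∧
        N ^ (1 / 16 : ℝ) / 2 ^ r ≤ Λ * P / N ^ r := by
  have hNpos : 0 < N := lt_of_lt_of_le one_pos hN
  have hrpos : (1 : ℝ) ≤ r := by exact_mod_cast hr
  have hr0 : (0 : ℝ) < r := lt_of_lt_of_le one_pos hrpos
  obtain ⟨q, hq⟩ : ∃ q : ℝ, q = N ^ (1 / 8 : ℝ) / Λ := ⟨_, rfl⟩
  have hN8 : 0 < N ^ (1 / 8 : ℝ) := Real.rpow_pos_of_pos hNpos _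
  have hqpos : 0 < q := by rw [hq]; positivity
  obtain ⟨H, hH⟩ : ∃ H : ℝ, H = N * q ^ (1 / (r : ℝ)) := ⟨_, rfl⟩
  have hrinv : 0 < 1 / (r : ℝ) := by positivity
  have hqr : 0 < q ^ (1 / (r : ℝ)) := Real.rpow_pos_of_pos hqpos _
  have hHpos : 0 < H := by rw [hH]; positivity
  have hHN : H / N = q ^ (1 / (r : ℝ)) := by rw [hH]; field_simp
  have hqle : q ≤ N ^ (-(1 / 8) : ℝ) := by
    rw [hq]
    calc N ^ (1 / 8 : ℝ) / Λ ≤ N ^ (1 / 8 : ℝ) / N ^ (1 / 4 : ℝ) := by gcongr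
      _ = N ^ (-(1 / 8) : ℝ) := by
        rw [← Real.rpow_sub hNpos]; norm_num
  have hqge : N ^ (-((r : ℝ) / 2)) ≤ q := by
    rw [hq]
    calc N ^ (-((r : ℝ) / 2)) = 1 / N ^ ((r : ℝ) / 2) := by
          rw [Real.rpow_neg hNpos.le, one_div]
      _ ≤ N ^ (1 / 8 : ℝ) / Λ := by
          gcongr
          exact Real.one_le_rpow hN (by norm_num)
  have hHle : H / N ≤ N ^ (-(1 / (8 * (r : ℝ)))) := by
    rw [hHN]
    calc q ^ (1 / (r : ℝ)) ≤ (N ^ (-(1 / 8) : ℝ)) ^ (1 / (r : ℝ)) :=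
          Real.rpow_le_rpow hqpos.le hqle hrinv.le
      _ = N ^ (-(1 / (8 * (r : ℝ)))) := by
          rw [← Real.rpow_mul hNpos.le]
          congr 1
          field_simp
  have hHle1 : H ≤ N := by
    have h1 : H / N ≤ 1 := hHle.trans (Real.rpow_le_one_of_one_le_of_nonpos hN (by
      have : 0 < 1 / (8 * (r : ℝ)) := by positivity
      linarith))
    rwa [div_le_one hNpos] at h1
  have hHge : N ^ (1 / 2 : ℝ) ≤ H := by
    have h1 : N ^ (-(1 / 2) : ℝ) ≤ q ^ (1 / (r : ℝ)) := by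
      calc N ^ (-(1 / 2) : ℝ) = (N ^ (-((r : ℝ) / 2))) ^ (1 / (r : ℝ)) := by
            rw [← Real.rpow_mul hNpos.le]
            congr 1
            field_simp
        _ ≤ q ^ (1 / (r : ℝ)) :=
            Real.rpow_le_rpow (Real.rpow_nonneg hNpos.le _) hqge hrinv.le
    calc N ^ (1 / 2 : ℝ) = N * N ^ (-(1 / 2) : ℝ) := by
          nth_rewrite 2 [← Real.rpow_one N]
          rw [← Real.rpow_add hNpos]; norm_num
      _ ≤ H := by rw [hH]; gcongr
  have hHr : (H / N) ^ r = q := by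
    rw [hHN, ← Real.rpow_natCast, ← Real.rpow_mul hqpos.le]
    have : 1 / (r : ℝ) * r = 1 := by field_simp
    rw [this, Real.rpow_one]
  obtain ⟨ν, hν⟩ : ∃ ν : ℝ, ν = N ^ (1 / (16 * (r : ℝ))) := ⟨_, rfl⟩
  have hν1 : 1 ≤ ν := by rw [hν]; exact Real.one_le_rpow hN (by positivity)
  have hνpos : 0 < ν := lt_of_lt_of_le one_pos hν1
  have hνr : ν ^ r = N ^ (1 / 16 : ℝ) := by
    rw [hν, ← Real.rpow_natCast, ← Real.rpow_mul hNpos.le]
    congr 1
    field_simp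
  have hr16 : 1 / (16 * (r : ℝ)) ≤ 1 / 2 := by
    rw [div_le_div_iff₀ (by positivity) (by norm_num)]
    linarith
  have hνH : ν ≤ H := by
    refine le_trans ?_ hHge
    rw [hν]
    exact Real.rpow_le_rpow_of_exponent_le hN hr16
  obtain ⟨J, hJ⟩ : ∃ J : ℕ, J = ⌊ν⌋₊ := ⟨_, rfl⟩
  have hJ1 : 1 ≤ J := by
    rw [hJ]; exact Nat.le_floor (by simpa using hν1)
  have hJ1' : (1 : ℝ) ≤ J := by exact_mod_cast hJ1
  have hJpos : (0 : ℝ) < J := lt_of_lt_of_le one_pos hJ1'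
  have hJle : (J : ℝ) ≤ ν := by rw [hJ]; exact Nat.floor_le hνpos.le
  have hJge : ν / 2 ≤ J := by
    have h1 : ν < J + 1 := by rw [hJ]; exact Nat.lt_floor_add_one ν
    linarith
  obtain ⟨d, hd⟩ : ∃ d : ℕ, d = ⌊H / J⌋₊ := ⟨_, rfl⟩
  have hHJ1 : 1 ≤ H / J := by
    rw [le_div_iff₀ hJpos]; linarith
  have hd1 : 1 ≤ d := by
    rw [hd]; exact Nat.le_floor (by simpa using hHJ1)
  have hd1' : (1 : ℝ) ≤ d := by exact_mod_cast hd1
  have hdle : (d : ℝ) ≤ H / J := by rw [hd]; exact Nat.floor_le (by positivity)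
  have hJd : (J : ℝ) * d ≤ H := by
    rw [le_div_iff₀ hJpos] at hdle
    linarith
  have hdge : H / (2 * ν) ≤ d := by
    have h1 : H / J < d + 1 := by rw [hd]; exact Nat.lt_floor_add_one _
    have h3 : H / J / 2 ≤ d := by linarith
    refine le_trans ?_ h3
    rw [div_div, mul_comm (J : ℝ) 2]
    gcongr
  refine ⟨H, J, d, hHpos, hHle1, hHle, hJ1, hd1, hJd, ?_, ?_⟩
  · calc 8 / (J : ℝ) ≤ 8 / (ν / 2) := by gcongr
      _ = 16 * ν⁻¹ := by field_simp; norm_num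
      _ = 16 * N ^ (-(1 / (16 * (r : ℝ)))) := by
        rw [hν, ← Real.rpow_neg hNpos.le]
  · intro P hP1 hP2
    have hPge : (H / (2 * ν)) ^ r ≤ P := (pow_le_pow_left₀ (by positivity) hdge _).trans hP1
    have hPpos : 0 < P := lt_of_lt_of_le (by positivity) hPge
    constructor
    · calc Λ * P / N ^ r ≤ Λ * H ^ r / N ^ r := by gcongr
        _ = Λ * (H / N) ^ r := by rw [div_pow]; ring
        _ = N ^ (1 / 8 : ℝ) := by
          rw [hHr, hq]; field_simp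
        _ ≤ N ^ (1 / 4 : ℝ) := Real.rpow_le_rpow_of_exponent_le hN (by norm_num)
    · have h1 : Λ * (H / (2 * ν)) ^ r / N ^ r ≤ Λ * P / N ^ r := by gcongr
      refine le_trans (le_of_eq ?_) h1
      have h2 : Λ * (H / (2 * ν)) ^ r / N ^ r = Λ * (H / N) ^ r / (2 ^ r * ν ^ r) := by
        rw [div_pow, div_pow, mul_pow]
        field_simp
      have h4 : 0 < N ^ (1 / 16 : ℝ) := Real.rpow_pos_of_pos hNpos _
      have h3 : N ^ (1 / 8 : ℝ) = N ^ (1 / 16 : ℝ) * N ^ (1 / 16 : ℝ) := by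
        rw [← Real.rpow_add hNpos]; norm_num
      rw [h2, hHr, hνr, hq, h3]
      generalize N ^ (1 / 16 : ℝ) = m at h4
      field_simp

/-- the base case: the `r`-fold differences satisfy the hypotheses of the slow case -/
lemma base (k r : ℕ) (c C K0 : ℝ) (hc : 0 < c) (hr : 1 ≤ r)
    (hslow : ∀ (N Λ η0 : ℝ) (g0 g1 g2 : ℝ → ℝ) (x y : ℕ), 1 ≤ N → 0 < Λ →
      Λ ≤ N ^ (1 / 4 : ℝ) → 0 < η0 → x ≤ y → (y : ℝ) - x ≤ 4 * N →
      (∀ u : ℝ, x ≤ u → u ≤ y → HasDerivAt g0 (g1 u) u ∧ HasDerivAt g1 (g2 u) u ∧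
        |g1 u| ≤ C * Λ / N ∧ |g2 u| ≤ C * Λ / N ^ 2) →
      (∀ η : ℝ, η0 ≤ η → η ≤ 1 → ∀ v : Fin k → ℝ, (∀ i, x ≤ v i ∧ v i ≤ y) →
        (∀ i j, i ≠ j → η * N ≤ |v i - v j|) →
          ∃ i, c / 2 ^ (k ^ 2) * η ^ (k ^ 2) * Λ / N ≤ |g1 (v i)|) →
      ‖∑ m ∈ Finset.Ioc x y, ei (g0 m)‖ ≤
        K0 * N * (Λ ^ (-(1 / (4 * (k : ℝ) ^ 2))) + η0 + N ^ (-(1 / 2) : ℝ)))
    (N Λ η0 : ℝ) (ψ : ℕ → ℝ → ℝ) (hN : 1 ≤ N) (hΛ : 0 < Λ) (hη0 : 0 < η0)
    (hOF : OF k (r + 2) c C η0 N Λ ψ) (H : ℝ) (hH0 : 0 < H)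
    (hs : List ℕ) (hlen : hs.length = r) (hhpos : ∀ h ∈ hs, 1 ≤ h) (hsum : (hs.sum : ℝ) ≤ r * H)
    (hΛ'le : Λ * hs.prod / N ^ r ≤ N ^ (1 / 4 : ℝ)) (x y : ℕ) (hx : N / 2 ≤ x) (hxy : x ≤ y)
    (hy : (y : ℝ) + hs.sum ≤ 4 * N) :
    ‖∑ m ∈ Finset.Ioc x y, ei (DL hs (ψ 0) m)‖ ≤ K0 * N *
      ((Λ * hs.prod / N ^ r) ^ (-(1 / (4 * (k : ℝ) ^ 2))) + (2 * η0 + 2 * r * (H / N)) +
        N ^ (-(1 / 2) : ℝ)) := by
  have hNpos : 0 < N := lt_of_lt_of_le one_pos hN
  have hr0 : (0 : ℝ) < r := by exact_mod_cast hr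
  have hxR : (x : ℝ) ≤ y := by exact_mod_cast hxy
  have hx0 : (0 : ℝ) ≤ x := Nat.cast_nonneg _
  have hs0 : (0 : ℝ) ≤ hs.sum := Nat.cast_nonneg _
  have hPpos' : 1 ≤ hs.prod := by
    have := le_list_prod hs 1 hhpos
    simpa using this
  obtain ⟨P, hP⟩ : ∃ P : ℝ, P = (hs.prod : ℝ) := ⟨_, rfl⟩
  have hPpos : 0 < P := by
    rw [hP]
    exact_mod_cast hPpos'
  rw [← hP] at hΛ'le ⊢
  obtain ⟨Λ', hΛ'⟩ : ∃ Λ' : ℝ, Λ' = Λ * P / N ^ r := ⟨_, rfl⟩
  rw [← hΛ'] at hΛ'le ⊢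
  have hΛ'pos : 0 < Λ' := by rw [hΛ']; positivity
  obtain ⟨S, hS⟩ : ∃ S : ℝ, S = (hs.sum : ℝ) := ⟨_, rfl⟩
  rw [← hS] at hsum hy hs0
  have hη'pos : 0 < 2 * η0 + 2 * r * (H / N) := by positivity
  refine hslow N Λ' (2 * η0 + 2 * r * (H / N)) (DL hs (ψ 0)) (DL hs (ψ 1)) (DL hs (ψ 2)) x y hN
    hΛ'pos hΛ'le hη'pos hxy (by linarith) ?_ ?_
  · intro u hu1 hu2
    have a1 : N / 4 ≤ u := by linarith
    have a2 : u + hs.sum ≤ 8 * N := by rw [← hS]; linarith
    refine ⟨DL_hasDerivAt ψ (N / 4) (8 * N) hOF.der hs 0 u a1 a2,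
      DL_hasDerivAt ψ (N / 4) (8 * N) hOF.der hs 1 u a1 a2, ?_, ?_⟩
    · obtain ⟨ξ, h1, h2, h3⟩ := DL_mvt ψ (N / 4) (8 * N) hOF.der hs hhpos 1 u a1 a2
      rw [h3, ← hP, abs_mul, abs_of_pos hPpos]
      have h4 := hOF.up (1 + hs.length) ξ (by omega) (by omega) (by linarith) (by linarith)
      rw [hlen] at h4 ⊢
      calc P * |ψ (1 + r) ξ| ≤ P * (C * Λ / N ^ (1 + r)) := by gcongr
        _ = C * Λ' / N := by
          rw [hΛ', pow_add, pow_one]; field_simp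
    · obtain ⟨ξ, h1, h2, h3⟩ := DL_mvt ψ (N / 4) (8 * N) hOF.der hs hhpos 2 u a1 a2
      rw [h3, ← hP, abs_mul, abs_of_pos hPpos]
      have h4 := hOF.up (2 + hs.length) ξ (by omega) (by omega) (by linarith) (by linarith)
      rw [hlen] at h4 ⊢
      calc P * |ψ (2 + r) ξ| ≤ P * (C * Λ / N ^ (2 + r)) := by gcongr
        _ = C * Λ' / N ^ 2 := by
          rw [hΛ', pow_add]; field_simp
  · intro η hη1 hη2 v hv1 hv2
    have hηpos : 0 < η := by linarith
    have hmv : ∀ i, ∃ ξ : ℝ, v i ≤ ξ ∧ ξ ≤ v i + S ∧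
        DL hs (ψ 1) (v i) = P * ψ (1 + hs.length) ξ := by
      intro i
      have a1 : N / 4 ≤ v i := by linarith [(hv1 i).1]
      have a2 : v i + hs.sum ≤ 8 * N := by rw [← hS]; linarith [(hv1 i).2]
      obtain ⟨ξ, h1, h2, h3⟩ := DL_mvt ψ (N / 4) (8 * N) hOF.der hs hhpos 1 (v i) a1 a2
      refine ⟨ξ, h1, by rw [hS]; exact h2, by rw [hP]; exact h3⟩
    choose ξ hξ1 hξ2 hξ3 using hmv
    have hgap : 2 * (r * H) ≤ η * N := by
      have h1 : 2 * r * (H / N) ≤ η := by linarith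
      have h2 : 2 * r * (H / N) * N ≤ η * N := by gcongr
      have h3 : 2 * r * (H / N) * N = 2 * (r * H) := by field_simp
      linarith
    obtain ⟨i, hi⟩ := hOF.low (1 + hs.length) (by omega) (by omega) (η / 2)
      (by
        have h0 : 0 ≤ 2 * r * (H / N) := by positivity
        linarith) (by linarith) ξ
      (fun i => ⟨by linarith [(hv1 i).1, hξ1 i], by linarith [(hv1 i).2, hξ2 i]⟩) (by
        intro i j hij
        have h1 := hv2 i j hij
        have h2 : |v i - v j| ≤ |ξ i - ξ j| + S := by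
          have h3 : |v i - v j| ≤ |ξ i - ξ j| + |(v i - ξ i) - (v j - ξ j)| := by
            have h4 : v i - v j = (ξ i - ξ j) + ((v i - ξ i) - (v j - ξ j)) := by ring
            rw [h4]
            exact abs_add_le _ _
          have h5 : |(v i - ξ i) - (v j - ξ j)| ≤ S := by
            rw [abs_le]
            constructor
            · linarith [hξ1 i, hξ2 i, hξ1 j, hξ2 j]
            · linarith [hξ1 i, hξ2 i, hξ1 j, hξ2 j]
          linarith
        linarith)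
    refine ⟨i, ?_⟩
    rw [hξ3 i, abs_mul, abs_of_pos hPpos]
    have h6 : P * (c * (η / 2) ^ (k ^ 2) * Λ / N ^ (1 + hs.length)) ≤
        P * |ψ (1 + hs.length) (ξ i)| := by gcongr
    refine le_trans (le_of_eq ?_) h6
    rw [hlen, hΛ', pow_add, pow_one, div_pow]
    field_simp

end Pool.Agent.Ell.Core
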