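import Mathlib

set_option autoImplicit false

/-! Asymptotic Elliott conjecture (MP_f3f922_nt), one arbitrary function: definitions. -/

namespace Pool.Agent.Ell

open Finset
open scoped BigOperators ComplexConjugate

/-- multiplicative with values in the closed unit disc -/
structure MB (f : ℕ → ℂ) : Prop where
  one : f 1 = 1
  mul : ∀ m n : ℕ, Nat.Coprime m n → f (m * n) = f m * f n
  bd : ∀ n : ℕ, ‖f n‖ ≤ 1

/-- `n ^ (i t)` -/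
noncomputable def nit (t : ℝ) (n : ℕ) : ℂ := (n : ℂ) ^ ((t : ℂ) * Complex.I)

/-- the primes in `(z, w]` -/
def prs (z w : ℕ) : Finset ℕ := (Finset.Ioc z w).filter Nat.Prime

/-- `ξ` has period `q` -/
def Per (q : ℕ) (ξ : ℕ → ℂ) : Prop := ∀ m, ξ (m + q) = ξ m

/-- the mean value over `0, ..., q-1` -/
noncomputable def mean (q : ℕ) (ξ : ℕ → ℂ) : ℂ := (∑ m ∈ Finset.range q, ξ m) / q

/-- `τ_l = ∑ t_j a_j ^ l` -/
noncomputable def tau {k : ℕ} (a : Fin k → ℤ) (t : Fin k → ℝ) (l : ℕ) : ℝ :=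
  ∑ j, t j * (a j : ℝ) ^ l

/-- the size of the phase at scale `N` -/
noncomputable def Lam {k : ℕ} (a : Fin k → ℤ) (t : Fin k → ℝ) (N : ℝ) : ℝ :=
  ∑ l ∈ Finset.Icc 1 k, |tau a t l| / N ^ l

/-- The phase `Φ(u) = ∑ t_j (log (p u + a_j) - log (q u + a_j))` (for `n = 0`) and its derivatives -/
noncomputable def PF {k : ℕ} (a : Fin k → ℤ) (t : Fin k → ℝ) (p q : ℕ) : ℕ → ℝ → ℝ
  | 0, u => ∑ j, t j * (Real.log (p * u + a j) - Real.log (q * u + a j))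
  | (n + 1), u => ∑ j, t j * ((-1) ^ n * (n.factorial : ℝ) *
      (((p : ℝ) / (p * u + a j)) ^ (n + 1) - ((q : ℝ) / (q * u + a j)) ^ (n + 1)))

/-- the family `v ↦ ψ (b + Q v)` and its derivatives -/
noncomputable def SC (Q b : ℕ) (ψ : ℕ → ℝ → ℝ) (n : ℕ) (v : ℝ) : ℝ :=
  (Q : ℝ) ^ n * ψ n (b + Q * v)

/-- `e^{i x}` -/
noncomputable def ei (x : ℝ) : ℂ := Complex.exp (x * Complex.I)

/-- A function `ψ 0` with derivatives `ψ 1, ψ 2, ...` on `[N/4, 8N]`, of size `Λ` at scale `N`: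
upper bounds, and a lower bound at one of any `k` well spaced points. -/
structure OF (k R : ℕ) (c C η0 N Λ : ℝ) (ψ : ℕ → ℝ → ℝ) : Prop where
  der : ∀ n u, N / 4 ≤ u → u ≤ 8 * N → HasDerivAt (ψ n) (ψ (n + 1) u) u
  up : ∀ n u, 1 ≤ n → n ≤ R → N / 4 ≤ u → u ≤ 8 * N → |ψ n u| ≤ C * Λ / N ^ n
  low : ∀ n, 1 ≤ n → n ≤ R → ∀ η : ℝ, η0 ≤ η → η ≤ 1 → ∀ v : Fin k → ℝ,
    (∀ i, N / 4 ≤ v i ∧ v i ≤ 8 * N) → (∀ i j, i ≠ j → η * N ≤ |v i - v j|) →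
    ∃ i, c * η ^ (k ^ 2) * Λ / N ^ n ≤ |ψ n (v i)|

/-- the truncated distance (squared) to `χ(n) n^{it}` over the primes in `(y, x]` -/
noncomputable def dist2 {r : ℕ} (f : ℕ → ℂ) (χ : DirichletCharacter ℂ r) (t : ℝ) (y x : ℝ) : ℝ :=
  ∑ p ∈ (Finset.Iic ⌊x⌋₊).filter (fun p : ℕ => p.Prime ∧ y < p),
    (1 - (f p * conj (χ (p : ZMod r) * nit t p)).re) / (p : ℝ)

end Pool.Agent.Ell
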