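import Pool.Agent.Ell.HalTargets

set_option autoImplicit false

/-! Halasz, step H1. -/

namespace Pool.Agent.Ell.H1_

open Finset
open scoped BigOperators

/-- the primes up to `N` -/
noncomputable def PN (N : ℕ) : Finset ℕ := (Finset.Icc 1 N).filter Nat.Prime

lemma mem_PN {N p : ℕ} : p ∈ PN N ↔ p.Prime ∧ p ≤ N := by
  rw [PN, Finset.mem_filter, Finset.mem_Icc]
  exact ⟨fun h => ⟨h.2, h.1.2⟩, fun h => ⟨⟨h.1.pos, h.2⟩, h.1⟩⟩

lemma summ : Summable (fun n : ℕ => Real.log n / (n : ℝ) ^ 2) := by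
  have h : Summable (fun n : ℕ => 2 * (1 / (n : ℝ) ^ (3 / 2 : ℝ))) :=
    (Real.summable_one_div_nat_rpow.2 (by norm_num)).mul_left 2
  refine Summable.of_nonneg_of_le (fun n => ?_) (fun n => ?_) h
  · exact div_nonneg (Real.log_natCast_nonneg n) (by positivity)
  · rcases Nat.eq_zero_or_pos n with h0 | h0
    · rw [h0]
      norm_num
    · have hn : (0 : ℝ) < n := by exact_mod_cast h0
      have h1 := Real.log_le_rpow_div hn.le (show (0 : ℝ) < 1 / 2 by norm_num)
      have h2 : (n : ℝ) ^ (3 / 2 : ℝ) * (n : ℝ) ^ (1 / 2 : ℝ) = (n : ℝ) ^ 2 := by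
        rw [← Real.rpow_add hn, ← Real.rpow_natCast]
        norm_num
      have h3 : 0 < (n : ℝ) ^ (3 / 2 : ℝ) := Real.rpow_pos_of_pos hn _
      rw [mul_one_div, div_le_div_iff₀ (by positivity) h3, ← h2]
      have h4 : Real.log n ≤ 2 * (n : ℝ) ^ (1 / 2 : ℝ) := by
        linarith
      nlinarith

/-- the constant -/
noncomputable def K : ℝ := ∑' n : ℕ, Real.log n / (n : ℝ) ^ 2

lemma K_nonneg : 0 ≤ K :=
  tsum_nonneg fun n => div_nonneg (Real.log_natCast_nonneg n) (by positivity)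

lemma sum_le_K (s : Finset ℕ) : ∑ n ∈ s, Real.log n / (n : ℝ) ^ 2 ≤ K :=
  summ.sum_le_tsum s fun n _ => div_nonneg (Real.log_natCast_nonneg n) (by positivity)

lemma sum_multiples {M : Type*} [AddCommMonoid M] (N p : ℕ) (hp : 0 < p) (F : ℕ → M) :
    ∑ n ∈ Finset.Icc 1 N, (if p ∣ n then F n else 0) = ∑ m ∈ Finset.Icc 1 (N / p), F (p * m) := by
  rw [← Finset.sum_filter]
  symm
  refine Finset.sum_bij (fun m _ => p * m) ?_ ?_ ?_ ?_
  · intro m hm
    rw [Finset.mem_Icc] at hm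
    rw [Finset.mem_filter, Finset.mem_Icc]
    refine ⟨⟨Nat.mul_pos hp hm.1, ?_⟩, dvd_mul_right p m⟩
    calc p * m ≤ p * (N / p) := Nat.mul_le_mul_left p hm.2
      _ ≤ N := Nat.mul_div_le N p
  · intro a _ b _ h
    exact Nat.eq_of_mul_eq_mul_left hp h
  · intro n hn
    rw [Finset.mem_filter, Finset.mem_Icc] at hn
    obtain ⟨m, rfl⟩ := hn.2
    refine ⟨m, ?_, rfl⟩
    rw [Finset.mem_Icc]
    refine ⟨Nat.pos_of_mul_pos_left hn.1.1 |> fun h => ?_, ?_⟩
    · rcases Nat.eq_zero_or_pos m with h0 | h0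
      · rw [h0] at hn
        simp at hn
      · exact h0
    · exact (Nat.le_div_iff_mul_le hp).2 (by rw [mul_comm]; exact hn.1.2)
  · intro m _
    rfl

lemma sum_primeFactors {M : Type*} [AddCommMonoid M] (N n : ℕ) (hn : n ∈ Finset.Icc 1 N)
    (g : ℕ → M) : ∑ p ∈ n.primeFactors, g p = ∑ p ∈ PN N, (if p ∣ n then g p else 0) := by
  rw [← Finset.sum_filter]
  congr 1
  rw [Finset.mem_Icc] at hn
  ext p
  rw [Finset.mem_filter, mem_PN, Nat.mem_primeFactors]
  constructor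
  · intro h
    exact ⟨⟨h.1, le_trans (Nat.le_of_dvd hn.1 h.2.1) hn.2⟩, h.2.1⟩
  · intro h
    exact ⟨h.1.1, h.2, by omega⟩

lemma rest_nonneg (n : ℕ) (hn : 0 < n) :
    0 ≤ Real.log n - ∑ p ∈ n.primeFactors, Real.log p := by
  rw [sub_nonneg, ← Real.log_prod (fun p hp => by
    have := (Nat.prime_of_mem_primeFactors hp).pos
    positivity)]
  apply Real.log_le_log
  · apply Finset.prod_pos
    intro p hp
    exact_mod_cast (Nat.prime_of_mem_primeFactors hp).pos
  · have h := Nat.le_of_dvd hn (Nat.prod_primeFactors_dvd n)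
    have h' : ((∏ p ∈ n.primeFactors, p : ℕ) : ℝ) ≤ n := Nat.cast_le.2 h
    rwa [Nat.cast_prod] at h'

lemma log_factorial_eq (N : ℕ) :
    Real.log (N.factorial : ℝ) = ∑ n ∈ Finset.Icc 1 N, Real.log n := by
  induction N with
  | zero => simp
  | succ N ih =>
    rw [Finset.sum_Icc_succ_top (by omega), ← ih, Nat.factorial_succ]
    push_cast
    rw [Real.log_mul (by positivity) (by positivity)]
    ring

lemma log_factorial_le (N : ℕ) :
    ∑ n ∈ Finset.Icc 1 N, Real.log n ≤ ∑ p ∈ PN N, (N : ℝ) / ((p : ℝ) - 1) * Real.log p := by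
  rw [← log_factorial_eq, Real.log_nat_eq_sum_factorization]
  rw [Finsupp.sum_of_support_subset _ (s := PN N) _ _ (fun i _ => by simp)]
  · apply Finset.sum_le_sum
    intro p hp
    rw [mem_PN] at hp
    apply mul_le_mul_of_nonneg_right _ (Real.log_natCast_nonneg p)
    have hp1 : (1 : ℝ) < p := by exact_mod_cast hp.1.one_lt
    rw [le_div_iff₀ (by linarith), Nat.factorization_def _ hp.1]
    have : Fact p.Prime := ⟨hp.1⟩
    have h := sub_one_mul_padicValNat_factorial (p := p) N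
    have h2 : (p - 1) * padicValNat p N.factorial ≤ N := by
      rw [h]
      exact Nat.sub_le _ _
    have h3 : (((p - 1 : ℕ) : ℝ)) * (padicValNat p N.factorial : ℝ) ≤ N := by
      exact_mod_cast h2
    rw [Nat.cast_sub hp.1.one_lt.le] at h3
    push_cast at h3
    linarith
  · intro p hp
    rw [Nat.support_factorization, Nat.mem_primeFactors] at hp
    rw [mem_PN]
    exact ⟨hp.1, (Nat.Prime.dvd_factorial hp.1).1 hp.2.1⟩

lemma sum_rest (N : ℕ) :
    ∑ n ∈ Finset.Icc 1 N, (Real.log n - ∑ p ∈ n.primeFactors, Real.log p) ≤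
      (2 * K + Real.log 4) * N := by
  rw [Finset.sum_sub_distrib]
  have h1 : ∑ n ∈ Finset.Icc 1 N, ∑ p ∈ n.primeFactors, Real.log p =
      ∑ p ∈ PN N, ((N / p : ℕ) : ℝ) * Real.log p := by
    rw [Finset.sum_congr rfl (fun n hn => sum_primeFactors N n hn (fun p => Real.log (p : ℝ))),
      Finset.sum_comm]
    apply Finset.sum_congr rfl
    intro p hp
    rw [sum_multiples N p (mem_PN.1 hp).1.pos (fun _ => Real.log (p : ℝ)), Finset.sum_const,
      Nat.card_Icc, nsmul_eq_mul]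
    simp
  rw [h1]
  have h2 : ∑ p ∈ PN N, ((N : ℝ) / ((p : ℝ) - 1) * Real.log p - ((N / p : ℕ) : ℝ) * Real.log p) ≤
      ∑ p ∈ PN N, (2 * N * (Real.log p / (p : ℝ) ^ 2) + Real.log p) := by
    apply Finset.sum_le_sum
    intro p hp
    rw [mem_PN] at hp
    have hp2 : (2 : ℝ) ≤ p := by exact_mod_cast hp.1.two_le
    have hl : 0 ≤ Real.log p := Real.log_natCast_nonneg p
    have hf : (N : ℝ) / p < ((N / p : ℕ) : ℝ) + 1 := by
      have := Nat.lt_floor_add_one ((N : ℝ) / (p : ℝ))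
      rwa [Nat.floor_div_eq_div] at this
    have hN : (0 : ℝ) ≤ N := Nat.cast_nonneg N
    have h3 : (N : ℝ) / ((p : ℝ) - 1) - N / p ≤ 2 * N / (p : ℝ) ^ 2 := by
      have e : (N : ℝ) / ((p : ℝ) - 1) - N / p = N / ((p : ℝ) * ((p : ℝ) - 1)) := by
        have : (p : ℝ) - 1 ≠ 0 := by linarith
        have : (p : ℝ) ≠ 0 := by linarith
        field_simp
        ring
      rw [e, div_le_div_iff₀ (by nlinarith) (by positivity)]
      nlinarith [mul_nonneg hN (show (0 : ℝ) ≤ p * (p - 2) by nlinarith)]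
    calc (N : ℝ) / ((p : ℝ) - 1) * Real.log p - ((N / p : ℕ) : ℝ) * Real.log p
        = ((N : ℝ) / ((p : ℝ) - 1) - ((N / p : ℕ) : ℝ)) * Real.log p := by ring
      _ ≤ (2 * N / (p : ℝ) ^ 2 + 1) * Real.log p := by
          apply mul_le_mul_of_nonneg_right _ hl
          linarith
      _ = 2 * N * (Real.log p / (p : ℝ) ^ 2) + Real.log p := by ring
  have h3 : ∑ p ∈ PN N, Real.log (p : ℝ) ≤ Real.log 4 * N := by
    have h := Chebyshev.theta_le_log4_mul_x (x := (N : ℝ)) (Nat.cast_nonneg N)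
    unfold Chebyshev.theta at h
    rw [Nat.floor_natCast] at h
    refine le_trans (le_of_eq ?_) h
    apply Finset.sum_congr _ (fun _ _ => rfl)
    ext p
    rw [mem_PN, Finset.mem_filter, Finset.mem_Ioc]
    exact ⟨fun h => ⟨⟨h.1.pos, h.2⟩, h.1⟩, fun h => ⟨h.2, h.1.2⟩⟩
  have h4 := sum_le_K (PN N)
  have h5 := log_factorial_le N
  rw [Finset.sum_sub_distrib, Finset.sum_add_distrib, ← Finset.mul_sum] at h2
  have hN : (0 : ℝ) ≤ N := Nat.cast_nonneg N
  nlinarith [mul_le_mul_of_nonneg_left h4 hN]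

lemma sum_log_ratio (u : ℝ) (hu : 1 ≤ u) :
    ∑ n ∈ Finset.Icc 1 ⌊u⌋₊, (Real.log u - Real.log n) ≤ u := by
  set N := ⌊u⌋₊ with hN
  have hN1 : 1 ≤ N := Nat.le_floor (by exact_mod_cast hu)
  have hNr : (0 : ℝ) < N := by exact_mod_cast hN1
  have hNu : (N : ℝ) ≤ u := Nat.floor_le (by linarith)
  rw [Finset.sum_sub_distrib, Finset.sum_const, Nat.card_Icc, nsmul_eq_mul, ← log_factorial_eq]
  have h1 := Real.pow_div_factorial_le_exp (N : ℝ) hNr.le N
  have h2 : (N : ℝ) * Real.log N - Real.log (N.factorial : ℝ) ≤ N := by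
    have h3 : 0 < (N : ℝ) ^ N / (N.factorial : ℝ) := by positivity
    have h4 := Real.log_le_log h3 h1
    rw [Real.log_div (by positivity) (by positivity), Real.log_pow, Real.log_exp] at h4
    exact h4
  have h5 : (N : ℝ) * (Real.log u - Real.log N) ≤ u - N := by
    rw [← Real.log_div (by linarith) hNr.ne']
    have h6 := Real.log_le_sub_one_of_pos (show 0 < u / N by positivity)
    calc (N : ℝ) * Real.log (u / N) ≤ N * (u / N - 1) := mul_le_mul_of_nonneg_left h6 hNr.le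
      _ = u - N := by field_simp
  simp only [Nat.add_sub_cancel]
  linarith

/-- the main term -/
lemma main_term (f : ℕ → ℂ) (hf : MB f) (u : ℝ) :
    ‖∑ n ∈ Finset.Icc 1 ⌊u⌋₊, f n * ((∑ p ∈ n.primeFactors, Real.log p : ℝ) : ℂ)‖ ≤
      ‖PS f u‖ + 2 * K * ⌊u⌋₊ := by
  set N := ⌊u⌋₊ with hN
  have h1 : ∑ n ∈ Finset.Icc 1 N, f n * ((∑ p ∈ n.primeFactors, Real.log p : ℝ) : ℂ) =
      ∑ p ∈ PN N, (Real.log p : ℂ) * ∑ m ∈ Finset.Icc 1 (N / p), f (p * m) := by
    have e1 : ∀ n ∈ Finset.Icc 1 N, f n * ((∑ p ∈ n.primeFactors, Real.log p : ℝ) : ℂ) =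
        ∑ p ∈ PN N, (if p ∣ n then (Real.log p : ℂ) * f n else 0) := by
      intro n hn
      rw [← sum_primeFactors N n hn (fun p => (Real.log p : ℂ) * f n), ← Finset.sum_mul]
      push_cast
      ring
    rw [Finset.sum_congr rfl e1, Finset.sum_comm]
    apply Finset.sum_congr rfl
    intro p hp
    rw [sum_multiples N p (mem_PN.1 hp).1.pos (fun n => (Real.log p : ℂ) * f n), Finset.mul_sum]
  have h2 : PS f u = ∑ p ∈ PN N, (Real.log p : ℂ) * ∑ m ∈ Finset.Icc 1 (N / p), f p * f m := by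
    unfold PS SS PN
    apply Finset.sum_congr rfl
    intro p _
    rw [Nat.floor_div_natCast, ← hN, Finset.mul_sum, Finset.mul_sum]
    apply Finset.sum_congr rfl
    intro m _
    ring
  have h3 : ‖∑ p ∈ PN N, (Real.log p : ℂ) * ∑ m ∈ Finset.Icc 1 (N / p), f (p * m) - PS f u‖ ≤
      2 * K * N := by
    rw [h2, ← Finset.sum_sub_distrib]
    refine le_trans (norm_sum_le _ _) ?_
    have h4 : ∀ p ∈ PN N, ‖(Real.log p : ℂ) * ∑ m ∈ Finset.Icc 1 (N / p), f (p * m) -
        (Real.log p : ℂ) * ∑ m ∈ Finset.Icc 1 (N / p), f p * f m‖ ≤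
        2 * N * (Real.log p / (p : ℝ) ^ 2) := by
      intro p hp
      rw [mem_PN] at hp
      have hp0 : (0 : ℝ) < p := by exact_mod_cast hp.1.pos
      rw [← mul_sub, ← Finset.sum_sub_distrib, norm_mul, Complex.norm_real, Real.norm_of_nonneg
        (Real.log_natCast_nonneg p)]
      have h5 : ‖∑ m ∈ Finset.Icc 1 (N / p), (f (p * m) - f p * f m)‖ ≤ 2 * N / (p : ℝ) ^ 2 := by
        refine le_trans (norm_sum_le _ _) ?_
        have h6 : ∀ m ∈ Finset.Icc 1 (N / p), ‖f (p * m) - f p * f m‖ ≤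
            (if p ∣ m then (2 : ℝ) else 0) := by
          intro m _
          split_ifs with h
          · calc ‖f (p * m) - f p * f m‖ ≤ ‖f (p * m)‖ + ‖f p * f m‖ := norm_sub_le _ _
              _ ≤ 1 + 1 * 1 := by
                  rw [norm_mul]
                  exact add_le_add (hf.bd _) (mul_le_mul (hf.bd _) (hf.bd _) (norm_nonneg _)
                    (by norm_num))
              _ = 2 := by norm_num
          · rw [hf.mul p m ((Nat.Prime.coprime_iff_not_dvd hp.1).2 h), sub_self, norm_zero]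
        refine le_trans (Finset.sum_le_sum h6) ?_
        rw [sum_multiples (N / p) p hp.1.pos (fun _ => (2 : ℝ)), Finset.sum_const, Nat.card_Icc,
          nsmul_eq_mul, Nat.add_sub_cancel]
        have h7 : (((N / p) / p : ℕ) : ℝ) ≤ N / (p : ℝ) ^ 2 := by
          calc (((N / p) / p : ℕ) : ℝ) ≤ ((N / p : ℕ) : ℝ) / p := Nat.cast_div_le
            _ ≤ (N / p) / p := by
                apply div_le_div_of_nonneg_right Nat.cast_div_le hp0.le
            _ = N / (p : ℝ) ^ 2 := by rw [div_div, sq]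
        calc (((N / p) / p : ℕ) : ℝ) * 2 ≤ N / (p : ℝ) ^ 2 * 2 :=
              mul_le_mul_of_nonneg_right h7 (by norm_num)
          _ = 2 * N / (p : ℝ) ^ 2 := by ring
      calc Real.log p * ‖∑ m ∈ Finset.Icc 1 (N / p), (f (p * m) - f p * f m)‖
          ≤ Real.log p * (2 * N / (p : ℝ) ^ 2) :=
            mul_le_mul_of_nonneg_left h5 (Real.log_natCast_nonneg p)
        _ = 2 * N * (Real.log p / (p : ℝ) ^ 2) := by ring
    refine le_trans (Finset.sum_le_sum h4) ?_
    rw [← Finset.mul_sum]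
    have h8 := sum_le_K (PN N)
    have hN0 : (0 : ℝ) ≤ N := Nat.cast_nonneg N
    nlinarith [mul_le_mul_of_nonneg_left h8 hN0]
  rw [h1]
  calc ‖∑ p ∈ PN N, (Real.log p : ℂ) * ∑ m ∈ Finset.Icc 1 (N / p), f (p * m)‖
      = ‖PS f u + (∑ p ∈ PN N, (Real.log p : ℂ) * ∑ m ∈ Finset.Icc 1 (N / p), f (p * m) -
          PS f u)‖ := by
        congr 1
        ring
    _ ≤ ‖PS f u‖ + ‖∑ p ∈ PN N, (Real.log p : ℂ) * ∑ m ∈ Finset.Icc 1 (N / p), f (p * m) -
          PS f u‖ := norm_add_le _ _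
    _ ≤ ‖PS f u‖ + 2 * K * N := by linarith

end Pool.Agent.Ell.H1_

namespace Pool.Agent.Ell

open Finset H1_
open scoped BigOperators

theorem p_H1 : T_H1 := by
  have hl4 : 0 ≤ Real.log 4 := Real.log_nonneg (by norm_num)
  refine ⟨1 + 4 * K + Real.log 4, by have := K_nonneg; linarith, ?_⟩
  intro f hf u hu
  set N := ⌊u⌋₊ with hN
  have hNu : (N : ℝ) ≤ u := Nat.floor_le (by linarith)
  have hlu : 0 ≤ Real.log u := Real.log_nonneg hu
  have e : SS f u * (Real.log u : ℂ) =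
      ∑ n ∈ Finset.Icc 1 N, f n * ((∑ p ∈ n.primeFactors, Real.log p : ℝ) : ℂ) +
      ∑ n ∈ Finset.Icc 1 N, f n * ((Real.log n - ∑ p ∈ n.primeFactors, Real.log p : ℝ) : ℂ) +
      ∑ n ∈ Finset.Icc 1 N, f n * ((Real.log u - Real.log n : ℝ) : ℂ) := by
    unfold SS
    rw [← Finset.sum_add_distrib, ← Finset.sum_add_distrib, Finset.sum_mul]
    apply Finset.sum_congr rfl
    intro n _
    push_cast
    ring
  have b1 := main_term f hf u
  have b2 : ‖∑ n ∈ Finset.Icc 1 N,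
      f n * ((Real.log n - ∑ p ∈ n.primeFactors, Real.log p : ℝ) : ℂ)‖ ≤
      (2 * K + Real.log 4) * N := by
    refine le_trans (norm_sum_le _ _) (le_trans (Finset.sum_le_sum ?_) (sum_rest N))
    intro n hn
    rw [Finset.mem_Icc] at hn
    have h0 := rest_nonneg n hn.1
    rw [norm_mul, Complex.norm_real, Real.norm_of_nonneg h0]
    exact mul_le_of_le_one_left h0 (hf.bd n)
  have b3 : ‖∑ n ∈ Finset.Icc 1 N, f n * ((Real.log u - Real.log n : ℝ) : ℂ)‖ ≤ u := by
    refine le_trans (norm_sum_le _ _) (le_trans (Finset.sum_le_sum ?_) (sum_log_ratio u hu))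
    intro n hn
    rw [Finset.mem_Icc] at hn
    have h0 : 0 ≤ Real.log u - Real.log n := by
      rw [sub_nonneg]
      apply Real.log_le_log (by exact_mod_cast hn.1)
      exact le_trans (by exact_mod_cast hn.2) hNu
    rw [norm_mul, Complex.norm_real, Real.norm_of_nonneg h0]
    exact mul_le_of_le_one_left h0 (hf.bd n)
  have hK := K_nonneg
  have b4 : ‖SS f u‖ * Real.log u = ‖SS f u * (Real.log u : ℂ)‖ := by
    rw [norm_mul, Complex.norm_real, Real.norm_of_nonneg hlu]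
  rw [b4, e]
  have b5 := norm_add₃_le (a := ∑ n ∈ Finset.Icc 1 N,
      f n * ((∑ p ∈ n.primeFactors, Real.log p : ℝ) : ℂ))
    (b := ∑ n ∈ Finset.Icc 1 N,
      f n * ((Real.log n - ∑ p ∈ n.primeFactors, Real.log p : ℝ) : ℂ))
    (c := ∑ n ∈ Finset.Icc 1 N, f n * ((Real.log u - Real.log n : ℝ) : ℂ))
  have b6 : (4 * K + Real.log 4) * N ≤ (4 * K + Real.log 4) * u :=
    mul_le_mul_of_nonneg_left hNu (by linarith)
  linarith

end Pool.Agent.Ell
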