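import Pool.Agent.Ell.Targets

set_option autoImplicit false

/-! Halasz's theorem `T_HAL` (MP_f3f922_nt, E10): sub-targets. -/

namespace Pool.Agent.Ell

open Finset
open scoped BigOperators ComplexConjugate

/-- summatory function `∑_{n ≤ u} f n` -/
noncomputable def SS (f : ℕ → ℂ) (u : ℝ) : ℂ := ∑ n ∈ Finset.Icc 1 ⌊u⌋₊, f n

/-- `∑_{p ≤ u} f(p) log p · S(u/p)` -/
noncomputable def PS (f : ℕ → ℂ) (u : ℝ) : ℂ :=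
  ∑ p ∈ (Finset.Icc 1 ⌊u⌋₊).filter Nat.Prime, f p * (Real.log p : ℂ) * SS f (u / p)

/-- H1 -/
def T_H1 : Prop := ∃ C : ℝ, 0 < C ∧ ∀ f : ℕ → ℂ, MB f → ∀ u : ℝ, 1 ≤ u →
  ‖SS f u‖ * Real.log u ≤ ‖PS f u‖ + C * u

/-- H2 Plancherel for Dirichlet series -/
def T_H2 : Prop := ∀ (c : ℕ → ℂ) (σ : ℝ), 0 < σ → LSeriesSummable c (σ : ℂ) →
  ∫⁻ v : ℝ, ENNReal.ofReal (‖SS c (Real.exp v)‖ ^ 2 * Real.exp (-(2 * σ * v))) =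
    ∫⁻ ξ : ℝ, ENNReal.ofReal (‖LSeries c (σ + 2 * Real.pi * ξ * Complex.I)‖ ^ 2 /
      ‖(σ + 2 * Real.pi * ξ * Complex.I : ℂ)‖ ^ 2)

/-- H3 the Euler product bound -/
def T_H3 : Prop := ∃ C : ℝ, 0 < C ∧ ∀ f : ℕ → ℂ, MB f → ∀ x t : ℝ, 3 ≤ x →
  ‖LSeries f (1 + (1 / Real.log x : ℝ) + t * Complex.I)‖ ≤
    C * Real.log x * Real.exp (-(dist2 f (1 : DirichletCharacter ℂ 1) t 1 x))

/-- H4 the mean square bound (from H2, H3) -/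
def T_H4 : Prop := ∃ C : ℝ, 0 < C ∧ ∀ f : ℕ → ℂ, MB f → ∀ x A : ℝ, 3 ≤ x → 0 ≤ A →
  (∀ t : ℝ, |t| ≤ x → A ≤ dist2 f (1 : DirichletCharacter ℂ 1) t 1 x) →
  ∫ v in (0 : ℝ)..Real.log x, ‖PS f (Real.exp v)‖ ^ 2 * Real.exp (-(2 * v)) ≤
    C * Real.log x ^ 3 * (Real.exp (-(2 * A)) + Real.log x ^ 3 / x)

/-- H5 from mean square to `L¹` (from H1) -/
def T_H5 : Prop := ∃ C : ℝ, 0 < C ∧ ∀ f : ℕ → ℂ, MB f → ∀ x θ B : ℝ, 3 ≤ x → 0 < θ → θ ≤ 1 →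
  0 ≤ B →
  ∫ v in (0 : ℝ)..Real.log x, ‖PS f (Real.exp v)‖ ^ 2 * Real.exp (-(2 * v)) ≤
    B ^ 2 * Real.log x ^ 3 →
  ∫ v in (0 : ℝ)..Real.log x, ‖SS f (Real.exp v)‖ * Real.exp (-v) ≤
    Real.log x * (θ + C * (B + 1 / Real.log x) / θ)

/-- H6 from `L¹` to pointwise (from H1) -/
def T_H6 : Prop := ∃ C : ℝ, 0 < C ∧ ∀ f : ℕ → ℂ, MB f → ∀ x δ η : ℝ, 4 ≤ x → 0 < δ → δ ≤ 1 / 2 →
  0 ≤ η →
  ∫ v in (0 : ℝ)..Real.log x, ‖SS f (Real.exp v)‖ * Real.exp (-v) ≤ η * Real.log x →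
  ‖SS f x‖ ≤ x * (δ + C * (η + 1 / Real.log x) / δ) + 1

end Pool.Agent.Ell
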