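import Pool.Agent.Ell.Targets2

set_option autoImplicit false

/-! Asymptotic Elliott conjecture: basic facts for the cross sums. -/

namespace Pool.Agent.Ell.KeyA

open Finset Filter Pool.Agent.Ell
open scoped BigOperators ComplexConjugate

theorem norm_ei (x : ℝ) : ‖ei x‖ = 1 := by
  unfold ei
  exact Complex.norm_exp_ofReal_mul_I x

theorem ei_add (x y : ℝ) : ei (x + y) = ei x * ei y := by
  unfold ei
  rw [← Complex.exp_add]
  push_cast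
  ring_nf

theorem ei_sum {ι : Type*} (s : Finset ι) (g : ι → ℝ) : ei (∑ i ∈ s, g i) = ∏ i ∈ s, ei (g i) := by
  classical
  induction s using Finset.induction_on with
  | empty => simp [ei]
  | insert a s ha ih => rw [Finset.sum_insert ha, Finset.prod_insert ha, ei_add, ih]

theorem conj_ei (x : ℝ) : conj (ei x) = ei (-x) := by
  unfold ei
  rw [← Complex.exp_conj]
  congr 1
  simp

theorem nit_eq (t : ℝ) (n : ℕ) (hn : 1 ≤ n) : nit t n = ei (t * Real.log n) := by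
  unfold nit ei
  have h0 : (n : ℂ) ≠ 0 := by
    exact_mod_cast (by omega : n ≠ 0)
  rw [Complex.cpow_def_of_ne_zero h0]
  congr 1
  rw [← Complex.natCast_log]
  push_cast
  ring

theorem norm_nit (t : ℝ) (n : ℕ) : ‖nit t n‖ ≤ 1 := by
  rcases Nat.eq_zero_or_pos n with rfl | hn
  · unfold nit
    by_cases ht : t = 0
    · simp [ht]
    · have : ((t : ℂ) * Complex.I) ≠ 0 := by
        simp [ht]
      rw [Nat.cast_zero, Complex.zero_cpow this]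
      simp
  · rw [nit_eq t n hn, norm_ei]

theorem norm_prod_le_one {ι : Type*} (s : Finset ι) (g : ι → ℂ) (h : ∀ i ∈ s, ‖g i‖ ≤ 1) :
    ‖∏ i ∈ s, g i‖ ≤ 1 := by
  rw [norm_prod]
  exact Finset.prod_le_one (fun i _ => norm_nonneg _) h

theorem norm_ph {k : ℕ} (a : Fin k → ℤ) (t : Fin k → ℝ) (n : ℕ) : ‖ph a t n‖ ≤ 1 :=
  norm_prod_le_one _ _ (fun _ _ => norm_nit _ _)

theorem norm_loc {k : ℕ} (a : Fin k → ℤ) (ζ : Fin k → ℕ → ℂ) (hζ : ∀ j ℓ, ‖ζ j ℓ‖ ≤ 1) (ℓ n : ℕ) :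
    ‖loc a ζ ℓ n‖ ≤ 1 := by
  refine norm_prod_le_one _ _ (fun j _ => ?_)
  split_ifs
  · exact hζ j ℓ
  · simp

theorem norm_PhiF {k : ℕ} (a : Fin k → ℤ) (ζ : Fin k → ℕ → ℂ) (hζ : ∀ j ℓ, ‖ζ j ℓ‖ ≤ 1)
    (z w n : ℕ) : ‖PhiF a ζ z w n‖ ≤ 1 :=
  norm_prod_le_one _ _ (fun ℓ _ => norm_loc a ζ hζ ℓ n)

/-- each factor of the mean value is in the unit disc, if `k ≤ ℓ` -/
theorem norm_cfac {k : ℕ} (ζ : Fin k → ℕ → ℂ) (hζ : ∀ j ℓ, ‖ζ j ℓ‖ ≤ 1) (ℓ : ℕ) (hℓ : k ≤ ℓ)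
    (h1 : 1 ≤ ℓ) : ‖1 - (∑ j, (1 - ζ j ℓ)) / (ℓ : ℂ)‖ ≤ 1 := by
  have hℓ0 : (ℓ : ℂ) ≠ 0 := by exact_mod_cast (by omega : ℓ ≠ 0)
  have e : 1 - (∑ j, (1 - ζ j ℓ)) / (ℓ : ℂ) = (((ℓ - k : ℕ) : ℂ) + ∑ j, ζ j ℓ) / ℓ := by
    rw [Finset.sum_sub_distrib]
    simp only [Finset.sum_const, Finset.card_univ, Fintype.card_fin, nsmul_eq_mul, mul_one]
    rw [Nat.cast_sub hℓ]
    field_simp
    ring
  rw [e, norm_div]
  have h2 : ‖(ℓ : ℂ)‖ = ℓ := by simp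
  rw [h2, div_le_one (by exact_mod_cast h1)]
  refine (norm_add_le _ _).trans ?_
  have h3 : ‖∑ j, ζ j ℓ‖ ≤ k := by
    refine (norm_sum_le _ _).trans ?_
    refine (Finset.sum_le_sum (fun j _ => hζ j ℓ)).trans ?_
    simp
  have h4 : ‖((ℓ - k : ℕ) : ℂ)‖ = (ℓ : ℝ) - k := by
    rw [Complex.norm_natCast, Nat.cast_sub hℓ]
  rw [h4]
  linarith

theorem norm_cF {k : ℕ} (ζ : Fin k → ℕ → ℂ) (hζ : ∀ j ℓ, ‖ζ j ℓ‖ ≤ 1) (z w : ℕ) (hz : k ≤ z) :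
    ‖cF ζ z w‖ ≤ 1 := by
  refine norm_prod_le_one _ _ (fun ℓ hℓ => ?_)
  have h1 : z < ℓ := by
    simp only [prs, Finset.mem_filter, Finset.mem_Ioc] at hℓ
    exact hℓ.1.1
  exact norm_cfac ζ hζ ℓ (by omega) (by omega)

/-- the archimedean factor of a cross sum -/
theorem ph_cross {k : ℕ} (a : Fin k → ℤ) (t : Fin k → ℝ) (p q m : ℕ) (hm : 1 ≤ m)
    (hp : ∀ j, |a j| < p) (hq : ∀ j, |a j| < q) :
    ph a t (p * m) * conj (ph a t (q * m)) = ei (PF a t p q 0 m) := by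
  have key : ∀ (p : ℕ), (∀ j, |a j| < p) → ∀ j, (1 ≤ sh (a j) (p * m)) ∧
      ((sh (a j) (p * m) : ℕ) : ℝ) = p * m + a j := by
    intro p hp j
    have h1 := hp j
    have h2 : (0 : ℤ) < ((p * m : ℕ) : ℤ) + a j := by
      have h3 : (p : ℤ) ≤ ((p * m : ℕ) : ℤ) := by
        push_cast
        have : (1 : ℤ) ≤ m := by exact_mod_cast hm
        nlinarith [abs_nonneg (a j)]
      have := neg_abs_le (a j)
      linarith
    unfold sh
    constructor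
    · omega
    · have h4 : ((((p * m : ℕ) : ℤ) + a j).toNat : ℤ) = ((p * m : ℕ) : ℤ) + a j :=
        Int.toNat_of_nonneg h2.le
      have h5 : (((((p * m : ℕ) : ℤ) + a j).toNat : ℤ) : ℝ) = (((p * m : ℕ) : ℤ) + a j : ℤ) := by
        rw [h4]
      push_cast at h5
      push_cast
      convert h5 using 2
  unfold ph PF
  rw [map_prod, ← Finset.prod_mul_distrib, ei_sum]
  refine Finset.prod_congr rfl (fun j _ => ?_)
  obtain ⟨h1, h2⟩ := key p hp j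
  obtain ⟨h3, h4⟩ := key q hq j
  rw [nit_eq _ _ h1, nit_eq _ _ h3, conj_ei, ← ei_add, h2, h4]
  congr 1
  ring

end Pool.Agent.Ell.KeyA
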