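import Pool.Agent.Ell.KeyA

set_option autoImplicit false

/-! Asymptotic Elliott conjecture: local functions. -/

namespace Pool.Agent.Ell.KeyB

open Finset Filter Pool.Agent.Ell Pool.Agent.Ell.KeyA
open scoped BigOperators ComplexConjugate

/-- local function with prescribed values at distinct residue classes -/
noncomputable def lf {ι : Type} [Fintype ι] (ℓ : ℕ) (α : ι → ZMod ℓ) (v : ι → ℂ) (m : ℕ) : ℂ :=
  ∏ i, (letI := Classical.propDecidable ((m : ZMod ℓ) = α i); if (m : ZMod ℓ) = α i then v i else 1)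

theorem lf_eq {ι : Type} [Fintype ι] (ℓ : ℕ) (α : ι → ZMod ℓ) (hα : Function.Injective α)
    (v : ι → ℂ) (m : ℕ) :
    lf ℓ α v m = 1 + ∑ i, (letI := Classical.propDecidable ((m : ZMod ℓ) = α i);
      if (m : ZMod ℓ) = α i then (v i - 1) else 0) := by
  classical
  unfold lf
  by_cases h : ∃ i, (m : ZMod ℓ) = α i
  · obtain ⟨i0, hi0⟩ := h
    have h1 : ∀ i, i ≠ i0 → ¬ ((m : ZMod ℓ) = α i) := by
      intro i hi he
      exact hi (hα (he.symm.trans hi0))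
    rw [Finset.prod_eq_single i0, Finset.sum_eq_single i0]
    · rw [if_pos hi0, if_pos hi0]; ring
    · intro i _ hi
      rw [if_neg (h1 i hi)]
    · intro h; exact absurd (Finset.mem_univ _) h
    · intro i _ hi
      rw [if_neg (h1 i hi)]
    · intro h; exact absurd (Finset.mem_univ _) h
  · push Not at h
    rw [Finset.prod_eq_one, Finset.sum_eq_zero]
    · simp
    · intro i _
      rw [if_neg (h i)]
    · intro i _
      rw [if_neg (h i)]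

theorem sum_ind (ℓ : ℕ) (hℓ : 1 ≤ ℓ) (β : ZMod ℓ) (c : ℂ) :
    ∑ m ∈ Finset.range ℓ, (letI := Classical.propDecidable ((m : ZMod ℓ) = β);
      if (m : ZMod ℓ) = β then c else 0) = c := by
  classical
  haveI : NeZero ℓ := ⟨by omega⟩
  rw [Finset.sum_eq_single β.val]
  · rw [if_pos]
    simp
  · intro m hm hne
    rw [if_neg]
    intro he
    apply hne
    rw [← he, ZMod.val_natCast, Nat.mod_eq_of_lt (Finset.mem_range.mp hm)]
  · intro h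
    exact absurd (Finset.mem_range.mpr (ZMod.val_lt β)) h

theorem mean_lf {ι : Type} [Fintype ι] (ℓ : ℕ) (hℓ : 1 ≤ ℓ) (α : ι → ZMod ℓ)
    (hα : Function.Injective α) (v : ι → ℂ) :
    mean ℓ (fun m => lf ℓ α v m - 1) = - ((∑ i, (1 - v i)) / ℓ) := by
  classical
  unfold mean
  have h1 : ∀ m ∈ Finset.range ℓ, lf ℓ α v m - 1 =
      ∑ i, (letI := Classical.propDecidable ((m : ZMod ℓ) = α i);
        if (m : ZMod ℓ) = α i then (v i - 1) else 0) := by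
    intro m _
    rw [lf_eq ℓ α hα v m]; ring
  rw [Finset.sum_congr rfl h1, Finset.sum_comm]
  have h2 : ∀ i ∈ (Finset.univ : Finset ι), ∑ m ∈ Finset.range ℓ,
      (letI := Classical.propDecidable ((m : ZMod ℓ) = α i);
        if (m : ZMod ℓ) = α i then (v i - 1) else 0) = v i - 1 :=
    fun i _ => sum_ind ℓ hℓ (α i) (v i - 1)
  rw [Finset.sum_congr rfl h2, ← neg_div, ← Finset.sum_neg_distrib]
  congr 1
  refine Finset.sum_congr rfl (fun i _ => by ring)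

theorem norm_lf {ι : Type} [Fintype ι] (ℓ : ℕ) (α : ι → ZMod ℓ) (v : ι → ℂ) (hv : ∀ i, ‖v i‖ ≤ 1)
    (m : ℕ) : ‖lf ℓ α v m‖ ≤ 1 := by
  classical
  refine norm_prod_le_one _ _ (fun i _ => ?_)
  by_cases h : (m : ZMod ℓ) = α i
  · rw [if_pos h]; exact hv i
  · rw [if_neg h]; simp

theorem per_lf {ι : Type} [Fintype ι] (ℓ : ℕ) (α : ι → ZMod ℓ) (v : ι → ℂ) :
    Per ℓ (fun m => lf ℓ α v m - 1) := by
  intro m
  simp only [lf]
  have : ((m + ℓ : ℕ) : ZMod ℓ) = (m : ZMod ℓ) := by simp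
  rw [this]

/-- `T_MS` in terms of local functions with prescribed values at distinct residue classes -/
theorem ms_lf (hMS : T_MS) (r : ℕ) (c δ : ℝ) (hr : 1 ≤ r) (hc : 0 < c) (hc4 : c ≤ 1 / 4)
    (hδ : 0 < δ) : ∃ s : ℝ, 1 ≤ s ∧
    ∀ q0 : ℕ, 1 ≤ q0 → ∃ N0 : ℕ, ∀ N z w : ℕ, N0 ≤ N → 2 * r ≤ z → (w : ℝ) ^ s ≤ N →
    (∀ p : ℕ, p.Prime → p ∣ q0 → p ≤ z) →
    ∀ (E : ℕ → ℂ) (x y : ℕ), (∀ m, ‖E m‖ ≤ 1) → x ≤ y → y ≤ x + N →
    (∀ (q : ℕ) (ξ : ℕ → ℂ), 1 ≤ q → (q : ℝ) ≤ (N : ℝ) ^ c → Per q ξ → (∀ m, ‖ξ m‖ ≤ 1) →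
      ‖∑ m ∈ Finset.Ioc x y, E m * ξ m - mean q ξ * ∑ m ∈ Finset.Ioc x y, E m‖ ≤
        (N : ℝ) ^ (1 - c)) →
    ∀ (ξ : ℕ → ℂ), Per q0 ξ → (∀ m, ‖ξ m‖ ≤ 1) →
    ∀ (ι : Type) [Fintype ι] (α : ∀ ℓ : ℕ, ι → ZMod ℓ) (v : ℕ → ι → ℂ), Fintype.card ι ≤ r →
    (∀ ℓ ∈ prs z w, Function.Injective (α ℓ)) → (∀ ℓ i, ‖v ℓ i‖ ≤ 1) →
    ‖∑ m ∈ Finset.Ioc x y, E m * (ξ m * ∏ ℓ ∈ prs z w, lf ℓ (α ℓ) (v ℓ) m) -
      mean q0 ξ * (∏ ℓ ∈ prs z w, (1 - (∑ i, (1 - v ℓ i)) / (ℓ : ℂ))) *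
        ∑ m ∈ Finset.Ioc x y, E m‖ ≤ δ * N := by
  classical
  obtain ⟨s, hs, H⟩ := hMS r c δ hr hc hc4 hδ
  refine ⟨s, hs, fun q0 hq0 => ?_⟩
  obtain ⟨N0, H⟩ := H q0 hq0
  refine ⟨N0, ?_⟩
  intro N z w hN hz hw hq0z E x y hE hxy hyN hEq ξ hξ hξb ι _ α v hι hα hv
  have := H N z w hN hz hw hq0z E x y hE hxy hyN hEq ξ (fun ℓ m => lf ℓ (α ℓ) (v ℓ) m - 1)
    (fun ℓ => Finset.univ.image (fun i => (α ℓ i).val)) hξ hξb ?_
  · have e1 : ∀ m, (∏ ℓ ∈ prs z w, (1 + (lf ℓ (α ℓ) (v ℓ) m - 1))) =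
        ∏ ℓ ∈ prs z w, lf ℓ (α ℓ) (v ℓ) m := by
      intro m
      refine Finset.prod_congr rfl (fun ℓ _ => by ring)
    have e2 : (∏ ℓ ∈ prs z w, (1 + mean ℓ (fun m => lf ℓ (α ℓ) (v ℓ) m - 1))) =
        ∏ ℓ ∈ prs z w, (1 - (∑ i, (1 - v ℓ i)) / (ℓ : ℂ)) := by
      refine Finset.prod_congr rfl (fun ℓ hℓ => ?_)
      have hℓ' : z < ℓ := by
        simp only [prs, Finset.mem_filter, Finset.mem_Ioc] at hℓ
        exact hℓ.1.1
      rw [mean_lf ℓ (by omega) (α ℓ) (hα ℓ hℓ) (v ℓ)]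
      ring
    simp only [e1] at this
    rw [e2] at this
    exact this
  · intro ℓ hℓ
    have hℓ' : z < ℓ := by
      simp only [prs, Finset.mem_filter, Finset.mem_Ioc] at hℓ
      exact hℓ.1.1
    haveI : NeZero ℓ := ⟨by omega⟩
    refine ⟨per_lf ℓ (α ℓ) (v ℓ), ?_, ?_⟩
    · refine Finset.card_image_le.trans ?_
      rw [Finset.card_univ]
      exact hι
    · intro m
      refine ⟨?_, ?_⟩
      · have : 1 + (lf ℓ (α ℓ) (v ℓ) m - 1) = lf ℓ (α ℓ) (v ℓ) m := by ring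
        rw [this]
        exact norm_lf ℓ (α ℓ) (v ℓ) (hv ℓ) m
      · intro hne
        by_contra hcon
        apply hne
        have hno : ∀ i, ¬ ((m : ZMod ℓ) = α ℓ i) := by
          intro i hi
          apply hcon
          rw [Finset.mem_image]
          refine ⟨i, Finset.mem_univ _, ?_⟩
          rw [← hi, ZMod.val_natCast]
        have : lf ℓ (α ℓ) (v ℓ) m = 1 := by
          unfold lf
          refine Finset.prod_eq_one (fun i _ => ?_)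
          rw [if_neg (hno i)]
        simp [this]

end Pool.Agent.Ell.KeyB
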