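import Pool.Agent.Ell.KeyB

set_option autoImplicit false

/-! Asymptotic Elliott conjecture: the cross sums over one dyadic block. -/

namespace Pool.Agent.Ell.KeyC

open Finset Filter Pool.Agent.Ell Pool.Agent.Ell.KeyA Pool.Agent.Ell.KeyB
open scoped BigOperators ComplexConjugate

/-- the residue class of `m` given by `ℓ ∣ p m + a` -/
noncomputable def al (ℓ p : ℕ) (a : ℤ) : ZMod ℓ := -(a : ZMod ℓ) * (p : ZMod ℓ)⁻¹

theorem dvd_iff_al (ℓ p m : ℕ) (a : ℤ) (hℓ : ℓ.Prime) (hp : ¬ ℓ ∣ p) :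
    ((ℓ : ℤ) ∣ ((p * m : ℕ) : ℤ) + a) ↔ (m : ZMod ℓ) = al ℓ p a := by
  have : Fact ℓ.Prime := ⟨hℓ⟩
  have hp0 : (p : ZMod ℓ) ≠ 0 := by
    rw [Ne, ZMod.natCast_eq_zero_iff]; exact hp
  rw [← ZMod.intCast_zmod_eq_zero_iff_dvd]
  push_cast
  unfold al
  rw [eq_mul_inv_iff_mul_eq₀ hp0, mul_comm (m : ZMod ℓ), eq_neg_iff_add_eq_zero]

theorem loc_lf {k : ℕ} (a : Fin k → ℤ) (ζ : Fin k → ℕ → ℂ) (ℓ p m : ℕ) (hℓ : ℓ.Prime)
    (hp : ¬ ℓ ∣ p) : loc a ζ ℓ (p * m) = lf ℓ (fun j => al ℓ p (a j)) (fun j => ζ j ℓ) m := by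
  classical
  unfold loc lf
  refine Finset.prod_congr rfl (fun j _ => ?_)
  by_cases h : (m : ZMod ℓ) = al ℓ p (a j)
  · rw [if_pos h, if_pos ((dvd_iff_al ℓ p m (a j) hℓ hp).mpr h)]
  · rw [if_neg h, if_neg (fun h' => h ((dvd_iff_al ℓ p m (a j) hℓ hp).mp h'))]

theorem conj_lf {ι : Type} [Fintype ι] (ℓ : ℕ) (α : ι → ZMod ℓ) (v : ι → ℂ) (m : ℕ) :
    conj (lf ℓ α v m) = lf ℓ α (fun i => conj (v i)) m := by
  classical
  unfold lf
  rw [map_prod]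
  refine Finset.prod_congr rfl (fun i _ => ?_)
  by_cases h : (m : ZMod ℓ) = α i
  · rw [if_pos h, if_pos h]
  · rw [if_neg h, if_neg h]; simp

theorem lf_mul {ι κ : Type} [Fintype ι] [Fintype κ] (ℓ : ℕ) (α : ι → ZMod ℓ) (β : κ → ZMod ℓ)
    (v : ι → ℂ) (w : κ → ℂ) (m : ℕ) :
    lf ℓ α v m * lf ℓ β w m = lf ℓ (Sum.elim α β) (Sum.elim v w) m := by
  classical
  unfold lf
  rw [Fintype.prod_sum_type]
  rfl

theorem al_inj {k : ℕ} (a : Fin k → ℤ) (ha : Function.Injective a) (ℓ p z : ℕ) (hℓ : ℓ.Prime)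
    (hz : z < ℓ) (hp : ¬ ℓ ∣ p) (h1 : ∀ i j, |a i - a j| ≤ z) :
    Function.Injective (fun j => al ℓ p (a j)) := by
  have : Fact ℓ.Prime := ⟨hℓ⟩
  have hp0 : (p : ZMod ℓ) ≠ 0 := by
    rw [Ne, ZMod.natCast_eq_zero_iff]; exact hp
  intro i j hij
  simp only [al] at hij
  have h2 := mul_right_cancel₀ (inv_ne_zero hp0) hij
  have h3 : ((a i - a j : ℤ) : ZMod ℓ) = 0 := by
    push_cast
    linear_combination -h2
  rw [ZMod.intCast_zmod_eq_zero_iff_dvd] at h3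
  have h4 : a i - a j = 0 := by
    apply Int.eq_zero_of_abs_lt_dvd h3
    have := h1 i j
    have h5 : (z : ℤ) < ℓ := by exact_mod_cast hz
    linarith
  exact ha (by linarith)

theorem al_inj2 {k : ℕ} (a : Fin k → ℤ) (ha : Function.Injective a) (ha0 : ∀ j, a j ≠ 0)
    (ℓ p q z : ℕ) (hℓ : ℓ.Prime) (hz : z < ℓ) (hp : p.Prime) (hq : q.Prime) (hpq : p ≠ q)
    (hpz : p ≤ z) (hqz : q ≤ z) (hpa : ∀ j, |a j| < p)
    (h1 : ∀ i j, |a i - a j| ≤ z) (h2 : ∀ i j, |a i * q - a j * p| ≤ z) :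
    Function.Injective (Sum.elim (fun j => al ℓ p (a j)) (fun j => al ℓ q (a j))) := by
  have : Fact ℓ.Prime := ⟨hℓ⟩
  have hnp : ¬ ℓ ∣ p := by
    intro h
    have := Nat.le_of_dvd hp.pos h
    omega
  have hnq : ¬ ℓ ∣ q := by
    intro h
    have := Nat.le_of_dvd hq.pos h
    omega
  have hp0 : (p : ZMod ℓ) ≠ 0 := by
    rw [Ne, ZMod.natCast_eq_zero_iff]; exact hnp
  have hq0 : (q : ZMod ℓ) ≠ 0 := by
    rw [Ne, ZMod.natCast_eq_zero_iff]; exact hnq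
  refine Function.Injective.sumElim (al_inj a ha ℓ p z hℓ hz hnp h1)
    (al_inj a ha ℓ q z hℓ hz hnq h1) ?_
  intro i j hij
  simp only [al] at hij
  have h3 : ((a i * q - a j * p : ℤ) : ZMod ℓ) = 0 := by
    push_cast
    have h4 : (-(a i : ZMod ℓ) * (p : ZMod ℓ)⁻¹) * ((p : ZMod ℓ) * q) =
        (-(a j : ZMod ℓ) * (q : ZMod ℓ)⁻¹) * ((p : ZMod ℓ) * q) := by rw [hij]
    have h5 : (-(a i : ZMod ℓ) * (p : ZMod ℓ)⁻¹) * ((p : ZMod ℓ) * q) = -(a i : ZMod ℓ) * q := by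
      field_simp
    have h6 : (-(a j : ZMod ℓ) * (q : ZMod ℓ)⁻¹) * ((p : ZMod ℓ) * q) = -(a j : ZMod ℓ) * p := by
      field_simp
    rw [h5, h6] at h4
    linear_combination -h4
  rw [ZMod.intCast_zmod_eq_zero_iff_dvd] at h3
  have h4 : a i * q - a j * p = 0 := by
    apply Int.eq_zero_of_abs_lt_dvd h3
    have := h2 i j
    have h5 : (z : ℤ) < ℓ := by exact_mod_cast hz
    linarith
  have h5 : (p : ℤ) ∣ a i * q := ⟨a j, by linarith⟩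
  have h6 : (p : ℤ) ∣ a i := by
    have hcop : IsCoprime (p : ℤ) (q : ℤ) := by
      rw [Nat.isCoprime_iff_coprime]
      exact (Nat.coprime_primes hp hq).mpr hpq
    exact hcop.dvd_of_dvd_mul_right h5
  exact ha0 i (Int.eq_zero_of_abs_lt_dvd h6 (hpa i))

theorem norm_prod_sub_prod {ι : Type*} (s : Finset ι) (f g : ι → ℂ) (hf : ∀ i ∈ s, ‖f i‖ ≤ 1)
    (hg : ∀ i ∈ s, ‖g i‖ ≤ 1) : ‖∏ i ∈ s, f i - ∏ i ∈ s, g i‖ ≤ ∑ i ∈ s, ‖f i - g i‖ := by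
  classical
  induction s using Finset.induction_on with
  | empty => simp
  | insert a s ha ih =>
    rw [Finset.prod_insert ha, Finset.prod_insert ha, Finset.sum_insert ha]
    have h1 : f a * ∏ i ∈ s, f i - g a * ∏ i ∈ s, g i =
        (f a - g a) * ∏ i ∈ s, f i + g a * (∏ i ∈ s, f i - ∏ i ∈ s, g i) := by ring
    rw [h1]
    refine (norm_add_le _ _).trans ?_
    rw [norm_mul, norm_mul]
    have h2 : ‖∏ i ∈ s, f i‖ ≤ 1 :=
      norm_prod_le_one _ _ (fun i hi => hf i (Finset.mem_insert_of_mem hi))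
    have h3 := ih (fun i hi => hf i (Finset.mem_insert_of_mem hi))
      (fun i hi => hg i (Finset.mem_insert_of_mem hi))
    have h4 := hg a (Finset.mem_insert_self a s)
    have h5 : ‖f a - g a‖ * ‖∏ i ∈ s, f i‖ ≤ ‖f a - g a‖ * 1 :=
      mul_le_mul_of_nonneg_left h2 (norm_nonneg _)
    have h6 : ‖g a‖ * ‖∏ i ∈ s, f i - ∏ i ∈ s, g i‖ ≤ 1 * ∑ i ∈ s, ‖f i - g i‖ :=
      mul_le_mul h4 h3 (norm_nonneg _) zero_le_one
    linarith

/-- generalisation of `norm_cfac` -/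
theorem norm_cfac' {ι : Type} [Fintype ι] (v : ι → ℂ) (hv : ∀ i, ‖v i‖ ≤ 1) (ℓ : ℕ)
    (hℓ : Fintype.card ι ≤ ℓ) (h1 : 1 ≤ ℓ) : ‖1 - (∑ i, (1 - v i)) / (ℓ : ℂ)‖ ≤ 1 := by
  have hℓ0 : (ℓ : ℂ) ≠ 0 := by exact_mod_cast (by omega : ℓ ≠ 0)
  have e : 1 - (∑ i, (1 - v i)) / (ℓ : ℂ) =
      (((ℓ - Fintype.card ι : ℕ) : ℂ) + ∑ i, v i) / ℓ := by
    rw [Finset.sum_sub_distrib]
    simp only [Finset.sum_const, Finset.card_univ, nsmul_eq_mul, mul_one]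
    rw [Nat.cast_sub hℓ]
    field_simp
    ring
  rw [e, norm_div]
  have h2 : ‖(ℓ : ℂ)‖ = ℓ := by simp
  rw [h2, div_le_one (by exact_mod_cast h1)]
  refine (norm_add_le _ _).trans ?_
  have h3 : ‖∑ i, v i‖ ≤ Fintype.card ι := by
    refine (norm_sum_le _ _).trans ?_
    refine (Finset.sum_le_sum (fun i _ => hv i)).trans ?_
    simp
  have h4 : ‖((ℓ - Fintype.card ι : ℕ) : ℂ)‖ = (ℓ : ℝ) - Fintype.card ι := by
    rw [Complex.norm_natCast, Nat.cast_sub hℓ]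
  rw [h4]
  linarith

/-- the mean of the product is almost the product of the means -/
theorem mean_diff {k : ℕ} (ζ : Fin k → ℕ → ℂ) (hζ : ∀ j ℓ, ‖ζ j ℓ‖ ≤ 1) (z w : ℕ) (hz : 2 * k ≤ z)
    (hz1 : 1 ≤ z) :
    ‖∏ ℓ ∈ prs z w, (1 - (∑ i : Fin k ⊕ Fin k,
        (1 - Sum.elim (fun j => ζ j ℓ) (fun j => conj (ζ j ℓ)) i)) / (ℓ : ℂ)) -
      cF ζ z w * conj (cF ζ z w)‖ ≤ 4 * k ^ 2 / z := by
  have hmem : ∀ ℓ ∈ prs z w, z < ℓ ∧ ℓ ≤ w := by
    intro ℓ hℓ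
    simp only [prs, Finset.mem_filter, Finset.mem_Ioc] at hℓ
    exact ⟨hℓ.1.1, hℓ.1.2⟩
  unfold cF
  rw [map_prod, ← Finset.prod_mul_distrib]
  refine (norm_prod_sub_prod _ _ _ ?_ ?_).trans ?_
  · intro ℓ hℓ
    have := (hmem ℓ hℓ).1
    refine norm_cfac' _ ?_ ℓ ?_ (by omega)
    · intro i
      rcases i with j | j
      · exact hζ j ℓ
      · simp only [Sum.elim_inr, RCLike.norm_conj]
        exact hζ j ℓ
    · simp only [Fintype.card_sum, Fintype.card_fin]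
      omega
  · intro ℓ hℓ
    have := (hmem ℓ hℓ).1
    rw [norm_mul, RCLike.norm_conj]
    have h1 := norm_cfac ζ hζ ℓ (by omega) (by omega)
    exact mul_le_one₀ h1 (norm_nonneg _) h1
  · have h1 : ∀ ℓ ∈ prs z w, ‖(1 - (∑ i : Fin k ⊕ Fin k,
        (1 - Sum.elim (fun j => ζ j ℓ) (fun j => conj (ζ j ℓ)) i)) / (ℓ : ℂ)) -
        (1 - (∑ j, (1 - ζ j ℓ)) / (ℓ : ℂ)) * conj (1 - (∑ j, (1 - ζ j ℓ)) / (ℓ : ℂ))‖ ≤
        4 * k ^ 2 * (((ℓ : ℝ)) ^ 2)⁻¹ := by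
      intro ℓ hℓ
      have hl := (hmem ℓ hℓ).1
      rw [Fintype.sum_sum_type]
      simp only [Sum.elim_inl, Sum.elim_inr]
      have h2 : conj (1 - (∑ j, (1 - ζ j ℓ)) / (ℓ : ℂ)) =
          1 - (∑ j, (1 - conj (ζ j ℓ))) / (ℓ : ℂ) := by
        simp [map_sum]
      rw [h2]
      have h3 : ‖∑ j, (1 - ζ j ℓ)‖ ≤ 2 * k := by
        refine (norm_sum_le _ _).trans ?_
        have : ∀ j ∈ (Finset.univ : Finset (Fin k)), ‖1 - ζ j ℓ‖ ≤ 2 := by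
          intro j _
          refine (norm_sub_le _ _).trans ?_
          have := hζ j ℓ
          simp only [norm_one]
          linarith
        refine (Finset.sum_le_sum this).trans ?_
        simp only [Finset.sum_const, Finset.card_univ, Fintype.card_fin, nsmul_eq_mul]
        linarith
      have h4 : ‖∑ j, (1 - conj (ζ j ℓ))‖ ≤ 2 * k := by
        refine (norm_sum_le _ _).trans ?_
        have : ∀ j ∈ (Finset.univ : Finset (Fin k)), ‖1 - conj (ζ j ℓ)‖ ≤ 2 := by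
          intro j _
          refine (norm_sub_le _ _).trans ?_
          have := hζ j ℓ
          simp only [norm_one, RCLike.norm_conj]
          linarith
        refine (Finset.sum_le_sum this).trans ?_
        simp only [Finset.sum_const, Finset.card_univ, Fintype.card_fin, nsmul_eq_mul]
        linarith
      set S := ∑ j, (1 - ζ j ℓ)
      set T := ∑ j, (1 - conj (ζ j ℓ))
      have h5 : (1 - (S + T) / (ℓ : ℂ)) - (1 - S / (ℓ : ℂ)) * (1 - T / (ℓ : ℂ)) =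
          - (S * T * ((ℓ : ℂ) ^ 2)⁻¹) := by
        have hℓ0 : (ℓ : ℂ) ≠ 0 := by exact_mod_cast (by omega : ℓ ≠ 0)
        field_simp
        ring
      rw [h5, norm_neg, norm_mul, norm_mul]
      have h6 : ‖((ℓ : ℂ) ^ 2)⁻¹‖ = (((ℓ : ℝ)) ^ 2)⁻¹ := by
        simp
      rw [h6]
      have h7 : ‖S‖ * ‖T‖ ≤ (2 * k) * (2 * k) :=
        mul_le_mul h3 h4 (norm_nonneg _) (by positivity)
      have h8 : (0 : ℝ) ≤ (((ℓ : ℝ)) ^ 2)⁻¹ := by positivity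
      calc ‖S‖ * ‖T‖ * (((ℓ : ℝ)) ^ 2)⁻¹ ≤ ((2 * k) * (2 * k)) * (((ℓ : ℝ)) ^ 2)⁻¹ :=
            mul_le_mul_of_nonneg_right h7 h8
        _ = 4 * k ^ 2 * (((ℓ : ℝ)) ^ 2)⁻¹ := by ring
    refine (Finset.sum_le_sum h1).trans ?_
    rw [← Finset.mul_sum]
    have h2 : ∑ ℓ ∈ prs z w, (((ℓ : ℝ)) ^ 2)⁻¹ ≤ 1 / z := by
      by_cases hzw : z ≤ w
      · have h3 : ∑ ℓ ∈ prs z w, (((ℓ : ℝ)) ^ 2)⁻¹ ≤ ∑ ℓ ∈ Finset.Ioc z w, (((ℓ : ℝ)) ^ 2)⁻¹ := by
          refine Finset.sum_le_sum_of_subset_of_nonneg (Finset.filter_subset _ _) ?_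
          intro i _ _
          positivity
        have h4 := sum_Ioc_inv_sq_le_sub (α := ℝ) (by omega : z ≠ 0) hzw
        have h5 : (0 : ℝ) ≤ ((w : ℝ))⁻¹ := by positivity
        have h6 : (1 : ℝ) / z = (z : ℝ)⁻¹ := one_div _
        rw [h6]
        linarith
      · have : prs z w = ∅ := by
          unfold prs
          rw [Finset.Ioc_eq_empty (by omega)]
          simp
        rw [this]
        simp
    calc 4 * (k : ℝ) ^ 2 * ∑ ℓ ∈ prs z w, (((ℓ : ℝ)) ^ 2)⁻¹ ≤ 4 * (k : ℝ) ^ 2 * (1 / z) :=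
          mul_le_mul_of_nonneg_left h2 (by positivity)
      _ = 4 * k ^ 2 / z := by ring

/-- dyadic decomposition -/
theorem dyadic (g : ℕ → ℂ) (K η : ℝ) (N1 X : ℕ) (hN1 : 1 ≤ N1) (hη : 0 ≤ η)
    (hg : ∀ m, 1 ≤ m → ‖g m‖ ≤ K)
    (h : ∀ N, N1 ≤ N → N ≤ X → ∀ x y, N ≤ x → x ≤ y → y ≤ 2 * N →
      ‖∑ m ∈ Finset.Ioc x y, g m‖ ≤ η * N) :
    ∀ M, M ≤ X → ‖∑ m ∈ Finset.Ioc 0 M, g m‖ ≤ 2 * K * N1 + 3 * η * M := by
  have hK : 0 ≤ K := (norm_nonneg _).trans (hg 1 le_rfl)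
  intro M
  induction M using Nat.strong_induction_on with
  | _ M ih =>
    intro hMX
    by_cases hM : M < 2 * N1
    · have h1 : ‖∑ m ∈ Finset.Ioc 0 M, g m‖ ≤ ∑ m ∈ Finset.Ioc 0 M, K := by
        refine (norm_sum_le _ _).trans (Finset.sum_le_sum (fun m hm => ?_))
        exact hg m (by rw [Finset.mem_Ioc] at hm; omega)
      rw [Finset.sum_const, Nat.card_Ioc, nsmul_eq_mul] at h1
      have h2 : ((M - 0 : ℕ) : ℝ) ≤ 2 * N1 := by
        have : (M - 0 : ℕ) ≤ 2 * N1 := by omega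
        exact_mod_cast this
      have h3 : ((M - 0 : ℕ) : ℝ) * K ≤ 2 * N1 * K := mul_le_mul_of_nonneg_right h2 hK
      have h4 : 0 ≤ 3 * η * M := by positivity
      linarith
    · push Not at hM
      set N := (M + 1) / 2 with hN
      have hNM : N < M := by omega
      have hN1N : N1 ≤ N := by omega
      have hM2N : M ≤ 2 * N := by omega
      have h1 := ih N hNM (by omega)
      have h2 := h N hN1N (by omega) N M le_rfl hNM.le hM2N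
      have h3 : ∑ m ∈ Finset.Ioc 0 M, g m = ∑ m ∈ Finset.Ioc 0 N, g m + ∑ m ∈ Finset.Ioc N M, g m := by
        rw [Finset.sum_Ioc_consecutive _ (Nat.zero_le _) hNM.le]
      rw [h3]
      refine (norm_add_le _ _).trans ?_
      have h4 : (N : ℝ) ≤ (M + 1) / 2 := by
        have : 2 * N ≤ M + 1 := by omega
        have h5 : (2 : ℝ) * N ≤ M + 1 := by exact_mod_cast this
        linarith
      have h5 : (2 : ℝ) ≤ M := by
        have : 2 ≤ M := by omega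
        exact_mod_cast this
      nlinarith

end Pool.Agent.Ell.KeyC
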