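import Pool.Agent.Ell.KeyC

set_option autoImplicit false

/-! Asymptotic Elliott conjecture: the cross sums. -/

namespace Pool.Agent.Ell.KeyD

open Finset Filter Pool.Agent.Ell Pool.Agent.Ell.KeyA Pool.Agent.Ell.KeyB Pool.Agent.Ell.KeyC
open scoped BigOperators ComplexConjugate

/-- the centred structured function -/
noncomputable def Hf {k : ℕ} (a : Fin k → ℤ) (t : Fin k → ℝ) (ζ : Fin k → ℕ → ℂ) (ξ : ℕ → ℂ)
    (z w : ℕ) (n : ℕ) : ℂ := ph a t n * ξ n * (PhiF a ζ z w n - cF ζ z w)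

theorem norm_Hf {k : ℕ} (a : Fin k → ℤ) (t : Fin k → ℝ) (ζ : Fin k → ℕ → ℂ) (ξ : ℕ → ℂ)
    (z w : ℕ) (hz : k ≤ z) (hζ : ∀ j ℓ, ‖ζ j ℓ‖ ≤ 1) (hξ : ∀ n, ‖ξ n‖ ≤ 1) (n : ℕ) :
    ‖Hf a t ζ ξ z w n‖ ≤ 2 := by
  unfold Hf
  rw [norm_mul, norm_mul]
  have h1 := norm_ph a t n
  have h2 := hξ n
  have h3 : ‖PhiF a ζ z w n - cF ζ z w‖ ≤ 2 := by
    refine (norm_sub_le _ _).trans ?_
    have := norm_PhiF a ζ hζ z w n
    have := norm_cF ζ hζ z w hz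
    linarith
  have h4 : ‖ph a t n‖ * ‖ξ n‖ ≤ 1 := mul_le_one₀ h1 (norm_nonneg _) h2
  calc ‖ph a t n‖ * ‖ξ n‖ * ‖PhiF a ζ z w n - cF ζ z w‖ ≤ 1 * 2 :=
        mul_le_mul h4 h3 (norm_nonneg _) zero_le_one
    _ = 2 := by ring

theorem per_cross (q0 : ℕ) (ξ : ℕ → ℂ) (hξ : Per q0 ξ) (p q : ℕ) :
    Per q0 (fun m => ξ (p * m) * conj (ξ (q * m))) := by
  have h : ∀ (b n : ℕ), ξ (n + b * q0) = ξ n := by
    intro b
    induction b with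
    | zero => intro n; simp
    | succ b ih =>
      intro n
      have : n + (b + 1) * q0 = (n + b * q0) + q0 := by ring
      rw [this, hξ, ih]
  intro m
  simp only
  have h1 : p * (m + q0) = p * m + p * q0 := by ring
  have h2 : q * (m + q0) = q * m + q * q0 := by ring
  rw [h1, h2, h, h]

/-- the cross sum over one dyadic block, from the four applications of `T_MS` -/
theorem block {k : ℕ} (a : Fin k → ℤ) (ha : Function.Injective a) (ha0 : ∀ j, a j ≠ 0)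
    (p q : ℕ) (hp : p.Prime) (hq : q.Prime) (hpq : p ≠ q) (hpa : ∀ j, |a j| < p)
    (hqa : ∀ j, |a j| < q) (z w : ℕ) (hz : 2 * k ≤ z) (hpz : p ≤ z) (hqz : q ≤ z)
    (h1 : ∀ i j, |a i - a j| ≤ z) (h2 : ∀ i j, |a i * q - a j * p| ≤ z)
    (t : Fin k → ℝ) (ζ : Fin k → ℕ → ℂ) (hζ : ∀ j ℓ, ‖ζ j ℓ‖ ≤ 1) (ξ : ℕ → ℂ) (q0 : ℕ)
    (hξ : Per q0 ξ) (hξb : ∀ n, ‖ξ n‖ ≤ 1) (x y N : ℕ) (η : ℝ) (hx : 1 ≤ x)
    (hyx : y ≤ x + N)
    (H : ∀ (ξ : ℕ → ℂ), Per q0 ξ → (∀ m, ‖ξ m‖ ≤ 1) →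
      ∀ (ι : Type) [Fintype ι] (α : ∀ ℓ : ℕ, ι → ZMod ℓ) (v : ℕ → ι → ℂ), Fintype.card ι ≤ 2 * k →
      (∀ ℓ ∈ prs z w, Function.Injective (α ℓ)) → (∀ ℓ i, ‖v ℓ i‖ ≤ 1) →
      ‖∑ m ∈ Finset.Ioc x y, ei (PF a t p q 0 m) * (ξ m * ∏ ℓ ∈ prs z w, lf ℓ (α ℓ) (v ℓ) m) -
        mean q0 ξ * (∏ ℓ ∈ prs z w, (1 - (∑ i, (1 - v ℓ i)) / (ℓ : ℂ))) *
        ∑ m ∈ Finset.Ioc x y, ei (PF a t p q 0 m)‖ ≤ η * N) :
    ‖∑ m ∈ Finset.Ioc x y, Hf a t ζ ξ z w (p * m) * conj (Hf a t ζ ξ z w (q * m))‖ ≤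
      (4 * η + 4 * k ^ 2 / z) * N := by
  classical
  have hmem : ∀ ℓ ∈ prs z w, z < ℓ ∧ ℓ.Prime := by
    intro ℓ hℓ
    simp only [prs, Finset.mem_filter, Finset.mem_Ioc] at hℓ
    exact ⟨hℓ.1.1, hℓ.2⟩
  have hz1 : 1 ≤ z := by have := hp.pos; omega
  have hnp : ∀ ℓ ∈ prs z w, ¬ ℓ ∣ p := by
    intro ℓ hℓ h
    have := Nat.le_of_dvd hp.pos h
    have := (hmem ℓ hℓ).1
    omega
  have hnq : ∀ ℓ ∈ prs z w, ¬ ℓ ∣ q := by
    intro ℓ hℓ h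
    have := Nat.le_of_dvd hq.pos h
    have := (hmem ℓ hℓ).1
    omega
  set c := cF ζ z w with hc
  set Ξ : ℕ → ℂ := fun m => ξ (p * m) * conj (ξ (q * m)) with hΞ
  have hΞp : Per q0 Ξ := per_cross q0 ξ hξ p q
  have hΞb : ∀ m, ‖Ξ m‖ ≤ 1 := by
    intro m
    simp only [hΞ, norm_mul, RCLike.norm_conj]
    exact mul_le_one₀ (hξb _) (norm_nonneg _) (hξb _)
  -- the four instances
  have hζc : ∀ j ℓ, ‖conj (ζ j ℓ)‖ ≤ 1 := by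
    intro j ℓ; rw [RCLike.norm_conj]; exact hζ j ℓ
  have I1 := H Ξ hΞp hΞb (Fin k ⊕ Fin k)
    (fun ℓ => Sum.elim (fun j => al ℓ p (a j)) (fun j => al ℓ q (a j)))
    (fun ℓ => Sum.elim (fun j => ζ j ℓ) (fun j => conj (ζ j ℓ)))
    (by simp only [Fintype.card_sum, Fintype.card_fin]; omega)
    (fun ℓ hℓ => al_inj2 a ha ha0 ℓ p q z (hmem ℓ hℓ).2 (hmem ℓ hℓ).1 hp hq hpq hpz hqz hpa h1 h2)
    (by
      intro ℓ i
      rcases i with j | j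
      · exact hζ j ℓ
      · exact hζc j ℓ)
  have I2 := H Ξ hΞp hΞb (Fin k) (fun ℓ j => al ℓ p (a j)) (fun ℓ j => ζ j ℓ)
    (by simp only [Fintype.card_fin]; omega)
    (fun ℓ hℓ => al_inj a ha ℓ p z (hmem ℓ hℓ).2 (hmem ℓ hℓ).1 (hnp ℓ hℓ) h1)
    (fun ℓ j => hζ j ℓ)
  have I3 := H Ξ hΞp hΞb (Fin k) (fun ℓ j => al ℓ q (a j)) (fun ℓ j => conj (ζ j ℓ))
    (by simp only [Fintype.card_fin]; omega)
    (fun ℓ hℓ => al_inj a ha ℓ q z (hmem ℓ hℓ).2 (hmem ℓ hℓ).1 (hnq ℓ hℓ) h1)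
    (fun ℓ j => hζc j ℓ)
  have I4 := H Ξ hΞp hΞb (Fin 0) (fun ℓ j => j.elim0) (fun ℓ j => j.elim0)
    (by simp) (fun ℓ hℓ => fun i => i.elim0) (fun ℓ j => j.elim0)
  set SE := ∑ m ∈ Finset.Ioc x y, ei (PF a t p q 0 m) with hSE
  set P1 := ∏ ℓ ∈ prs z w, (1 - (∑ i : Fin k ⊕ Fin k,
        (1 - Sum.elim (fun j => ζ j ℓ) (fun j => conj (ζ j ℓ)) i)) / (ℓ : ℂ)) with hP1
  have hc2 : (∏ ℓ ∈ prs z w, (1 - (∑ j, (1 - ζ j ℓ)) / (ℓ : ℂ))) = c := rfl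
  have hc3 : (∏ ℓ ∈ prs z w, (1 - (∑ j, (1 - conj (ζ j ℓ))) / (ℓ : ℂ))) = conj c := by
    rw [← hc2, map_prod]
    refine Finset.prod_congr rfl (fun ℓ _ => ?_)
    simp [map_sum]
  have hc4 : (∏ ℓ ∈ prs z w, (1 - (∑ i : Fin 0, ((1 : ℂ) - (i.elim0 : ℂ))) / (ℓ : ℂ))) = 1 := by
    refine Finset.prod_eq_one (fun ℓ _ => ?_)
    simp
  have e1 : ∀ m, (∏ ℓ ∈ prs z w, lf ℓ (Sum.elim (fun j => al ℓ p (a j)) (fun j => al ℓ q (a j)))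
      (Sum.elim (fun j => ζ j ℓ) (fun j => conj (ζ j ℓ))) m) =
      PhiF a ζ z w (p * m) * conj (PhiF a ζ z w (q * m)) := by
    intro m
    unfold PhiF
    rw [map_prod, ← Finset.prod_mul_distrib]
    refine Finset.prod_congr rfl (fun ℓ hℓ => ?_)
    rw [loc_lf a ζ ℓ p m (hmem ℓ hℓ).2 (hnp ℓ hℓ), loc_lf a ζ ℓ q m (hmem ℓ hℓ).2 (hnq ℓ hℓ),
      conj_lf, lf_mul]
  have e2 : ∀ m, (∏ ℓ ∈ prs z w, lf ℓ (fun j => al ℓ p (a j)) (fun j => ζ j ℓ) m) =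
      PhiF a ζ z w (p * m) := by
    intro m
    unfold PhiF
    refine Finset.prod_congr rfl (fun ℓ hℓ => ?_)
    rw [loc_lf a ζ ℓ p m (hmem ℓ hℓ).2 (hnp ℓ hℓ)]
  have e3 : ∀ m, (∏ ℓ ∈ prs z w, lf ℓ (fun j => al ℓ q (a j)) (fun j => conj (ζ j ℓ)) m) =
      conj (PhiF a ζ z w (q * m)) := by
    intro m
    unfold PhiF
    rw [map_prod]
    refine Finset.prod_congr rfl (fun ℓ hℓ => ?_)
    rw [loc_lf a ζ ℓ q m (hmem ℓ hℓ).2 (hnq ℓ hℓ), conj_lf]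
  have e4 : ∀ m : ℕ, (∏ ℓ ∈ prs z w, lf ℓ (fun j : Fin 0 => (j.elim0 : ZMod ℓ))
      (fun j => (j.elim0 : ℂ)) m) = 1 := by
    intro m
    refine Finset.prod_eq_one (fun ℓ _ => ?_)
    unfold lf
    simp
  simp only [e1] at I1
  simp only [e2] at I2
  simp only [e3] at I3
  simp only [e4] at I4
  rw [hc2] at I2
  rw [hc3] at I3
  have I4' : ‖∑ m ∈ Finset.Ioc x y, ei (PF a t p q 0 m) * (Ξ m * 1) -
      mean q0 Ξ * 1 * SE‖ ≤ η * N := by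
    convert I4 using 4
    rw [hc4]
  -- the decomposition
  have hdec : ∑ m ∈ Finset.Ioc x y, Hf a t ζ ξ z w (p * m) * conj (Hf a t ζ ξ z w (q * m)) =
      (∑ m ∈ Finset.Ioc x y, ei (PF a t p q 0 m) *
        (Ξ m * (PhiF a ζ z w (p * m) * conj (PhiF a ζ z w (q * m)))) - mean q0 Ξ * P1 * SE)
      - conj c * (∑ m ∈ Finset.Ioc x y, ei (PF a t p q 0 m) * (Ξ m * PhiF a ζ z w (p * m)) -
        mean q0 Ξ * c * SE)
      - c * (∑ m ∈ Finset.Ioc x y, ei (PF a t p q 0 m) * (Ξ m * conj (PhiF a ζ z w (q * m))) -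
        mean q0 Ξ * conj c * SE)
      + c * conj c * (∑ m ∈ Finset.Ioc x y, ei (PF a t p q 0 m) * (Ξ m * 1) -
        mean q0 Ξ * 1 * SE)
      + (P1 - c * conj c) * (mean q0 Ξ * SE) := by
    have hsum : ∑ m ∈ Finset.Ioc x y, Hf a t ζ ξ z w (p * m) * conj (Hf a t ζ ξ z w (q * m)) =
        ∑ m ∈ Finset.Ioc x y, (ei (PF a t p q 0 m) *
        (Ξ m * (PhiF a ζ z w (p * m) * conj (PhiF a ζ z w (q * m))))
        - conj c * (ei (PF a t p q 0 m) * (Ξ m * PhiF a ζ z w (p * m)))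
        - c * (ei (PF a t p q 0 m) * (Ξ m * conj (PhiF a ζ z w (q * m))))
        + c * conj c * (ei (PF a t p q 0 m) * (Ξ m * 1))) := by
      refine Finset.sum_congr rfl (fun m hm => ?_)
      rw [Finset.mem_Ioc] at hm
      have := ph_cross a t p q m (by omega) hpa hqa
      rw [← this]
      unfold Hf
      simp only [map_mul, map_sub, hΞ]
      rw [← hc]
      ring
    rw [hsum, Finset.sum_add_distrib, Finset.sum_sub_distrib, Finset.sum_sub_distrib,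
      ← Finset.mul_sum, ← Finset.mul_sum, ← Finset.mul_sum]
    ring
  rw [hdec]
  have hcn : ‖c‖ ≤ 1 := norm_cF ζ hζ z w (by omega)
  have hccn : ‖conj c‖ ≤ 1 := by rw [RCLike.norm_conj]; exact hcn
  have hccc : ‖c * conj c‖ ≤ 1 := by
    rw [norm_mul]; exact mul_le_one₀ hcn (norm_nonneg _) hccn
  have hmean : ‖mean q0 Ξ‖ ≤ 1 := by
    unfold mean
    rw [norm_div]
    rcases Nat.eq_zero_or_pos q0 with h0 | h0
    · rw [h0]; simp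
    · have : ‖(q0 : ℂ)‖ = q0 := by simp
      rw [this, div_le_one (by exact_mod_cast h0)]
      refine (norm_sum_le _ _).trans ?_
      refine (Finset.sum_le_sum (fun m _ => hΞb m)).trans ?_
      simp
  have hSEn : ‖SE‖ ≤ N := by
    rw [hSE]
    refine (norm_sum_le _ _).trans ?_
    simp only [norm_ei, Finset.sum_const, Nat.card_Ioc, nsmul_eq_mul, mul_one]
    have : y - x ≤ N := by omega
    exact_mod_cast this
  have hd := mean_diff ζ hζ z w hz hz1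
  rw [← hP1, ← hc] at hd
  have b1 := I1
  have b2 : ‖conj c * (∑ m ∈ Finset.Ioc x y, ei (PF a t p q 0 m) * (Ξ m * PhiF a ζ z w (p * m)) -
        mean q0 Ξ * c * SE)‖ ≤ η * N := by
    rw [norm_mul]
    calc _ ≤ 1 * ‖(∑ m ∈ Finset.Ioc x y, ei (PF a t p q 0 m) * (Ξ m * PhiF a ζ z w (p * m)) -
        mean q0 Ξ * c * SE)‖ := mul_le_mul_of_nonneg_right hccn (norm_nonneg _)
      _ ≤ _ := by rw [one_mul]; exact I2
  have b3 : ‖c * (∑ m ∈ Finset.Ioc x y, ei (PF a t p q 0 m) *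
        (Ξ m * conj (PhiF a ζ z w (q * m))) - mean q0 Ξ * conj c * SE)‖ ≤ η * N := by
    rw [norm_mul]
    calc _ ≤ 1 * ‖(∑ m ∈ Finset.Ioc x y, ei (PF a t p q 0 m) *
        (Ξ m * conj (PhiF a ζ z w (q * m))) - mean q0 Ξ * conj c * SE)‖ :=
          mul_le_mul_of_nonneg_right hcn (norm_nonneg _)
      _ ≤ _ := by rw [one_mul]; exact I3
  have b4 : ‖c * conj c * (∑ m ∈ Finset.Ioc x y, ei (PF a t p q 0 m) * (Ξ m * 1) -
        mean q0 Ξ * 1 * SE)‖ ≤ η * N := by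
    rw [norm_mul]
    calc _ ≤ 1 * ‖(∑ m ∈ Finset.Ioc x y, ei (PF a t p q 0 m) * (Ξ m * 1) -
        mean q0 Ξ * 1 * SE)‖ := mul_le_mul_of_nonneg_right hccc (norm_nonneg _)
      _ ≤ _ := by rw [one_mul]; exact I4'
  have b5 : ‖(P1 - c * conj c) * (mean q0 Ξ * SE)‖ ≤ 4 * k ^ 2 / z * N := by
    rw [norm_mul, norm_mul]
    have : ‖mean q0 Ξ‖ * ‖SE‖ ≤ 1 * N := mul_le_mul hmean hSEn (norm_nonneg _) zero_le_one
    calc ‖P1 - c * conj c‖ * (‖mean q0 Ξ‖ * ‖SE‖) ≤ (4 * (k : ℝ) ^ 2 / z) * (1 * N) :=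
          mul_le_mul hd this (by positivity) (by positivity)
      _ = 4 * k ^ 2 / z * N := by ring
  refine (norm_add_le _ _).trans ?_
  refine (add_le_add (norm_add_le _ _) le_rfl).trans ?_
  refine (add_le_add (add_le_add (norm_sub_le _ _) le_rfl) le_rfl).trans ?_
  refine (add_le_add (add_le_add (add_le_add (norm_sub_le _ _) le_rfl) le_rfl) le_rfl).trans ?_
  linarith

end Pool.Agent.Ell.KeyD
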