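import Pool.Agent.Ell.KeyD

set_option autoImplicit false

/-! Asymptotic Elliott conjecture: the cross sums up to `x / max p q`. -/

namespace Pool.Agent.Ell.KeyE

open Finset Filter Pool.Agent.Ell Pool.Agent.Ell.KeyA Pool.Agent.Ell.KeyB Pool.Agent.Ell.KeyC
  Pool.Agent.Ell.KeyD
open scoped BigOperators ComplexConjugate

/-- the powers: everything that has to hold for `N ≥ δ x` if `x` is large -/
theorem large_x (δ C : ℝ) (hδ : 0 < δ) (hC : 0 < C) (M : ℕ) :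
    ∀ᶠ x : ℕ in atTop, 1 ≤ x ∧ ∀ N : ℕ, δ * x ≤ N → M ≤ N ∧ (x : ℝ) ^ C ≤ (N : ℝ) ^ (2 * C) ∧
      (x : ℝ) ^ (1 / 2 : ℝ) ≤ N := by
  have h1 : ∀ᶠ x : ℕ in atTop, (M : ℝ) ≤ δ * x := by
    have : Tendsto (fun x : ℕ => δ * (x : ℝ)) atTop atTop :=
      tendsto_natCast_atTop_atTop.const_mul_atTop hδ
    exact this.eventually_ge_atTop _
  have h2 : ∀ᶠ x : ℕ in atTop, 1 / δ ^ 2 ≤ (x : ℝ) :=
    (tendsto_natCast_atTop_atTop (R := ℝ)).eventually_ge_atTop _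
  filter_upwards [h1, h2, eventually_ge_atTop 1] with x hx1 hx2 hx3
  refine ⟨hx3, fun N hN => ?_⟩
  have hx3' : (1 : ℝ) ≤ x := by exact_mod_cast hx3
  have hx0 : (0 : ℝ) < x := by linarith
  have hsq : (x : ℝ) ^ (1 / 2 : ℝ) ≤ N := by
    rw [← Real.sqrt_eq_rpow, Real.sqrt_le_left (by positivity)]
    have h3 : (x : ℝ) ≤ (δ * x) ^ 2 := by
      have : 1 ≤ δ ^ 2 * x := by
        rw [div_le_iff₀ (by positivity)] at hx2
        linarith
      nlinarith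
    refine h3.trans ?_
    exact pow_le_pow_left₀ (by positivity) hN 2
  refine ⟨by exact_mod_cast hx1.trans hN, ?_, hsq⟩
  have h4 : (x : ℝ) ^ C = ((x : ℝ) ^ (1 / 2 : ℝ)) ^ (2 * C) := by
    rw [← Real.rpow_mul hx0.le]
    congr 1
    ring
  rw [h4]
  exact Real.rpow_le_rpow (by positivity) hsq (by positivity)

theorem w_pow (x : ℕ) (A s : ℝ) (hx : 1 ≤ x) (hs : 1 ≤ s) (hA : 2 * s ≤ A) :
    ((⌊(x : ℝ) ^ (1 / A)⌋₊ : ℕ) : ℝ) ^ s ≤ (x : ℝ) ^ (1 / 2 : ℝ) := by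
  have hx' : (1 : ℝ) ≤ x := by exact_mod_cast hx
  have hA0 : 0 < A := by linarith
  have h1 : ((⌊(x : ℝ) ^ (1 / A)⌋₊ : ℕ) : ℝ) ≤ (x : ℝ) ^ (1 / A) := Nat.floor_le (by positivity)
  have h2 : ((⌊(x : ℝ) ^ (1 / A)⌋₊ : ℕ) : ℝ) ^ s ≤ ((x : ℝ) ^ (1 / A)) ^ s :=
    Real.rpow_le_rpow (by positivity) h1 (by linarith)
  refine h2.trans ?_
  rw [← Real.rpow_mul (by linarith)]
  refine Real.rpow_le_rpow_of_exponent_le hx' ?_
  rw [one_div, inv_mul_le_iff₀ hA0]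
  linarith

/-- conditions on `z` -/
theorem large_z {k : ℕ} (a : Fin k → ℤ) (p q : ℕ) (δ : ℝ) (hδ : 0 < δ) :
    ∀ᶠ z : ℕ in atTop, 4 * k ≤ z ∧ p ≤ z ∧ q ≤ z ∧ 1 ≤ z ∧ (∀ i j, |a i - a j| ≤ z) ∧
      (∀ i j, |a i * q - a j * p| ≤ z) ∧ 4 * (k : ℝ) ^ 2 / z ≤ δ := by
  have h1 : ∀ᶠ z : ℕ in atTop, ∀ i j, |a i - a j| ≤ (z : ℤ) := by
    rw [eventually_all]
    intro i
    rw [eventually_all]
    intro j
    filter_upwards [eventually_ge_atTop (|a i - a j|).toNat] with z hz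
    omega
  have h2 : ∀ᶠ z : ℕ in atTop, ∀ i j, |a i * q - a j * p| ≤ (z : ℤ) := by
    rw [eventually_all]
    intro i
    rw [eventually_all]
    intro j
    filter_upwards [eventually_ge_atTop (|a i * q - a j * p|).toNat] with z hz
    omega
  have h3 : ∀ᶠ z : ℕ in atTop, 4 * (k : ℝ) ^ 2 / z ≤ δ := by
    have : Tendsto (fun z : ℕ => 4 * (k : ℝ) ^ 2 / (z : ℝ)) atTop (nhds 0) :=
      tendsto_const_nhds.div_atTop tendsto_natCast_atTop_atTop
    exact (this.eventually_lt_const hδ).mono (fun _ h => h.le)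
  filter_upwards [h1, h2, h3, eventually_ge_atTop (4 * k), eventually_ge_atTop p,
    eventually_ge_atTop q, eventually_ge_atTop 1] with z a1 a2 a3 a4 a5 a6 a7
  exact ⟨a4, a5, a6, a7, a1, a2, a3⟩

/-- the cross sums of the centred structured function -/
theorem cross (hMS : T_MS) (hEQ : T_EQ) (k : ℕ) (a : Fin k → ℤ) (p q : ℕ) (C δ : ℝ)
    (hk : 1 ≤ k) (ha : Function.Injective a) (ha0 : ∀ j, a j ≠ 0) (hp : p.Prime) (hq : q.Prime)
    (hpq : p ≠ q) (hpa : ∀ j, |a j| < p) (hqa : ∀ j, |a j| < q) (hC : 0 < C) (hδ : 0 < δ) :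
    ∀ᶠ z : ℕ in atTop, ∀ q0 : ℕ, 1 ≤ q0 → (∀ p : ℕ, p.Prime → p ∣ q0 → p ≤ z) →
    ∀ᶠ A : ℝ in atTop, ∀ᶠ x : ℕ in atTop, ∀ (t : Fin k → ℝ) (ζ : Fin k → ℕ → ℂ) (ξ : ℕ → ℂ),
    (∀ j, |t j| ≤ (x : ℝ) ^ C) → (∀ j ℓ, ‖ζ j ℓ‖ ≤ 1) → Per q0 ξ → (∀ n, ‖ξ n‖ ≤ 1) →
    ∀ M : ℕ, M ≤ x →
    ‖∑ m ∈ Finset.Icc 1 M, Hf a t ζ ξ z ⌊(x : ℝ) ^ (1 / A)⌋₊ (p * m) *
      conj (Hf a t ζ ξ z ⌊(x : ℝ) ^ (1 / A)⌋₊ (q * m))‖ ≤ δ * x := by
  obtain ⟨c, N1, hc, hc4, hEQ⟩ := hEQ k a p q (2 * C) hk ha ha0 hp.pos hq.pos hpq (by positivity)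
  obtain ⟨s, hs, hMS⟩ := ms_lf hMS (2 * k) c (δ / 64) (by omega) hc hc4 (by positivity)
  filter_upwards [large_z a p q (δ / 64) (by positivity)] with z hz q0 hq0 hq0z
  obtain ⟨z1, z2, z3, z4, z5, z6, z7⟩ := hz
  obtain ⟨N0, hMS⟩ := hMS q0 hq0
  filter_upwards [eventually_ge_atTop (2 * s)] with A hA
  filter_upwards [large_x (δ / 64) C (by positivity) hC (max N0 (max N1 1)),
    (tendsto_natCast_atTop_atTop (R := ℝ)).eventually_ge_atTop (64 / δ)] with x hx hx64 t ζ ξ ht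
    hζ hξ hξb M hM
  obtain ⟨hx1, hx2⟩ := hx
  set w := ⌊(x : ℝ) ^ (1 / A)⌋₊ with hw
  have hwp := w_pow x A s hx1 hs hA
  have hx1' : (1 : ℝ) ≤ x := by exact_mod_cast hx1
  set N2 := ⌈δ / 64 * x⌉₊ with hN2
  have hN2ge : δ / 64 * x ≤ N2 := Nat.le_ceil _
  have hN2le : (N2 : ℝ) ≤ δ / 32 * x := by
    have h1 : (N2 : ℝ) < δ / 64 * x + 1 := Nat.ceil_lt_add_one (by positivity)
    have h2 : 1 ≤ δ / 64 * x := by
      rw [div_le_iff₀ hδ] at hx64
      linarith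
    linarith
  have hN21 : 1 ≤ N2 := by
    have := (hx2 N2 hN2ge).1
    have h3 : 1 ≤ max N0 (max N1 1) := le_max_of_le_right (le_max_right _ _)
    omega
  have key := dyadic (fun m => Hf a t ζ ξ z w (p * m) * conj (Hf a t ζ ξ z w (q * m))) 4
    (4 * (δ / 64) + δ / 64) N2 x hN21 (by positivity) ?_ ?_ M hM
  · have e : Finset.Icc 1 M = Finset.Ioc 0 M := by
      ext m; simp [Finset.mem_Icc, Finset.mem_Ioc, Nat.succ_le_iff]
    rw [e]
    refine key.trans ?_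
    have hM' : (M : ℝ) ≤ x := by exact_mod_cast hM
    have h5 : 3 * (4 * (δ / 64) + δ / 64) * M ≤ 3 * (4 * (δ / 64) + δ / 64) * x :=
      mul_le_mul_of_nonneg_left hM' (by positivity)
    have h6 : 0 ≤ δ * x := by positivity
    linarith
  · intro m _
    rw [norm_mul, RCLike.norm_conj]
    have h1 := norm_Hf a t ζ ξ z w (by omega) hζ hξb (p * m)
    have h2 := norm_Hf a t ζ ξ z w (by omega) hζ hξb (q * m)
    nlinarith [norm_nonneg (Hf a t ζ ξ z w (p * m)), norm_nonneg (Hf a t ζ ξ z w (q * m))]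
  · intro N hN2N hNx x' y' hNx' hx'y' hy'
    have hNr : δ / 64 * x ≤ N := hN2ge.trans (by exact_mod_cast hN2N)
    obtain ⟨m1, m2, m3⟩ := hx2 N hNr
    have hN0 : N0 ≤ N := le_trans (le_max_left _ _) m1
    have hN1 : N1 ≤ N := le_trans (le_trans (le_max_left _ _) (le_max_right _ _)) m1
    have hN1' : 1 ≤ N := le_trans (le_trans (le_max_right _ _) (le_max_right _ _)) m1
    have htN : ∀ j, |t j| ≤ (N : ℝ) ^ (2 * C) := fun j => (ht j).trans m2
    have hws : (w : ℝ) ^ s ≤ N := hwp.trans m3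
    have B := block a ha ha0 p q hp hq hpq hpa hqa z w (by omega) z2 z3 z5 z6 t ζ hζ ξ q0 hξ hξb
      x' y' N (δ / 64) (by omega) (by omega) ?_
    · refine B.trans ?_
      refine mul_le_mul_of_nonneg_right ?_ (by positivity)
      linarith
    · intro ξ' hξ' hξb' ι _ α v hι hα hv
      exact hMS N z w hN0 (by omega) hws hq0z (fun m => ei (PF a t p q 0 m)) x' y'
        (fun m => (norm_ei _).le) hx'y' (by omega)
        (fun Q ξ'' hQ hQN hper hb => hEQ N t hN1 htN Q ξ'' hQ hQN hper hb x' y' hNx' hx'y' hy')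
        ξ' hξ' hξb' ι α v hι hα hv

/-- the cross sums of the function without the local factors, for large phases -/
theorem cross0 (hEQ : T_EQ) (hOSC : T_OSC) (k : ℕ) (a : Fin k → ℤ) (p q : ℕ) (C δ : ℝ)
    (hk : 1 ≤ k) (ha : Function.Injective a) (ha0 : ∀ j, a j ≠ 0) (hp : p.Prime) (hq : q.Prime)
    (hpq : p ≠ q) (hpa : ∀ j, |a j| < p) (hqa : ∀ j, |a j| < q) (hC : 0 < C) (hδ : 0 < δ) :
    ∀ᶠ B : ℝ in atTop, ∀ q0 : ℕ, 1 ≤ q0 →
    ∀ᶠ x : ℕ in atTop, ∀ (t : Fin k → ℝ) (ξ : ℕ → ℂ),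
    (∀ j, |t j| ≤ (x : ℝ) ^ C) → B ≤ Lam a t x → Per q0 ξ → (∀ n, ‖ξ n‖ ≤ 1) →
    ∀ M : ℕ, M ≤ x →
    ‖∑ m ∈ Finset.Icc 1 M, (ph a t (p * m) * ξ (p * m)) *
      conj (ph a t (q * m) * ξ (q * m))‖ ≤ δ * x := by
  obtain ⟨c, N1, hc, hc4, hEQ⟩ := hEQ k a p q (2 * C) hk ha ha0 hp.pos hq.pos hpq (by positivity)
  obtain ⟨B0, N0, hB0, hOSC⟩ := hOSC k a p q (2 * C) (δ / 64) hk ha ha0 hp.pos hq.pos hpq
    (by positivity) (by positivity)
  filter_upwards [eventually_ge_atTop B0] with B hB q0 hq0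
  -- `N ^ (1 - c) ≤ δ / 64 N` and `q0 ≤ N ^ c`
  have hlim : Tendsto (fun N : ℕ => (N : ℝ) ^ c) atTop atTop :=
    (tendsto_rpow_atTop hc).comp tendsto_natCast_atTop_atTop
  obtain ⟨N3, hN3⟩ := (eventually_atTop.mp ((hlim.eventually_ge_atTop (64 / δ)).and
    (hlim.eventually_ge_atTop (q0 : ℝ))))
  filter_upwards [large_x (δ / 64) C (by positivity) hC (max N3 (max N0 (max N1 1))),
    (tendsto_natCast_atTop_atTop (R := ℝ)).eventually_ge_atTop (64 / δ)] with x hx hx64 t ξ ht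
    hLam hξ hξb M hM
  obtain ⟨hx1, hx2⟩ := hx
  have hx1' : (1 : ℝ) ≤ x := by exact_mod_cast hx1
  set N2 := ⌈δ / 64 * x⌉₊ with hN2
  have hN2ge : δ / 64 * x ≤ N2 := Nat.le_ceil _
  have hN2le : (N2 : ℝ) ≤ δ / 32 * x := by
    have h1 : (N2 : ℝ) < δ / 64 * x + 1 := Nat.ceil_lt_add_one (by positivity)
    have h2 : 1 ≤ δ / 64 * x := by
      rw [div_le_iff₀ hδ] at hx64
      linarith
    linarith
  have hN21 : 1 ≤ N2 := by
    have := (hx2 N2 hN2ge).1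
    have h3 : 1 ≤ max N3 (max N0 (max N1 1)) :=
      le_max_of_le_right (le_max_of_le_right (le_max_right _ _))
    omega
  have hnorm : ∀ n, ‖ph a t n * ξ n‖ ≤ 1 := by
    intro n
    rw [norm_mul]
    exact mul_le_one₀ (norm_ph a t n) (norm_nonneg _) (hξb n)
  have key := dyadic (fun m => (ph a t (p * m) * ξ (p * m)) *
      conj (ph a t (q * m) * ξ (q * m))) 1
    (δ / 32) N2 x hN21 (by positivity) ?_ ?_ M hM
  · have e : Finset.Icc 1 M = Finset.Ioc 0 M := by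
      ext m; simp [Finset.mem_Icc, Finset.mem_Ioc, Nat.succ_le_iff]
    rw [e]
    refine key.trans ?_
    have hM' : (M : ℝ) ≤ x := by exact_mod_cast hM
    have h5 : 3 * (δ / 32) * M ≤ 3 * (δ / 32) * x :=
      mul_le_mul_of_nonneg_left hM' (by positivity)
    have h6 : 0 ≤ δ * x := by positivity
    linarith
  · intro m _
    rw [norm_mul, RCLike.norm_conj]
    exact mul_le_one₀ (hnorm _) (norm_nonneg _) (hnorm _)
  · intro N hN2N hNx x' y' hNx' hx'y' hy'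
    have hNr : δ / 64 * x ≤ N := hN2ge.trans (by exact_mod_cast hN2N)
    obtain ⟨m1, m2, m3⟩ := hx2 N hNr
    have hN3' : N3 ≤ N := le_trans (le_max_left _ _) m1
    have hN0 : N0 ≤ N := le_trans (le_trans (le_max_left _ _) (le_max_right _ _)) m1
    have hN1 : N1 ≤ N := le_trans (le_trans (le_trans (le_max_left _ _) (le_max_right _ _))
      (le_max_right _ _)) m1
    have hN1' : 1 ≤ N := le_trans (le_trans (le_trans (le_max_right _ _) (le_max_right _ _))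
      (le_max_right _ _)) m1
    have hNr1 : (1 : ℝ) ≤ N := by exact_mod_cast hN1'
    have htN : ∀ j, |t j| ≤ (N : ℝ) ^ (2 * C) := fun j => (ht j).trans m2
    have hLamN : B0 ≤ Lam a t N := by
      refine hB.trans (hLam.trans ?_)
      unfold Lam
      refine Finset.sum_le_sum (fun l _ => ?_)
      refine div_le_div_of_nonneg_left (abs_nonneg _) (by positivity) ?_
      exact pow_le_pow_left₀ (by positivity) (by exact_mod_cast hNx) l
    obtain ⟨g1, g2⟩ := hN3 N hN3'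
    have E1 := hEQ N t hN1 htN q0 (fun m => ξ (p * m) * conj (ξ (q * m))) hq0 g2
      (per_cross q0 ξ hξ p q) (by
        intro m
        simp only [norm_mul, RCLike.norm_conj]
        exact mul_le_one₀ (hξb _) (norm_nonneg _) (hξb _)) x' y' hNx' hx'y' hy'
    have E2 := hOSC N t hN0 htN hLamN x' y' hNx' hx'y' hy'
    have hmean : ‖mean q0 (fun m => ξ (p * m) * conj (ξ (q * m)))‖ ≤ 1 := by
      unfold mean
      rw [norm_div]
      have : ‖(q0 : ℂ)‖ = q0 := by simp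
      rw [this, div_le_one (by exact_mod_cast hq0)]
      refine (norm_sum_le _ _).trans ?_
      have h1 : ∀ m ∈ Finset.range q0, ‖ξ (p * m) * conj (ξ (q * m))‖ ≤ 1 := by
        intro m _
        simp only [norm_mul, RCLike.norm_conj]
        exact mul_le_one₀ (hξb _) (norm_nonneg _) (hξb _)
      refine (Finset.sum_le_sum h1).trans ?_
      simp
    have e1 : ∑ m ∈ Finset.Ioc x' y', (ph a t (p * m) * ξ (p * m)) *
        conj (ph a t (q * m) * ξ (q * m)) =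
        ∑ m ∈ Finset.Ioc x' y', ei (PF a t p q 0 m) * (ξ (p * m) * conj (ξ (q * m))) := by
      refine Finset.sum_congr rfl (fun m hm => ?_)
      rw [Finset.mem_Ioc] at hm
      rw [← ph_cross a t p q m (by omega) hpa hqa]
      simp only [map_mul]
      ring
    rw [e1]
    have e2 : ∑ m ∈ Finset.Ioc x' y', ei (PF a t p q 0 m) * (ξ (p * m) * conj (ξ (q * m))) =
        (∑ m ∈ Finset.Ioc x' y', ei (PF a t p q 0 m) * (ξ (p * m) * conj (ξ (q * m))) -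
          mean q0 (fun m => ξ (p * m) * conj (ξ (q * m))) *
            ∑ m ∈ Finset.Ioc x' y', ei (PF a t p q 0 m)) +
        mean q0 (fun m => ξ (p * m) * conj (ξ (q * m))) *
            ∑ m ∈ Finset.Ioc x' y', ei (PF a t p q 0 m) := by ring
    rw [e2]
    refine (norm_add_le _ _).trans ?_
    rw [norm_mul]
    have h1 : ‖mean q0 (fun m => ξ (p * m) * conj (ξ (q * m)))‖ *
        ‖∑ m ∈ Finset.Ioc x' y', ei (PF a t p q 0 m)‖ ≤ 1 * (δ / 64 * N) :=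
      mul_le_mul hmean E2 (norm_nonneg _) zero_le_one
    have h2 : (N : ℝ) ^ (1 - c) ≤ δ / 64 * N := by
      rw [Real.rpow_sub (by linarith), Real.rpow_one, div_le_iff₀ (by positivity)]
      have h3 : 64 / δ * δ ≤ (N : ℝ) ^ c * δ := mul_le_mul_of_nonneg_right g1 hδ.le
      rw [div_mul_cancel₀ _ hδ.ne'] at h3
      have h4 : (1 : ℝ) ≤ δ / 64 * (N : ℝ) ^ c := by linarith
      calc (N : ℝ) = 1 * N := by ring
        _ ≤ (δ / 64 * (N : ℝ) ^ c) * N := mul_le_mul_of_nonneg_right h4 (by positivity)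
        _ = δ / 64 * N * (N : ℝ) ^ c := by ring
    linarith

end Pool.Agent.Ell.KeyE
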