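import Pool.Agent.Ell.Targets2

set_option autoImplicit false

/-! Asymptotic Elliott conjecture (MP_f3f922_nt): E14, the final assembly. -/

namespace Pool.Agent.Ell

open Finset Filter
open scoped BigOperators ComplexConjugate

namespace MainAux

theorem nit_le (t : ℝ) (n : ℕ) : ‖nit t n‖ ≤ 1 := by
  unfold nit
  rcases Nat.eq_zero_or_pos n with h | h
  · subst h
    by_cases ht : ((t : ℂ) * Complex.I) = 0
    · rw [ht]; simp
    · rw [Nat.cast_zero, Complex.zero_cpow ht]; simp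
  · rw [Complex.norm_natCast_cpow_of_pos h]
    simp

theorem prod_norm_le {ι : Type*} (s : Finset ι) (x : ι → ℂ) (hx : ∀ i ∈ s, ‖x i‖ ≤ 1) :
    ‖∏ i ∈ s, x i‖ ≤ 1 := by
  rw [norm_prod]
  exact Finset.prod_le_one (fun i _ => norm_nonneg _) hx

theorem prod_sub {ι : Type*} (s : Finset ι) (x y : ι → ℂ) (hx : ∀ i ∈ s, ‖x i‖ ≤ 1)
    (hy : ∀ i ∈ s, ‖y i‖ ≤ 1) :
    ‖∏ i ∈ s, x i - ∏ i ∈ s, y i‖ ≤ ∑ i ∈ s, ‖x i - y i‖ := by
  classical
  induction s using Finset.induction_on with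
  | empty => simp
  | insert i s hi ih =>
    rw [Finset.prod_insert hi, Finset.prod_insert hi, Finset.sum_insert hi]
    have h1 := ih (fun j hj => hx j (Finset.mem_insert_of_mem hj))
      (fun j hj => hy j (Finset.mem_insert_of_mem hj))
    have h2 : x i * ∏ j ∈ s, x j - y i * ∏ j ∈ s, y j =
        (x i - y i) * ∏ j ∈ s, x j + y i * (∏ j ∈ s, x j - ∏ j ∈ s, y j) := by ring
    rw [h2]
    have h3 : ‖∏ j ∈ s, x j‖ ≤ 1 :=
      prod_norm_le s x (fun j hj => hx j (Finset.mem_insert_of_mem hj))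
    have h4 : ‖y i‖ ≤ 1 := hy i (Finset.mem_insert_self _ _)
    calc ‖(x i - y i) * ∏ j ∈ s, x j + y i * (∏ j ∈ s, x j - ∏ j ∈ s, y j)‖
        ≤ ‖x i - y i‖ * ‖∏ j ∈ s, x j‖ + ‖y i‖ * ‖∏ j ∈ s, x j - ∏ j ∈ s, y j‖ := by
          refine (norm_add_le _ _).trans ?_
          rw [norm_mul, norm_mul]
      _ ≤ ‖x i - y i‖ * 1 + 1 * ∑ j ∈ s, ‖x j - y j‖ := by
          gcongr
      _ = _ := by ring

theorem sum_sh (g : ℕ → ℝ) (h0 : ∀ n, 0 ≤ g n) (h2 : ∀ n, g n ≤ 2) (a : ℤ) (x : ℕ) :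
    ∑ n ∈ Finset.Icc 1 x, g (sh a n) ≤ ∑ n ∈ Finset.Icc 1 x, g n + 2 * (a.natAbs : ℝ) := by
  classical
  rw [← Finset.sum_filter_add_sum_filter_not (Finset.Icc 1 x) (fun n => sh a n ∈ Finset.Icc 1 x)]
  refine add_le_add ?_ ?_
  · have hinj : Set.InjOn (sh a)
        (((Finset.Icc 1 x).filter (fun n => sh a n ∈ Finset.Icc 1 x) : Finset ℕ) : Set ℕ) := by
      intro m hm n hn hmn
      simp only [Finset.coe_filter, Finset.mem_Icc, Set.mem_ofPred_eq, sh] at hm hn hmn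
      omega
    rw [← Finset.sum_image (f := g) hinj]
    refine Finset.sum_le_sum_of_subset_of_nonneg ?_ (fun i _ _ => h0 i)
    intro m hm
    rw [Finset.mem_image] at hm
    obtain ⟨n, hn, rfl⟩ := hm
    exact (Finset.mem_filter.1 hn).2
  · have hc : ((Finset.Icc 1 x).filter (fun n => ¬ sh a n ∈ Finset.Icc 1 x)).card ≤ a.natAbs := by
      rcases le_or_gt 0 a with ha | ha
      · have : (Finset.Icc 1 x).filter (fun n => ¬ sh a n ∈ Finset.Icc 1 x) ⊆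
            Finset.Ioc (x - a.natAbs) x := by
          intro n hn
          simp only [Finset.mem_filter, Finset.mem_Icc, sh, Finset.mem_Ioc] at hn ⊢
          omega
        refine (Finset.card_le_card this).trans ?_
        rw [Nat.card_Ioc]
        omega
      · have : (Finset.Icc 1 x).filter (fun n => ¬ sh a n ∈ Finset.Icc 1 x) ⊆
            Finset.Icc 1 a.natAbs := by
          intro n hn
          simp only [Finset.mem_filter, Finset.mem_Icc, sh] at hn ⊢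
          omega
        refine (Finset.card_le_card this).trans ?_
        rw [Nat.card_Icc]
        omega
    calc ∑ n ∈ (Finset.Icc 1 x).filter (fun n => ¬ sh a n ∈ Finset.Icc 1 x), g (sh a n)
        ≤ ∑ n ∈ (Finset.Icc 1 x).filter (fun n => ¬ sh a n ∈ Finset.Icc 1 x), (2 : ℝ) :=
          Finset.sum_le_sum (fun i _ => h2 _)
      _ = 2 * (((Finset.Icc 1 x).filter (fun n => ¬ sh a n ∈ Finset.Icc 1 x)).card : ℝ) := by
          rw [Finset.sum_const, nsmul_eq_mul, mul_comm]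
      _ ≤ 2 * (a.natAbs : ℝ) := by
          have : (((Finset.Icc 1 x).filter (fun n => ¬ sh a n ∈ Finset.Icc 1 x)).card : ℝ) ≤
              (a.natAbs : ℝ) := by exact_mod_cast hc
          linarith

/-- shifting the summation variable by `H` -/
theorem sum_shift (F : ℕ → ℂ) (hF : ∀ n, ‖F n‖ ≤ 1) (H x : ℕ) :
    ‖∑ n ∈ Finset.Icc 1 x, F (n + H) - ∑ n ∈ Finset.Icc 1 x, F n‖ ≤ 2 * (H : ℝ) := by
  induction H with
  | zero => simp
  | succ H ih =>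
    have h1 : ∑ n ∈ Finset.Icc 1 x, F (n + (H + 1)) - ∑ n ∈ Finset.Icc 1 x, F (n + H) =
        F (x + 1 + H) - F (1 + H) := by
      clear ih
      induction x with
      | zero => simp
      | succ x ihx =>
        rw [Finset.sum_Icc_succ_top (by omega), Finset.sum_Icc_succ_top (by omega)]
        have e1 : x + 1 + (H + 1) = x + 1 + 1 + H := by ring
        rw [e1]
        linear_combination ihx
    have h2 : ∑ n ∈ Finset.Icc 1 x, F (n + (H + 1)) - ∑ n ∈ Finset.Icc 1 x, F n =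
        (F (x + 1 + H) - F (1 + H)) +
          (∑ n ∈ Finset.Icc 1 x, F (n + H) - ∑ n ∈ Finset.Icc 1 x, F n) := by
      rw [← h1]; ring
    rw [h2]
    refine (norm_add_le _ _).trans ?_
    have h3 : ‖F (x + 1 + H) - F (1 + H)‖ ≤ 2 := by
      refine (norm_sub_le _ _).trans ?_
      linarith [hF (x + 1 + H), hF (1 + H)]
    push_cast
    linarith

/-- the shifts -/
def av {k : ℕ} (h : Fin (k + 1) → ℕ) (j0 : Fin (k + 1)) (j : Fin k) : ℤ :=
  (h (j0.succAbove j) : ℤ) - h j0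

theorem av_inj {k : ℕ} (h : Fin (k + 1) → ℕ) (hh : Function.Injective h) (j0 : Fin (k + 1)) :
    Function.Injective (av h j0) := by
  intro i j hij
  unfold av at hij
  have : h (j0.succAbove i) = h (j0.succAbove j) := by omega
  exact Fin.succAbove_right_injective (hh this)

theorem av_ne {k : ℕ} (h : Fin (k + 1) → ℕ) (hh : Function.Injective h) (j0 : Fin (k + 1))
    (j : Fin k) : av h j0 j ≠ 0 := by
  intro hij
  unfold av at hij
  have : h (j0.succAbove j) = h j0 := by omega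
  exact Fin.succAbove_ne j0 j (hh this)

/-- the periodic factor of the product -/
noncomputable def xi {k : ℕ} (a : Fin k → ℤ) (q0 : ℕ) (ξ : Fin k → ℕ → ℂ) (n : ℕ) : ℂ :=
  ∏ j, ξ j (((n : ℤ) + a j) % (q0 : ℤ)).toNat

theorem xi_per {k : ℕ} (a : Fin k → ℤ) (q0 : ℕ) (ξ : Fin k → ℕ → ℂ) : Per q0 (xi a q0 ξ) := by
  intro m
  unfold xi
  refine Finset.prod_congr rfl fun j _ => ?_
  have : ((m + q0 : ℕ) : ℤ) + a j = (m : ℤ) + a j + (q0 : ℤ) := by push_cast; ring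
  rw [this, Int.add_emod_right]

theorem xi_bd {k : ℕ} (a : Fin k → ℤ) (q0 : ℕ) (ξ : Fin k → ℕ → ℂ)
    (hξ : ∀ j n, ‖ξ j n‖ ≤ 1) (n : ℕ) : ‖xi a q0 ξ n‖ ≤ 1 :=
  prod_norm_le _ _ fun j _ => hξ j _

theorem per_mul {q : ℕ} {ξ : ℕ → ℂ} (h : Per q ξ) (m i : ℕ) : ξ (m + q * i) = ξ m := by
  induction i with
  | zero => simp
  | succ i ih =>
    have : m + q * (i + 1) = (m + q * i) + q := by ring
    rw [this, h, ih]

theorem per_mod {q : ℕ} {ξ : ℕ → ℂ} (h : Per q ξ) (m : ℕ) : ξ (m % q) = ξ m := by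
  conv_rhs => rw [← Nat.mod_add_div m q]
  exact (per_mul h _ _).symm

/-- the model function -/
noncomputable def Gm (t : ℝ) (ξ : ℕ → ℂ) (ζ : ℕ → ℂ) (z w : ℕ) (n : ℕ) : ℂ :=
  nit t n * (ξ n * ∏ ℓ ∈ (prs z w).filter (· ∣ n), ζ ℓ)

theorem Gm_bd (t : ℝ) (ξ : ℕ → ℂ) (ζ : ℕ → ℂ) (z w : ℕ) (hξ : ∀ n, ‖ξ n‖ ≤ 1)
    (hζ : ∀ n, ‖ζ n‖ ≤ 1) (n : ℕ) : ‖Gm t ξ ζ z w n‖ ≤ 1 := by
  unfold Gm
  rw [norm_mul, norm_mul]
  have h1 := nit_le t n
  have h2 := hξ n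
  have h3 : ‖∏ ℓ ∈ (prs z w).filter (· ∣ n), ζ ℓ‖ ≤ 1 := prod_norm_le _ _ fun ℓ _ => hζ ℓ
  have h4 : ‖ξ n‖ * ‖∏ ℓ ∈ (prs z w).filter (· ∣ n), ζ ℓ‖ ≤ 1 :=
    mul_le_one₀ h2 (norm_nonneg _) h3
  exact mul_le_one₀ h1 (by positivity) h4

theorem prod_Gm {k : ℕ} (a : Fin k → ℤ) (t : Fin k → ℝ) (ξ ζ : Fin k → ℕ → ℂ) (q0 z w n : ℕ)
    (hq : ∀ j, Per q0 (ξ j)) (hn : ∀ j, 0 ≤ (n : ℤ) + a j) :
    ∏ j, Gm (t j) (ξ j) (ζ j) z w (sh (a j) n) = ph a t n * xi a q0 ξ n * PhiF a ζ z w n := by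
  unfold Gm ph xi PhiF loc
  rw [Finset.prod_comm, mul_assoc, ← Finset.prod_mul_distrib, ← Finset.prod_mul_distrib]
  refine Finset.prod_congr rfl fun j _ => ?_
  have h1 : ((sh (a j) n : ℕ) : ℤ) = (n : ℤ) + a j := by
    unfold sh
    exact Int.toNat_of_nonneg (hn j)
  have h2 : ξ j (sh (a j) n) = ξ j (((n : ℤ) + a j) % (q0 : ℤ)).toNat := by
    rw [← per_mod (hq j), ← h1, ← Int.natCast_mod, Int.toNat_natCast]
  rw [h2, Finset.prod_filter]
  congr 2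
  refine Finset.prod_congr rfl fun ℓ _ => ?_
  have h3 : (ℓ ∣ sh (a j) n) ↔ (ℓ : ℤ) ∣ (n : ℤ) + a j := by
    rw [← h1, Int.natCast_dvd_natCast]
  by_cases h : ℓ ∣ sh (a j) n
  · rw [if_pos h, if_pos (h3.1 h)]
  · rw [if_neg h, if_neg (fun h' => h (h3.2 h'))]

theorem PhiF_bd {k : ℕ} (a : Fin k → ℤ) (ζ : Fin k → ℕ → ℂ) (hζ : ∀ j n, ‖ζ j n‖ ≤ 1)
    (z w n : ℕ) : ‖PhiF a ζ z w n‖ ≤ 1 := by
  unfold PhiF loc
  refine prod_norm_le _ _ fun ℓ _ => prod_norm_le _ _ fun j _ => ?_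
  split_ifs
  · exact hζ j ℓ
  · simp

theorem ph_bd {k : ℕ} (a : Fin k → ℤ) (t : Fin k → ℝ) (n : ℕ) : ‖ph a t n‖ ≤ 1 :=
  prod_norm_le _ _ fun _ _ => nit_le _ _

/-- the size of the shifts -/
def Mv {k : ℕ} (a : Fin k → ℤ) : ℕ := ∑ j, (a j).natAbs

/-- replacing the functions by their models -/
theorem core {k : ℕ} (h : Fin (k + 1) → ℕ) (j0 : Fin (k + 1)) (x : ℕ) (f : Fin (k + 1) → ℕ → ℂ)
    (hf : ∀ i, MB (f i)) (t : Fin k → ℝ) (ξ ζ : Fin k → ℕ → ℂ) (q0 z w : ℕ)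
    (hζ : ∀ j n, ‖ζ j n‖ ≤ 1) (hq : ∀ j, Per q0 (ξ j)) (hξ : ∀ j n, ‖ξ j n‖ ≤ 1) (e : ℝ)
    (hrep : ∀ j, ∑ n ∈ Finset.Icc 1 x,
      ‖f (j0.succAbove j) n - Gm (t j) (ξ j) (ζ j) z w n‖ ≤ e * x) :
    ‖∑ n ∈ Finset.Icc 1 x, ∏ i, f i (n + h i) - ∑ n ∈ Finset.Icc 1 x,
      f j0 n * (ph (av h j0) t n * xi (av h j0) q0 ξ n * PhiF (av h j0) ζ z w n)‖ ≤
      k * (e * x) + (2 * (h j0 : ℝ) + 4 * (Mv (av h j0) : ℝ)) := by
  classical
  set a := av h j0 with ha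
  -- the shifted product
  set F : ℕ → ℂ := fun m => f j0 m * ∏ j, f (j0.succAbove j) (sh (a j) m) with hF
  have hFb : ∀ m, ‖F m‖ ≤ 1 := by
    intro m
    rw [hF]
    simp only
    rw [norm_mul]
    exact mul_le_one₀ ((hf j0).bd m) (norm_nonneg _) (prod_norm_le _ _ fun j _ => (hf _).bd _)
  have hsh : ∀ n, ∏ i, f i (n + h i) = F (n + h j0) := by
    intro n
    rw [hF]
    simp only
    rw [Fin.prod_univ_succAbove _ j0]
    congr 1
    refine Finset.prod_congr rfl fun j _ => ?_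
    congr 1
    rw [ha]
    unfold sh av
    omega
  have h1 : ‖∑ n ∈ Finset.Icc 1 x, ∏ i, f i (n + h i) - ∑ n ∈ Finset.Icc 1 x, F n‖ ≤
      2 * (h j0 : ℝ) := by
    rw [Finset.sum_congr rfl fun n _ => hsh n]
    exact sum_shift F hFb (h j0) x
  -- the replacement
  have h2 : ‖∑ n ∈ Finset.Icc 1 x, F n - ∑ n ∈ Finset.Icc 1 x,
      f j0 n * ∏ j, Gm (t j) (ξ j) (ζ j) z w (sh (a j) n)‖ ≤
      k * (e * x) + 2 * (Mv a : ℝ) := by
    rw [← Finset.sum_sub_distrib]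
    refine (norm_sum_le _ _).trans ?_
    have h3 : ∀ n ∈ Finset.Icc 1 x, ‖F n - f j0 n * ∏ j, Gm (t j) (ξ j) (ζ j) z w (sh (a j) n)‖ ≤
        ∑ j, ‖f (j0.succAbove j) (sh (a j) n) - Gm (t j) (ξ j) (ζ j) z w (sh (a j) n)‖ := by
      intro n _
      rw [hF]
      simp only
      rw [← mul_sub, norm_mul]
      refine (mul_le_of_le_one_left (norm_nonneg _) ((hf j0).bd n)).trans ?_
      exact prod_sub _ _ _ (fun j _ => (hf _).bd _) (fun j _ => Gm_bd _ _ _ _ _ (hξ j) (hζ j) _)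
    refine (Finset.sum_le_sum h3).trans ?_
    rw [Finset.sum_comm]
    have h4 : ∀ j ∈ (Finset.univ : Finset (Fin k)), ∑ n ∈ Finset.Icc 1 x,
        ‖f (j0.succAbove j) (sh (a j) n) - Gm (t j) (ξ j) (ζ j) z w (sh (a j) n)‖ ≤
        e * x + 2 * ((a j).natAbs : ℝ) := by
      intro j _
      refine (sum_sh (fun m => ‖f (j0.succAbove j) m - Gm (t j) (ξ j) (ζ j) z w m‖)
        (fun _ => norm_nonneg _) (fun m => ?_) (a j) x).trans ?_
      · refine (norm_sub_le _ _).trans ?_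
        linarith [(hf (j0.succAbove j)).bd m, Gm_bd (t j) (ξ j) (ζ j) z w (hξ j) (hζ j) m]
      · linarith [hrep j]
    refine (Finset.sum_le_sum h4).trans ?_
    rw [Finset.sum_add_distrib, Finset.sum_const, Finset.card_univ, Fintype.card_fin, nsmul_eq_mul,
      ← Finset.mul_sum]
    unfold Mv
    push_cast
    exact le_refl _
  -- the identity for large n
  have h5 : ‖∑ n ∈ Finset.Icc 1 x, f j0 n * ∏ j, Gm (t j) (ξ j) (ζ j) z w (sh (a j) n) -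
      ∑ n ∈ Finset.Icc 1 x, f j0 n * (ph a t n * xi a q0 ξ n * PhiF a ζ z w n)‖ ≤
      2 * (Mv a : ℝ) := by
    rw [← Finset.sum_sub_distrib]
    refine (norm_sum_le _ _).trans ?_
    have h6 : ∀ n ∈ Finset.Icc 1 x, ‖f j0 n * ∏ j, Gm (t j) (ξ j) (ζ j) z w (sh (a j) n) -
        f j0 n * (ph a t n * xi a q0 ξ n * PhiF a ζ z w n)‖ ≤
        if n ≤ Mv a then 2 else 0 := by
      intro n _
      split_ifs with hn
      · rw [← mul_sub, norm_mul]
        refine (mul_le_of_le_one_left (norm_nonneg _) ((hf j0).bd n)).trans ?_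
        refine (norm_sub_le _ _).trans ?_
        have e1 : ‖∏ j, Gm (t j) (ξ j) (ζ j) z w (sh (a j) n)‖ ≤ 1 :=
          prod_norm_le _ _ fun j _ => Gm_bd _ _ _ _ _ (hξ j) (hζ j) _
        have e2 : ‖ph a t n * xi a q0 ξ n * PhiF a ζ z w n‖ ≤ 1 := by
          rw [norm_mul, norm_mul]
          exact mul_le_one₀ (mul_le_one₀ (ph_bd _ _ _) (norm_nonneg _) (xi_bd _ _ _ hξ _))
            (norm_nonneg _) (PhiF_bd _ _ hζ _ _ _)
        linarith
      · rw [prod_Gm a t ξ ζ q0 z w n hq, sub_self, norm_zero]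
        intro j
        have : (a j).natAbs ≤ Mv a :=
          Finset.single_le_sum (f := fun j => (a j).natAbs) (fun _ _ => Nat.zero_le _)
            (Finset.mem_univ j)
        omega
    refine (Finset.sum_le_sum h6).trans ?_
    rw [← Finset.sum_filter, Finset.sum_const, nsmul_eq_mul]
    have h7 : ((Finset.Icc 1 x).filter (fun n => n ≤ Mv a)).card ≤ Mv a := by
      have : (Finset.Icc 1 x).filter (fun n => n ≤ Mv a) ⊆ Finset.Icc 1 (Mv a) := by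
        intro n hn
        simp only [Finset.mem_filter, Finset.mem_Icc] at hn ⊢
        omega
      refine (Finset.card_le_card this).trans ?_
      rw [Nat.card_Icc]
      omega
    have h8 : (((Finset.Icc 1 x).filter (fun n => n ≤ Mv a)).card : ℝ) ≤ (Mv a : ℝ) := by
      exact_mod_cast h7
    linarith
  have h9 : ∑ n ∈ Finset.Icc 1 x, ∏ i, f i (n + h i) - ∑ n ∈ Finset.Icc 1 x,
      f j0 n * (ph a t n * xi a q0 ξ n * PhiF a ζ z w n) =
      (∑ n ∈ Finset.Icc 1 x, ∏ i, f i (n + h i) - ∑ n ∈ Finset.Icc 1 x, F n) +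
      (∑ n ∈ Finset.Icc 1 x, F n - ∑ n ∈ Finset.Icc 1 x,
        f j0 n * ∏ j, Gm (t j) (ξ j) (ζ j) z w (sh (a j) n)) +
      (∑ n ∈ Finset.Icc 1 x, f j0 n * ∏ j, Gm (t j) (ξ j) (ζ j) z w (sh (a j) n) -
        ∑ n ∈ Finset.Icc 1 x, f j0 n * (ph a t n * xi a q0 ξ n * PhiF a ζ z w n)) := by ring
  rw [h9]
  refine (norm_add₃_le).trans ?_
  linarith

/-- the local factor -/
noncomputable def zt {r : ℕ} (f : ℕ → ℂ) (χ : DirichletCharacter ℂ r) (t : ℝ) (ℓ : ℕ) : ℂ :=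
  f ℓ * conj (χ (ℓ : ZMod r) * nit t ℓ)

theorem zt_bd {r : ℕ} (f : ℕ → ℂ) (hf : MB f) (χ : DirichletCharacter ℂ r) (t : ℝ) (ℓ : ℕ) :
    ‖zt f χ t ℓ‖ ≤ 1 := by
  unfold zt
  rw [norm_mul, RCLike.norm_conj, norm_mul]
  exact mul_le_one₀ (hf.bd ℓ) (by positivity)
    (mul_le_one₀ (DirichletCharacter.norm_le_one χ _) (norm_nonneg _) (nit_le t ℓ))

theorem zt_re {r : ℕ} (f : ℕ → ℂ) (hf : MB f) (χ : DirichletCharacter ℂ r) (t : ℝ) (ℓ : ℕ) :
    0 ≤ 1 - (zt f χ t ℓ).re ∧ 1 - (zt f χ t ℓ).re ≤ 2 := by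
  have h1 := zt_bd f hf χ t ℓ
  have h2 := Complex.abs_re_le_norm (zt f χ t ℓ)
  have h3 := abs_le.1 (h2.trans h1)
  constructor <;> linarith [h3.1, h3.2]

/-- splitting the distance -/
theorem dist_split {r : ℕ} (f : ℕ → ℂ) (hf : MB f) (χ : DirichletCharacter ℂ r) (t : ℝ)
    (x z : ℕ) (y : ℝ) (hy : 0 ≤ y) :
    dist2 f χ t 1 x ≤ z + ∑ ℓ ∈ prs z ⌊y⌋₊, (1 - (zt f χ t ℓ).re) / (ℓ : ℝ) +
      dist2 f χ t y x := by
  classical
  unfold dist2
  have e0 : ∀ p : ℕ, (1 - (f p * conj (χ (p : ZMod r) * nit t p)).re) / (p : ℝ) =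
      (1 - (zt f χ t p).re) / (p : ℝ) := fun p => rfl
  simp only [e0]
  have hnn : ∀ p : ℕ, 0 ≤ (1 - (zt f χ t p).re) / (p : ℝ) := fun p =>
    div_nonneg (zt_re f hf χ t p).1 (Nat.cast_nonneg _)
  have hsub : (Finset.Iic ⌊(x : ℝ)⌋₊).filter (fun p : ℕ => p.Prime ∧ (1 : ℝ) < p) ⊆
      ((Finset.Icc 1 z).filter Nat.Prime ∪ prs z ⌊y⌋₊) ∪
        (Finset.Iic ⌊(x : ℝ)⌋₊).filter (fun p : ℕ => p.Prime ∧ y < p) := by
    intro p hp
    simp only [Finset.mem_filter, Finset.mem_Iic, Finset.mem_union, Finset.mem_Icc, prs,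
      Finset.mem_Ioc] at hp ⊢
    obtain ⟨hp1, hp2, hp3⟩ := hp
    by_cases h1 : p ≤ z
    · exact Or.inl (Or.inl ⟨⟨hp2.one_lt.le, h1⟩, hp2⟩)
    · by_cases h2 : y < p
      · exact Or.inr ⟨hp1, hp2, h2⟩
      · exact Or.inl (Or.inr ⟨⟨by omega, (Nat.le_floor_iff hy).2 (not_lt.1 h2)⟩, hp2⟩)
  refine (Finset.sum_le_sum_of_subset_of_nonneg hsub (fun p _ _ => hnn p)).trans ?_
  have hU : ∀ (s u : Finset ℕ), ∑ p ∈ s ∪ u, (1 - (zt f χ t p).re) / (p : ℝ) ≤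
      ∑ p ∈ s, (1 - (zt f χ t p).re) / (p : ℝ) + ∑ p ∈ u, (1 - (zt f χ t p).re) / (p : ℝ) := by
    intro s u
    rw [← Finset.sum_union_inter]
    exact le_add_of_nonneg_right (Finset.sum_nonneg fun p _ => hnn p)
  refine (hU _ _).trans ?_
  refine add_le_add ((hU _ _).trans (add_le_add ?_ le_rfl)) le_rfl
  calc ∑ p ∈ (Finset.Icc 1 z).filter Nat.Prime, (1 - (zt f χ t p).re) / (p : ℝ)
      ≤ ∑ p ∈ (Finset.Icc 1 z).filter Nat.Prime, (1 : ℝ) := by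
        refine Finset.sum_le_sum fun p hp => ?_
        have hp2 : (2 : ℝ) ≤ p := by exact_mod_cast (Finset.mem_filter.1 hp).2.two_le
        rw [div_le_one (by linarith)]
        linarith [(zt_re f hf χ t p).2]
    _ ≤ z := by
        rw [Finset.sum_const, nsmul_eq_mul, mul_one]
        have : ((Finset.Icc 1 z).filter Nat.Prime).card ≤ z := by
          refine (Finset.card_filter_le _ _).trans ?_
          rw [Nat.card_Icc]
          omega
        exact_mod_cast this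

theorem cF_bd (h4 : T_SM) {k : ℕ} (hk : 1 ≤ k) (ζ : Fin k → ℕ → ℂ) (z w : ℕ) (hz : 2 * k ≤ z)
    (hζ : ∀ j ℓ, ‖ζ j ℓ‖ ≤ 1) : ‖cF ζ z w‖ ≤ 1 := by
  have h1 := h4 k ζ z w ⟨0, hk⟩ hz hζ
  have h2 : 0 ≤ ∑ ℓ ∈ prs z w, (1 - (ζ ⟨0, hk⟩ ℓ).re) / (ℓ : ℝ) := by
    refine Finset.sum_nonneg fun ℓ _ => div_nonneg ?_ (Nat.cast_nonneg _)
    have := (abs_le.1 ((Complex.abs_re_le_norm (ζ ⟨0, hk⟩ ℓ)).trans (hζ ⟨0, hk⟩ ℓ))).2
    linarith
  have h3 : Real.exp (-∑ ℓ ∈ prs z w, (1 - (ζ ⟨0, hk⟩ ℓ).re) / (ℓ : ℝ)) ≤ 1 :=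
    Real.exp_le_one_iff.2 (by linarith)
  nlinarith [norm_nonneg (cF ζ z w)]

end MainAux

open MainAux in
theorem p_MAIN (h1 : T_KEY) (h2 : T_OO) (h3 : T_LL) (h4 : T_SM) (h5 : T_REP) (h6 : T_VDM) :
    T_MAIN := by
  intro k h C ε hk hh hε
  set e : ℝ := ε / (2 * (k + 2)) with he
  have hk0 : (0 : ℝ) < 2 * (k + 2) := by positivity
  have he0 : 0 < e := by positivity
  have hee : (k + 2) * e = ε / 2 := by
    rw [he]; field_simp
  have hC : (0 : ℝ) < (C : ℝ) + 1 := by positivity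
  -- choice of z
  have hz := Filter.eventually_all.2 fun j0 : Fin (k + 1) =>
    h1 k (av h j0) ((C : ℝ) + 1) e hk (av_inj h hh j0) (av_ne h hh j0) hC he0
  obtain ⟨z1, hz1⟩ := Filter.eventually_atTop.1 hz
  obtain ⟨z, q0, hz2, hq0, hqz, A0, hA0, hrep⟩ := h5 e C (max z1 (2 * k)) he0
  have hkey0 := fun j0 => hz1 z ((le_max_left _ _).trans hz2) j0 q0 hq0 hqz
  have h2k : 2 * k ≤ z := (le_max_right _ _).trans hz2
  -- choice of B
  have hB := Filter.eventually_all.2 fun j0 : Fin (k + 1) =>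
    h2 k (av h j0) ((C : ℝ) + 1) e hk (av_inj h hh j0) (av_ne h hh j0) hC he0
  obtain ⟨B, hB⟩ := hB.exists
  -- small phases
  obtain ⟨AL, XL, hLL⟩ := h3 k (av h 0) e B q0 hk (av_inj h hh 0) (av_ne h hh 0) he0 hq0
  have hV := fun j0 : Fin (k + 1) => h6 k (av h j0) (av_inj h hh j0) (av_ne h hh j0)
  choose Cv hCv0 hCv using hV
  -- choice of A
  have hexp : ∀ᶠ A : ℝ in atTop, Real.exp (-(A - z - 1)) ≤ e ^ 2 := by
    have t1 : Tendsto (fun A : ℝ => Real.exp (-(A - z - 1))) atTop (nhds 0) := by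
      refine Real.tendsto_exp_neg_atTop_nhds_zero.comp ?_
      have : Tendsto (fun A : ℝ => A + (-(z : ℝ) - 1)) atTop atTop :=
        tendsto_atTop_add_const_right _ _ tendsto_id
      refine this.congr fun A => by ring
    exact (t1.eventually (gt_mem_nhds (show (0 : ℝ) < e ^ 2 by positivity))).mono
      fun A hA => le_of_lt hA
  obtain ⟨A, ⟨hAkey, hAexp⟩, hA1, hA2, hA3, hA4, hA5, hA6⟩ :=
    ((((Filter.eventually_all.2 hkey0).and hexp).and ((eventually_ge_atTop A0).and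
      ((eventually_ge_atTop AL).and ((eventually_ge_atTop (q0 : ℝ)).and
      ((eventually_ge_atTop (C : ℝ)).and ((eventually_ge_atTop 1).and
      (Filter.eventually_all.2 fun j0 : Fin (k + 1) =>
        eventually_ge_atTop (Cv j0 * B)))))))).exists)
  obtain ⟨X0, hX0⟩ := hrep A hA1
  -- the constants
  set K : ℝ := ∑ j0 : Fin (k + 1), (2 * (h j0 : ℝ) + 4 * (Mv (av h j0) : ℝ)) with hK
  have hKj : ∀ j0 : Fin (k + 1), 2 * (h j0 : ℝ) + 4 * (Mv (av h j0) : ℝ) ≤ K := fun j0 =>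
    Finset.single_le_sum (f := fun j0 : Fin (k + 1) => 2 * (h j0 : ℝ) + 4 * (Mv (av h j0) : ℝ))
      (fun i _ => by positivity) (Finset.mem_univ j0)
  obtain ⟨X, hX⟩ := Filter.eventually_atTop.1
    (((Filter.eventually_all.2 hAkey).and (Filter.eventually_all.2 fun j0 => hB j0 q0 hq0)).and
      ((eventually_ge_atTop X0).and ((eventually_ge_atTop XL).and ((eventually_ge_atTop 1).and
      (eventually_ge_atTop ⌈K / (ε / 2)⌉₊)))))
  refine ⟨A, X, hA5, ?_⟩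
  intro x f hXx hf hnp j0 hpr
  obtain ⟨⟨hxkey, hxB⟩, hxX0, hxXL, hx1, hxK⟩ := hX x hXx
  have hx1' : (1 : ℝ) ≤ x := by exact_mod_cast hx1
  have hKx : K ≤ ε / 2 * x := by
    have := (Nat.ceil_le.1 hxK)
    rw [div_le_iff₀ (by positivity)] at this
    linarith
  -- data of the functions
  have hpr' : ∀ j : Fin k, ∃ (r : ℕ) (χ : DirichletCharacter ℂ r) (t : ℝ), 1 ≤ r ∧
      r ≤ C ∧ |t| ≤ (x : ℝ) ^ C ∧
      dist2 (f (j0.succAbove j)) χ t ((x : ℝ) ^ (1 / A)) x ≤ 1 / A := fun j =>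
    hpr _ (Fin.succAbove_ne j0 j)
  choose r χ t hr1 hrC ht hdist using hpr'
  have hrep' := fun j => hX0 x (f (j0.succAbove j)) (r j) (χ j) (t j) hxX0 (hf _) (hr1 j) (hrC j)
    (hdist j)
  choose ξ hξ1 hξ2 hξ3 using hrep'
  set w : ℕ := ⌊(x : ℝ) ^ (1 / A)⌋₊ with hw
  set ζ : Fin k → ℕ → ℂ := fun j ℓ => zt (f (j0.succAbove j)) (χ j) (t j) ℓ with hζ
  have hζb : ∀ j ℓ, ‖ζ j ℓ‖ ≤ 1 := fun j ℓ => zt_bd _ (hf _) _ _ _
  have hmain := core h j0 x f hf t ξ ζ q0 z w hζb hξ1 hξ2 e (fun j => hξ3 j)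
  have ht' : ∀ j, |t j| ≤ (x : ℝ) ^ ((C : ℝ) + 1) := fun j => by
    refine (ht j).trans ?_
    rw [← Real.rpow_natCast]
    exact Real.rpow_le_rpow_of_exponent_le hx1' (by linarith)
  have hkey := hxkey j0 t ζ (xi (av h j0) q0 ξ) (f j0) ht' hζb (xi_per _ _ _)
    (xi_bd _ _ _ hξ2) (hf j0)
  -- the sum without the structured factor
  set U : ℂ := ∑ n ∈ Finset.Icc 1 x, f j0 n * (ph (av h j0) t n * xi (av h j0) q0 ξ n) with hU
  have hUx : ‖U‖ ≤ x := by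
    rw [hU]
    refine (norm_sum_le _ _).trans ?_
    calc ∑ n ∈ Finset.Icc 1 x, ‖f j0 n * (ph (av h j0) t n * xi (av h j0) q0 ξ n)‖
        ≤ ∑ n ∈ Finset.Icc 1 x, (1 : ℝ) := by
          refine Finset.sum_le_sum fun n _ => ?_
          rw [norm_mul, norm_mul]
          exact mul_le_one₀ ((hf j0).bd n) (by positivity)
            (mul_le_one₀ (ph_bd _ _ _) (norm_nonneg _) (xi_bd _ _ _ hξ2 _))
      _ = x := by simp
  have hcb : ‖cF ζ z w‖ ≤ 1 := cF_bd h4 hk ζ z w h2k hζb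
  have hcU : ‖cF ζ z w‖ * ‖U‖ ≤ e * x := by
    by_cases hLam : B ≤ Lam (av h j0) t x
    · have := hxB j0 t (xi (av h j0) q0 ξ) (f j0) ht' hLam (xi_per _ _ _)
        (xi_bd _ _ _ hξ2) (hf j0)
      exact (mul_le_of_le_one_left (norm_nonneg _) hcb).trans this
    · have hLam' : Lam (av h j0) t x < B := not_le.1 hLam
      by_cases hj : j0 = 0
      · subst hj
        have := hLL x t (xi (av h 0) q0 ξ) (f 0) hxXL hLam'.le (xi_per _ _ _)
          (xi_bd _ _ _ hξ2) (hf 0) (fun χ' t' ht' => hA2.trans (hnp q0 hq0 hA3 χ' t'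
            (ht'.trans (mul_le_mul_of_nonneg_right hA2 (by positivity)))))
        exact (mul_le_of_le_one_left (norm_nonneg _) hcb).trans this
      · obtain ⟨j1, hj1⟩ := Fin.exists_succAbove_eq (Ne.symm hj)
        have htj : |t j1| ≤ A * (x : ℝ) ^ k := by
          refine (hCv j0 t j1 x hx1').trans ?_
          refine mul_le_mul_of_nonneg_right ?_ (by positivity)
          refine le_trans ?_ (hA6 j0)
          exact mul_le_mul_of_nonneg_left hLam'.le (hCv0 j0).le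
        have hrA : (r j1 : ℝ) ≤ A := le_trans (by exact_mod_cast hrC j1) hA4
        have hd := hnp (r j1) (hr1 j1) hrA (χ j1) (t j1) htj
        rw [← hj1] at hd
        have hs := dist_split (f (j0.succAbove j1)) (hf _) (χ j1) (t j1) x z
          ((x : ℝ) ^ (1 / A)) (by positivity)
        have hd2 := hdist j1
        have hA1' : 1 / A ≤ 1 := by
          rw [div_le_one (by linarith)]
          exact hA5
        have hsum : A - z - 1 ≤ ∑ ℓ ∈ prs z w, (1 - (ζ j1 ℓ).re) / (ℓ : ℝ) := by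
          have : ∑ ℓ ∈ prs z ⌊(x : ℝ) ^ (1 / A)⌋₊,
              (1 - (zt (f (j0.succAbove j1)) (χ j1) (t j1) ℓ).re) / (ℓ : ℝ) =
              ∑ ℓ ∈ prs z w, (1 - (ζ j1 ℓ).re) / (ℓ : ℝ) := rfl
          rw [← this]
          linarith
        have hc2 := h4 k ζ z w j1 h2k hζb
        have hc3 : ‖cF ζ z w‖ ^ 2 ≤ e ^ 2 :=
          hc2.trans ((Real.exp_le_exp.2 (by linarith)).trans hAexp)
        have hc4 : ‖cF ζ z w‖ ≤ e := abs_le_of_sq_le_sq' hc3 he0.le |>.2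
        exact mul_le_mul hc4 hUx (norm_nonneg _) he0.le
  -- conclusion
  have hsplit : ∑ n ∈ Finset.Icc 1 x,
      f j0 n * (ph (av h j0) t n * xi (av h j0) q0 ξ n * PhiF (av h j0) ζ z w n) =
      ∑ n ∈ Finset.Icc 1 x, f j0 n * (ph (av h j0) t n * xi (av h j0) q0 ξ n *
        (PhiF (av h j0) ζ z w n - cF ζ z w)) + cF ζ z w * U := by
    rw [hU, Finset.mul_sum, ← Finset.sum_add_distrib]
    refine Finset.sum_congr rfl fun n _ => ?_
    ring
  have hfin : ‖∑ n ∈ Finset.Icc 1 x,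
      f j0 n * (ph (av h j0) t n * xi (av h j0) q0 ξ n * PhiF (av h j0) ζ z w n)‖ ≤
      e * x + e * x := by
    rw [hsplit]
    refine (norm_add_le _ _).trans (add_le_add hkey ?_)
    rw [norm_mul]
    exact hcU
  have htri : ‖∑ n ∈ Finset.Icc 1 x, ∏ i, f i (n + h i)‖ ≤
      (k * (e * x) + (2 * (h j0 : ℝ) + 4 * (Mv (av h j0) : ℝ))) + (e * x + e * x) := by
    have : ∑ n ∈ Finset.Icc 1 x, ∏ i, f i (n + h i) =
        (∑ n ∈ Finset.Icc 1 x, ∏ i, f i (n + h i) - ∑ n ∈ Finset.Icc 1 x,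
          f j0 n * (ph (av h j0) t n * xi (av h j0) q0 ξ n * PhiF (av h j0) ζ z w n)) +
        ∑ n ∈ Finset.Icc 1 x,
          f j0 n * (ph (av h j0) t n * xi (av h j0) q0 ξ n * PhiF (av h j0) ζ z w n) := by ring
    rw [this]
    exact (norm_add_le _ _).trans (add_le_add hmain hfin)
  refine htri.trans ?_
  have h7 := hKj j0
  have h8 : (k + 2) * e * x = ε / 2 * x := by rw [hee]
  nlinarith

end Pool.Agent.Ell
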