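import Pool.Agent.Ell.Targets

set_option autoImplicit false

/-! Asymptotic Elliott conjecture (MP_f3f922_nt): targets of the assembly (E12-E14). -/

namespace Pool.Agent.Ell

open Finset Filter
open scoped BigOperators ComplexConjugate

/-- `n + a` as a natural number -/
def sh (a : ℤ) (n : ℕ) : ℕ := ((n : ℤ) + a).toNat

/-- the archimedean factor `∏ (n + a_j)^{i t_j}` -/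
noncomputable def ph {k : ℕ} (a : Fin k → ℤ) (t : Fin k → ℝ) (n : ℕ) : ℂ :=
  ∏ j, nit (t j) (sh (a j) n)

/-- the local factor at `ℓ` -/
noncomputable def loc {k : ℕ} (a : Fin k → ℤ) (ζ : Fin k → ℕ → ℂ) (ℓ : ℕ) (n : ℕ) : ℂ :=
  ∏ j, if (ℓ : ℤ) ∣ (n : ℤ) + a j then ζ j ℓ else 1

/-- the product of the local factors -/
noncomputable def PhiF {k : ℕ} (a : Fin k → ℤ) (ζ : Fin k → ℕ → ℂ) (z w : ℕ) (n : ℕ) : ℂ :=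
  ∏ ℓ ∈ prs z w, loc a ζ ℓ n

/-- its mean value -/
noncomputable def cF {k : ℕ} (ζ : Fin k → ℕ → ℂ) (z w : ℕ) : ℂ :=
  ∏ ℓ ∈ prs z w, (1 - (∑ j, (1 - ζ j ℓ)) / (ℓ : ℂ))

/-- the sum of a completely arbitrary `f` against the centred structured function is small -/
def T_KEY : Prop := ∀ (k : ℕ) (a : Fin k → ℤ) (C ε : ℝ), 1 ≤ k → Function.Injective a →
  (∀ j, a j ≠ 0) → 0 < C → 0 < ε →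
  ∀ᶠ z : ℕ in atTop, ∀ q0 : ℕ, 1 ≤ q0 → (∀ p : ℕ, p.Prime → p ∣ q0 → p ≤ z) →
  ∀ᶠ A : ℝ in atTop, ∀ᶠ x : ℕ in atTop, ∀ (t : Fin k → ℝ) (ζ : Fin k → ℕ → ℂ) (ξ f : ℕ → ℂ),
  (∀ j, |t j| ≤ (x : ℝ) ^ C) → (∀ j ℓ, ‖ζ j ℓ‖ ≤ 1) → Per q0 ξ → (∀ n, ‖ξ n‖ ≤ 1) → MB f →
  ‖∑ n ∈ Finset.Icc 1 x, f n * (ph a t n * ξ n * (PhiF a ζ z ⌊(x : ℝ) ^ (1 / A)⌋₊ n -
    cF ζ z ⌊(x : ℝ) ^ (1 / A)⌋₊))‖ ≤ ε * x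

/-- large phases -/
def T_OO : Prop := ∀ (k : ℕ) (a : Fin k → ℤ) (C ε : ℝ), 1 ≤ k → Function.Injective a →
  (∀ j, a j ≠ 0) → 0 < C → 0 < ε →
  ∀ᶠ B : ℝ in atTop, ∀ q0 : ℕ, 1 ≤ q0 →
  ∀ᶠ x : ℕ in atTop, ∀ (t : Fin k → ℝ) (ξ f : ℕ → ℂ),
  (∀ j, |t j| ≤ (x : ℝ) ^ C) → B ≤ Lam a t x → Per q0 ξ → (∀ n, ‖ξ n‖ ≤ 1) → MB f →
  ‖∑ n ∈ Finset.Icc 1 x, f n * (ph a t n * ξ n)‖ ≤ ε * x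

/-- small phases, `f` non-pretentious (from `T_HALP`, `T_VDM`) -/
def T_LL : Prop := ∀ (k : ℕ) (a : Fin k → ℤ) (ε B : ℝ) (q0 : ℕ), 1 ≤ k → Function.Injective a →
  (∀ j, a j ≠ 0) → 0 < ε → 1 ≤ q0 →
  ∃ (A : ℝ) (X : ℕ), ∀ (x : ℕ) (t : Fin k → ℝ) (ξ f : ℕ → ℂ), X ≤ x → Lam a t x ≤ B →
  Per q0 ξ → (∀ n, ‖ξ n‖ ≤ 1) → MB f →
  (∀ (χ : DirichletCharacter ℂ q0) (t' : ℝ), |t'| ≤ A * (x : ℝ) ^ k → A ≤ dist2 f χ t' 1 x) →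
  ‖∑ n ∈ Finset.Icc 1 x, f n * (ph a t n * ξ n)‖ ≤ ε * x

/-- the mean value is small if one of the functions is not pretentious -/
def T_SM : Prop := ∀ (k : ℕ) (ζ : Fin k → ℕ → ℂ) (z w : ℕ) (j0 : Fin k), 2 * k ≤ z →
  (∀ j ℓ, ‖ζ j ℓ‖ ≤ 1) →
  ‖cF ζ z w‖ ^ 2 ≤ Real.exp (-∑ ℓ ∈ prs z w, (1 - (ζ j0 ℓ).re) / (ℓ : ℝ))

/-- the main theorem for natural numbers `x` -/
def T_MAIN : Prop := ∀ (k : ℕ) (h : Fin (k + 1) → ℕ) (C : ℕ) (ε : ℝ), 1 ≤ k →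
  Function.Injective h → 0 < ε → ∃ (A : ℝ) (X : ℕ), 1 ≤ A ∧ ∀ (x : ℕ) (f : Fin (k + 1) → ℕ → ℂ),
  X ≤ x → (∀ i, MB (f i)) →
  (∀ r : ℕ, 1 ≤ r → (r : ℝ) ≤ A → ∀ (χ : DirichletCharacter ℂ r) (t : ℝ), |t| ≤ A * (x : ℝ) ^ k →
    A ≤ dist2 (f 0) χ t 1 x) →
  ∀ j0 : Fin (k + 1), (∀ j, j ≠ j0 → ∃ (r : ℕ) (χ : DirichletCharacter ℂ r) (t : ℝ), 1 ≤ r ∧
    r ≤ C ∧ |t| ≤ (x : ℝ) ^ C ∧ dist2 (f j) χ t ((x : ℝ) ^ (1 / A)) x ≤ 1 / A) →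
  ‖∑ n ∈ Finset.Icc 1 x, ∏ i, f i (n + h i)‖ ≤ ε * x

end Pool.Agent.Ell
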